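import Pool.Agent.Helper77.E809.Defs

set_option autoImplicit false

namespace Pool.Agent.Helper77.E809

open Finset

open Classical in
/-- Adjacency indicator. -/
noncomputable def ad {n : ℕ} (H : SimpleGraph (Fin n)) (u v : Fin n) : ℝ :=
  if H.Adj u v then 1 else 0

lemma ad_comm {n : ℕ} (H : SimpleGraph (Fin n)) (u v : Fin n) : ad H u v = ad H v u := by
  unfold ad
  by_cases h : H.Adj u v
  · rw [if_pos h, if_pos h.symm]
  · rw [if_neg h, if_neg (fun h' => h h'.symm)]

lemma ad_nonneg {n : ℕ} (H : SimpleGraph (Fin n)) (u v : Fin n) : 0 ≤ ad H u v := by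
  unfold ad; split_ifs <;> norm_num

lemma ad_le_one {n : ℕ} (H : SimpleGraph (Fin n)) (u v : Fin n) : ad H u v ≤ 1 := by
  unfold ad; split_ifs <;> norm_num

/-- Number of ordered adjacent pairs from `S` to `T`. -/
noncomputable def E2 {n : ℕ} (H : SimpleGraph (Fin n)) (S T : Finset (Fin n)) : ℝ :=
  ∑ u ∈ S, ∑ v ∈ T, ad H u v

lemma E2_comm {n : ℕ} (H : SimpleGraph (Fin n)) (S T : Finset (Fin n)) :
    E2 H S T = E2 H T S := by
  unfold E2
  rw [Finset.sum_comm]
  exact Finset.sum_congr rfl fun v _ => Finset.sum_congr rfl fun u _ => ad_comm H u v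

lemma E2_nonneg {n : ℕ} (H : SimpleGraph (Fin n)) (S T : Finset (Fin n)) : 0 ≤ E2 H S T :=
  Finset.sum_nonneg fun _ _ => Finset.sum_nonneg fun _ _ => ad_nonneg H _ _

lemma E2_union_right {n : ℕ} (H : SimpleGraph (Fin n)) (S T T' : Finset (Fin n))
    (h : Disjoint T T') : E2 H S (T ∪ T') = E2 H S T + E2 H S T' := by
  unfold E2
  rw [← Finset.sum_add_distrib]
  exact Finset.sum_congr rfl fun u _ => Finset.sum_union h

lemma E2_union_left {n : ℕ} (H : SimpleGraph (Fin n)) (S S' T : Finset (Fin n))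
    (h : Disjoint S S') : E2 H (S ∪ S') T = E2 H S T + E2 H S' T := by
  rw [E2_comm, E2_union_right _ _ _ _ h, E2_comm H T S, E2_comm H T S']

open Classical in
lemma sum_ad_eq_degree {n : ℕ} (H : SimpleGraph (Fin n)) (u : Fin n) :
    ∑ v, ad H u v = (H.degree u : ℝ) := by
  unfold ad
  rw [Finset.sum_boole]
  congr 1
  rw [← H.card_neighborFinset_eq_degree]
  congr 1
  ext v
  simp

open Classical in
lemma E2_univ {n : ℕ} (H : SimpleGraph (Fin n)) :
    E2 H univ univ = 2 * (H.edgeSet.ncard : ℝ) := by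
  unfold E2
  have h1 : ∀ u ∈ (univ : Finset (Fin n)), ∑ v, ad H u v = (H.degree u : ℝ) :=
    fun u _ => sum_ad_eq_degree H u
  rw [Finset.sum_congr rfl h1]
  have h2 := H.sum_degrees_eq_twice_card_edges
  have h3 : H.edgeSet.ncard = H.edgeFinset.card := by
    rw [Set.ncard_eq_toFinset_card']
    congr 1
  rw [h3]
  exact_mod_cast h2

open Classical in
/-- Number of inside pairs. -/
lemma inside_card {n : ℕ} (H : SimpleGraph (Fin n)) (A : Finset (Fin n)) :
    (({p : Fin n × Fin n | H.Adj p.1 p.2 ∧ (p.1 ∈ A ↔ p.2 ∈ A)}.ncard : ℕ) : ℝ)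
      = E2 H A A + E2 H Aᶜ Aᶜ := by
  rw [Set.ncard_eq_toFinset_card']
  have : ({p : Fin n × Fin n | H.Adj p.1 p.2 ∧ (p.1 ∈ A ↔ p.2 ∈ A)}.toFinset)
      = (A ×ˢ A).filter (fun p => H.Adj p.1 p.2) ∪ (Aᶜ ×ˢ Aᶜ).filter (fun p => H.Adj p.1 p.2) := by
    ext p
    simp only [Set.mem_toFinset, Set.mem_ofPred_eq, mem_union, mem_filter, mem_product, mem_compl]
    tauto
  rw [this, card_union_of_disjoint]
  · push_cast
    congr 1
    · unfold E2 ad
      rw [← Finset.sum_product', Finset.sum_boole]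
    · unfold E2 ad
      rw [← Finset.sum_product', Finset.sum_boole]
  · rw [Finset.disjoint_left]
    intro p hp hp'
    simp only [mem_filter, mem_product, mem_compl] at hp hp'
    exact hp'.1.1 hp.1.1

lemma W_symm {V : Type} {H : SimpleGraph V} {l : ℕ} {a b : V} (h : W H l a b) : W H l b a := by
  obtain ⟨p, hp⟩ := h
  exact ⟨p.reverse, by simp [hp]⟩

lemma W_one {V : Type} {H : SimpleGraph V} {a b : V} (h : H.Adj a b) : W H 1 a b :=
  ⟨h.toWalk, by simp⟩

lemma W_trans {V : Type} {H : SimpleGraph V} {l l' : ℕ} {a b c : V} (h : W H l a b)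
    (h' : W H l' b c) : W H (l + l') a c := by
  obtain ⟨p, hp⟩ := h
  obtain ⟨q, hq⟩ := h'
  exact ⟨p.append q, by simp [hp, hq]⟩

lemma W_two {V : Type} {H : SimpleGraph V} {a b c : V} (h : H.Adj a b) (h' : H.Adj b c) :
    W H 2 a c := W_trans (W_one h) (W_one h')

open Classical in
/-- Vertex of maximum degree. -/
lemma exists_max {n : ℕ} (hn : 0 < n) (H : SimpleGraph (Fin n)) :
    ∃ x : Fin n, ∀ u, ∑ v, ad H u v ≤ ∑ v, ad H x v := by
  obtain ⟨x, -, hx⟩ := Finset.exists_max_image (univ : Finset (Fin n)) (fun u => ∑ v, ad H u v)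
    ⟨⟨0, hn⟩, mem_univ _⟩
  exact ⟨x, fun u => hx u (mem_univ _)⟩

open Classical in
lemma card_nbr {n : ℕ} (H : SimpleGraph (Fin n)) (x : Fin n) :
    ((H.neighborFinset x).card : ℝ) = ∑ v, ad H x v := by
  rw [sum_ad_eq_degree]; simp

/-- splitting a sum of adjacencies. -/
lemma sum_split {n : ℕ} (A : Finset (Fin n)) (f : Fin n → ℝ) :
    ∑ v, f v = ∑ v ∈ A, f v + ∑ v ∈ Aᶜ, f v := by
  classical
  rw [← Finset.sum_add_sum_compl A]


open Classical in
/-- Neighbours of `x`. -/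
noncomputable def NN {n : ℕ} (H : SimpleGraph (Fin n)) (x : Fin n) : Finset (Fin n) :=
  univ.filter (fun v => H.Adj x v)

open Classical in
/-- Neighbours of `x` lying in a triangle with `x`. -/
noncomputable def TT {n : ℕ} (H : SimpleGraph (Fin n)) (x : Fin n) : Finset (Fin n) :=
  univ.filter (fun v => H.Adj x v ∧ ∃ w, H.Adj x w ∧ H.Adj v w)

open Classical in
/-- Neighbours of `x` in no triangle with `x`. -/
noncomputable def FF {n : ℕ} (H : SimpleGraph (Fin n)) (x : Fin n) : Finset (Fin n) :=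
  univ.filter (fun v => H.Adj x v ∧ ¬ ∃ w, H.Adj x w ∧ H.Adj v w)

open Classical in
/-- Vertices not adjacent to `x` and without common neighbour with `x`. -/
noncomputable def RR {n : ℕ} (H : SimpleGraph (Fin n)) (x : Fin n) : Finset (Fin n) :=
  univ.filter (fun v => ¬ H.Adj x v ∧ ¬ ∃ w, H.Adj x w ∧ H.Adj v w)

open Classical in
/-- Vertices without common neighbour with `x`. -/
noncomputable def ZZ {n : ℕ} (H : SimpleGraph (Fin n)) (x : Fin n) : Finset (Fin n) :=
  univ.filter (fun v => ¬ ∃ w, H.Adj x w ∧ H.Adj v w)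

end Pool.Agent.Helper77.E809
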