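import Pool.Agent.Helper77.E809.Base

set_option autoImplicit false

namespace Pool.Agent.Helper77.E809.Budgets

open Finset Pool.Agent.Helper77.E809


lemma mem_NN {n : ℕ} {H : SimpleGraph (Fin n)} {x v : Fin n} : v ∈ NN H x ↔ H.Adj x v := by
  simp [NN]

lemma mem_TT {n : ℕ} {H : SimpleGraph (Fin n)} {x v : Fin n} :
    v ∈ TT H x ↔ H.Adj x v ∧ ∃ w, H.Adj x w ∧ H.Adj v w := by
  simp [TT]

lemma mem_FF {n : ℕ} {H : SimpleGraph (Fin n)} {x v : Fin n} :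
    v ∈ FF H x ↔ H.Adj x v ∧ ¬ ∃ w, H.Adj x w ∧ H.Adj v w := by
  simp only [FF, mem_filter, mem_univ, true_and]

lemma mem_RR {n : ℕ} {H : SimpleGraph (Fin n)} {x v : Fin n} :
    v ∈ RR H x ↔ ¬ H.Adj x v ∧ ¬ ∃ w, H.Adj x w ∧ H.Adj v w := by
  simp only [RR, mem_filter, mem_univ, true_and]

lemma mem_ZZ {n : ℕ} {H : SimpleGraph (Fin n)} {x v : Fin n} :
    v ∈ ZZ H x ↔ ¬ ∃ w, H.Adj x w ∧ H.Adj v w := by
  simp only [ZZ, mem_filter, mem_univ, true_and]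

lemma NN_eq {n : ℕ} (H : SimpleGraph (Fin n)) (b : Fin n) : NN H b = TT H b ∪ FF H b := by
  ext v
  rw [mem_union, mem_NN, mem_TT, mem_FF]
  constructor
  · intro h1
    by_cases h : ∃ w, H.Adj b w ∧ H.Adj v w
    · exact Or.inl ⟨h1, h⟩
    · exact Or.inr ⟨h1, h⟩
  · rintro (h | h)
    · exact h.1
    · exact h.1

lemma TT_FF_disj {n : ℕ} (H : SimpleGraph (Fin n)) (b : Fin n) : Disjoint (TT H b) (FF H b) := by
  rw [Finset.disjoint_left]
  intro v hv hv'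
  rw [mem_TT] at hv
  rw [mem_FF] at hv'
  exact hv'.2 hv.2

lemma card_NN {n : ℕ} (H : SimpleGraph (Fin n)) (x : Fin n) :
    ((NN H x).card : ℝ) = ∑ v, ad H x v := by
  classical
  unfold ad NN
  rw [Finset.sum_boole]

lemma ad_eq_zero {n : ℕ} {H : SimpleGraph (Fin n)} {u v : Fin n} (h : ¬ H.Adj u v) :
    ad H u v = 0 := by
  unfold ad
  rw [if_neg h]

lemma E2_FF_NN {n : ℕ} (H : SimpleGraph (Fin n)) (x : Fin n) : E2 H (FF H x) (NN H x) = 0 := by
  unfold E2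
  refine Finset.sum_eq_zero fun u hu => Finset.sum_eq_zero fun v hv => ad_eq_zero ?_
  rw [mem_FF] at hu
  rw [mem_NN] at hv
  intro h
  exact hu.2 ⟨v, hv, h⟩

lemma E2_mono_right_zero {n : ℕ} (H : SimpleGraph (Fin n)) (x : Fin n) :
    E2 H (NN H x) (FF H x) = 0 := by
  rw [E2_comm]; exact E2_FF_NN H x

lemma E2_NN_NN {n : ℕ} (H : SimpleGraph (Fin n)) (x : Fin n) :
    E2 H (NN H x) (NN H x) = E2 H (TT H x) (TT H x) := by
  have h1 : E2 H (NN H x) (NN H x) = E2 H (TT H x) (NN H x) + E2 H (FF H x) (NN H x) := by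
    conv_lhs => rw [show E2 H (NN H x) (NN H x) = E2 H (TT H x ∪ FF H x) (NN H x) by
      rw [← NN_eq H x]]
    exact E2_union_left _ _ _ _ (TT_FF_disj H x)
  have h2 : E2 H (NN H x) (TT H x ∪ FF H x) = E2 H (NN H x) (TT H x) + E2 H (NN H x) (FF H x) :=
    E2_union_right _ _ _ _ (TT_FF_disj H x)
  have h3 : E2 H (TT H x ∪ FF H x) (TT H x) = E2 H (TT H x) (TT H x) + E2 H (FF H x) (TT H x) :=
    E2_union_left _ _ _ _ (TT_FF_disj H x)
  rw [← NN_eq H x] at h2 h3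
  have h4 : E2 H (FF H x) (TT H x) = 0 := by
    unfold E2
    refine Finset.sum_eq_zero fun u hu => Finset.sum_eq_zero fun v hv => ad_eq_zero ?_
    rw [mem_FF] at hu
    rw [mem_TT] at hv
    intro h
    exact hu.2 ⟨v, hv.1, h⟩
  rw [E2_mono_right_zero] at h2
  linarith

open Classical in
/-- TARGET 1: edge identities for a vertex `x` of degree `D`. -/
theorem identities {n : ℕ} (H : SimpleGraph (Fin n)) (x : Fin n) :
    (((NN H x).card : ℝ) = ∑ v, ad H x v) ∧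
    (NN H x = TT H x ∪ FF H x) ∧ Disjoint (TT H x) (FF H x) ∧
    E2 H (NN H x) (NN H x) = E2 H (TT H x) (TT H x) ∧
    E2 H (FF H x) (NN H x) = 0 ∧
    (∀ b, ((NN H b).card : ℝ) = ∑ v ∈ TT H x, ad H v b + ∑ v ∈ FF H x, ad H v b +
      ∑ v ∈ (NN H x)ᶜ, ad H v b) ∧
    2 * (H.edgeSet.ncard : ℝ) = E2 H (TT H x) (TT H x) + 2 * E2 H (NN H x) (NN H x)ᶜ +
      E2 H (NN H x)ᶜ (NN H x)ᶜ ∧
    2 * (H.edgeSet.ncard : ℝ) = ∑ b, ((NN H b).card : ℝ) ∧
    (∀ b, ZZ H b = FF H b ∪ RR H b) ∧ (∀ b, Disjoint (FF H b) (RR H b)) ∧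
    (∀ b, Disjoint (NN H b) (RR H b)) ∧
    (∀ b, NN H b = TT H b ∪ FF H b) ∧ (∀ b, Disjoint (TT H b) (FF H b)) := by
  refine ⟨card_NN H x, NN_eq H x, TT_FF_disj H x, E2_NN_NN H x, E2_FF_NN H x, ?_, ?_, ?_, ?_, ?_,
    ?_, NN_eq H, TT_FF_disj H⟩
  · intro b
    rw [card_NN, sum_split (NN H x) (fun v => ad H b v), NN_eq H x,
      Finset.sum_union (TT_FF_disj H x)]
    simp only [ad_comm H b]
  · rw [← E2_univ]
    have h1 : (univ : Finset (Fin n)) = NN H x ∪ (NN H x)ᶜ := (Finset.union_compl _).symm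
    have hd : Disjoint (NN H x) (NN H x)ᶜ := disjoint_compl_right
    have h2 : E2 H univ univ = E2 H (NN H x ∪ (NN H x)ᶜ) (NN H x ∪ (NN H x)ᶜ) := by rw [← h1]
    rw [h2, E2_union_left _ _ _ _ hd, E2_union_right _ _ _ _ hd, E2_union_right _ _ _ _ hd,
      E2_NN_NN, E2_comm H (NN H x)ᶜ (NN H x)]
    ring
  · rw [← E2_univ]
    unfold E2
    exact Finset.sum_congr rfl fun b _ => (card_NN H b).symm
  · intro b
    ext v
    rw [mem_union, mem_ZZ, mem_FF, mem_RR]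
    constructor
    · intro h1
      by_cases h : H.Adj b v
      · exact Or.inl ⟨h, h1⟩
      · exact Or.inr ⟨h, h1⟩
    · rintro (h | h)
      · exact h.2
      · exact h.2
  · intro b
    rw [Finset.disjoint_left]
    intro v hv hv'
    rw [mem_FF] at hv
    rw [mem_RR] at hv'
    exact hv'.1 hv.1
  · intro b
    rw [Finset.disjoint_left]
    intro v hv hv'
    rw [mem_NN] at hv
    rw [mem_RR] at hv'
    exact hv'.1 hv

lemma card2 {n : ℕ} {A B : Finset (Fin n)} (h1 : Disjoint A B) :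
    (A.card : ℝ) + B.card ≤ n := by
  have h : (A ∪ B).card ≤ n := by
    have := Finset.card_le_univ (A ∪ B)
    rwa [Fintype.card_fin] at this
  rw [Finset.card_union_of_disjoint h1] at h
  exact_mod_cast h

lemma card3 {n : ℕ} {A B C : Finset (Fin n)} (h1 : Disjoint A B) (h2 : Disjoint A C)
    (h3 : Disjoint B C) : (A.card : ℝ) + B.card + C.card ≤ n := by
  have h := card2 (A := A ∪ B) (B := C) (Finset.disjoint_union_left.mpr ⟨h2, h3⟩)
  rw [Finset.card_union_of_disjoint h1] at h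
  exact_mod_cast h

lemma card4 {n : ℕ} {A B C D : Finset (Fin n)} (h1 : Disjoint A B) (h2 : Disjoint A C)
    (h3 : Disjoint B C) (h4 : Disjoint A D) (h5 : Disjoint B D) (h6 : Disjoint C D) :
    (A.card : ℝ) + B.card + C.card + D.card ≤ n := by
  have h := card3 (A := A ∪ B) (B := C) (C := D) (Finset.disjoint_union_left.mpr ⟨h2, h3⟩)
    (Finset.disjoint_union_left.mpr ⟨h4, h5⟩) h6
  rw [Finset.card_union_of_disjoint h1] at h
  exact_mod_cast h

lemma disj_ZZ {n : ℕ} {H : SimpleGraph (Fin n)} {b v : Fin n} (hv : v ∈ ZZ H b) :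
    Disjoint (NN H v) (NN H b) := by
  rw [mem_ZZ] at hv
  rw [Finset.disjoint_left]
  intro u hu hu'
  rw [mem_NN] at hu hu'
  exact hv ⟨u, hu', hu⟩

lemma FF_sub_ZZ {n : ℕ} {H : SimpleGraph (Fin n)} {b v : Fin n} (hv : v ∈ FF H b) :
    v ∈ ZZ H b := by
  rw [mem_FF] at hv
  rw [mem_ZZ]
  exact hv.2

lemma disj_adj_ZZ {n : ℕ} {H : SimpleGraph (Fin n)} {b v : Fin n} (hv : H.Adj b v) :
    Disjoint (NN H v) (ZZ H b) := by
  rw [Finset.disjoint_left]
  intro u hu hu'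
  rw [mem_NN] at hu
  rw [mem_ZZ] at hu'
  exact hu' ⟨v, hv, hu.symm⟩

lemma disj_FF_RR {n : ℕ} {H : SimpleGraph (Fin n)} {b v : Fin n} (hv : v ∈ FF H b) :
    Disjoint (NN H v) (RR H b) := by
  rw [mem_FF] at hv
  rw [Finset.disjoint_left]
  intro u hu hu'
  rw [mem_NN] at hu
  rw [mem_RR] at hu'
  exact hu'.2 ⟨v, hv.1, hu.symm⟩

lemma disj_NN_RR {n : ℕ} (H : SimpleGraph (Fin n)) (b : Fin n) :
    Disjoint (NN H b) (RR H b) := by
  rw [Finset.disjoint_left]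
  intro v hv hv'
  rw [mem_NN] at hv
  rw [mem_RR] at hv'
  exact hv'.1 hv

lemma disj_NN_FF {n : ℕ} {H : SimpleGraph (Fin n)} {x v : Fin n} (hv : H.Adj x v) :
    Disjoint (NN H v) (FF H x) := by
  rw [Finset.disjoint_left]
  intro u hu hu'
  rw [mem_NN] at hu
  rw [mem_FF] at hu'
  exact hu'.2 ⟨v, hv, hu.symm⟩

open Classical in
/-- TARGET 2: defect budgets forced by one vertex `b` outside the neighbourhood of `x`.
Here `D` is the maximum degree, attained at `x`. -/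
theorem budgets {n : ℕ} (H : SimpleGraph (Fin n)) (x : Fin n) (D : ℝ)
    (hD : ((NN H x).card : ℝ) = D) (hmax : ∀ v, ((NN H v).card : ℝ) ≤ D)
    (b : Fin n) (hb : b ∉ NN H x) :
    -- missing pairs at F
    (((NN H b ∩ FF H x).card : ℝ) * ((ZZ H b ∩ (NN H x)ᶜ).card : ℝ) ≤
      ∑ v ∈ FF H x, ((n : ℝ) - D - ((NN H v).card : ℝ))) ∧
    (∀ v ∈ FF H x, ((NN H v).card : ℝ) ≤ n - D) ∧
    -- defects in T
    (∀ v ∈ ZZ H b ∩ TT H x,
      ((NN H v).card : ℝ) + ((NN H b).card : ℝ) + ((FF H x \ NN H b).card : ℝ) ≤ n) ∧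
    (∀ v ∈ FF H b ∩ TT H x,
      ((NN H v).card : ℝ) + ((NN H b).card : ℝ) + ((FF H x \ NN H b).card : ℝ) +
        ((RR H b \ FF H x).card : ℝ) ≤ n) ∧
    -- defects in B
    (∀ v ∈ ZZ H b ∩ (NN H x)ᶜ,
      ((NN H v).card : ℝ) + ((NN H b).card : ℝ) ≤ n) ∧
    (∀ v ∈ FF H b ∩ (NN H x)ᶜ,
      ((NN H v).card : ℝ) + ((NN H b).card : ℝ) + ((RR H b \ FF H x).card : ℝ) ≤ n) ∧
    (∀ v ∈ FF H b,
      ((NN H v).card : ℝ) + ((NN H b).card : ℝ) + ((RR H b).card : ℝ) ≤ n) ∧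
    -- non-edges inside T
    (E2 H (TT H x) (TT H x) ≤ ((TT H x).card : ℝ) ^ 2 -
      (2 * ((NN H b ∩ TT H x).card : ℝ) * ((ZZ H b ∩ TT H x).card : ℝ) -
        ((FF H b ∩ TT H x).card : ℝ) ^ 2)) := by
  have hcompl : (((NN H x)ᶜ).card : ℝ) = n - D := by
    rw [Finset.card_compl, Fintype.card_fin, Nat.cast_sub, hD]
    have := Finset.card_le_univ (NN H x)
    rwa [Fintype.card_fin] at this
  have hFsub : ∀ v ∈ FF H x, NN H v ⊆ (NN H x)ᶜ := by
    intro v hv u hu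
    rw [Finset.mem_compl]
    intro hu'
    exact (Finset.disjoint_left.mp (disj_ZZ (FF_sub_ZZ hv))) hu hu'
  have hFle : ∀ v ∈ FF H x, ((NN H v).card : ℝ) ≤ n - D := by
    intro v hv
    rw [← hcompl]
    exact_mod_cast Finset.card_le_card (hFsub v hv)
  refine ⟨?_, hFle, ?_, ?_, ?_, ?_, ?_, ?_⟩
  · have h1 : ∑ v ∈ NN H b ∩ FF H x, (((ZZ H b ∩ (NN H x)ᶜ).card : ℕ) : ℝ) ≤
        ∑ v ∈ NN H b ∩ FF H x, ((n : ℝ) - D - ((NN H v).card : ℝ)) := by
      refine Finset.sum_le_sum fun v hv => ?_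
      rw [Finset.mem_inter, mem_NN] at hv
      have hd : Disjoint (NN H v) (ZZ H b ∩ (NN H x)ᶜ) :=
        (disj_adj_ZZ hv.1).mono_right Finset.inter_subset_left
      have hsub : NN H v ∪ (ZZ H b ∩ (NN H x)ᶜ) ⊆ (NN H x)ᶜ :=
        Finset.union_subset (hFsub v hv.2) Finset.inter_subset_right
      have hc := Finset.card_le_card hsub
      rw [Finset.card_union_of_disjoint hd] at hc
      have hc' : ((NN H v).card : ℝ) + ((ZZ H b ∩ (NN H x)ᶜ).card : ℝ) ≤ ((NN H x)ᶜ.card : ℝ) := by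
        exact_mod_cast hc
      rw [hcompl] at hc'
      linarith
    rw [Finset.sum_const, nsmul_eq_mul] at h1
    refine h1.trans ?_
    refine Finset.sum_le_sum_of_subset_of_nonneg Finset.inter_subset_right ?_
    intro v hv _
    have := hFle v hv
    linarith
  · intro v hv
    rw [Finset.mem_inter] at hv
    have hx : H.Adj x v := (mem_TT.mp hv.2).1
    exact card3 (disj_ZZ hv.1) ((disj_NN_FF hx).mono_right Finset.sdiff_subset)
      Finset.disjoint_sdiff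
  · intro v hv
    rw [Finset.mem_inter] at hv
    have hx : H.Adj x v := (mem_TT.mp hv.2).1
    refine card4 (disj_ZZ (FF_sub_ZZ hv.1)) ((disj_NN_FF hx).mono_right Finset.sdiff_subset)
      Finset.disjoint_sdiff ((disj_FF_RR hv.1).mono_right Finset.sdiff_subset)
      ((disj_NN_RR H b).mono_right Finset.sdiff_subset) ?_
    rw [Finset.disjoint_left]
    intro u hu hu'
    exact (Finset.mem_sdiff.mp hu').2 (Finset.mem_sdiff.mp hu).1
  · intro v hv
    rw [Finset.mem_inter] at hv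
    exact card2 (disj_ZZ hv.1)
  · intro v hv
    rw [Finset.mem_inter] at hv
    exact card3 (disj_ZZ (FF_sub_ZZ hv.1)) ((disj_FF_RR hv.1).mono_right Finset.sdiff_subset)
      ((disj_NN_RR H b).mono_right Finset.sdiff_subset)
  · intro v hv
    exact card3 (disj_ZZ (FF_sub_ZZ hv)) (disj_FF_RR hv) (disj_NN_RR H b)
  · set N := NN H b ∩ TT H x with hN
    set Z := ZZ H b ∩ TT H x with hZ
    have hNZ : N ∩ Z = FF H b ∩ TT H x := by
      ext v
      simp only [hN, hZ, Finset.mem_inter, mem_NN, mem_ZZ, mem_FF]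
      tauto
    have hPcard : (((N ×ˢ Z) ∪ (Z ×ˢ N)).card : ℝ) =
        2 * (N.card : ℝ) * (Z.card : ℝ) - ((FF H b ∩ TT H x).card : ℝ) ^ 2 := by
      have h1 := Finset.card_union_add_card_inter (N ×ˢ Z) (Z ×ˢ N)
      have h2 : (N ×ˢ Z) ∩ (Z ×ˢ N) = (N ∩ Z) ×ˢ (N ∩ Z) := by
        ext ⟨u, v⟩
        simp only [Finset.mem_inter, Finset.mem_product]
        tauto
      rw [h2, Finset.card_product, Finset.card_product, Finset.card_product, hNZ] at h1
      have h3 : (((N ×ˢ Z) ∪ (Z ×ˢ N)).card : ℝ) +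
          ((FF H b ∩ TT H x).card : ℝ) * ((FF H b ∩ TT H x).card : ℝ) =
          (N.card : ℝ) * Z.card + Z.card * N.card := by exact_mod_cast h1
      linarith
    have hPsub : (N ×ˢ Z) ∪ (Z ×ˢ N) ⊆ TT H x ×ˢ TT H x := by
      intro ⟨u, v⟩ huv
      simp only [hN, hZ, Finset.mem_union, Finset.mem_product, Finset.mem_inter] at huv ⊢
      tauto
    have hE : E2 H (TT H x) (TT H x) = ∑ p ∈ TT H x ×ˢ TT H x, ad H p.1 p.2 := by
      unfold E2
      rw [Finset.sum_product]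
    have hsplit := Finset.sum_sdiff (f := fun p : Fin n × Fin n => ad H p.1 p.2) hPsub
    have hz : ∑ p ∈ (N ×ˢ Z) ∪ (Z ×ˢ N), ad H p.1 p.2 = 0 := by
      refine Finset.sum_eq_zero ?_
      rintro ⟨u, v⟩ huv
      refine ad_eq_zero ?_
      simp only [hN, hZ, Finset.mem_union, Finset.mem_product, Finset.mem_inter, mem_NN,
        mem_ZZ] at huv
      intro hadj
      rcases huv with h | h
      · exact h.2.1 ⟨u, h.1.1, hadj.symm⟩
      · exact h.1.1 ⟨v, h.2.1, hadj⟩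
    have hle : ∑ p ∈ (TT H x ×ˢ TT H x) \ ((N ×ˢ Z) ∪ (Z ×ˢ N)), ad H p.1 p.2 ≤
        (((TT H x ×ˢ TT H x) \ ((N ×ˢ Z) ∪ (Z ×ˢ N))).card : ℝ) := by
      have := Finset.sum_le_card_nsmul ((TT H x ×ˢ TT H x) \ ((N ×ˢ Z) ∪ (Z ×ˢ N)))
        (fun p => ad H p.1 p.2) 1 (fun p _ => ad_le_one H _ _)
      rwa [nsmul_eq_mul, mul_one] at this
    have hc : (((TT H x ×ˢ TT H x) \ ((N ×ˢ Z) ∪ (Z ×ˢ N))).card : ℝ) =
        ((TT H x).card : ℝ) ^ 2 - (((N ×ˢ Z) ∪ (Z ×ˢ N)).card : ℝ) := by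
      have h1 := Finset.card_sdiff_add_card_eq_card hPsub
      rw [Finset.card_product (TT H x) (TT H x)] at h1
      have h2 : (((TT H x ×ˢ TT H x) \ ((N ×ˢ Z) ∪ (Z ×ˢ N))).card : ℝ) +
          (((N ×ˢ Z) ∪ (Z ×ˢ N)).card : ℝ) = ((TT H x).card : ℝ) * (TT H x).card := by
        exact_mod_cast h1
      linarith
    rw [hE]
    linarith

end Pool.Agent.Helper77.E809.Budgets
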