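import Pool.Agent.Helper77.E809.Defs

set_option autoImplicit false

namespace Pool.Agent.Helper77.E809.Sequential

open Pool.Agent.Helper77.E809

open Finset

/-- Sequential sampling: every index `i` has an accepting set `P i` and a rejecting set `R i`. -/
theorem sequential {V I : Type} [Fintype V] [DecidableEq V] [DecidableEq I]
    (P R : I → Finset V) (hPR : ∀ i, Disjoint (P i) (R i)) (U : Finset I) :
    ∃ S ⊆ U,
      (∑ i ∈ U, ((P i).card : ℝ) / (((P i).card : ℝ) + ((R i).card : ℝ)) ≤ (S.card : ℝ)) ∧
      ∀ i ∈ S, ∀ j ∈ S, ∃ z : V, (z ∈ P i ∧ z ∉ R j) ∨ (z ∈ P j ∧ z ∉ R i) := by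
  classical
  induction U using Finset.strongInduction with
  | H U ih =>
    by_cases hne : ∃ i ∈ U, ∃ z, z ∈ P i ∪ R i
    · -- weights
      set w : I → ℝ := fun i => ((P i).card : ℝ) / (((P i).card : ℝ) + ((R i).card : ℝ)) with hw
      have hkey : ∀ i, ((P i).card : ℝ) = ((P i ∪ R i).card : ℝ) * w i := by
        intro i
        rw [Finset.card_union_of_disjoint (hPR i)]
        push_cast
        by_cases h0 : ((P i).card : ℝ) + ((R i).card : ℝ) = 0
        · have h1 : (0:ℝ) ≤ ((P i).card : ℝ) := by positivity
          have h2 : (0:ℝ) ≤ ((R i).card : ℝ) := by positivity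
          have : ((P i).card : ℝ) = 0 := by linarith
          rw [h0, this]; simp
        · simp only [hw]
          field_simp
      have hsum : ∑ z : V, (((U.filter (fun i => z ∈ P i)).card : ℝ)) =
          ∑ z : V, ∑ i ∈ U.filter (fun i => z ∈ P i ∪ R i), w i := by
        have e1 : ∀ z : V, (((U.filter (fun i => z ∈ P i)).card : ℝ)) =
            ∑ i ∈ U, (if z ∈ P i then (1:ℝ) else 0) := by
          intro z
          rw [Finset.sum_ite]; simp
        have e2 : ∀ z : V, ∑ i ∈ U.filter (fun i => z ∈ P i ∪ R i), w i =
            ∑ i ∈ U, (if z ∈ P i ∪ R i then w i else 0) := by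
          intro z
          rw [Finset.sum_filter]
        simp_rw [e1, e2]
        rw [Finset.sum_comm]
        conv_rhs => rw [Finset.sum_comm]
        apply Finset.sum_congr rfl
        intro i _
        have a1 : ∑ z : V, (if z ∈ P i then (1:ℝ) else 0) = ((P i).card : ℝ) := by
          rw [Finset.sum_ite]; simp
        have a2 : ∑ z : V, (if z ∈ P i ∪ R i then w i else 0) = ((P i ∪ R i).card : ℝ) * w i := by
          rw [← Finset.sum_filter, Finset.sum_const, nsmul_eq_mul]
          congr 2
          congr 1
          ext z; simp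
        rw [a1, a2]
        exact hkey i
      obtain ⟨z, hz1, hz2⟩ : ∃ z : V, (U.filter (fun i => z ∈ P i ∪ R i)).Nonempty ∧
          ∑ i ∈ U.filter (fun i => z ∈ P i ∪ R i), w i ≤
            ((U.filter (fun i => z ∈ P i)).card : ℝ) := by
        by_contra hcon
        push Not at hcon
        obtain ⟨i₀, hi₀, z₀, hz₀⟩ := hne
        have hlt : ∑ z : V, (((U.filter (fun i => z ∈ P i)).card : ℝ)) <
            ∑ z : V, ∑ i ∈ U.filter (fun i => z ∈ P i ∪ R i), w i := by
          apply Finset.sum_lt_sum
          · intro z _
            by_cases hz : (U.filter (fun i => z ∈ P i ∪ R i)).Nonempty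
            · exact (hcon z hz).le
            · rw [Finset.not_nonempty_iff_eq_empty] at hz
              have : U.filter (fun i => z ∈ P i) = ∅ := by
                rw [Finset.filter_eq_empty_iff] at hz ⊢
                intro i hi hzi
                exact hz hi (Finset.mem_union_left _ hzi)
              rw [hz, this]; simp
          · refine ⟨z₀, Finset.mem_univ _, hcon z₀ ⟨i₀, ?_⟩⟩
            simp only [Finset.mem_filter]
            exact ⟨hi₀, hz₀⟩
        exact absurd hsum (ne_of_lt hlt)
      set Acc := U.filter (fun i => z ∈ P i) with hAcc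
      set Res := U.filter (fun i => z ∈ P i ∪ R i) with hRes
      have hss : U \ Res ⊂ U := by
        refine Finset.ssubset_iff_subset_ne.2 ⟨Finset.sdiff_subset, ?_⟩
        intro heq
        obtain ⟨i, hi⟩ := hz1
        have hiU : i ∈ U := (Finset.mem_filter.1 hi).1
        rw [← heq] at hiU
        exact (Finset.mem_sdiff.1 hiU).2 hi
      obtain ⟨S', hS'U, hS'c, hS'p⟩ := ih (U \ Res) hss
      have hAR : Acc ⊆ Res := by
        intro i hi
        rw [hAcc, Finset.mem_filter] at hi
        rw [hRes, Finset.mem_filter]
        exact ⟨hi.1, Finset.mem_union_left _ hi.2⟩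
      have hResU : Res ⊆ U := Finset.filter_subset _ _
      have hdisj : Disjoint Acc S' := by
        rw [Finset.disjoint_left]
        intro i hi hi'
        exact (Finset.mem_sdiff.1 (hS'U hi')).2 (hAR hi)
      have hzP : ∀ i ∈ Acc, z ∈ P i := fun i hi => (Finset.mem_filter.1 hi).2
      have hzR : ∀ i ∈ Acc, z ∉ R i := fun i hi =>
        Finset.disjoint_left.1 (hPR i) (hzP i hi)
      have hzS : ∀ j ∈ S', z ∉ R j := by
        intro j hj hzj
        have := Finset.mem_sdiff.1 (hS'U hj)
        apply this.2
        rw [hRes, Finset.mem_filter]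
        exact ⟨this.1, Finset.mem_union_right _ hzj⟩
      refine ⟨Acc ∪ S', ?_, ?_, ?_⟩
      · intro i hi
        rcases Finset.mem_union.1 hi with h | h
        · exact hResU (hAR h)
        · exact (Finset.mem_sdiff.1 (hS'U h)).1
      · rw [Finset.card_union_of_disjoint hdisj]
        push_cast
        have hsplit : ∑ i ∈ U, w i = ∑ i ∈ U \ Res, w i + ∑ i ∈ Res, w i :=
          (Finset.sum_sdiff hResU).symm
        change ∑ i ∈ U, w i ≤ _
        have hS'c' : ∑ i ∈ U \ Res, w i ≤ (S'.card : ℝ) := hS'c
        rw [hsplit]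
        linarith
      · intro i hi j hj
        rcases Finset.mem_union.1 hi with h | h <;> rcases Finset.mem_union.1 hj with h' | h'
        · exact ⟨z, Or.inl ⟨hzP i h, hzR j h'⟩⟩
        · exact ⟨z, Or.inl ⟨hzP i h, hzS j h'⟩⟩
        · exact ⟨z, Or.inr ⟨hzP j h', hzS i h⟩⟩
        · exact hS'p i h j h'
    · push Not at hne
      refine ⟨∅, Finset.empty_subset _, ?_, ?_⟩
      · rw [Finset.sum_eq_zero]
        · simp
        · intro i hi
          have : P i = ∅ := by
            rw [Finset.eq_empty_iff_forall_notMem]
            intro z hz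
            exact hne i hi z (Finset.mem_union_left _ hz)
          rw [this]; simp
      · intro i hi
        simp at hi

end Pool.Agent.Helper77.E809.Sequential
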