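import Pool.Agent.Helper77.E809.Base
import Pool.Agent.Helper77.E809.Sequential

set_option autoImplicit false

namespace Pool.Agent.Helper77.E809.CliqueW

open Finset Pool.Agent.Helper77.E809 Pool.Agent.Helper77.E809.Sequential




theorem cl_CW_symm {V : Type} {H : SimpleGraph V} {m : ℕ} {e f : Sym2 V} (h : CW H m e f) :
    CW H m f e := by
  obtain ⟨u, v, z, w, he, hf, h1, h2, l, l', hl, h3, h4⟩ := h
  exact ⟨z, w, u, v, hf, he, h2, h1, l', l, by omega, h4, h3⟩

open Classical in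
theorem cl_mem_NN {n : ℕ} {H : SimpleGraph (Fin n)} {x v : Fin n} : v ∈ NN H x ↔ H.Adj x v := by
  simp [NN]

open Classical in
theorem cl_mem_TT {n : ℕ} {H : SimpleGraph (Fin n)} {x v : Fin n} :
    v ∈ TT H x ↔ H.Adj x v ∧ ∃ w, H.Adj x w ∧ H.Adj v w := by
  simp [TT]

open Classical in
theorem cl_mem_FF {n : ℕ} {H : SimpleGraph (Fin n)} {x v : Fin n} :
    v ∈ FF H x ↔ H.Adj x v ∧ ¬ ∃ w, H.Adj x w ∧ H.Adj v w := by
  unfold FF
  rw [Finset.mem_filter]
  simp only [Finset.mem_univ, true_and]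

open Classical in
theorem cl_mem_RR {n : ℕ} {H : SimpleGraph (Fin n)} {x v : Fin n} :
    v ∈ RR H x ↔ ¬ H.Adj x v ∧ ¬ ∃ w, H.Adj x w ∧ H.Adj v w := by
  unfold RR
  rw [Finset.mem_filter]
  simp only [Finset.mem_univ, true_and]

/-- an edge inside the neighbourhood and an edge meeting the neighbourhood -/
theorem cl_in {n : ℕ} {H : SimpleGraph (Fin n)} {x u v t w : Fin n} (hu : H.Adj x u)
    (hv : H.Adj x v) (ht : H.Adj x t) (huv : H.Adj u v) (htw : H.Adj t w) :
    CW H 7 s(u, v) s(t, w) :=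
  ⟨u, v, t, w, rfl, rfl, huv, htw, 2, 3, rfl, W_two hv.symm ht,
    W_trans (W_one htw.symm) (W_two ht.symm hu)⟩

open Classical in
/-- two cross edges -/
theorem cl_cross {n : ℕ} {H : SimpleGraph (Fin n)} {x v b v' b' z : Fin n} (hv : H.Adj x v)
    (hv' : H.Adj x v') (hvb : H.Adj v b) (hvb' : H.Adj v' b')
    (hz : z ∈ (if v ∈ TT H x then NN H b else TT H b)) (hz' : z ∉ RR H b') :
    CW H 7 s(v, b) s(v', b') := by
  have hbz : H.Adj b z := by
    split_ifs at hz
    · exact cl_mem_NN.1 hz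
    · exact (cl_mem_TT.1 hz).1
  rw [cl_mem_RR, not_and_or, not_not, not_not] at hz'
  rw [Sym2.eq_swap (a := v)]
  rcases hz' with h | ⟨w, h1, h2⟩
  · by_cases hvT : v ∈ TT H x
    · obtain ⟨-, s, hs1, hs2⟩ := cl_mem_TT.1 hvT
      exact ⟨b, v, v', b', rfl, rfl, hvb.symm, hvb', 3, 2, rfl,
        W_trans (W_two hs2 hs1.symm) (W_one hv'), W_two h hbz.symm⟩
    · rw [if_neg hvT] at hz
      obtain ⟨-, w, h1, h2⟩ := cl_mem_TT.1 hz
      exact ⟨b, v, v', b', rfl, rfl, hvb.symm, hvb', 2, 3, rfl,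
        W_two hv.symm hv', W_trans (W_two h h2) (W_one h1.symm)⟩
  · exact ⟨b, v, v', b', rfl, rfl, hvb.symm, hvb', 2, 3, rfl,
      W_two hv.symm hv', W_trans (W_two h1 h2.symm) (W_one hbz.symm)⟩

/-- the graph restricted to a set -/
def cl_res {n : ℕ} (H : SimpleGraph (Fin n)) (A : Finset (Fin n)) : SimpleGraph (Fin n) where
  Adj u v := H.Adj u v ∧ u ∈ A ∧ v ∈ A
  symm := ⟨fun _ _ h => ⟨h.1.symm, h.2.2, h.2.1⟩⟩
  loopless := ⟨fun _ h => H.loopless.irrefl _ h.1⟩

open Classical in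
theorem cl_res_card {n : ℕ} (H : SimpleGraph (Fin n)) (A : Finset (Fin n)) :
    (1 / 2) * E2 H A A = (((cl_res H A).edgeFinset.card : ℕ) : ℝ) := by
  have h1 := E2_univ (cl_res H A)
  have h2 : E2 (cl_res H A) univ univ = E2 H A A := by
    unfold E2
    have h3 : ∀ u v, ad (cl_res H A) u v = if u ∈ A then (if v ∈ A then ad H u v else 0) else 0 := by
      intro u v
      unfold ad cl_res
      simp only
      by_cases hu : u ∈ A
      · by_cases hv : v ∈ A
        · rw [if_pos hu, if_pos hv]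
          simp [hu, hv]
        · rw [if_pos hu, if_neg hv]
          simp [hv]
      · rw [if_neg hu]
        simp [hu]
    simp only [h3]
    have h4 : ∀ u ∈ (univ : Finset (Fin n)), ∑ v, (if u ∈ A then (if v ∈ A then ad H u v else 0)
        else 0) = if u ∈ A then ∑ v ∈ A, ad H u v else 0 := by
      intro u _
      split_ifs
      · rw [Finset.sum_ite_mem, Finset.univ_inter]
      · simp
    rw [Finset.sum_congr rfl h4, Finset.sum_ite_mem, Finset.univ_inter]
  have h3 : (cl_res H A).edgeSet.ncard = (cl_res H A).edgeFinset.card := by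
    rw [Set.ncard_eq_toFinset_card']
    congr 1
  rw [h2, h3] at h1
  rw [h1]
  ring

open Classical in
/-- TARGET: the sampled clique. -/
theorem cliqueV {n : ℕ} (H : SimpleGraph (Fin n)) (x : Fin n) (Om : Finset (Fin n)) :
    ∃ Q : Finset (Sym2 (Fin n)), (∀ e ∈ Q, e ∈ H.edgeSet) ∧
      (∀ e ∈ Q, ∀ f ∈ Q, e ≠ f → CW H 7 e f) ∧
      (1 / 2) * E2 H (NN H x) (NN H x) +
        ∑ b ∈ (NN H x)ᶜ,
          ((∑ v ∈ TT H x, ad H v b) *
              (((NN H b ∩ Om).card : ℝ) / (((NN H b ∩ Om).card : ℝ) + ((RR H b ∩ Om).card : ℝ))) +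
           (∑ v ∈ FF H x, ad H v b) *
              (((TT H b ∩ Om).card : ℝ) / (((TT H b ∩ Om).card : ℝ) + ((RR H b ∩ Om).card : ℝ))))
        ≤ (Q.card : ℝ) := by
  set A := NN H x with hA
  set P : Fin n × Fin n → Finset (Fin n) := fun p =>
    (if p.1 ∈ TT H x then NN H p.2 else TT H p.2) ∩ Om with hP
  set R : Fin n × Fin n → Finset (Fin n) := fun p => RR H p.2 ∩ Om with hR
  set U : Finset (Fin n × Fin n) :=
    univ.filter (fun p => p.1 ∈ A ∧ p.2 ∉ A ∧ H.Adj p.1 p.2) with hU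
  have hPR : ∀ i, Disjoint (P i) (R i) := by
    intro i
    rw [Finset.disjoint_left]
    intro z hz hz'
    rw [hP] at hz
    rw [hR] at hz'
    simp only at hz hz'
    rw [Finset.mem_inter] at hz hz'
    have h1 := (cl_mem_RR.1 hz'.1).1
    apply h1
    have h2 := hz.1
    split_ifs at h2
    · exact cl_mem_NN.1 h2
    · exact (cl_mem_TT.1 h2).1
  obtain ⟨S, hSU, hScard, hSz⟩ := sequential P R hPR U
  have hSmem : ∀ p ∈ S, p.1 ∈ A ∧ p.2 ∉ A ∧ H.Adj p.1 p.2 := by
    intro p hp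
    have := hSU hp
    rw [hU, Finset.mem_filter] at this
    exact this.2
  set Q1 := (cl_res H A).edgeFinset with hQ1
  set Q2 : Finset (Sym2 (Fin n)) := S.image (fun p => s(p.1, p.2)) with hQ2
  have hQ1mem : ∀ e ∈ Q1, ∃ u v, e = s(u, v) ∧ H.Adj u v ∧ u ∈ A ∧ v ∈ A := by
    intro e he
    rw [hQ1, SimpleGraph.mem_edgeFinset] at he
    induction e using Sym2.ind with
    | _ u v =>
      rw [SimpleGraph.mem_edgeSet] at he
      exact ⟨u, v, rfl, he.1, he.2.1, he.2.2⟩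
  have hQ2mem : ∀ e ∈ Q2, ∃ p ∈ S, e = s(p.1, p.2) := by
    intro e he
    rw [hQ2, Finset.mem_image] at he
    obtain ⟨p, hp, rfl⟩ := he
    exact ⟨p, hp, rfl⟩
  have hinj : Set.InjOn (fun p : Fin n × Fin n => s(p.1, p.2)) (S : Set (Fin n × Fin n)) := by
    intro p hp q hq hpq
    simp only [Sym2.eq_iff] at hpq
    have h1 := hSmem p hp
    have h2 := hSmem q hq
    rcases hpq with ⟨h3, h4⟩ | ⟨h3, h4⟩
    · exact Prod.ext h3 h4
    · exfalso
      exact h2.2.1 (h3 ▸ h1.1)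
  have hdisj : Disjoint Q1 Q2 := by
    rw [Finset.disjoint_left]
    intro e he he'
    obtain ⟨u, v, rfl, -, hu, hv⟩ := hQ1mem e he
    obtain ⟨p, hp, hpe⟩ := hQ2mem _ he'
    have h1 := (hSmem p hp).2.1
    rcases Sym2.eq_iff.1 hpe with ⟨-, h3⟩ | ⟨h3, -⟩
    · exact h1 (h3 ▸ hv)
    · exact h1 (h3 ▸ hu)
  have hall : ∀ f ∈ Q1 ∪ Q2, ∃ t w, f = s(t, w) ∧ t ∈ A ∧ H.Adj t w := by
    intro f hf
    rcases Finset.mem_union.1 hf with h | h
    · obtain ⟨u, v, rfl, huv, hu, -⟩ := hQ1mem f h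
      exact ⟨u, v, rfl, hu, huv⟩
    · obtain ⟨p, hp, rfl⟩ := hQ2mem f h
      exact ⟨p.1, p.2, rfl, (hSmem p hp).1, (hSmem p hp).2.2⟩
  have hin : ∀ e ∈ Q1, ∀ f ∈ Q1 ∪ Q2, CW H 7 e f := by
    intro e he f hf
    obtain ⟨u, v, rfl, huv, hu, hv⟩ := hQ1mem e he
    obtain ⟨t, w, rfl, ht, htw⟩ := hall f hf
    exact cl_in (cl_mem_NN.1 hu) (cl_mem_NN.1 hv) (cl_mem_NN.1 ht) huv htw
  refine ⟨Q1 ∪ Q2, ?_, ?_, ?_⟩
  · intro e he
    obtain ⟨t, w, rfl, -, htw⟩ := hall e he
    exact htw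
  · intro e he f hf _
    rcases Finset.mem_union.1 he with he1 | he2
    · exact hin e he1 f hf
    · rcases Finset.mem_union.1 hf with hf1 | hf2
      · exact cl_CW_symm (hin f hf1 e he)
      · obtain ⟨p, hp, rfl⟩ := hQ2mem e he2
        obtain ⟨q, hq, rfl⟩ := hQ2mem f hf2
        obtain ⟨z, h1 | h1⟩ := hSz p hp q hq
        · rw [hP, hR] at h1
          simp only [Finset.mem_inter] at h1
          exact cl_cross (cl_mem_NN.1 (hSmem p hp).1) (cl_mem_NN.1 (hSmem q hq).1)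
            (hSmem p hp).2.2 (hSmem q hq).2.2 h1.1.1 (fun h => h1.2 ⟨h, h1.1.2⟩)
        · rw [hP, hR] at h1
          simp only [Finset.mem_inter] at h1
          exact cl_CW_symm (cl_cross (cl_mem_NN.1 (hSmem q hq).1) (cl_mem_NN.1 (hSmem p hp).1)
            (hSmem q hq).2.2 (hSmem p hp).2.2 h1.1.1 (fun h => h1.2 ⟨h, h1.1.2⟩))
  · rw [Finset.card_union_of_disjoint hdisj, hQ2, Finset.card_image_of_injOn hinj,
      cl_res_card H A]
    push_cast
    apply add_le_add (le_of_eq rfl)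
    refine le_trans (le_of_eq ?_) hScard
    -- the weights
    have h1 : ∑ i ∈ U, ((P i).card : ℝ) / (((P i).card : ℝ) + ((R i).card : ℝ)) =
        ∑ b ∈ Aᶜ, ∑ v ∈ A, ad H v b *
          (((P (v, b)).card : ℝ) / (((P (v, b)).card : ℝ) + ((R (v, b)).card : ℝ))) := by
      rw [Finset.sum_comm, ← Finset.sum_product', hU]
      have h2 : (univ.filter (fun p : Fin n × Fin n => p.1 ∈ A ∧ p.2 ∉ A ∧ H.Adj p.1 p.2)) =
          (A ×ˢ Aᶜ).filter (fun p => H.Adj p.1 p.2) := by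
        ext p
        simp only [Finset.mem_filter, Finset.mem_univ, true_and, Finset.mem_product,
          Finset.mem_compl]
        tauto
      rw [h2, Finset.sum_filter]
      apply Finset.sum_congr rfl
      intro p _
      unfold ad
      split_ifs
      · rw [one_mul]
      · rw [zero_mul]
    rw [h1]
    apply Finset.sum_congr rfl
    intro b _
    have hAT : A = TT H x ∪ FF H x := by
      ext v
      rw [Finset.mem_union, cl_mem_TT, cl_mem_FF, hA, cl_mem_NN, ← and_or_left]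
      exact ⟨fun h => ⟨h, Classical.em _⟩, fun h => h.1⟩
    have hTF : Disjoint (TT H x) (FF H x) := by
      rw [Finset.disjoint_left]
      intro v hv hv'
      exact (cl_mem_FF.1 hv').2 (cl_mem_TT.1 hv).2
    rw [hAT, Finset.sum_union hTF, Finset.sum_mul, Finset.sum_mul]
    congr 1
    · apply Finset.sum_congr rfl
      intro v hv
      rw [hP, hR]
      simp only
      rw [if_pos hv]
    · apply Finset.sum_congr rfl
      intro v hv
      rw [hP, hR]
      simp only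
      rw [if_neg (fun h => Finset.disjoint_left.1 hTF h hv)]


open Classical in
/-- TARGET: the sampled clique with natural weights `w` on the vertices (adapt `cliqueV`; apply
`sequential` with the vertex type `Fin n × Fin W`, `W` a bound for the weights). -/
theorem cliqueW {n : ℕ} (H : SimpleGraph (Fin n)) (x : Fin n) (w : Fin n → ℕ) :
    ∃ Q : Finset (Sym2 (Fin n)), (∀ e ∈ Q, e ∈ H.edgeSet) ∧
      (∀ e ∈ Q, ∀ f ∈ Q, e ≠ f → CW H 7 e f) ∧
      (1 / 2) * E2 H (NN H x) (NN H x) +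
        ∑ b ∈ (NN H x)ᶜ,
          ((∑ v ∈ TT H x, ad H v b) *
              ((∑ z ∈ NN H b, (w z : ℝ)) / ((∑ z ∈ NN H b, (w z : ℝ)) + ∑ z ∈ RR H b, (w z : ℝ))) +
           (∑ v ∈ FF H x, ad H v b) *
              ((∑ z ∈ TT H b, (w z : ℝ)) / ((∑ z ∈ TT H b, (w z : ℝ)) + ∑ z ∈ RR H b, (w z : ℝ))))
        ≤ (Q.card : ℝ) := by
  set A := NN H x with hA
  have hcard : ∀ T : Finset (Fin n), (((T.sigma (fun z => (univ : Finset (Fin (w z))))).card : ℕ) : ℝ)
      = ∑ z ∈ T, (w z : ℝ) := by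
    intro T
    rw [Finset.card_sigma]
    push_cast
    exact Finset.sum_congr rfl fun z _ => by rw [Finset.card_univ, Fintype.card_fin]
  set P : Fin n × Fin n → Finset (Σ z : Fin n, Fin (w z)) := fun p =>
    (if p.1 ∈ TT H x then NN H p.2 else TT H p.2).sigma (fun z => (univ : Finset (Fin (w z)))) with hP
  set R : Fin n × Fin n → Finset (Σ z : Fin n, Fin (w z)) := fun p =>
    (RR H p.2).sigma (fun z => (univ : Finset (Fin (w z)))) with hR
  set U : Finset (Fin n × Fin n) :=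
    univ.filter (fun p => p.1 ∈ A ∧ p.2 ∉ A ∧ H.Adj p.1 p.2) with hU
  have hPR : ∀ i, Disjoint (P i) (R i) := by
    intro i
    rw [Finset.disjoint_left]
    intro z hz hz'
    rw [hP] at hz
    rw [hR] at hz'
    simp only at hz hz'
    rw [Finset.mem_sigma] at hz hz'
    have h1 := (cl_mem_RR.1 hz'.1).1
    apply h1
    have h2 := hz.1
    split_ifs at h2
    · exact cl_mem_NN.1 h2
    · exact (cl_mem_TT.1 h2).1
  obtain ⟨S, hSU, hScard, hSz⟩ := sequential P R hPR U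
  have hSmem : ∀ p ∈ S, p.1 ∈ A ∧ p.2 ∉ A ∧ H.Adj p.1 p.2 := by
    intro p hp
    have := hSU hp
    rw [hU, Finset.mem_filter] at this
    exact this.2
  set Q1 := (cl_res H A).edgeFinset with hQ1
  set Q2 : Finset (Sym2 (Fin n)) := S.image (fun p => s(p.1, p.2)) with hQ2
  have hQ1mem : ∀ e ∈ Q1, ∃ u v, e = s(u, v) ∧ H.Adj u v ∧ u ∈ A ∧ v ∈ A := by
    intro e he
    rw [hQ1, SimpleGraph.mem_edgeFinset] at he
    induction e using Sym2.ind with
    | _ u v =>
      rw [SimpleGraph.mem_edgeSet] at he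
      exact ⟨u, v, rfl, he.1, he.2.1, he.2.2⟩
  have hQ2mem : ∀ e ∈ Q2, ∃ p ∈ S, e = s(p.1, p.2) := by
    intro e he
    rw [hQ2, Finset.mem_image] at he
    obtain ⟨p, hp, rfl⟩ := he
    exact ⟨p, hp, rfl⟩
  have hinj : Set.InjOn (fun p : Fin n × Fin n => s(p.1, p.2)) (S : Set (Fin n × Fin n)) := by
    intro p hp q hq hpq
    simp only [Sym2.eq_iff] at hpq
    have h1 := hSmem p hp
    have h2 := hSmem q hq
    rcases hpq with ⟨h3, h4⟩ | ⟨h3, h4⟩
    · exact Prod.ext h3 h4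
    · exfalso
      exact h2.2.1 (h3 ▸ h1.1)
  have hdisj : Disjoint Q1 Q2 := by
    rw [Finset.disjoint_left]
    intro e he he'
    obtain ⟨u, v, rfl, -, hu, hv⟩ := hQ1mem e he
    obtain ⟨p, hp, hpe⟩ := hQ2mem _ he'
    have h1 := (hSmem p hp).2.1
    rcases Sym2.eq_iff.1 hpe with ⟨-, h3⟩ | ⟨h3, -⟩
    · exact h1 (h3 ▸ hv)
    · exact h1 (h3 ▸ hu)
  have hall : ∀ f ∈ Q1 ∪ Q2, ∃ t w, f = s(t, w) ∧ t ∈ A ∧ H.Adj t w := by
    intro f hf
    rcases Finset.mem_union.1 hf with h | h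
    · obtain ⟨u, v, rfl, huv, hu, -⟩ := hQ1mem f h
      exact ⟨u, v, rfl, hu, huv⟩
    · obtain ⟨p, hp, rfl⟩ := hQ2mem f h
      exact ⟨p.1, p.2, rfl, (hSmem p hp).1, (hSmem p hp).2.2⟩
  have hin : ∀ e ∈ Q1, ∀ f ∈ Q1 ∪ Q2, CW H 7 e f := by
    intro e he f hf
    obtain ⟨u, v, rfl, huv, hu, hv⟩ := hQ1mem e he
    obtain ⟨t, w, rfl, ht, htw⟩ := hall f hf
    exact cl_in (cl_mem_NN.1 hu) (cl_mem_NN.1 hv) (cl_mem_NN.1 ht) huv htw
  refine ⟨Q1 ∪ Q2, ?_, ?_, ?_⟩
  · intro e he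
    obtain ⟨t, w, rfl, -, htw⟩ := hall e he
    exact htw
  · intro e he f hf _
    rcases Finset.mem_union.1 he with he1 | he2
    · exact hin e he1 f hf
    · rcases Finset.mem_union.1 hf with hf1 | hf2
      · exact cl_CW_symm (hin f hf1 e he)
      · obtain ⟨p, hp, rfl⟩ := hQ2mem e he2
        obtain ⟨q, hq, rfl⟩ := hQ2mem f hf2
        obtain ⟨z, h1 | h1⟩ := hSz p hp q hq
        · rw [hP, hR] at h1
          simp only [Finset.mem_sigma, Finset.mem_univ, and_true] at h1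
          exact cl_cross (cl_mem_NN.1 (hSmem p hp).1) (cl_mem_NN.1 (hSmem q hq).1)
            (hSmem p hp).2.2 (hSmem q hq).2.2 h1.1 h1.2
        · rw [hP, hR] at h1
          simp only [Finset.mem_sigma, Finset.mem_univ, and_true] at h1
          exact cl_CW_symm (cl_cross (cl_mem_NN.1 (hSmem q hq).1) (cl_mem_NN.1 (hSmem p hp).1)
            (hSmem q hq).2.2 (hSmem p hp).2.2 h1.1 h1.2)
  · rw [Finset.card_union_of_disjoint hdisj, hQ2, Finset.card_image_of_injOn hinj,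
      cl_res_card H A]
    push_cast
    apply add_le_add (le_of_eq rfl)
    refine le_trans (le_of_eq ?_) hScard
    -- the weights
    have h1 : ∑ i ∈ U, ((P i).card : ℝ) / (((P i).card : ℝ) + ((R i).card : ℝ)) =
        ∑ b ∈ Aᶜ, ∑ v ∈ A, ad H v b *
          (((P (v, b)).card : ℝ) / (((P (v, b)).card : ℝ) + ((R (v, b)).card : ℝ))) := by
      rw [Finset.sum_comm, ← Finset.sum_product', hU]
      have h2 : (univ.filter (fun p : Fin n × Fin n => p.1 ∈ A ∧ p.2 ∉ A ∧ H.Adj p.1 p.2)) =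
          (A ×ˢ Aᶜ).filter (fun p => H.Adj p.1 p.2) := by
        ext p
        simp only [Finset.mem_filter, Finset.mem_univ, true_and, Finset.mem_product,
          Finset.mem_compl]
        tauto
      rw [h2, Finset.sum_filter]
      apply Finset.sum_congr rfl
      intro p _
      unfold ad
      split_ifs
      · rw [one_mul]
      · rw [zero_mul]
    rw [h1]
    apply Finset.sum_congr rfl
    intro b _
    have hAT : A = TT H x ∪ FF H x := by
      ext v
      rw [Finset.mem_union, cl_mem_TT, cl_mem_FF, hA, cl_mem_NN, ← and_or_left]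
      exact ⟨fun h => ⟨h, Classical.em _⟩, fun h => h.1⟩
    have hTF : Disjoint (TT H x) (FF H x) := by
      rw [Finset.disjoint_left]
      intro v hv hv'
      exact (cl_mem_FF.1 hv').2 (cl_mem_TT.1 hv).2
    rw [hAT, Finset.sum_union hTF, Finset.sum_mul, Finset.sum_mul]
    congr 1
    · apply Finset.sum_congr rfl
      intro v hv
      rw [hP, hR]
      simp only
      rw [if_pos hv, hcard, hcard]
    · apply Finset.sum_congr rfl
      intro v hv
      rw [hP, hR]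
      simp only
      rw [if_neg (fun h => Finset.disjoint_left.1 hTF h hv), hcard, hcard]

end Pool.Agent.Helper77.E809.CliqueW
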