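import Mathlib

set_option autoImplicit false

namespace Pool.Agent.Helper77.E809

/-- Data of one vertex `b` outside `N(x)`, everything divided by `n`, with error `δ`.
`z` is (maximum degree) - 1/2, `f` the size of `F`, `H,k,s` the numbers of neighbours in `F,T,B`,
`pT,pB` the numbers of neighbours in no triangle with `b` in `T,B`, `rT,rB` the numbers of vertices
at distance at least three from `b` in `T,B`. -/
structure Dat (δ z f H k s pT pB rT rB : ℝ) : Prop where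
  hz : -δ ≤ z
  hz1 : z ≤ 1 / 2
  hf : 0 ≤ f
  hzf : 0 < f → z ≤ 1 / 4
  hH : 0 ≤ H
  hHf : H ≤ f
  hpT : 0 ≤ pT
  hpTk : pT ≤ k
  hpB : 0 ≤ pB
  hpBs : pB ≤ s
  hrT : 0 ≤ rT
  hkrT : k + rT ≤ 1 / 2 + z - f
  hrB : 0 ≤ rB
  hsrB : s + rB ≤ 1 / 2 - z
  hy : 0 ≤ 1 / 2 + z - H - k - s
  hy1 : 1 / 2 + z - H - k - s ≤ 1 / 4 + z
  hmin : 0 < H → pB + rB ≤ 1 / 4 - z
  hG : H * (pB + rB) +
      pT * max 0 (2 * z - (1 / 2 + z - H - k - s) + (f - H) + (rT + rB)) +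
      rT * max 0 (2 * z - (1 / 2 + z - H - k - s) + (f - H)) +
      pB * max 0 (2 * z - (1 / 2 + z - H - k - s) + (rT + rB)) +
      rB * max 0 (2 * z - (1 / 2 + z - H - k - s)) ≤ z * (1 - 2 * f) + δ

end Pool.Agent.Helper77.E809
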