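import Pool.Agent.Helper77.E809.Base
import Pool.Agent.Helper77.E809.Budgets
import Pool.Agent.Helper77.E809.DatDef

set_option autoImplicit false

namespace Pool.Agent.Helper77.E809.DatOf

open Finset Pool.Agent.Helper77.E809 Pool.Agent.Helper77.E809.Budgets








lemma daux1 {n D c H k s rT rB : ℝ} (hn : n ≠ 0) :
    2 * (D / n - 1 / 2) - (1 / 2 + (D / n - 1 / 2) - H / n - k / n - s / n) + (c / n - H / n) +
      (rT / n + rB / n) = ((2 * D - n) - (D - (H + k + s)) + (c - H) + (rT + rB)) / n := by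
  field_simp
  ring

lemma daux2 {n D c H k s : ℝ} (hn : n ≠ 0) :
    2 * (D / n - 1 / 2) - (1 / 2 + (D / n - 1 / 2) - H / n - k / n - s / n) + (c / n - H / n) =
      ((2 * D - n) - (D - (H + k + s)) + (c - H)) / n := by
  field_simp
  ring

lemma daux3 {n D H k s rT rB : ℝ} (hn : n ≠ 0) :
    2 * (D / n - 1 / 2) - (1 / 2 + (D / n - 1 / 2) - H / n - k / n - s / n) +
      (rT / n + rB / n) = ((2 * D - n) - (D - (H + k + s)) + (rT + rB)) / n := by
  field_simp
  ring

lemma daux4 {n D H k s : ℝ} (hn : n ≠ 0) :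
    2 * (D / n - 1 / 2) - (1 / 2 + (D / n - 1 / 2) - H / n - k / n - s / n) =
      ((2 * D - n) - (D - (H + k + s))) / n := by
  field_simp
  ring

lemma daux5 {n D c δ : ℝ} (hn : n ≠ 0) :
    ((D - n / 2) * (n - 2 * c) + 2 * δ * n ^ 2) / n ^ 2 =
      (D / n - 1 / 2) * (1 - 2 * (c / n)) + 2 * δ := by
  field_simp

set_option maxHeartbeats 4000000 in
open Classical in
/-- TARGET: the data of a vertex outside the neighbourhood of `x`. -/
theorem dat_of {n : ℕ} (hn : 0 < n) (H : SimpleGraph (Fin n)) (x : Fin n) (δ : ℝ)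
    (hmax : ∀ u, ∑ v, ad H u v ≤ ∑ v, ad H x v)
    (hmin : ∀ v, (n : ℝ) / 4 ≤ ∑ w, ad H v w)
    (he : (1 / 4 - δ) * (n : ℝ) ^ 2 ≤ (H.edgeSet.ncard : ℝ))
    (b : Fin n) (hb : b ∉ NN H x) :
    Dat (2 * δ) (((NN H x).card : ℝ) / n - 1 / 2) (((FF H x).card : ℝ) / n)
      (((NN H b ∩ FF H x).card : ℝ) / n) (((NN H b ∩ TT H x).card : ℝ) / n)
      (((NN H b ∩ (NN H x)ᶜ).card : ℝ) / n) (((FF H b ∩ TT H x).card : ℝ) / n)
      (((FF H b ∩ (NN H x)ᶜ).card : ℝ) / n) (((RR H b ∩ TT H x).card : ℝ) / n)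
      (((RR H b ∩ (NN H x)ᶜ).card : ℝ) / n) := by
  obtain ⟨i1, i2, i3, i4, i5, i6, i7, i8, i9, i10, i11, i12, i13⟩ := identities H x
  have hN : (0:ℝ) < n := by exact_mod_cast hn
  have hcard : ∀ v, ((NN H v).card : ℝ) = ∑ w, ad H v w := fun v => (identities H v).1
  obtain ⟨D, hDdef⟩ : ∃ D : ℝ, ((NN H x).card : ℝ) = D := ⟨_, rfl⟩
  have hmax' : ∀ v, ((NN H v).card : ℝ) ≤ D := fun v => by
    rw [hcard v, ← hDdef, hcard x]; exact hmax v
  have hmin' : ∀ v, (n:ℝ)/4 ≤ ((NN H v).card : ℝ) := fun v => by rw [hcard v]; exact hmin v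
  obtain ⟨b1, b2, b3, b4, b5, b6, b7, b8⟩ := budgets H x D hDdef hmax' b hb
  -- splitting of cardinalities
  have split3 : ∀ S : Finset (Fin n), (S.card : ℝ) = ((S ∩ FF H x).card : ℝ) +
      ((S ∩ TT H x).card : ℝ) + ((S ∩ (NN H x)ᶜ).card : ℝ) := by
    intro S
    have h1 : (S ∩ (NN H x)ᶜ).card + (S ∩ NN H x).card = S.card := by
      rw [← Finset.sdiff_eq_inter_compl]
      exact Finset.card_sdiff_add_card_inter S (NN H x)
    have h2 : (S ∩ NN H x).card = (S ∩ TT H x).card + (S ∩ FF H x).card := by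
      rw [i2, Finset.inter_union_distrib_left, Finset.card_union_of_disjoint]
      exact Finset.disjoint_of_subset_left Finset.inter_subset_right
        (Finset.disjoint_of_subset_right Finset.inter_subset_right i3)
    have h3 : S.card = (S ∩ FF H x).card + (S ∩ TT H x).card + (S ∩ (NN H x)ᶜ).card := by omega
    exact_mod_cast h3
  have splitsum : ∀ g : Fin n → ℝ, ∑ v, g v = ∑ v ∈ FF H x, g v + ∑ v ∈ TT H x, g v +
      ∑ v ∈ (NN H x)ᶜ, g v := by
    intro g
    rw [sum_split (NN H x) g]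
    congr 1
    rw [i2, Finset.sum_union i3, add_comm]
  have hFN : FF H b ⊆ NN H b := by
    rw [i12 b]
    exact Finset.subset_union_right
  have hcT : ((TT H x).card : ℝ) = D - ((FF H x).card : ℝ) := by
    rw [← hDdef, i2, Finset.card_union_of_disjoint i3]
    push_cast
    ring
  have hcB : (((NN H x)ᶜ).card : ℝ) = n - D := by
    rw [Finset.card_compl, Nat.cast_sub (Finset.card_le_univ _), Fintype.card_fin, hDdef]
  have hNNb := split3 (NN H b)
  have hRRb := split3 (RR H b)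
  have hRRF : ((RR H b \ FF H x).card : ℝ) = ((RR H b ∩ TT H x).card : ℝ) +
      ((RR H b ∩ (NN H x)ᶜ).card : ℝ) := by
    have h1 : (RR H b \ FF H x).card + (RR H b ∩ FF H x).card = (RR H b).card :=
      Finset.card_sdiff_add_card_inter _ _
    have h2 : ((RR H b \ FF H x).card : ℝ) + ((RR H b ∩ FF H x).card : ℝ) =
      ((RR H b).card : ℝ) := by exact_mod_cast h1
    linarith
  have hFNb : ((FF H x \ NN H b).card : ℝ) = ((FF H x).card : ℝ) -
      ((NN H b ∩ FF H x).card : ℝ) := by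
    have h1 : (FF H x \ NN H b).card + (FF H x ∩ NN H b).card = (FF H x).card :=
      Finset.card_sdiff_add_card_inter _ _
    rw [Finset.inter_comm (FF H x)] at h1
    have h2 : ((FF H x \ NN H b).card : ℝ) + ((NN H b ∩ FF H x).card : ℝ) =
      ((FF H x).card : ℝ) := by exact_mod_cast h1
    linarith
  have hZB : ((ZZ H b ∩ (NN H x)ᶜ).card : ℝ) = ((FF H b ∩ (NN H x)ᶜ).card : ℝ) +
      ((RR H b ∩ (NN H x)ᶜ).card : ℝ) := by
    rw [i9 b, Finset.union_inter_distrib_right, Finset.card_union_of_disjoint]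
    · push_cast; ring
    · exact Finset.disjoint_of_subset_left Finset.inter_subset_left
        (Finset.disjoint_of_subset_right Finset.inter_subset_left (i10 b))
  have hRZ : RR H b ⊆ ZZ H b := by
    rw [i9 b]
    exact Finset.subset_union_right
  have hdisj : ∀ S : Finset (Fin n), Disjoint (FF H b ∩ S) (RR H b ∩ S) := fun S =>
    Finset.disjoint_of_subset_left Finset.inter_subset_left
        (Finset.disjoint_of_subset_right Finset.inter_subset_left (i10 b))
  have hcle : ∀ S S' : Finset (Fin n), S ⊆ S' → ((S.card : ℕ) : ℝ) ≤ ((S'.card : ℕ) : ℝ) :=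
    fun S S' h => by exact_mod_cast Finset.card_le_card h
  -- sums over parts
  have hpart : ∀ (S P Q : Finset (Fin n)) (g : Fin n → ℝ) (c d : ℝ), P ⊆ S → Q ⊆ S →
      Disjoint P Q → (∀ v ∈ S, 0 ≤ g v) → (∀ v ∈ P, c ≤ g v) → (∀ v ∈ Q, d ≤ g v) →
      (P.card : ℝ) * c + (Q.card : ℝ) * d ≤ ∑ v ∈ S, g v := by
    intro S P Q g c d hP hQ hPQ h0 hc hd
    calc (P.card : ℝ) * c + (Q.card : ℝ) * d ≤ ∑ v ∈ P, g v + ∑ v ∈ Q, g v := by
          apply add_le_add
          · rw [← nsmul_eq_mul, ← Finset.sum_const]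
            exact Finset.sum_le_sum hc
          · rw [← nsmul_eq_mul, ← Finset.sum_const]
            exact Finset.sum_le_sum hd
      _ = ∑ v ∈ P ∪ Q, g v := (Finset.sum_union hPQ).symm
      _ ≤ ∑ v ∈ S, g v := Finset.sum_le_sum_of_subset_of_nonneg (Finset.union_subset hP hQ)
          fun v hv _ => h0 v hv
  -- edges
  have hedge : 2 * (H.edgeSet.ncard : ℝ) ≤ n * D := by
    rw [i8]
    calc ∑ b, ((NN H b).card : ℝ) ≤ ∑ _b : Fin n, D := Finset.sum_le_sum fun v _ => hmax' v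
      _ = n * D := by rw [Finset.sum_const, nsmul_eq_mul, Finset.card_univ, Fintype.card_fin]
  have hDn : D ≤ n := by
    rw [← hDdef]
    have := Finset.card_le_univ (NN H x)
    rw [Fintype.card_fin] at this
    exact_mod_cast this
  have hsumall := splitsum (fun v => ((NN H v).card : ℝ))
  rw [← i8] at hsumall
  obtain ⟨A1, hA1⟩ : ∃ A : ℝ, A = (2 * D - n) - (D - ((NN H b).card : ℝ)) +
      (((FF H x).card : ℝ) - ((NN H b ∩ FF H x).card : ℝ)) +
      (((RR H b ∩ TT H x).card : ℝ) + ((RR H b ∩ (NN H x)ᶜ).card : ℝ)) := ⟨_, rfl⟩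
  obtain ⟨A2, hA2⟩ : ∃ A : ℝ, A = (2 * D - n) - (D - ((NN H b).card : ℝ)) +
      (((FF H x).card : ℝ) - ((NN H b ∩ FF H x).card : ℝ)) := ⟨_, rfl⟩
  obtain ⟨A3, hA3⟩ : ∃ A : ℝ, A = (2 * D - n) - (D - ((NN H b).card : ℝ)) +
      (((RR H b ∩ TT H x).card : ℝ) + ((RR H b ∩ (NN H x)ᶜ).card : ℝ)) := ⟨_, rfl⟩
  obtain ⟨A4, hA4⟩ : ∃ A : ℝ, A = (2 * D - n) - (D - ((NN H b).card : ℝ)) := ⟨_, rfl⟩
  have kT : ((FF H b ∩ TT H x).card : ℝ) * max 0 A1 + ((RR H b ∩ TT H x).card : ℝ) * max 0 A2 ≤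
      ∑ v ∈ TT H x, (D - ((NN H v).card : ℝ)) := by
    apply hpart _ _ _ _ _ _ Finset.inter_subset_right Finset.inter_subset_right (hdisj _)
    · intro v _
      have := hmax' v
      linarith
    · intro v hv
      have h1 := b4 v hv
      have h2 := hmax' v
      rw [max_le_iff]
      constructor
      · linarith
      · rw [hA1]; linarith
    · intro v hv
      have h1 := b3 v (Finset.inter_subset_inter_right hRZ hv)
      have h2 := hmax' v
      rw [max_le_iff]
      constructor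
      · linarith
      · rw [hA2]; linarith
  have kB : ((FF H b ∩ (NN H x)ᶜ).card : ℝ) * max 0 A3 +
      ((RR H b ∩ (NN H x)ᶜ).card : ℝ) * max 0 A4 ≤
      ∑ v ∈ (NN H x)ᶜ, (D - ((NN H v).card : ℝ)) := by
    apply hpart _ _ _ _ _ _ Finset.inter_subset_right Finset.inter_subset_right (hdisj _)
    · intro v _
      have := hmax' v
      linarith
    · intro v hv
      have h1 := b6 v hv
      have h2 := hmax' v
      rw [max_le_iff]
      constructor
      · linarith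
      · rw [hA3]; linarith
    · intro v hv
      have h1 := b5 v (Finset.inter_subset_inter_right hRZ hv)
      have h2 := hmax' v
      rw [max_le_iff]
      constructor
      · linarith
      · rw [hA4]; linarith
  have sT : ∑ v ∈ TT H x, (D - ((NN H v).card : ℝ)) =
      ((TT H x).card : ℝ) * D - ∑ v ∈ TT H x, ((NN H v).card : ℝ) := by
    rw [Finset.sum_sub_distrib, Finset.sum_const, nsmul_eq_mul]
  have sB : ∑ v ∈ (NN H x)ᶜ, (D - ((NN H v).card : ℝ)) =
      (((NN H x)ᶜ).card : ℝ) * D - ∑ v ∈ (NN H x)ᶜ, ((NN H v).card : ℝ) := by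
    rw [Finset.sum_sub_distrib, Finset.sum_const, nsmul_eq_mul]
  have sF : ∑ v ∈ FF H x, ((n : ℝ) - D - ((NN H v).card : ℝ)) =
      ((FF H x).card : ℝ) * (n - D) - ∑ v ∈ FF H x, ((NN H v).card : ℝ) := by
    rw [Finset.sum_sub_distrib, Finset.sum_const, nsmul_eq_mul]
  rw [sT] at kT
  rw [sB] at kB
  rw [sF] at b1
  rw [hcT] at kT
  rw [hcB] at kB
  have key : ((NN H b ∩ FF H x).card : ℝ) * (((FF H b ∩ (NN H x)ᶜ).card : ℝ) +
      ((RR H b ∩ (NN H x)ᶜ).card : ℝ)) +
      ((FF H b ∩ TT H x).card : ℝ) * max 0 A1 + ((RR H b ∩ TT H x).card : ℝ) * max 0 A2 +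
      ((FF H b ∩ (NN H x)ᶜ).card : ℝ) * max 0 A3 +
      ((RR H b ∩ (NN H x)ᶜ).card : ℝ) * max 0 A4 ≤
      (D - n / 2) * (n - 2 * ((FF H x).card : ℝ)) + 2 * δ * (n : ℝ) ^ 2 := by
    rw [hZB] at b1
    linarith
  rw [hDdef]
  have hmd : ∀ A : ℝ, max 0 (A / n) = max 0 A / n := by
    intro A
    rcases le_total 0 A with h | h
    · rw [max_eq_right h, max_eq_right (by positivity)]
    · rw [max_eq_left h, max_eq_left (div_nonpos_of_nonpos_of_nonneg h hN.le), zero_div]
  have hdle : ∀ a c : ℝ, a ≤ c → a / n ≤ c / n := fun a c h => by gcongr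
  refine ⟨?_, ?_, ?_, ?_, ?_, ?_, ?_, ?_, ?_, ?_, ?_, ?_, ?_, ?_, ?_, ?_, ?_, ?_⟩
  · -- hz
    have h1 : (1 / 2 - 2 * δ) * (n : ℝ) ≤ D := by
      have h2 : (1 / 2 - 2 * δ) * (n : ℝ) * n ≤ D * n := by nlinarith
      exact le_of_mul_le_mul_right h2 hN
    have h3 : 1 / 2 - 2 * δ ≤ D / n := by
      rw [le_div_iff₀ hN]
      exact h1
    linarith
  · have : D / n ≤ 1 := by
      rw [div_le_one hN]
      exact hDn
    linarith
  · exact div_nonneg (Nat.cast_nonneg _) hN.le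
  · intro hf
    have hne : (FF H x).Nonempty := by
      rw [Finset.nonempty_iff_ne_empty]
      intro h
      rw [h] at hf
      simp at hf
    obtain ⟨v, hv⟩ := hne
    have h1 := b2 v hv
    have h2 := hmin' v
    have h3 : D / n ≤ 3 / 4 := by
      rw [div_le_iff₀ hN]
      linarith
    linarith
  · exact div_nonneg (Nat.cast_nonneg _) hN.le
  · exact hdle _ _ (hcle _ _ Finset.inter_subset_right)
  · exact div_nonneg (Nat.cast_nonneg _) hN.le
  · exact hdle _ _ (hcle _ _ (Finset.inter_subset_inter_right hFN))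
  · exact div_nonneg (Nat.cast_nonneg _) hN.le
  · exact hdle _ _ (hcle _ _ (Finset.inter_subset_inter_right hFN))
  · exact div_nonneg (Nat.cast_nonneg _) hN.le
  · -- hkrT
    have h1 : ((NN H b ∩ TT H x).card : ℝ) + ((RR H b ∩ TT H x).card : ℝ) ≤
        ((TT H x).card : ℝ) := by
      have h2 : Disjoint (NN H b ∩ TT H x) (RR H b ∩ TT H x) :=
        Finset.disjoint_of_subset_left Finset.inter_subset_left
          (Finset.disjoint_of_subset_right Finset.inter_subset_left (i11 b))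
      have h3 := Finset.card_union_of_disjoint h2
      have h4 := hcle _ _ (Finset.union_subset
        (Finset.inter_subset_right : NN H b ∩ TT H x ⊆ TT H x)
        (Finset.inter_subset_right : RR H b ∩ TT H x ⊆ TT H x))
      rw [h3] at h4
      push_cast at h4
      exact h4
    rw [hcT] at h1
    have h2 := hdle _ _ h1
    have e1 : (((NN H b ∩ TT H x).card : ℝ) + ((RR H b ∩ TT H x).card : ℝ)) / n =
      ((NN H b ∩ TT H x).card : ℝ) / n + ((RR H b ∩ TT H x).card : ℝ) / n := by ring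
    have e2 : (D - ((FF H x).card : ℝ)) / n = D / n - ((FF H x).card : ℝ) / n := by ring
    linarith
  · exact div_nonneg (Nat.cast_nonneg _) hN.le
  · -- hsrB
    have h1 : ((NN H b ∩ (NN H x)ᶜ).card : ℝ) + ((RR H b ∩ (NN H x)ᶜ).card : ℝ) ≤
        (((NN H x)ᶜ).card : ℝ) := by
      have h2 : Disjoint (NN H b ∩ (NN H x)ᶜ) (RR H b ∩ (NN H x)ᶜ) :=
        Finset.disjoint_of_subset_left Finset.inter_subset_left
          (Finset.disjoint_of_subset_right Finset.inter_subset_left (i11 b))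
      have h3 := Finset.card_union_of_disjoint h2
      have h4 := hcle _ _ (Finset.union_subset
        (Finset.inter_subset_right : NN H b ∩ (NN H x)ᶜ ⊆ (NN H x)ᶜ)
        (Finset.inter_subset_right : RR H b ∩ (NN H x)ᶜ ⊆ (NN H x)ᶜ))
      rw [h3] at h4
      push_cast at h4
      exact h4
    rw [hcB] at h1
    have h2 := hdle _ _ h1
    have e1 : (((NN H b ∩ (NN H x)ᶜ).card : ℝ) + ((RR H b ∩ (NN H x)ᶜ).card : ℝ)) / n =
      ((NN H b ∩ (NN H x)ᶜ).card : ℝ) / n + ((RR H b ∩ (NN H x)ᶜ).card : ℝ) / n := by ring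
    have e2 : ((n : ℝ) - D) / n = 1 - D / n := by
      rw [sub_div, div_self hN.ne']
    linarith
  · -- hy
    have h1 := hdle _ _ (hmax' b)
    rw [hNNb] at h1
    have e1 : (((NN H b ∩ FF H x).card : ℝ) + ((NN H b ∩ TT H x).card : ℝ) +
      ((NN H b ∩ (NN H x)ᶜ).card : ℝ)) / n = ((NN H b ∩ FF H x).card : ℝ) / n +
      ((NN H b ∩ TT H x).card : ℝ) / n + ((NN H b ∩ (NN H x)ᶜ).card : ℝ) / n := by ring
    linarith
  · -- hy1
    have h1 := hdle _ _ (hmin' b)
    rw [hNNb] at h1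
    have e1 : (((NN H b ∩ FF H x).card : ℝ) + ((NN H b ∩ TT H x).card : ℝ) +
      ((NN H b ∩ (NN H x)ᶜ).card : ℝ)) / n = ((NN H b ∩ FF H x).card : ℝ) / n +
      ((NN H b ∩ TT H x).card : ℝ) / n + ((NN H b ∩ (NN H x)ᶜ).card : ℝ) / n := by ring
    have e2 : (n : ℝ) / 4 / n = 1 / 4 := by
      rw [div_div, mul_comm, ← div_div, div_self hN.ne']
    linarith
  · -- hmin
    intro hH
    have hne : (NN H b ∩ FF H x).Nonempty := by
      rw [Finset.nonempty_iff_ne_empty]
      intro h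
      rw [h] at hH
      simp at hH
    obtain ⟨v, hv⟩ := hne
    rw [Finset.mem_inter] at hv
    have hbv : H.Adj b v := by
      have := hv.1
      unfold NN at this
      simpa using this
    have hxv : H.Adj x v ∧ ¬ ∃ w, H.Adj x w ∧ H.Adj v w := by
      have := hv.2
      unfold FF at this
      simpa using this
    have hsub : NN H v ⊆ (NN H x)ᶜ \ (ZZ H b ∩ (NN H x)ᶜ) := by
      intro w hw
      have hvw : H.Adj v w := by
        unfold NN at hw
        simpa using hw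
      have h1 : w ∈ (NN H x)ᶜ := by
        rw [Finset.mem_compl]
        intro h
        have hxw : H.Adj x w := by
          unfold NN at h
          simpa using h
        exact hxv.2 ⟨w, hxw, hvw⟩
      rw [Finset.mem_sdiff]
      refine ⟨h1, fun h2 => ?_⟩
      have h3 := (Finset.mem_inter.1 h2).1
      unfold ZZ at h3
      rw [Finset.mem_filter] at h3
      exact h3.2 ⟨v, hbv, hvw.symm⟩
    have h1 := hcle _ _ hsub
    have h2 : (((NN H x)ᶜ \ (ZZ H b ∩ (NN H x)ᶜ)).card : ℝ) +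
        ((ZZ H b ∩ (NN H x)ᶜ).card : ℝ) = (((NN H x)ᶜ).card : ℝ) := by
      have := Finset.card_sdiff_add_card_eq_card
        (Finset.inter_subset_right : ZZ H b ∩ (NN H x)ᶜ ⊆ (NN H x)ᶜ)
      exact_mod_cast this
    rw [hcB, hZB] at h2
    have h3 := hmin' v
    have h4 : ((FF H b ∩ (NN H x)ᶜ).card : ℝ) + ((RR H b ∩ (NN H x)ᶜ).card : ℝ) ≤
      3 / 4 * n - D := by linarith
    have h5 := hdle _ _ h4
    have e1 : (((FF H b ∩ (NN H x)ᶜ).card : ℝ) + ((RR H b ∩ (NN H x)ᶜ).card : ℝ)) / n =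
      ((FF H b ∩ (NN H x)ᶜ).card : ℝ) / n + ((RR H b ∩ (NN H x)ᶜ).card : ℝ) / n := by ring
    have e2 : (3 / 4 * (n : ℝ) - D) / n = 3 / 4 - D / n := by
      rw [sub_div, mul_div_assoc, div_self hN.ne', mul_one]
    linarith
  · -- hG
    have a1 : 2 * (D / n - 1 / 2) - (1 / 2 + (D / n - 1 / 2) - ((NN H b ∩ FF H x).card : ℝ) / n -
        ((NN H b ∩ TT H x).card : ℝ) / n - ((NN H b ∩ (NN H x)ᶜ).card : ℝ) / n) +
        (((FF H x).card : ℝ) / n - ((NN H b ∩ FF H x).card : ℝ) / n) +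
        (((RR H b ∩ TT H x).card : ℝ) / n + ((RR H b ∩ (NN H x)ᶜ).card : ℝ) / n) = A1 / n := by
      rw [hA1, hNNb]
      exact daux1 hN.ne'
    have a2 : 2 * (D / n - 1 / 2) - (1 / 2 + (D / n - 1 / 2) - ((NN H b ∩ FF H x).card : ℝ) / n -
        ((NN H b ∩ TT H x).card : ℝ) / n - ((NN H b ∩ (NN H x)ᶜ).card : ℝ) / n) +
        (((FF H x).card : ℝ) / n - ((NN H b ∩ FF H x).card : ℝ) / n) = A2 / n := by
      rw [hA2, hNNb]
      exact daux2 hN.ne'
    have a3 : 2 * (D / n - 1 / 2) - (1 / 2 + (D / n - 1 / 2) - ((NN H b ∩ FF H x).card : ℝ) / n -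
        ((NN H b ∩ TT H x).card : ℝ) / n - ((NN H b ∩ (NN H x)ᶜ).card : ℝ) / n) +
        (((RR H b ∩ TT H x).card : ℝ) / n + ((RR H b ∩ (NN H x)ᶜ).card : ℝ) / n) = A3 / n := by
      rw [hA3, hNNb]
      exact daux3 hN.ne'
    have a4 : 2 * (D / n - 1 / 2) - (1 / 2 + (D / n - 1 / 2) - ((NN H b ∩ FF H x).card : ℝ) / n -
        ((NN H b ∩ TT H x).card : ℝ) / n - ((NN H b ∩ (NN H x)ᶜ).card : ℝ) / n) = A4 / n := by
      rw [hA4, hNNb]
      exact daux4 hN.ne'
    rw [a1, a2, a3, a4, hmd, hmd, hmd, hmd]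
    have hN2 : (0:ℝ) < (n:ℝ) ^ 2 := by positivity
    have h1 := div_le_div_of_nonneg_right key hN2.le
    refine le_trans (le_of_eq ?_) (h1.trans (le_of_eq ?_))
    · ring
    · exact daux5 hN.ne'

end Pool.Agent.Helper77.E809.DatOf
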