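import Pool.Agent.Helper77.E809.Base
import Pool.Agent.Helper77.E809.Budgets
import Pool.Agent.Helper77.E809.DatOf
import Pool.Agent.Helper77.E809.CliqueW

set_option autoImplicit false

namespace Pool.Agent.Helper77.E809.CaseAB

open Finset Pool.Agent.Helper77.E809 Pool.Agent.Helper77.E809.Budgets Pool.Agent.Helper77.E809.DatOf Pool.Agent.Helper77.E809.CliqueW

open Classical in
lemma sum_ad_inter {n : ℕ} (H : SimpleGraph (Fin n)) (b : Fin n) (S : Finset (Fin n)) :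
    ∑ v ∈ S, ad H v b = ((NN H b ∩ S).card : ℝ) := by
  unfold ad
  rw [Finset.sum_boole]
  congr 2
  ext v
  simp only [NN, mem_filter, mem_inter, mem_univ, true_and]
  constructor
  · rintro ⟨h1, h2⟩
    exact ⟨h2.symm, h1⟩
  · rintro ⟨h1, h2⟩
    exact ⟨h2, h1.symm⟩

open Classical in
/-- weights: `0` on `F`, `a` on `T`, `c` on `B`. -/
noncomputable def wt {n : ℕ} (H : SimpleGraph (Fin n)) (x : Fin n) (a c : ℕ) (z : Fin n) : ℕ :=
  if z ∈ FF H x then 0 else if z ∈ TT H x then a else c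

open Classical in
lemma sumw {n : ℕ} (H : SimpleGraph (Fin n)) (x : Fin n) (a c : ℕ) (S : Finset (Fin n)) :
    ∑ z ∈ S, (wt H x a c z : ℝ) = (a : ℝ) * ((S ∩ TT H x).card : ℝ) +
      (c : ℝ) * ((S ∩ (NN H x)ᶜ).card : ℝ) := by
  obtain ⟨-, hN, hdis, -⟩ := identities H x
  have h1 : ∀ z ∈ S, (wt H x a c z : ℝ) = (a : ℝ) * (if z ∈ TT H x then (1 : ℝ) else 0) +
      (c : ℝ) * (if z ∈ (NN H x)ᶜ then (1 : ℝ) else 0) := by
    intro z _
    unfold wt
    by_cases hF : z ∈ FF H x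
    · have hT : z ∉ TT H x := fun h => (Finset.disjoint_left.mp hdis h) hF
      have hB : z ∉ (NN H x)ᶜ := by
        rw [mem_compl, not_not, hN, mem_union]; exact Or.inr hF
      rw [if_pos hF, if_neg hT, if_neg hB]; simp
    · by_cases hT : z ∈ TT H x
      · have hB : z ∉ (NN H x)ᶜ := by
          rw [mem_compl, not_not, hN, mem_union]; exact Or.inl hT
        rw [if_neg hF, if_pos hT, if_pos hT, if_neg hB]; simp
      · have hB : z ∈ (NN H x)ᶜ := by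
          rw [mem_compl, hN, mem_union]; exact fun h => h.elim hT hF
        rw [if_neg hF, if_neg hT, if_neg hT, if_pos hB]; simp
  rw [Finset.sum_congr rfl h1, Finset.sum_add_distrib, ← Finset.mul_sum, ← Finset.mul_sum,
    Finset.sum_boole, Finset.sum_boole, Finset.filter_mem_eq_inter, Finset.filter_mem_eq_inter]

open Classical in
lemma card_TT_inter {n : ℕ} (H : SimpleGraph (Fin n)) (b : Fin n) (S : Finset (Fin n)) :
    ((TT H b ∩ S).card : ℝ) = ((NN H b ∩ S).card : ℝ) - ((FF H b ∩ S).card : ℝ) := by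
  obtain ⟨-, hN, hdis, -⟩ := identities H b
  rw [hN, Finset.union_inter_distrib_right, Finset.card_union_of_disjoint]
  · push_cast; ring
  · exact hdis.mono (Finset.inter_subset_left) (Finset.inter_subset_left)

open Classical in
lemma card_ZZ_inter {n : ℕ} (H : SimpleGraph (Fin n)) (b : Fin n) (S : Finset (Fin n)) :
    ((ZZ H b ∩ S).card : ℝ) = ((FF H b ∩ S).card : ℝ) + ((RR H b ∩ S).card : ℝ) := by
  obtain ⟨-, -, -, -, -, -, -, -, hZ, hdis, -⟩ := identities H b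
  rw [hZ b, Finset.union_inter_distrib_right, Finset.card_union_of_disjoint]
  · push_cast; ring
  · exact (hdis b).mono (Finset.inter_subset_left) (Finset.inter_subset_left)

/-- normalised size of an intersection -/
noncomputable def dc {n : ℕ} (S T : Finset (Fin n)) : ℝ := ((S ∩ T).card : ℝ) / n

lemma dc_mul {n : ℕ} (hn : 0 < n) (S T : Finset (Fin n)) :
    ((S ∩ T).card : ℝ) = n * dc S T := by
  have : (n : ℝ) ≠ 0 := by exact_mod_cast hn.ne'
  unfold dc; field_simp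

open Classical in
/-- the clique in normalised form -/
lemma master {n : ℕ} (hn : 0 < n) (H : SimpleGraph (Fin n)) (x : Fin n) (a c : ℕ) :
    ∃ Q : Finset (Sym2 (Fin n)), (∀ e ∈ Q, e ∈ H.edgeSet) ∧
      (∀ e ∈ Q, ∀ f ∈ Q, e ≠ f → CW H 7 e f) ∧
      (1 / 2) * E2 H (TT H x) (TT H x) +
        ∑ b ∈ (NN H x)ᶜ,
          (n : ℝ) * (dc (NN H b) (TT H x) *
              ((a * dc (NN H b) (TT H x) + c * dc (NN H b) (NN H x)ᶜ) /
                ((a * dc (NN H b) (TT H x) + c * dc (NN H b) (NN H x)ᶜ) +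
                 (a * dc (RR H b) (TT H x) + c * dc (RR H b) (NN H x)ᶜ))) +
           dc (NN H b) (FF H x) *
              ((a * (dc (NN H b) (TT H x) - dc (FF H b) (TT H x)) +
                  c * (dc (NN H b) (NN H x)ᶜ - dc (FF H b) (NN H x)ᶜ)) /
                ((a * (dc (NN H b) (TT H x) - dc (FF H b) (TT H x)) +
                  c * (dc (NN H b) (NN H x)ᶜ - dc (FF H b) (NN H x)ᶜ)) +
                 (a * dc (RR H b) (TT H x) + c * dc (RR H b) (NN H x)ᶜ))))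
        ≤ (Q.card : ℝ) := by
  obtain ⟨Q, hQ1, hQ2, hQ3⟩ := cliqueW H x (wt H x a c)
  refine ⟨Q, hQ1, hQ2, ?_⟩
  obtain ⟨-, -, -, hE, -⟩ := identities H x
  rw [hE] at hQ3
  refine le_trans (le_of_eq ?_) hQ3
  congr 1
  apply Finset.sum_congr rfl
  intro b _
  have hn' : (n : ℝ) ≠ 0 := by exact_mod_cast hn.ne'
  rw [sum_ad_inter, sum_ad_inter, sumw, sumw, sumw, card_TT_inter, card_TT_inter]
  rw [dc_mul hn (NN H b) (TT H x), dc_mul hn (NN H b) (FF H x), dc_mul hn (NN H b) (NN H x)ᶜ,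
    dc_mul hn (RR H b) (TT H x), dc_mul hn (RR H b) (NN H x)ᶜ, dc_mul hn (FF H b) (TT H x),
    dc_mul hn (FF H b) (NN H x)ᶜ]
  have e1 : (a : ℝ) * (n * dc (NN H b) (TT H x)) + c * (n * dc (NN H b) (NN H x)ᶜ) =
      n * (a * dc (NN H b) (TT H x) + c * dc (NN H b) (NN H x)ᶜ) := by ring
  have e2 : (a : ℝ) * (n * dc (RR H b) (TT H x)) + c * (n * dc (RR H b) (NN H x)ᶜ) =
      n * (a * dc (RR H b) (TT H x) + c * dc (RR H b) (NN H x)ᶜ) := by ring
  have e3 : (a : ℝ) * (n * dc (NN H b) (TT H x) - n * dc (FF H b) (TT H x)) +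
      c * (n * dc (NN H b) (NN H x)ᶜ - n * dc (FF H b) (NN H x)ᶜ) =
      n * (a * (dc (NN H b) (TT H x) - dc (FF H b) (TT H x)) +
                  c * (dc (NN H b) (NN H x)ᶜ - dc (FF H b) (NN H x)ᶜ)) := by ring
  rw [e1, e2, e3, ← mul_add, ← mul_add, mul_div_mul_left _ _ hn', mul_div_mul_left _ _ hn']
  ring

open Classical in
/-- the sums over `B` -/
lemma sums {n : ℕ} (hn : 0 < n) (H : SimpleGraph (Fin n)) (x : Fin n) :
    (∑ b ∈ (NN H x)ᶜ, (n : ℝ) * (dc (NN H b) (TT H x) + dc (NN H b) (FF H x))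
      = E2 H (NN H x) (NN H x)ᶜ) ∧
    (∑ b ∈ (NN H x)ᶜ, (n : ℝ) * dc (NN H b) (NN H x)ᶜ = E2 H (NN H x)ᶜ (NN H x)ᶜ) ∧
    (((NN H x)ᶜ.card : ℝ) = n - (NN H x).card) ∧
    (((NN H x).card : ℝ) = (TT H x).card + (FF H x).card) := by
  obtain ⟨-, hN, hdis, -⟩ := identities H x
  refine ⟨?_, ?_, ?_, ?_⟩
  · rw [E2_comm]
    unfold E2
    apply Finset.sum_congr rfl
    intro b _
    have h1 : ∑ v ∈ NN H x, ad H b v = ∑ v ∈ NN H x, ad H v b :=
      Finset.sum_congr rfl fun v _ => ad_comm H b v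
    rw [h1, hN, Finset.sum_union hdis, sum_ad_inter, sum_ad_inter, dc_mul hn, dc_mul hn]
    ring
  · unfold E2
    apply Finset.sum_congr rfl
    intro b _
    have h1 : ∑ v ∈ (NN H x)ᶜ, ad H b v = ∑ v ∈ (NN H x)ᶜ, ad H v b :=
      Finset.sum_congr rfl fun v _ => ad_comm H b v
    rw [h1, sum_ad_inter, dc_mul hn]
  · rw [Finset.card_compl, Fintype.card_fin, Nat.cast_sub]
    calc (NN H x).card ≤ (univ : Finset (Fin n)).card := Finset.card_le_card (subset_univ _)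
      _ = n := by simp
  · have : (NN H x).card = (TT H x).card + (FF H x).card := by
      conv_lhs => rw [hN]
      rw [Finset.card_union_of_disjoint hdis]
    rw [this]; push_cast; ring

/-- exact or robust inequality in the case of a small set `F`. -/
def XA (ε z f H k s pT pB rT rB : ℝ) : Prop :=
  (k - 2 * k * ((k + s) / ((k + s) + (rT + rB)))) +
      (H - 2 * H * ((k + s - pT - pB) / ((k + s - pT - pB) + (rT + rB)))) -
      (1 / 2 + z - H - k - s) ≤ ε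

/-- exact or robust inequality in the case of a middle sized set `F`. -/
def XB (a c μ ε z f H k s pT pB rT rB : ℝ) : Prop :=
  2 * k * (1 - (a * k + c * s) / ((a * k + c * s) + (a * rT + c * rB))) +
      2 * H * (1 - (a * (k - pT) + c * (s - pB)) /
        ((a * (k - pT) + c * (s - pB)) + (a * rT + c * rB)))
      ≤ 1 / 2 + z + 2 * μ * (1 / 2 + z - H - k - s) - (1 - μ) * s
        - (μ * ((1 / 2 + z - f) ^ 2 - (2 * k * (pT + rT) - pT ^ 2) - 2 * z ^ 2) - z ^ 2) /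
          (1 / 2 - z) + ε

open Classical in
/-- The case of a small set `F`. -/
theorem caseA (f2 z1 z2 : ℝ) (lemmaA : ∀ ε : ℝ, 0 < ε → ∃ δ : ℝ, 0 < δ ∧
    ∀ z f H k s pT pB rT rB : ℝ, Dat δ z f H k s pT pB rT rB → f ≤ f2 → z1 ≤ z → z ≤ z2 →
      XA ε z f H k s pT pB rT rB)
    (ε : ℝ) (hε : 0 < ε) : ∃ δ : ℝ, 0 < δ ∧ ∀ (n : ℕ) (H : SimpleGraph (Fin n))
    (x : Fin n), 0 < n → (∀ u, ∑ v, ad H u v ≤ ∑ v, ad H x v) →
    (∀ v, (n : ℝ) / 4 ≤ ∑ w, ad H v w) →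
    (1 / 4 - δ) * (n : ℝ) ^ 2 ≤ (H.edgeSet.ncard : ℝ) →
    ((FF H x).card : ℝ) ≤ f2 * n →
    z1 * n ≤ ((NN H x).card : ℝ) - n / 2 → ((NN H x).card : ℝ) - n / 2 ≤ z2 * n →
    ∃ Q : Finset (Sym2 (Fin n)), (∀ e ∈ Q, e ∈ H.edgeSet) ∧
      (∀ e ∈ Q, ∀ f ∈ Q, e ≠ f → CW H 7 e f) ∧
      (H.edgeSet.ncard : ℝ) - (1 / 8 + ε) * (n : ℝ) ^ 2 ≤ (Q.card : ℝ) := by
  obtain ⟨δ', hδ', hA⟩ := lemmaA ε hε
  refine ⟨δ' / 2, by linarith, ?_⟩
  intro n H x hn hmax hmin he hF hZ hZ'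
  have hn0 : (0 : ℝ) < n := by exact_mod_cast hn
  obtain ⟨Q, hQ1, hQ2, hQ3⟩ := master hn H x 1 1
  refine ⟨Q, hQ1, hQ2, ?_⟩
  obtain ⟨hs1, hs2, hs3, hs4⟩ := sums hn H x
  obtain ⟨-, -, -, hE, -, -, hed, -⟩ := identities H x
  -- pointwise bound
  have hpt : ∀ b ∈ (NN H x)ᶜ,
      (1 / 2) * ((n : ℝ) * (dc (NN H b) (TT H x) + dc (NN H b) (FF H x)) -
        ((NN H x).card - n * (dc (NN H b) (TT H x) + dc (NN H b) (FF H x)) -
          n * dc (NN H b) (NN H x)ᶜ) - n * ε) ≤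
      (n : ℝ) * (dc (NN H b) (TT H x) *
              (((1 : ℕ) * dc (NN H b) (TT H x) + (1 : ℕ) * dc (NN H b) (NN H x)ᶜ) /
                (((1 : ℕ) * dc (NN H b) (TT H x) + (1 : ℕ) * dc (NN H b) (NN H x)ᶜ) +
                 ((1 : ℕ) * dc (RR H b) (TT H x) + (1 : ℕ) * dc (RR H b) (NN H x)ᶜ))) +
           dc (NN H b) (FF H x) *
              (((1 : ℕ) * (dc (NN H b) (TT H x) - dc (FF H b) (TT H x)) +
                  (1 : ℕ) * (dc (NN H b) (NN H x)ᶜ - dc (FF H b) (NN H x)ᶜ)) /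
                (((1 : ℕ) * (dc (NN H b) (TT H x) - dc (FF H b) (TT H x)) +
                  (1 : ℕ) * (dc (NN H b) (NN H x)ᶜ - dc (FF H b) (NN H x)ᶜ)) +
                 ((1 : ℕ) * dc (RR H b) (TT H x) + (1 : ℕ) * dc (RR H b) (NN H x)ᶜ)))) := by
    intro b hb
    rw [mem_compl] at hb
    have hd := dat_of hn H x (δ' / 2) hmax hmin he b hb
    rw [show 2 * (δ' / 2) = δ' by ring] at hd
    have hf6 : ((FF H x).card : ℝ) / n ≤ f2 := by
      rw [div_le_iff₀ hn0]; exact hF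
    have hz6 : z1 ≤ ((NN H x).card : ℝ) / n - 1 / 2 := by
      rw [le_sub_iff_add_le, le_div_iff₀ hn0]; linarith
    have hz7 : ((NN H x).card : ℝ) / n - 1 / 2 ≤ z2 := by
      rw [sub_le_iff_le_add, div_le_iff₀ hn0]; linarith
    have h := hA _ _ _ _ _ _ _ _ _ hd hf6 hz6 hz7
    unfold XA at h
    have e5 : ((NN H x).card : ℝ) = n * (1 / 2 + (((NN H x).card : ℝ) / n - 1 / 2)) := by
      field_simp; ring
    rw [e5]
    unfold dc
    push_cast
    have h' := mul_le_mul_of_nonneg_left h hn0.le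
    simp only [one_mul]
    have r2 : ((NN H b ∩ TT H x).card : ℝ) / n - ((FF H b ∩ TT H x).card : ℝ) / n +
        (((NN H b ∩ (NN H x)ᶜ).card : ℝ) / n - ((FF H b ∩ (NN H x)ᶜ).card : ℝ) / n) =
        ((NN H b ∩ TT H x).card : ℝ) / n + ((NN H b ∩ (NN H x)ᶜ).card : ℝ) / n -
        ((FF H b ∩ TT H x).card : ℝ) / n - ((FF H b ∩ (NN H x)ᶜ).card : ℝ) / n := by ring
    rw [r2]
    linarith
  have hsum := Finset.sum_le_sum hpt
  rw [← Finset.mul_sum, Finset.sum_sub_distrib, Finset.sum_sub_distrib, Finset.sum_sub_distrib,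
    Finset.sum_sub_distrib, hs1, hs2, Finset.sum_const, Finset.sum_const, nsmul_eq_mul,
    nsmul_eq_mul, hs3] at hsum
  have hDn : ((NN H x).card : ℝ) ≤ n := by
    have : (0 : ℝ) ≤ ((NN H x)ᶜ.card : ℝ) := Nat.cast_nonneg _
    linarith
  have hD0 : (0 : ℝ) ≤ (NN H x).card := Nat.cast_nonneg _
  have hsq : ((n : ℝ) - (NN H x).card) * (NN H x).card ≤ (n : ℝ) ^ 2 / 4 := by
    nlinarith [sq_nonneg ((n : ℝ) - 2 * (NN H x).card)]
  have hεn : ((n : ℝ) - (NN H x).card) * (n * ε) ≤ (n : ℝ) ^ 2 * ε := by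
    have : 0 ≤ ((NN H x).card : ℝ) * (n * ε) := by positivity
    nlinarith
  nlinarith

lemma sum_aux {ι : Type} (S : Finset ι) (c D e P μ : ℝ) (u v : ι → ℝ) :
    ∑ b ∈ S, (c * (2 * u b - D - 2 * μ * (D - u b - v b) + (1 - μ) * v b - e) + P) =
      c * ((2 + 2 * μ) * ∑ b ∈ S, u b + (1 + μ) * ∑ b ∈ S, v b -
        (1 + 2 * μ) * ((S.card : ℝ) * D) - (S.card : ℝ) * e) +
        (S.card : ℝ) * P := by
  have h : ∀ b ∈ S, c * (2 * u b - D - 2 * μ * (D - u b - v b) + (1 - μ) * v b - e) + P =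
      ((2 + 2 * μ) * c) * u b + ((1 + μ) * c) * v b + (c * (-(1 + 2 * μ) * D - e) + P) :=
    fun b _ => by ring
  rw [Finset.sum_congr rfl h, Finset.sum_add_distrib, Finset.sum_add_distrib, ← Finset.mul_sum,
    ← Finset.mul_sum, Finset.sum_const, nsmul_eq_mul]
  ring

open Classical in
/-- The case of a middle sized set `F`. -/
theorem caseB (a c : ℕ) (μ f1 f2 z1 z2 : ℝ) (hμ : 0 ≤ μ) (hμ1 : μ ≤ 1)
    (hf1 : 0 < f1 ∨ z2 < 1 / 2)
    (lemmaB : ∀ ε : ℝ, 0 < ε → ∃ δ : ℝ, 0 < δ ∧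
    ∀ z f H k s pT pB rT rB : ℝ, Dat δ z f H k s pT pB rT rB → f1 ≤ f → f ≤ f2 →
      z1 ≤ z → z ≤ z2 → XB a c μ ε z f H k s pT pB rT rB)
    (ε : ℝ) (hε : 0 < ε) : ∃ δ : ℝ, 0 < δ ∧ ∀ (n : ℕ) (H : SimpleGraph (Fin n))
    (x : Fin n), 0 < n → (∀ u, ∑ v, ad H u v ≤ ∑ v, ad H x v) →
    (∀ v, (n : ℝ) / 4 ≤ ∑ w, ad H v w) →
    (1 / 4 - δ) * (n : ℝ) ^ 2 ≤ (H.edgeSet.ncard : ℝ) →
    f1 * n ≤ ((FF H x).card : ℝ) → ((FF H x).card : ℝ) ≤ f2 * n →
    z1 * n ≤ ((NN H x).card : ℝ) - n / 2 → ((NN H x).card : ℝ) - n / 2 ≤ z2 * n →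
    ∃ Q : Finset (Sym2 (Fin n)), (∀ e ∈ Q, e ∈ H.edgeSet) ∧
      (∀ e ∈ Q, ∀ f ∈ Q, e ≠ f → CW H 7 e f) ∧
      (H.edgeSet.ncard : ℝ) - (1 / 8 + ε) * (n : ℝ) ^ 2 ≤ (Q.card : ℝ) := by
  obtain ⟨δ', hδ', hB⟩ := lemmaB ε hε
  refine ⟨min (δ' / 2) (ε / 2), lt_min (by linarith) (by linarith), ?_⟩
  intro n H x hn hmax hmin he0 hF hF' hZ hZ'
  have he : (1 / 4 - δ' / 2) * (n : ℝ) ^ 2 ≤ (H.edgeSet.ncard : ℝ) := by
    refine le_trans ?_ he0
    have := min_le_left (δ' / 2) (ε / 2)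
    have h2 : (0 : ℝ) ≤ (n : ℝ) ^ 2 := by positivity
    nlinarith
  have he' : (1 / 4 - ε / 2) * (n : ℝ) ^ 2 ≤ (H.edgeSet.ncard : ℝ) := by
    refine le_trans ?_ he0
    have := min_le_right (δ' / 2) (ε / 2)
    have h2 : (0 : ℝ) ≤ (n : ℝ) ^ 2 := by positivity
    nlinarith
  have hn0 : (0 : ℝ) < n := by exact_mod_cast hn
  have hn1 : (n : ℝ) ≠ 0 := hn0.ne'
  obtain ⟨Q, hQ1, hQ2, hQ3⟩ := master hn H x a c
  refine ⟨Q, hQ1, hQ2, ?_⟩
  obtain ⟨hs1, hs2, hs3, hs4⟩ := sums hn H x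
  obtain ⟨hDx, -, -, hE, -, -, hed, -⟩ := identities H x
  have hmax' : ∀ v, ((NN H v).card : ℝ) ≤ ((NN H x).card : ℝ) := by
    intro v
    obtain ⟨hDv, -⟩ := identities H v
    rw [hDv, hDx]
    exact hmax v
  -- pointwise bound
  have hpt : ∀ b ∈ (NN H x)ᶜ,
      ((n : ℝ) - (NN H x).card) * (2 * ((n : ℝ) * (dc (NN H b) (TT H x) + dc (NN H b) (FF H x))) -
        (NN H x).card -
        2 * μ * ((NN H x).card - (n : ℝ) * (dc (NN H b) (TT H x) + dc (NN H b) (FF H x)) -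
          n * dc (NN H b) (NN H x)ᶜ) + (1 - μ) * (n * dc (NN H b) (NN H x)ᶜ) - n * ε) +
        (μ * (E2 H (TT H x) (TT H x) - 2 * ((NN H x).card - n / 2) ^ 2) -
          ((NN H x).card - n / 2) ^ 2) ≤
      2 * ((n : ℝ) - (NN H x).card) *
      ((n : ℝ) * (dc (NN H b) (TT H x) *
              ((a * dc (NN H b) (TT H x) + c * dc (NN H b) (NN H x)ᶜ) /
                ((a * dc (NN H b) (TT H x) + c * dc (NN H b) (NN H x)ᶜ) +
                 (a * dc (RR H b) (TT H x) + c * dc (RR H b) (NN H x)ᶜ))) +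
           dc (NN H b) (FF H x) *
              ((a * (dc (NN H b) (TT H x) - dc (FF H b) (TT H x)) +
                  c * (dc (NN H b) (NN H x)ᶜ - dc (FF H b) (NN H x)ᶜ)) /
                ((a * (dc (NN H b) (TT H x) - dc (FF H b) (TT H x)) +
                  c * (dc (NN H b) (NN H x)ᶜ - dc (FF H b) (NN H x)ᶜ)) +
                 (a * dc (RR H b) (TT H x) + c * dc (RR H b) (NN H x)ᶜ))))) := by
    intro b hb
    rw [mem_compl] at hb
    have hd := dat_of hn H x (δ' / 2) hmax hmin he b hb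
    rw [show 2 * (δ' / 2) = δ' by ring] at hd
    have hf6 : f1 ≤ ((FF H x).card : ℝ) / n := by
      rw [le_div_iff₀ hn0]; exact hF
    have hf7 : ((FF H x).card : ℝ) / n ≤ f2 := by
      rw [div_le_iff₀ hn0]; exact hF'
    have hz6 : z1 ≤ ((NN H x).card : ℝ) / n - 1 / 2 := by
      rw [le_sub_iff_add_le, le_div_iff₀ hn0]; linarith
    have hz7 : ((NN H x).card : ℝ) / n - 1 / 2 ≤ z2 := by
      rw [sub_le_iff_le_add, div_le_iff₀ hn0]; linarith
    have h := hB _ _ _ _ _ _ _ _ _ hd hf6 hf7 hz6 hz7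
    have hz4 : ((NN H x).card : ℝ) / n - 1 / 2 < 1 / 2 := by
      rcases hf1 with hf1 | hf1
      · have := hd.hzf (by linarith)
        linarith
      · linarith
    obtain ⟨-, -, -, -, -, -, -, hbud⟩ := budgets H x _ rfl hmax' b hb
    rw [card_ZZ_inter] at hbud
    -- name the quantities
    have eD : ((NN H x).card : ℝ) = n * (((NN H x).card : ℝ) / n) := by field_simp
    have eT : ((TT H x).card : ℝ) = n * (((NN H x).card : ℝ) / n - ((FF H x).card : ℝ) / n) := by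
      rw [mul_sub, mul_div_cancel₀ _ hn1, mul_div_cancel₀ _ hn1]; linarith
    have ek := dc_mul hn (NN H b) (TT H x)
    have epT := dc_mul hn (FF H b) (TT H x)
    have erT := dc_mul hn (RR H b) (TT H x)
    rw [eT, ek, epT, erT] at hbud
    rw [eD]
    change 2 * dc (NN H b) (TT H x) * (1 - (a * dc (NN H b) (TT H x) +
        c * dc (NN H b) (NN H x)ᶜ) /
        ((a * dc (NN H b) (TT H x) + c * dc (NN H b) (NN H x)ᶜ) +
          (a * dc (RR H b) (TT H x) + c * dc (RR H b) (NN H x)ᶜ))) +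
      2 * dc (NN H b) (FF H x) *
        (1 - (a * (dc (NN H b) (TT H x) - dc (FF H b) (TT H x)) +
            c * (dc (NN H b) (NN H x)ᶜ - dc (FF H b) (NN H x)ᶜ)) /
          ((a * (dc (NN H b) (TT H x) - dc (FF H b) (TT H x)) +
            c * (dc (NN H b) (NN H x)ᶜ - dc (FF H b) (NN H x)ᶜ)) +
           (a * dc (RR H b) (TT H x) + c * dc (RR H b) (NN H x)ᶜ)))
      ≤ 1 / 2 + (((NN H x).card : ℝ) / n - 1 / 2) + 2 * μ *
          (1 / 2 + (((NN H x).card : ℝ) / n - 1 / 2)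
          - dc (NN H b) (FF H x) - dc (NN H b) (TT H x) - dc (NN H b) (NN H x)ᶜ)
        - (1 - μ) * dc (NN H b) (NN H x)ᶜ
        - (μ * ((1 / 2 + (((NN H x).card : ℝ) / n - 1 / 2) - ((FF H x).card : ℝ) / n) ^ 2 -
          (2 * dc (NN H b) (TT H x) * (dc (FF H b) (TT H x) + dc (RR H b) (TT H x)) -
            dc (FF H b) (TT H x) ^ 2) - 2 * (((NN H x).card : ℝ) / n - 1 / 2) ^ 2) -
              (((NN H x).card : ℝ) / n - 1 / 2) ^ 2) /
          (1 / 2 - (((NN H x).card : ℝ) / n - 1 / 2)) + ε at h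
    generalize ((NN H x).card : ℝ) / n = Δ at h hbud hz4 ⊢
    generalize ((FF H x).card : ℝ) / n = f at h hbud ⊢
    generalize dc (NN H b) (TT H x) = k at h hbud ⊢
    generalize dc (NN H b) (FF H x) = Hh at h hbud ⊢
    generalize dc (NN H b) (NN H x)ᶜ = s at h hbud ⊢
    generalize dc (FF H b) (TT H x) = pT at h hbud ⊢
    generalize dc (RR H b) (TT H x) = rT at h hbud ⊢
    generalize dc (FF H b) (NN H x)ᶜ = pB at h hbud ⊢
    generalize dc (RR H b) (NN H x)ᶜ = rB at h hbud ⊢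
    generalize (a * k + c * s) / (a * k + c * s + (a * rT + c * rB)) = α at h ⊢
    generalize (a * (k - pT) + c * (s - pB)) /
      (a * (k - pT) + c * (s - pB) + (a * rT + c * rB)) = α' at h ⊢
    have hβ : 0 < 1 - Δ := by linarith
    rw [show (1 / 2 - (Δ - 1 / 2)) = 1 - Δ by ring] at h
    have h2 := mul_le_mul_of_nonneg_left h hβ.le
    have key : ∀ X P : ℝ, (1 - Δ) * (X - P / (1 - Δ) + ε) = (1 - Δ) * X - P + (1 - Δ) * ε := by
      intro X P
      have := mul_div_cancel₀ P hβ.ne'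
      rw [mul_add, mul_sub, mul_div_assoc', mul_div_cancel_left₀ _ hβ.ne']
    rw [key] at h2
    have hn2 : (0 : ℝ) < (n : ℝ) ^ 2 := by positivity
    have h3 := mul_le_mul_of_nonneg_left h2 hn2.le
    have hbud2 := mul_le_mul_of_nonneg_left hbud hμ
    clear hd he he0 he' hQ3 hZ hZ' hs1 hs2 hs3 hs4 hed hmax hmax' hmin hB hE h h2 key hbud
    generalize E2 H (TT H x) (TT H x) = ET at hbud2 ⊢
    linarith
  have hsum := Finset.sum_le_sum hpt
  rw [← Finset.mul_sum] at hsum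
  rw [sum_aux, hs1, hs2, hs3] at hsum
  have hm : (0 : ℝ) < (n : ℝ) - (NN H x).card := by
    rw [← hs3]
    have hx : x ∈ (NN H x)ᶜ := by
      rw [mem_compl]
      unfold NN
      simp
    exact_mod_cast Finset.card_pos.mpr ⟨x, hx⟩
  have hsum2 := hsum.trans (mul_le_mul_of_nonneg_left (le_sub_iff_add_le'.mpr hQ3)
    (by linarith : (0 : ℝ) ≤ 2 * ((n : ℝ) - (NN H x).card)))
  have hsum' : ((2 + 2 * μ) * E2 H (NN H x) (NN H x)ᶜ + (1 + μ) * E2 H (NN H x)ᶜ (NN H x)ᶜ -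
        (1 + 2 * μ) * (((n : ℝ) - (NN H x).card) * (NN H x).card) -
          ((n : ℝ) - (NN H x).card) * (n * ε)) +
      (μ * (E2 H (TT H x) (TT H x) - 2 * ((NN H x).card - n / 2) ^ 2) -
          ((NN H x).card - n / 2) ^ 2) ≤
      2 * ((Q.card : ℝ) - (1 / 2) * E2 H (TT H x) (TT H x)) := by
    refine le_of_mul_le_mul_left ?_ hm
    linarith
  have hD0 : (0 : ℝ) ≤ (NN H x).card := Nat.cast_nonneg _
  have hεn : ((n : ℝ) - (NN H x).card) * (n * ε) ≤ (n : ℝ) ^ 2 * ε := by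
    have : 0 ≤ ((NN H x).card : ℝ) * (n * ε) := by positivity
    nlinarith
  have he3 : 0 ≤ μ * ((H.edgeSet.ncard : ℝ) - (1 / 4 - ε / 2) * (n : ℝ) ^ 2) :=
    mul_nonneg hμ (by linarith)
  have he4 : 0 ≤ (1 - μ) * (ε * (n : ℝ) ^ 2) := mul_nonneg (by linarith) (by positivity)
  have he5 : 2 * μ * (H.edgeSet.ncard : ℝ) = μ * (E2 H (TT H x) (TT H x) +
      2 * E2 H (NN H x) (NN H x)ᶜ + E2 H (NN H x)ᶜ (NN H x)ᶜ) := by rw [← hed]; ring
  nlinarith

end Pool.Agent.Helper77.E809.CaseAB
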