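import Pool.Agent.Helper77.E809.Base

set_option autoImplicit false

namespace Pool.Agent.Helper77.E809.CliqueM

open Finset Pool.Agent.Helper77.E809


open Classical in
/-- TARGET: the majority clique. -/
theorem cliqueM {n : ℕ} (H : SimpleGraph (Fin n)) (x : Fin n) (C D : Finset (Fin n))
    (hCB : C ⊆ (NN H x)ᶜ) (hC : ∀ b ∈ C, ∀ b' ∈ C, W H 2 b b') (hDC : D ⊆ C)
    (hD : ∀ b ∈ D, ∀ b' ∈ D, W H 3 b b') :
    ∃ Q : Finset (Sym2 (Fin n)), (∀ e ∈ Q, e ∈ H.edgeSet) ∧
      (∀ e ∈ Q, ∀ f ∈ Q, e ≠ f → CW H 7 e f) ∧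
      (1 / 2) * E2 H (NN H x) (NN H x) +
        ∑ b ∈ C, ∑ v ∈ TT H x, ad H v b +
        ∑ b ∈ C.filter (fun b => (∃ b' ∈ C, H.Adj b b') ∨ b ∈ D), ∑ v ∈ FF H x, ad H v b
        ≤ (Q.card : ℝ) := by
  set A := NN H x with hA
  set T := TT H x with hT
  set F := FF H x with hF
  set D' := C.filter (fun b => (∃ b' ∈ C, H.Adj b b') ∨ b ∈ D) with hD'
  have mA : ∀ v, v ∈ A ↔ H.Adj x v := by intro v; simp [hA, NN]
  have mT : ∀ v, v ∈ T ↔ (H.Adj x v ∧ ∃ w, H.Adj x w ∧ H.Adj v w) := by intro v; simp [hT, TT]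
  have mF : ∀ v, v ∈ F ↔ (H.Adj x v ∧ ¬ ∃ w, H.Adj x w ∧ H.Adj v w) := by
    intro v; simp only [hF, FF, Finset.mem_filter, Finset.mem_univ, true_and]
  have mC : ∀ b ∈ C, ¬ H.Adj x b := by
    intro b hb
    have := hCB hb
    rw [Finset.mem_compl] at this
    rwa [mA] at this
  -- the two families of ordered pairs
  set P1 : Finset (Fin n × Fin n) := (A ×ˢ A).filter (fun p => H.Adj p.1 p.2) with hP1
  set P2 : Finset (Fin n × Fin n) := (T ×ˢ C).filter (fun p => H.Adj p.1 p.2) with hP2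
  set P3 : Finset (Fin n × Fin n) := (F ×ˢ D').filter (fun p => H.Adj p.1 p.2) with hP3
  set g : Fin n × Fin n → Sym2 (Fin n) := fun p => s(p.1, p.2) with hg
  set Q1 := P1.image g with hQ1
  set Q2 := (P2 ∪ P3).image g with hQ2
  have hTA : ∀ v ∈ T, v ∈ A := fun v hv => (mA v).2 ((mT v).1 hv).1
  have hFA : ∀ v ∈ F, v ∈ A := fun v hv => (mA v).2 ((mF v).1 hv).1
  have hD'C : ∀ b ∈ D', b ∈ C := fun b hb => (Finset.mem_filter.1 hb).1
  -- description of the elements
  have hrep : ∀ e ∈ Q1 ∪ Q2, ∃ v w, e = s(v, w) ∧ H.Adj v w ∧ v ∈ A ∧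
      (w ∈ A ∨ (w ∈ C ∧ (v ∈ T ∨ (v ∈ F ∧ w ∈ D')))) := by
    intro e he
    rcases Finset.mem_union.1 he with h | h
    · obtain ⟨⟨v, w⟩, hp, rfl⟩ := Finset.mem_image.1 h
      rw [hP1, Finset.mem_filter, Finset.mem_product] at hp
      exact ⟨v, w, rfl, hp.2, hp.1.1, Or.inl hp.1.2⟩
    · obtain ⟨⟨v, w⟩, hp, rfl⟩ := Finset.mem_image.1 h
      rcases Finset.mem_union.1 hp with h' | h'
      · rw [hP2, Finset.mem_filter, Finset.mem_product] at h'
        exact ⟨v, w, rfl, h'.2, hTA _ h'.1.1, Or.inr ⟨h'.1.2, Or.inl h'.1.1⟩⟩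
      · rw [hP3, Finset.mem_filter, Finset.mem_product] at h'
        exact ⟨v, w, rfl, h'.2, hFA _ h'.1.1, Or.inr ⟨hD'C _ h'.1.2, Or.inr h'.1⟩⟩
  refine ⟨Q1 ∪ Q2, ?_, ?_, ?_⟩
  · intro e he
    obtain ⟨v, w, rfl, hvw, -, -⟩ := hrep e he
    exact hvw
  · intro e he f hf _
    obtain ⟨v, w, rfl, hvw, hvA, hw⟩ := hrep e he
    obtain ⟨v', w', rfl, hvw', hvA', hw'⟩ := hrep f hf
    have hxv : H.Adj x v := (mA v).1 hvA
    have hxv' : H.Adj x v' := (mA v').1 hvA'
    have W2vv' : W H 2 v v' := W_two hxv.symm hxv'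
    refine ⟨w, v, v', w', Sym2.eq_swap, rfl, hvw.symm, hvw', ?_⟩
    rcases hw with hw | ⟨hwC, hw⟩
    · -- w in A
      refine ⟨2, 3, rfl, W2vv', ?_⟩
      exact W_trans (l := 2) (l' := 1) (W_two hvw'.symm hxv'.symm) (W_one ((mA w).1 hw))
    · rcases hw' with hw' | ⟨hwC', hw'⟩
      · refine ⟨2, 3, rfl, W2vv', ?_⟩
        exact W_trans (l := 2) (l' := 1) (W_two ((mA w').1 hw').symm hxv) (W_one hvw)
      · have W2 : W H 2 w' w := hC w' hwC' w hwC
        by_cases hvT : v ∈ T
        · obtain ⟨-, s, hxs, hvs⟩ := (mT v).1 hvT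
          refine ⟨3, 2, rfl, ?_, W2⟩
          exact W_trans (l := 1) (l' := 2) (W_one hvs) (W_two hxs.symm hxv')
        · by_cases hvT' : v' ∈ T
          · obtain ⟨-, s, hxs, hvs⟩ := (mT v').1 hvT'
            refine ⟨3, 2, rfl, ?_, W2⟩
            exact W_trans (l := 2) (l' := 1) (W_two hxv.symm hxs) (W_one hvs.symm)
          · have h1 : w ∈ D' := by
              rcases hw with h | h
              · exact absurd h hvT
              · exact h.2
            have h2 : w' ∈ D' := by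
              rcases hw' with h | h
              · exact absurd h hvT'
              · exact h.2
            refine ⟨2, 3, rfl, W2vv', ?_⟩
            rw [hD', Finset.mem_filter] at h1 h2
            rcases h1.2 with ⟨b, hbC, hb⟩ | h1D
            · exact W_trans (l := 2) (l' := 1) (hC w' hwC' b hbC) (W_one hb.symm)
            · rcases h2.2 with ⟨b, hbC, hb⟩ | h2D
              · exact W_trans (l := 1) (l' := 2) (W_one hb) (hC b hbC w hwC)
              · exact hD w' h2D w h1D
  · -- counting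
    have hdisj : Disjoint Q1 Q2 := by
      rw [Finset.disjoint_left]
      intro e h1 h2
      obtain ⟨⟨v, w⟩, hp, rfl⟩ := Finset.mem_image.1 h1
      rw [hP1, Finset.mem_filter, Finset.mem_product] at hp
      obtain ⟨⟨v', w'⟩, hp', he⟩ := Finset.mem_image.1 h2
      have hw'C : w' ∈ C := by
        rcases Finset.mem_union.1 hp' with h' | h'
        · rw [hP2, Finset.mem_filter, Finset.mem_product] at h'
          exact h'.1.2
        · rw [hP3, Finset.mem_filter, Finset.mem_product] at h'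
          exact hD'C _ h'.1.2
      have hw'A : w' ∈ A := by
        simp only [hg, Sym2.eq_iff] at he
        rcases he with ⟨-, h⟩ | ⟨-, h⟩
        · rw [h]; exact hp.1.2
        · rw [h]; exact hp.1.1
      exact mC w' hw'C ((mA w').1 hw'A)
    rw [Finset.card_union_of_disjoint hdisj]
    push_cast
    -- Q1
    have c1 : E2 H A A = (P1.card : ℝ) := by
      unfold E2 ad
      rw [← Finset.sum_product', Finset.sum_boole]
    have c1' : P1.card ≤ 2 * Q1.card := by
      rw [hQ1]
      apply Finset.card_le_mul_card_image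
      intro e he
      obtain ⟨⟨v, w⟩, hp, rfl⟩ := Finset.mem_image.1 he
      have hsub : P1.filter (fun a => g a = g (v, w)) ⊆ {(v, w), (w, v)} := by
        intro p hp
        rw [Finset.mem_filter] at hp
        have := hp.2
        simp only [hg, Sym2.eq_iff] at this
        rw [Finset.mem_insert, Finset.mem_singleton]
        rcases this with ⟨h1, h2⟩ | ⟨h1, h2⟩
        · left; exact Prod.ext h1 h2
        · right; exact Prod.ext h1 h2
      exact (Finset.card_le_card hsub).trans Finset.card_le_two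
    -- Q2
    have hTF : Disjoint P2 P3 := by
      rw [Finset.disjoint_left]
      intro p h1 h2
      rw [hP2, Finset.mem_filter, Finset.mem_product] at h1
      rw [hP3, Finset.mem_filter, Finset.mem_product] at h2
      exact ((mF _).1 h2.1.1).2 ((mT _).1 h1.1.1).2
    have c2 : Q2.card = P2.card + P3.card := by
      rw [hQ2, Finset.card_image_of_injOn, Finset.card_union_of_disjoint hTF]
      intro p hp q hq hpq
      have key : ∀ p ∈ P2 ∪ P3, p.1 ∈ A ∧ p.2 ∈ C := by
        intro p hp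
        rcases Finset.mem_union.1 hp with h' | h'
        · rw [hP2, Finset.mem_filter, Finset.mem_product] at h'
          exact ⟨hTA _ h'.1.1, h'.1.2⟩
        · rw [hP3, Finset.mem_filter, Finset.mem_product] at h'
          exact ⟨hFA _ h'.1.1, hD'C _ h'.1.2⟩
      have kp := key p hp
      have kq := key q hq
      simp only [hg, Sym2.eq_iff] at hpq
      rcases hpq with ⟨h1, h2⟩ | ⟨h1, h2⟩
      · exact Prod.ext h1 h2
      · exfalso
        apply mC q.2 kq.2
        rw [← h1]
        exact (mA _).1 kp.1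
    have c3 : ∑ b ∈ C, ∑ v ∈ T, ad H v b = (P2.card : ℝ) := by
      rw [Finset.sum_comm]
      unfold ad
      rw [← Finset.sum_product', Finset.sum_boole]
    have c4 : ∑ b ∈ D', ∑ v ∈ F, ad H v b = (P3.card : ℝ) := by
      rw [Finset.sum_comm]
      unfold ad
      rw [← Finset.sum_product', Finset.sum_boole]
    have c1'' : (P1.card : ℝ) ≤ 2 * (Q1.card : ℝ) := by exact_mod_cast c1'
    rw [c1, c3, c4, c2]
    push_cast
    linarith

end Pool.Agent.Helper77.E809.CliqueM
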