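import Mathlib

set_option autoImplicit false

namespace Pool.Agent.Helper77.E809.Maj

open Finset


/-- TARGET 1. -/
theorem maj_one (z f : ℝ) (hz : 0 ≤ z) (hz1 : z ≤ 1 / 2) (hf : 6 / 25 ≤ f) (hf1 : f ≤ 1 / 2)
    (ht : 0 ≤ 1 / 2 + z - f) :
    4 * (((1 / 2 + z - f) ^ 2 / 2 - z ^ 2) * (6 + 4 * z)) ≤ 1 + 6 * z := by
  have h1 : (1 / 2 + z - f) ^ 2 ≤ (13 / 50 + z) ^ 2 := by
    apply pow_le_pow_left₀ ht; linarith
  have h2 : 4 * (((1 / 2 + z - f) ^ 2 / 2 - z ^ 2) * (6 + 4 * z)) ≤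
      4 * (((13 / 50 + z) ^ 2 / 2 - z ^ 2) * (6 + 4 * z)) := by
    nlinarith
  have h3 : 4 * (((13 / 50 + z) ^ 2 / 2 - z ^ 2) * (6 + 4 * z)) ≤ 1 + 6 * z := by
    nlinarith [mul_nonneg hz hz, mul_nonneg hz (mul_nonneg hz hz), sq_nonneg (z - 1/100), sq_nonneg (z-1/10)]
  linarith

/-- the discriminant polynomial is nonnegative -/
theorem disc_nonneg (z : ℝ) (hz : 0 ≤ z) (hz1 : z ≤ 1 / 2) :
    0 ≤ (3616 / 625) * z ^ 0 + (-32512 / 625) * z ^ 1 + (-2094208 / 16875) * z ^ 2 + (1074176 / 675) * z ^ 3 + (27198464 / 18225) * z ^ 4 + (-1146880 / 243) * z ^ 5 + (-262144 / 81) * z ^ 6 := by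
  rcases le_total z (1 / 10) with h | h
  · have hu : 0 ≤ z - 0 := by linarith
    have hv : 0 ≤ (1 / 10) - z := by linarith
    have key : (3616 / 625) * z ^ 0 + (-32512 / 625) * z ^ 1 + (-2094208 / 16875) * z ^ 2 + (1074176 / 675) * z ^ 3 + (27198464 / 18225) * z ^ 4 + (-1146880 / 243) * z ^ 5 + (-262144 / 81) * z ^ 6 = 5785600 * (z - 0) ^ 0 * ((1 / 10) - z) ^ 6 + 29511680 * (z - 0) ^ 1 * ((1 / 10) - z) ^ 5 + (1607401472 / 27) * (z - 0) ^ 2 * ((1 / 10) - z) ^ 4 + (1628643328 / 27) * (z - 0) ^ 3 * ((1 / 10) - z) ^ 3 + (23504476160 / 729) * (z - 0) ^ 4 * ((1 / 10) - z) ^ 2 + (6389936128 / 729) * (z - 0) ^ 5 * ((1 / 10) - z) ^ 1 + (752943104 / 729) * (z - 0) ^ 6 * ((1 / 10) - z) ^ 0 := by ring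
    rw [key]
    positivity
  · rcases le_total z (1 / 5) with h' | h'
    · have hu : 0 ≤ z - (1 / 10) := by linarith
      have hv : 0 ≤ (1 / 5) - z := by linarith
      have key : (3616 / 625) * z ^ 0 + (-32512 / 625) * z ^ 1 + (-2094208 / 16875) * z ^ 2 + (1074176 / 675) * z ^ 3 + (27198464 / 18225) * z ^ 4 + (-1146880 / 243) * z ^ 5 + (-262144 / 81) * z ^ 6 = (752943104 / 729) * (z - (1 / 10)) ^ 0 * ((1 / 5) - z) ^ 6 + (2645381120 / 729) * (z - (1 / 10)) ^ 1 * ((1 / 5) - z) ^ 5 + (4781701120 / 729) * (z - (1 / 10)) ^ 2 * ((1 / 5) - z) ^ 4 + (8935890944 / 729) * (z - (1 / 10)) ^ 3 * ((1 / 5) - z) ^ 3 + (13178503168 / 729) * (z - (1 / 10)) ^ 4 * ((1 / 5) - z) ^ 2 + (9918328832 / 729) * (z - (1 / 10)) ^ 5 * ((1 / 5) - z) ^ 1 + (2784094208 / 729) * (z - (1 / 10)) ^ 6 * ((1 / 5) - z) ^ 0 := by ring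
      rw [key]
      positivity
    · have hu : 0 ≤ z - (1 / 5) := by linarith
      have hv : 0 ≤ (1 / 2) - z := by linarith
      have key : (3616 / 625) * z ^ 0 + (-32512 / 625) * z ^ 1 + (-2094208 / 16875) * z ^ 2 + (1074176 / 675) * z ^ 3 + (27198464 / 18225) * z ^ 4 + (-1146880 / 243) * z ^ 5 + (-262144 / 81) * z ^ 6 = (2784094208 / 531441) * (z - (1 / 5)) ^ 0 * ((1 / 2) - z) ^ 6 + (12354424832 / 177147) * (z - (1 / 5)) ^ 1 * ((1 / 2) - z) ^ 5 + (21298823168 / 59049) * (z - (1 / 5)) ^ 2 * ((1 / 2) - z) ^ 4 + (459278147584 / 531441) * (z - (1 / 5)) ^ 3 * ((1 / 2) - z) ^ 3 + (175348754432 / 177147) * (z - (1 / 5)) ^ 4 * ((1 / 2) - z) ^ 2 + (9524572160 / 19683) * (z - (1 / 5)) ^ 5 * ((1 / 2) - z) ^ 1 + (31265177600 / 531441) * (z - (1 / 5)) ^ 6 * ((1 / 2) - z) ^ 0 := by ring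
      rw [key]
      positivity

/-- the case `f = 6 / 25` -/
theorem core (z m : ℝ) (hz : 0 ≤ z) (hz1 : z ≤ 1 / 2) (hm : 0 ≤ m) :
    0 ≤ (1 + 6 * z) * m - 4 * ((4 * (1 + 2 * z) * m + 12 / 25 * (1 + 6 * z)) *
      (m * (13 / 50 + z) - m ^ 2 / 2 - z ^ 2)) := by
  have hD := disc_nonneg z hz hz1
  set A : ℝ := 8 * (1 + 2 * z) with hA
  set B : ℝ := -16 * (1 + 2 * z) * (13 / 50 + z) + 24 / 25 * (1 + 6 * z) -
    48 / 25 * (1 + 6 * z) * z ^ 2 * (20 / 9) ^ 2 with hB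
  set C : ℝ := (1 + 6 * z) + 16 * (1 + 2 * z) * z ^ 2 - 48 / 25 * (1 + 6 * z) * (13 / 50 + z) +
    96 / 25 * (1 + 6 * z) * z ^ 2 * (20 / 9) with hC
  have hApos : 0 < A := by rw [hA]; linarith
  have hQ : 0 ≤ A * m ^ 2 + B * m + C := by
    have h1 : 4 * A * (A * m ^ 2 + B * m + C) = (2 * A * m + B) ^ 2 + (4 * A * C - B ^ 2) := by ring
    have h2 : 4 * A * C - B ^ 2 = (3616 / 625) * z ^ 0 + (-32512 / 625) * z ^ 1 + (-2094208 / 16875) * z ^ 2 + (1074176 / 675) * z ^ 3 + (27198464 / 18225) * z ^ 4 + (-1146880 / 243) * z ^ 5 + (-262144 / 81) * z ^ 6 := by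
      rw [hA, hB, hC]; ring
    have h3 : 0 ≤ 4 * A * (A * m ^ 2 + B * m + C) := by
      rw [h1, h2]
      have := sq_nonneg (2 * A * m + B)
      linarith
    by_contra hcon
    push Not at hcon
    have := mul_neg_of_pos_of_neg (show 0 < 4 * A by linarith) hcon
    linarith
  have h4 : (1 + 6 * z) * m - 4 * ((4 * (1 + 2 * z) * m + 12 / 25 * (1 + 6 * z)) *
      (m * (13 / 50 + z) - m ^ 2 / 2 - z ^ 2)) = m * (A * m ^ 2 + B * m + C) +
      48 / 25 * (1 + 6 * z) * z ^ 2 * (1 - 20 / 9 * m) ^ 2 := by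
    rw [hA, hB, hC]; ring
  rw [h4]
  have h5 : 0 ≤ m * (A * m ^ 2 + B * m + C) := mul_nonneg hm hQ
  have h6 : 0 ≤ 48 / 25 * (1 + 6 * z) * z ^ 2 * (1 - 20 / 9 * m) ^ 2 := by positivity
  linarith

/-- TARGET 2. Numerically the ratio of the two sides is at most 0.9834 (maximum at f = 6/25,
z = 0.135, m = 0.337). -/
theorem maj_two (z f m : ℝ) (hz : 0 ≤ z) (hz1 : z ≤ 1 / 2) (hf : 6 / 25 ≤ f) (hf1 : f ≤ 1 / 2)
    (hm : 0 ≤ m) (hmt : m ≤ 1 / 2 + z - f) :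
    4 * ((4 * (1 + 2 * z) * m + 2 * f * (1 + 6 * z)) *
      (m * (1 / 2 + z - f) - m ^ 2 / 2 - z ^ 2)) ≤ (1 + 6 * z) * m := by
  rcases le_total (11 / 500) m with hmA | hmB
  · -- case A
    obtain ⟨a, rfl⟩ : ∃ a, f = 6 / 25 + a := ⟨f - 6 / 25, by ring⟩
    have ha : 0 ≤ a := by linarith
    have hP := core z m hz hz1 hm
    have hG1 : 0 ≤ 2 * (1 + 6 * z) * (z - m / 2) ^ 2 +
        m * (m * (9 / 2 + 11 * z) - 1 / 25 - 6 / 25 * z) := by
      have h1 : 0 ≤ m * (9 / 2 + 11 * z) - 1 / 25 - 6 / 25 * z := by nlinarith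
      have h2 : 0 ≤ m * (m * (9 / 2 + 11 * z) - 1 / 25 - 6 / 25 * z) := mul_nonneg hm h1
      have h3 : 0 ≤ 2 * (1 + 6 * z) * (z - m / 2) ^ 2 := by positivity
      linarith
    have h4 := mul_nonneg ha hG1
    have h5 : 0 ≤ 8 * (1 + 6 * z) * m * a ^ 2 := by positivity
    nlinarith
  · -- case B
    rcases le_total (m * (1 / 2 + z - f) - m ^ 2 / 2 - z ^ 2) 0 with h0 | h0
    · have h1 : 0 ≤ 4 * (1 + 2 * z) * m + 2 * f * (1 + 6 * z) := by positivity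
      have h2 := mul_nonneg h1 (neg_nonneg.2 h0)
      have h3 : 0 ≤ (1 + 6 * z) * m := by positivity
      linarith
    · have hz2 : z ≤ 9 / 100 := by
        by_contra hcon
        push Not at hcon
        nlinarith
      have h1 : m * (1 / 2 + z - f) - m ^ 2 / 2 - z ^ 2 ≤ m * (59 / 100 - f) := by nlinarith
      have h2 : 4 * (1 + 2 * z) * m + 2 * f * (1 + 6 * z) ≤ (11 / 125 + 2 * f) * (1 + 6 * z) := by
        nlinarith
      have h3 : (11 / 125 + 2 * f) * (59 / 100 - f) ≤ 1 / 4 := by nlinarith [sq_nonneg (f - 273/1000)]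
      have hf2 : 0 ≤ 59 / 100 - f := by linarith
      have h4 : (4 * (1 + 2 * z) * m + 2 * f * (1 + 6 * z)) *
          (m * (1 / 2 + z - f) - m ^ 2 / 2 - z ^ 2) ≤
          ((11 / 125 + 2 * f) * (1 + 6 * z)) * (m * (59 / 100 - f)) :=
        mul_le_mul h2 h1 h0 (by positivity)
      have h5 : ((11 / 125 + 2 * f) * (1 + 6 * z)) * (m * (59 / 100 - f)) ≤
          (1 + 6 * z) * m * (1 / 4) := by
        have h6 : 0 ≤ (1 + 6 * z) * m := by positivity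
        have h7 := mul_le_mul_of_nonneg_left h3 h6
        calc ((11 / 125 + 2 * f) * (1 + 6 * z)) * (m * (59 / 100 - f)) =
            (1 + 6 * z) * m * ((11 / 125 + 2 * f) * (59 / 100 - f)) := by ring
          _ ≤ _ := h7
      linarith

end Pool.Agent.Helper77.E809.Maj
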