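import Pool.Agent.Helper77.E809.Base
import Pool.Agent.Helper77.E809.Budgets
import Pool.Agent.Helper77.E809.CliqueM
import Pool.Agent.Helper77.E809.Maj

set_option autoImplicit false

namespace Pool.Agent.Helper77.E809.CaseC

open Finset Pool.Agent.Helper77.E809 Pool.Agent.Helper77.E809.Budgets Pool.Agent.Helper77.E809.CliqueM Pool.Agent.Helper77.E809.Maj










theorem h170_lp (R g q Y ay as ly ls : ℝ) (hR : 2 ≤ R) (hg : 0 ≤ g) (hay : 0 ≤ ay)
    (hly : 0 ≤ ly) (hls : 0 ≤ ls) (h1 : as + ls ≤ 2 * q) (h2 : ay + ly ≤ Y) (h3 : ls ≤ as) (K : ℝ)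
    (hK1 : 2 * R - 2 ≤ K) (hK2 : R + 2 * g ≤ K) :
    2 * q + R * (2 * ay + as) - 2 * ay - 2 * as + 2 * g * (ls + ly) ≤ K * (q + Y) := by
  have e1 : 2 * q + R * (2 * ay + as) - 2 * ay - 2 * as + 2 * g * (ls + ly) =
      ((2 * R - 2) * ay + 2 * g * ly) + (2 * (q - ls - (as - ls) / 2) + (R - 1) * (as - ls) + (R + 2 * g) * ls) := by
    ring
  have e2 : (2 * R - 2) * ay ≤ K * ay := mul_le_mul_of_nonneg_right hK1 hay
  have e3 : 2 * g * ly ≤ K * ly := mul_le_mul_of_nonneg_right (by linarith) hly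
  have hK0 : 0 ≤ K := by linarith
  have e4 : K * (ay + ly) ≤ K * Y := mul_le_mul_of_nonneg_left h2 hK0
  have e5 : 2 * (q - ls - (as - ls) / 2) ≤ K * (q - ls - (as - ls) / 2) :=
    mul_le_mul_of_nonneg_right (by linarith) (by linarith)
  have e6 : (R - 1) * (as - ls) ≤ K / 2 * (as - ls) := mul_le_mul_of_nonneg_right (by linarith) (by linarith)
  have e7 : (R + 2 * g) * ls ≤ K * ls := mul_le_mul_of_nonneg_right hK2 hls
  rw [e1]
  have e8 : K * (q + Y) = K * (q - ls - (as - ls) / 2) + K / 2 * (as - ls) + K * ls + K * Y := by ring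
  rw [e8]
  linarith

theorem h170_real (ε δ t f E q Y c l ay as ly ls m ee Loss : ℝ) (hε : 0 < ε) (hε1 : ε ≤ 1)
    (hδ : δ = ε ^ 2 / 2000)
    (ht : 0 ≤ t) (hf : 6 / 25 ≤ f) (hΔ1 : t + f ≤ 1) (hΔ2 : 2 * ee ≤ t + f) (hee : 1 / 4 - δ ≤ ee)
    (hE1 : ε ≤ 2 * E) (hE2 : 2 * E ≤ t ^ 2)
    (hid : ee = E + (t + f) * (1 - (t + f)) - Y - q)
    (hq : 0 ≤ q) (hY : 0 ≤ Y) (hay : 0 ≤ ay) (hly : 0 ≤ ly) (hls : 0 ≤ ls)
    (h1 : as + ls ≤ 2 * q) (h2 : ay + ly ≤ Y) (h3 : ls ≤ as)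
    (h4 : (3 * (t + f) - 1) / 2 * c ≤ 2 * ay + as) (h5 : m * l ≤ ls + ly) (hm : 0 ≤ m)
    (hmt : m ≤ t) (hmE : E = m * t - m ^ 2 / 2)
    (hLoss : Loss ≤ q + (t + f) * c - ay - as + f * l) : Loss ≤ 1 / 8 + ε := by
  have hδ0 : 0 < δ := by rw [hδ]; positivity
  have hδ1 : δ ≤ 1 / 2000 := by rw [hδ]; nlinarith
  have hδε : δ ≤ ε / 2000 := by rw [hδ]; nlinarith
  set Δ := t + f with hΔ
  have hΔlow : 1 / 2 - 2 * δ ≤ Δ := by linarith
  have hqY : q + Y ≤ E - (Δ - 1 / 2) ^ 2 + δ := by nlinarith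
  have ht1 : t ≤ 1 := by linarith
  have hf1 : f ≤ 1 / 2 := by
    by_contra hc
    push Not at hc
    have a1 : t ≤ Δ - 1 / 2 := by linarith
    have a2 : t ^ 2 ≤ (Δ - 1 / 2) ^ 2 := pow_le_pow_left₀ ht a1 2
    have a3 : ε ≤ 2 * δ := by nlinarith
    linarith
  have hz : ∃ z : ℝ, 0 ≤ z ∧ z ≤ 1 / 2 ∧ z ^ 2 ≤ (Δ - 1 / 2) ^ 2 ∧ Δ - 1 / 2 ≤ z ∧
      (z = Δ - 1 / 2 ∨ (z = 0 ∧ Δ < 1 / 2)) := by
    by_cases hc : 0 ≤ Δ - 1 / 2
    · exact ⟨Δ - 1 / 2, hc, by linarith, le_rfl, le_rfl, Or.inl rfl⟩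
    · push Not at hc
      exact ⟨0, le_rfl, by norm_num, by nlinarith [sq_nonneg (Δ - 1 / 2)], hc.le, Or.inr ⟨rfl, by linarith⟩⟩
  obtain ⟨z, hz0, hz1, hz2, hz3, hz4⟩ := hz
  have hqz : q + Y ≤ E - z ^ 2 + δ := by linarith
  have htz : t ≤ 1 / 2 + z - f := by linarith
  have hmε : ε / 2 ≤ m := by
    have : m * t ≤ m * 1 := mul_le_mul_of_nonneg_left ht1 hm
    nlinarith [sq_nonneg m]
  have hm0 : 0 < m := by linarith
  set κ := (3 * Δ - 1) / 2 with hκ
  have hκ0 : 0 < κ := by rw [hκ]; linarith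
  set R := 2 * Δ / κ with hR
  have hRκ : R * κ = 2 * Δ := by rw [hR]; field_simp
  have hR2 : 2 ≤ R := by
    rw [hR, le_div_iff₀ hκ0, hκ]; linarith
  set Rz := 4 * (1 + 2 * z) / (1 + 6 * z) with hRz
  have h6z : 0 < 1 + 6 * z := by linarith
  have hRz4 : Rz ≤ 4 := by
    rw [hRz, div_le_iff₀ h6z]; linarith
  have hRz0 : 0 ≤ Rz := by rw [hRz]; positivity
  have hRRz : R ≤ Rz + 64 * δ := by
    rcases hz4 with hz5 | ⟨hz5, hz6⟩
    · have : R = Rz := by
        rw [hR, hRz, hκ, hz5]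
        have h7 : (3 * Δ - 1) / 2 ≠ 0 := by rw [← hκ]; exact hκ0.ne'
        have h8 : 1 + 6 * (Δ - 1 / 2) ≠ 0 := by rw [← hz5]; exact h6z.ne'
        rw [div_eq_div_iff h7 h8]; ring
      linarith
    · have h9 : Rz = 4 := by rw [hRz, hz5]; norm_num
      rw [h9, hR, div_le_iff₀ hκ0, hκ]
      nlinarith
  have hΔc : 2 * Δ * c ≤ R * (2 * ay + as) := by
    have h7 : R * (κ * c) ≤ R * (2 * ay + as) := mul_le_mul_of_nonneg_left h4 (by linarith)
    have h8 : R * (κ * c) = 2 * Δ * c := by rw [← mul_assoc, hRκ]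
    linarith
  set g := f / m with hg
  have hg0 : 0 ≤ g := by rw [hg]; apply div_nonneg <;> linarith
  have hgm : g * m = f := by rw [hg]; field_simp
  have hfl : f * l ≤ g * (ls + ly) := by
    have h7 : g * (m * l) ≤ g * (ls + ly) := mul_le_mul_of_nonneg_left h5 hg0
    have h8 : g * (m * l) = f * l := by rw [← mul_assoc, hgm]
    linarith
  have hL2 : 2 * Loss ≤ 2 * q + R * (2 * ay + as) - 2 * ay - 2 * as + 2 * g * (ls + ly) := by linarith
  have hEz0 : 0 ≤ E - z ^ 2 + δ := by linarith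
  have hEhalf : E ≤ 1 / 2 := by nlinarith
  have hEz1 : E - z ^ 2 + δ ≤ 1 := by nlinarith [sq_nonneg z]
  suffices hs : ∀ K : ℝ, 0 ≤ K → (K = 2 * R - 2 ∨ K = R + 2 * g) → K * (q + Y) ≤ 1 / 4 + 2 * ε by
    rcases le_total (2 * R - 2) (R + 2 * g) with hc | hc
    · have h7 := h170_lp R g q Y ay as ly ls hR2 hg0 hay hly hls h1 h2 h3 (R + 2 * g) hc le_rfl
      have h8 := hs (R + 2 * g) (by linarith) (Or.inr rfl)
      linarith
    · have h7 := h170_lp R g q Y ay as ly ls hR2 hg0 hay hly hls h1 h2 h3 (2 * R - 2) le_rfl hc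
      have h8 := hs (2 * R - 2) (by linarith) (Or.inl rfl)
      linarith
  intro K hK0 hK
  have h10 : K * (q + Y) ≤ K * (E - z ^ 2 + δ) := mul_le_mul_of_nonneg_left hqz hK0
  refine h10.trans ?_
  have hE' : 0 ≤ 1 / 2 + z - f := ht.trans htz
  rcases hK with hK | hK
  · have h11 : K ≤ (2 * Rz - 2) + 128 * δ := by linarith
    have h12 : K * (E - z ^ 2 + δ) ≤ ((2 * Rz - 2) + 128 * δ) * (E - z ^ 2 + δ) :=
      mul_le_mul_of_nonneg_right h11 hEz0
    have h13 : (2 * Rz - 2) * (E - z ^ 2) ≤ 1 / 4 := by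
      have h14 := maj_one z f hz0 hz1 hf hf1 hE'
      have h15 : 2 * Rz - 2 = (6 + 4 * z) / (1 + 6 * z) := by
        rw [hRz]; field_simp; ring
      rw [h15, div_mul_eq_mul_div, div_le_iff₀ h6z]
      have h16 : E ≤ (1 / 2 + z - f) ^ 2 / 2 := by
        have := pow_le_pow_left₀ ht htz 2
        linarith
      have h17 : (6 + 4 * z) * (E - z ^ 2) ≤ (6 + 4 * z) * ((1 / 2 + z - f) ^ 2 / 2 - z ^ 2) :=
        mul_le_mul_of_nonneg_left (by linarith) (by linarith)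
      linarith
    have h18 : ((2 * Rz - 2) + 128 * δ) * (E - z ^ 2 + δ) = (2 * Rz - 2) * (E - z ^ 2) +
      (2 * Rz - 2) * δ + 128 * δ * (E - z ^ 2 + δ) := by ring
    have h19 : (2 * Rz - 2) * δ ≤ 6 * δ := mul_le_mul_of_nonneg_right (by linarith) hδ0.le
    have h20 : 128 * δ * (E - z ^ 2 + δ) ≤ 128 * δ * 1 := mul_le_mul_of_nonneg_left hEz1 (by positivity)
    linarith
  · have h11 : K ≤ (Rz + 2 * g) + 64 * δ := by linarith
    have h12 : K * (E - z ^ 2 + δ) ≤ ((Rz + 2 * g) + 64 * δ) * (E - z ^ 2 + δ) :=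
      mul_le_mul_of_nonneg_right h11 hEz0
    have h13 : (Rz + 2 * g) * (E - z ^ 2) ≤ 1 / 4 := by
      have h14 := maj_two z f m hz0 hz1 hf hf1 hm (hmt.trans htz)
      have h15 : Rz + 2 * g = (4 * (1 + 2 * z) * m + 2 * f * (1 + 6 * z)) / ((1 + 6 * z) * m) := by
        rw [hRz, hg]; field_simp
      rw [h15, div_mul_eq_mul_div, div_le_iff₀ (by positivity)]
      have h16 : E ≤ m * (1 / 2 + z - f) - m ^ 2 / 2 := by
        have := mul_le_mul_of_nonneg_left htz hm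
        linarith
      have h17 : (4 * (1 + 2 * z) * m + 2 * f * (1 + 6 * z)) * (E - z ^ 2) ≤
          (4 * (1 + 2 * z) * m + 2 * f * (1 + 6 * z)) * (m * (1 / 2 + z - f) - m ^ 2 / 2 - z ^ 2) :=
        mul_le_mul_of_nonneg_left (by linarith) (by
          have : 0 ≤ f := by linarith
          positivity)
      linarith
    have h18 : ((Rz + 2 * g) + 64 * δ) * (E - z ^ 2 + δ) = (Rz + 2 * g) * (E - z ^ 2) +
      Rz * δ + 2 * g * δ + 64 * δ * (E - z ^ 2 + δ) := by ring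
    have h19 : Rz * δ ≤ 4 * δ := mul_le_mul_of_nonneg_right hRz4 hδ0.le
    have h20 : 64 * δ * (E - z ^ 2 + δ) ≤ 64 * δ * 1 := mul_le_mul_of_nonneg_left hEz1 (by positivity)
    have h21 : 2 * g * δ ≤ ε / 1000 := by
      have h22 : g * m ≤ 1 / 2 := by rw [hgm]; exact hf1
      have h23 : g * (ε / 2) ≤ 1 / 2 := (mul_le_mul_of_nonneg_left hmε hg0).trans h22
      have h24 : 2 * g * δ = (g * (ε / 2)) * (ε / 500) := by rw [hδ]; ring
      rw [h24]
      have := mul_le_mul_of_nonneg_right h23 (show 0 ≤ ε / 500 by positivity)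
      linarith
    linarith
-- END REAL

theorem h170_n1 (e E N t f SY SS : ℝ) (hN : 0 < N)
    (h : e = E * N ^ 2 + ((t + f) * N * (N - (t + f) * N) - SY - SS) + SS / 2) :
    e / N ^ 2 = E + (t + f) * (1 - (t + f)) - SY / N ^ 2 - SS / (2 * N ^ 2) := by
  rw [h]; field_simp; ring

theorem h170_n2 (S N : ℝ) (hN : 0 < N) : 2 * (S / (2 * N ^ 2)) = S / N ^ 2 := by field_simp

theorem h170_n3 (c t f N : ℝ) (hN : 0 < N) : (3 * (t + f) - 1) / 2 * (c / N) =
    (c * ((3 * ((t + f) * N) - N) / 2)) / N ^ 2 := by field_simp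

theorem h170_n4 (m c N : ℝ) (hN : 0 < N) : m * (c / N) = (c * (N * m)) / N ^ 2 := by field_simp

theorem h170_n5 (S t f c l YB SB N : ℝ) (hN : 0 < N) :
    S / (2 * N ^ 2) + (t + f) * (c / N) - YB / N ^ 2 - SB / N ^ 2 + f * (l / N) =
    (1 / 2 * S + (c * ((t + f) * N) - YB - SB) + l * (f * N)) / N ^ 2 := by
  field_simp; ring

theorem h170_n6 (e N : ℝ) (hN : 0 < N) : 2 * (e / N ^ 2) * N ^ 2 = 2 * e := by field_simp

open Classical in
/-- TARGET. -/
theorem caseC (ε : ℝ) (hε : 0 < ε) : ∃ δ : ℝ, 0 < δ ∧ ∀ (n : ℕ) (H : SimpleGraph (Fin n))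
    (x : Fin n), 0 < n → (∀ u, ∑ v, ad H u v ≤ ∑ v, ad H x v) →
    (1 / 4 - δ) * (n : ℝ) ^ 2 ≤ (H.edgeSet.ncard : ℝ) →
    (6 / 25 : ℝ) * n ≤ ((FF H x).card : ℝ) →
    ε * (n : ℝ) ^ 2 ≤ E2 H (TT H x) (TT H x) →
    ∃ Q : Finset (Sym2 (Fin n)), (∀ e ∈ Q, e ∈ H.edgeSet) ∧
      (∀ e ∈ Q, ∀ f ∈ Q, e ≠ f → CW H 7 e f) ∧
      (H.edgeSet.ncard : ℝ) - (1 / 8 + ε) * (n : ℝ) ^ 2 ≤ (Q.card : ℝ) := by
  set ε' := min ε 1 with hε'
  have hε0 : 0 < ε' := lt_min hε one_pos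
  have hε1 : ε' ≤ 1 := min_le_right _ _
  have hεε : ε' ≤ ε := min_le_left _ _
  refine ⟨ε' ^ 2 / 2000, by positivity, ?_⟩
  intro n H x hn hmax hedge hFbig hTbig
  have hN : (0:ℝ) < n := by exact_mod_cast hn
  obtain ⟨i1, i2, i3, i4, -, i6, i7, i8, -⟩ := identities H x
  have i1' : ∀ b, ((NN H b).card : ℝ) = ∑ v, ad H b v := fun b => (identities H b).1
  set N : ℝ := (n : ℝ) with hNdef
  set A := NN H x with hA
  set T := TT H x with hT
  set F := FF H x with hF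
  set B := Aᶜ with hB
  set D : ℝ := (A.card : ℝ) with hD
  set e : ℝ := (H.edgeSet.ncard : ℝ) with he
  set nb : Fin n → ℝ := fun b => ((NN H b).card : ℝ) with hnb
  set kk : Fin n → ℝ := fun b => ∑ v ∈ T, ad H v b with hkk
  set hh : Fin n → ℝ := fun b => ∑ v ∈ F, ad H v b with hhh
  set ss : Fin n → ℝ := fun b => ∑ v ∈ B, ad H v b with hss
  set yy : Fin n → ℝ := fun b => D - nb b with hyy
  have hkk0 : ∀ b, 0 ≤ kk b := fun b => Finset.sum_nonneg (fun v _ => ad_nonneg H v b)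
  have hhh0 : ∀ b, 0 ≤ hh b := fun b => Finset.sum_nonneg (fun v _ => ad_nonneg H v b)
  have hss0 : ∀ b, 0 ≤ ss b := fun b => Finset.sum_nonneg (fun v _ => ad_nonneg H v b)
  have hyy0 : ∀ b, 0 ≤ yy b := by
    intro b
    have := hmax b
    rw [← i1' b, ← i1' x] at this
    simp only [hyy, hnb]
    linarith
  have hsplit : ∀ b, nb b = kk b + hh b + ss b := i6
  have hkh : ∀ b, kk b + hh b = ∑ v ∈ A, ad H v b := by
    intro b
    rw [i2, Finset.sum_union i3]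
  have hnbsum : ∀ b, nb b = ∑ v, ad H v b := by
    intro b
    simp only [hnb]
    rw [i1' b]
    exact Finset.sum_congr rfl (fun v _ => ad_comm H b v)
  have hcardA : D = (T.card : ℝ) + (F.card : ℝ) := by
    rw [hD, i2, Finset.card_union_of_disjoint i3]; push_cast; ring
  have hcardB : (B.card : ℝ) = N - D := by
    rw [hB, Finset.card_compl, Fintype.card_fin, Nat.cast_sub]
    exact (Finset.card_le_univ A).trans (by simp)
  have hDN : D ≤ N := by
    have : (0:ℝ) ≤ B.card := by positivity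
    linarith
  set X : ℝ := (T.card : ℝ) ^ 2 - E2 H T T with hX
  have hX0 : 0 ≤ X := by
    have : E2 H T T ≤ ∑ u ∈ T, ∑ v ∈ T, (1:ℝ) :=
      Finset.sum_le_sum (fun u _ => Finset.sum_le_sum (fun v _ => ad_le_one H u v))
    simp only [Finset.sum_const, nsmul_eq_mul, mul_one] at this
    rw [hX]; nlinarith
  set C : Finset (Fin n) := B.filter (fun b => N + D < 2 * (nb b + (kk b + hh b))) with hC
  set DT : Finset (Fin n) := C.filter (fun b => X < kk b ^ 2) with hDT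
  have hCB : C ⊆ B := Finset.filter_subset _ _
  have hDTC : DT ⊆ C := Finset.filter_subset _ _
  have hC2 : ∀ b ∈ C, ∀ b' ∈ C, W H 2 b b' := by
    intro b hb b' hb'
    have h1 := (Finset.mem_filter.1 hb).2
    have h2 := (Finset.mem_filter.1 hb').2
    by_contra hno
    have hle : ∀ v, ad H v b + ad H v b' ≤ 1 := by
      intro v
      unfold ad
      by_cases h3 : H.Adj v b
      · by_cases h4 : H.Adj v b'
        · exact absurd (W_two h3.symm h4) hno
        · rw [if_pos h3, if_neg h4]; norm_num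
      · rw [if_neg h3]; split_ifs <;> norm_num
    have h5 : nb b + nb b' ≤ N := by
      rw [hnbsum, hnbsum, ← Finset.sum_add_distrib]
      refine (Finset.sum_le_sum (fun v _ => hle v)).trans ?_
      simp [hNdef]
    have h6 : (kk b + hh b) + (kk b' + hh b') ≤ D := by
      rw [hkh, hkh, ← Finset.sum_add_distrib]
      refine (Finset.sum_le_sum (fun v _ => hle v)).trans ?_
      simp [hD]
    linarith
  have hD3 : ∀ b ∈ DT, ∀ b' ∈ DT, W H 3 b b' := by
    intro b hb b' hb'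
    have h1 := (Finset.mem_filter.1 hb).2
    have h2 := (Finset.mem_filter.1 hb').2
    by_contra hno
    have hle : ∀ a a', ad H a b * ad H a' b' ≤ 1 - ad H a a' := by
      intro a a'
      unfold ad
      by_cases h3 : H.Adj a b
      · by_cases h4 : H.Adj a' b'
        · by_cases h5 : H.Adj a a'
          · exact absurd (W_trans (W_two h3.symm h5) (W_one h4)) hno
          · rw [if_pos h3, if_pos h4, if_neg h5]; norm_num
        · rw [if_neg h4, mul_zero]; split_ifs <;> norm_num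
      · rw [if_neg h3, zero_mul]; split_ifs <;> norm_num
    have h6 : kk b * kk b' ≤ X := by
      have e1 : kk b * kk b' = ∑ a ∈ T, ∑ a' ∈ T, ad H a b * ad H a' b' := by
        simp only [hkk]
        rw [Finset.sum_mul_sum]
      rw [e1]
      refine (Finset.sum_le_sum (fun a _ => Finset.sum_le_sum (fun a' _ => hle a a'))).trans ?_
      simp only [Finset.sum_sub_distrib, Finset.sum_const, nsmul_eq_mul, mul_one]
      rw [hX]
      unfold E2
      apply le_of_eq; ring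
    have h7 : X * X < (kk b * kk b') ^ 2 := by
      rw [mul_pow]
      exact mul_lt_mul'' h1 h2 hX0 hX0
    have h8 : (kk b * kk b') ^ 2 ≤ X ^ 2 :=
      pow_le_pow_left₀ (mul_nonneg (hkk0 b) (hkk0 b')) h6 2
    nlinarith
  obtain ⟨Q, hQ1, hQ2, hQ3⟩ := cliqueM H x C DT hCB hC2 hDTC hD3
  refine ⟨Q, hQ1, hQ2, ?_⟩
  set L : Finset (Fin n) := C.filter (fun b => ¬ ((∃ b' ∈ C, H.Adj b b') ∨ b ∈ DT)) with hL
  set G : Finset (Fin n) := C.filter (fun b => (∃ b' ∈ C, H.Adj b b') ∨ b ∈ DT) with hG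
  have hLC : L ⊆ C := Finset.filter_subset _ _
  set BC := B \ C with hBC
  have hBCB : BC ⊆ B := Finset.sdiff_subset
  have hdisj : Disjoint BC L := by
    rw [Finset.disjoint_left]
    intro b hb hbL
    exact (Finset.mem_sdiff.1 hb).2 (hLC hbL)
  have hsubBL : BC ∪ L ⊆ B := Finset.union_subset hBCB (hLC.trans hCB)
  -- edge count
  have hE2AB : E2 H A B = ∑ b ∈ B, (kk b + hh b) := by
    unfold E2
    rw [Finset.sum_comm]
    exact Finset.sum_congr rfl (fun b _ => (hkh b).symm)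
  have hE2BB : E2 H B B = ∑ b ∈ B, ss b := by
    unfold E2
    rw [Finset.sum_comm]
  have hecount : 2 * e = E2 H T T + 2 * ∑ b ∈ B, (kk b + hh b) + ∑ b ∈ B, ss b := by
    rw [← hE2AB, ← hE2BB]; exact i7
  have hkhy : ∀ b, kk b + hh b = D - yy b - ss b := by
    intro b
    have := hsplit b
    simp only [hyy]
    linarith
  have hBC_C : ∀ φ : Fin n → ℝ, ∑ b ∈ B, φ b = ∑ b ∈ BC, φ b + ∑ b ∈ C, φ b := fun φ =>
    (Finset.sum_sdiff hCB).symm
  have hCG : ∑ b ∈ C, hh b = ∑ b ∈ G, hh b + ∑ b ∈ L, hh b :=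
    (Finset.sum_filter_add_sum_filter_not C _ _).symm
  have hloss : e - (Q.card : ℝ) ≤ 1 / 2 * ∑ b ∈ B, ss b + ∑ b ∈ BC, (kk b + hh b) + ∑ b ∈ L, hh b := by
    have h1 := hBC_C (fun b => kk b + hh b)
    have h2 : ∑ b ∈ C, (kk b + hh b) = ∑ b ∈ C, kk b + ∑ b ∈ C, hh b := Finset.sum_add_distrib
    rw [i4] at hQ3
    have h3 : 1 / 2 * E2 H T T + ∑ b ∈ C, kk b + ∑ b ∈ G, hh b ≤ (Q.card : ℝ) := hQ3
    linarith
  have hsumS : ∑ b ∈ BC, ss b + ∑ b ∈ L, ss b ≤ ∑ b ∈ B, ss b := by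
    rw [← Finset.sum_union hdisj]
    exact Finset.sum_le_sum_of_subset_of_nonneg hsubBL (fun b _ _ => hss0 b)
  have hsumY : ∑ b ∈ BC, yy b + ∑ b ∈ L, yy b ≤ ∑ b ∈ B, yy b := by
    rw [← Finset.sum_union hdisj]
    exact Finset.sum_le_sum_of_subset_of_nonneg hsubBL (fun b _ _ => hyy0 b)
  have hsumB : ∑ b ∈ B, (kk b + hh b) = D * (N - D) - ∑ b ∈ B, yy b - ∑ b ∈ B, ss b := by
    rw [Finset.sum_congr rfl (fun b _ => hkhy b), Finset.sum_sub_distrib, Finset.sum_sub_distrib,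
      Finset.sum_const, nsmul_eq_mul, hcardB]
    ring
  have hsumBC : ∑ b ∈ BC, (kk b + hh b) = (BC.card : ℝ) * D - ∑ b ∈ BC, yy b - ∑ b ∈ BC, ss b := by
    rw [Finset.sum_congr rfl (fun b _ => hkhy b), Finset.sum_sub_distrib, Finset.sum_sub_distrib,
      Finset.sum_const, nsmul_eq_mul]
  have hhF : ∀ b, hh b ≤ (F.card : ℝ) := by
    intro b
    refine (Finset.sum_le_sum (fun v _ => ad_le_one H v b)).trans ?_
    simp
  have hsumL : ∑ b ∈ L, hh b ≤ (L.card : ℝ) * F.card := by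
    refine (Finset.sum_le_sum (fun b _ => hhF b)).trans ?_
    rw [Finset.sum_const, nsmul_eq_mul]
  have h4sum : (BC.card : ℝ) * ((3 * D - N) / 2) ≤ 2 * ∑ b ∈ BC, yy b + ∑ b ∈ BC, ss b := by
    have h1 : ∀ b ∈ BC, (3 * D - N) / 2 ≤ 2 * yy b + ss b := by
      intro b hb
      obtain ⟨hb1, hb2⟩ := Finset.mem_sdiff.1 hb
      have h2 : ¬ (N + D < 2 * (nb b + (kk b + hh b))) := fun h => hb2 (Finset.mem_filter.2 ⟨hb1, h⟩)
      push Not at h2
      rw [hkhy b] at h2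
      have h3 : nb b = D - yy b := by simp only [hyy]; ring
      rw [h3] at h2
      linarith
    have h2 := Finset.sum_le_sum h1
    rw [Finset.sum_const, nsmul_eq_mul, Finset.sum_add_distrib, ← Finset.mul_sum] at h2
    exact h2
  have h3sum : ∑ b ∈ L, ss b ≤ ∑ b ∈ BC, ss b := by
    have h1 : ∀ b ∈ L, ss b = ∑ v ∈ BC, ad H v b := by
      intro b hb
      have hb' := (Finset.mem_filter.1 hb).2
      push Not at hb'
      simp only [hss]
      rw [hBC_C (fun v => ad H v b)]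
      have : ∑ v ∈ C, ad H v b = 0 := by
        refine Finset.sum_eq_zero (fun v hv => ?_)
        unfold ad
        rw [if_neg]
        intro hadj
        exact hb'.1 v hv hadj.symm
      rw [this, add_zero]
    rw [Finset.sum_congr rfl h1, Finset.sum_comm]
    refine Finset.sum_le_sum (fun v _ => ?_)
    have h2 : ss v = ∑ b ∈ B, ad H v b := by
      simp only [hss]
      exact Finset.sum_congr rfl (fun b _ => ad_comm H b v)
    rw [h2]
    exact Finset.sum_le_sum_of_subset_of_nonneg (hLC.trans hCB) (fun b _ _ => ad_nonneg H v b)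
  have h2e : 2 * e ≤ N * D := by
    rw [i8]
    have h1 : ∀ b ∈ (univ : Finset (Fin n)), ((NN H b).card : ℝ) ≤ D := by
      intro b _
      have := hyy0 b
      simp only [hyy, hnb] at this
      linarith
    refine (Finset.sum_le_sum h1).trans ?_
    rw [Finset.sum_const, nsmul_eq_mul]
    simp [hNdef]
  -- normalised data
  set t : ℝ := (T.card : ℝ) / N with ht
  set f : ℝ := (F.card : ℝ) / N with hf
  set E : ℝ := E2 H T T / (2 * N ^ 2) with hE
  have htN : t * N = T.card := div_mul_cancel₀ _ hN.ne'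
  have hfN : f * N = F.card := div_mul_cancel₀ _ hN.ne'
  have hEN : E * (2 * N ^ 2) = E2 H T T := div_mul_cancel₀ _ (by positivity)
  have ht0 : 0 ≤ t := by rw [ht]; exact div_nonneg (Nat.cast_nonneg _) hN.le
  have hDtf : D = (t + f) * N := by rw [hcardA, ← htN, ← hfN]; ring
  have hE2 : 2 * E ≤ t ^ 2 := by
    have h1 : (t * N) ^ 2 - E * (2 * N ^ 2) = X := by rw [htN, hEN]
    have h2 : (t ^ 2 - 2 * E) * N ^ 2 = X := by rw [← h1]; ring
    have h3 : 0 ≤ (t ^ 2 - 2 * E) * N ^ 2 := by rw [h2]; exact hX0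
    have h4 := nonneg_of_mul_nonneg_left h3 (by positivity)
    linarith
  have hE0 : 0 ≤ E := by
    rw [hE]; exact div_nonneg (E2_nonneg H T T) (by positivity)
  set m : ℝ := t - Real.sqrt (t ^ 2 - 2 * E) with hm
  have hsq : Real.sqrt (t ^ 2 - 2 * E) ^ 2 = t ^ 2 - 2 * E := Real.sq_sqrt (by linarith)
  have hm0 : 0 ≤ m := by
    have : Real.sqrt (t ^ 2 - 2 * E) ≤ t := by
      rw [Real.sqrt_le_left ht0]; linarith
    linarith
  have hmt : m ≤ t := by
    have := Real.sqrt_nonneg (t ^ 2 - 2 * E)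
    linarith
  have hmE : E = m * t - m ^ 2 / 2 := by
    rw [hm]
    linear_combination (1 / 2 : ℝ) * hsq
  have h5sum : (L.card : ℝ) * (N * m) ≤ ∑ b ∈ L, ss b + ∑ b ∈ L, yy b := by
    have h1 : ∀ b ∈ L, N * m ≤ ss b + yy b := by
      intro b hb
      have hb' := (Finset.mem_filter.1 hb).2
      push Not at hb'
      have h2 : ¬ (X < kk b ^ 2) := fun h => hb'.2 (Finset.mem_filter.2 ⟨hLC hb, h⟩)
      push Not at h2
      have h3 : kk b ≤ N * (t - m) := by
        have h4 : X = (N * (t - m)) ^ 2 := by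
          have h5 : t - m = Real.sqrt (t ^ 2 - 2 * E) := by rw [hm]; ring
          rw [h5, mul_pow, hsq, hX, ← htN, ← hEN]; ring
        rw [h4] at h2
        exact (pow_le_pow_iff_left₀ (hkk0 b) (mul_nonneg hN.le (by linarith)) (by norm_num)).1 h2
      have h6 := hhF b
      rw [← hfN] at h6
      have h7 := hkhy b
      rw [hDtf] at h7
      nlinarith
    have h2 := Finset.sum_le_sum h1
    rw [Finset.sum_const, nsmul_eq_mul, Finset.sum_add_distrib] at h2
    exact h2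
  have hmain := h170_real ε' (ε' ^ 2 / 2000) t f E ((∑ b ∈ B, ss b) / (2 * N ^ 2))
    ((∑ b ∈ B, yy b) / N ^ 2) ((BC.card : ℝ) / N) ((L.card : ℝ) / N) ((∑ b ∈ BC, yy b) / N ^ 2)
    ((∑ b ∈ BC, ss b) / N ^ 2) ((∑ b ∈ L, yy b) / N ^ 2) ((∑ b ∈ L, ss b) / N ^ 2) m
    (e / N ^ 2) ((e - Q.card) / N ^ 2) hε0 hε1 rfl ht0
    (by rw [hf, le_div_iff₀ hN]; exact hFbig)
    (by
      have : (t + f) * N ≤ 1 * N := by rw [← hDtf]; linarith
      exact le_of_mul_le_mul_right this hN)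
    (by
      have h1 : 2 * (e / N ^ 2) * N ^ 2 ≤ (t + f) * N ^ 2 := by
        have h2 : 2 * (e / N ^ 2) * N ^ 2 = 2 * e := h170_n6 e N hN
        rw [h2]
        calc 2 * e ≤ N * D := h2e
          _ = (t + f) * N ^ 2 := by rw [hDtf]; ring
      exact le_of_mul_le_mul_right h1 (by positivity))
    (by rw [le_div_iff₀ (by positivity)]; exact hedge)
    (by
      have h1 : ε' * N ^ 2 ≤ 2 * E * N ^ 2 := by
        calc ε' * N ^ 2 ≤ ε * N ^ 2 := mul_le_mul_of_nonneg_right hεε (by positivity)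
          _ ≤ E2 H T T := hTbig
          _ = 2 * E * N ^ 2 := by rw [← hEN]; ring
      exact le_of_mul_le_mul_right h1 (by positivity))
    hE2
    (by
      have h1 : e = E * N ^ 2 + (D * (N - D) - ∑ b ∈ B, yy b - ∑ b ∈ B, ss b) + (∑ b ∈ B, ss b) / 2 := by
        rw [hsumB] at hecount
        rw [← hEN] at hecount
        linarith
      rw [hDtf] at h1
      exact h170_n1 e E N t f _ _ hN h1)
    (div_nonneg (Finset.sum_nonneg (fun b _ => hss0 b)) (by positivity))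
    (div_nonneg (Finset.sum_nonneg (fun b _ => hyy0 b)) (by positivity))
    (div_nonneg (Finset.sum_nonneg (fun b _ => hyy0 b)) (by positivity))
    (div_nonneg (Finset.sum_nonneg (fun b _ => hyy0 b)) (by positivity))
    (div_nonneg (Finset.sum_nonneg (fun b _ => hss0 b)) (by positivity))
    (by
      have h1 : 2 * ((∑ b ∈ B, ss b) / (2 * N ^ 2)) = (∑ b ∈ B, ss b) / N ^ 2 := h170_n2 _ N hN
      rw [h1, ← add_div]
      exact div_le_div_of_nonneg_right hsumS (by positivity))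
    (by
      rw [← add_div]
      exact div_le_div_of_nonneg_right hsumY (by positivity))
    (div_le_div_of_nonneg_right h3sum (by positivity))
    (by
      have h1 : 2 * ((∑ b ∈ BC, yy b) / N ^ 2) + (∑ b ∈ BC, ss b) / N ^ 2 =
        (2 * ∑ b ∈ BC, yy b + ∑ b ∈ BC, ss b) / N ^ 2 := by ring
      have h2 : (3 * (t + f) - 1) / 2 * ((BC.card : ℝ) / N) = ((BC.card : ℝ) * ((3 * D - N) / 2)) / N ^ 2 := by
        rw [hDtf]; exact h170_n3 _ t f N hN
      rw [h1, h2]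
      exact div_le_div_of_nonneg_right h4sum (by positivity))
    (by
      have h2 : m * ((L.card : ℝ) / N) = ((L.card : ℝ) * (N * m)) / N ^ 2 := h170_n4 m _ N hN
      rw [h2, ← add_div]
      exact div_le_div_of_nonneg_right h5sum (by positivity))
    hm0 hmt hmE
    (by
      have h1 : (∑ b ∈ B, ss b) / (2 * N ^ 2) + (t + f) * ((BC.card : ℝ) / N) - (∑ b ∈ BC, yy b) / N ^ 2 -
          (∑ b ∈ BC, ss b) / N ^ 2 + f * ((L.card : ℝ) / N) =
          (1 / 2 * ∑ b ∈ B, ss b + ((BC.card : ℝ) * D - ∑ b ∈ BC, yy b - ∑ b ∈ BC, ss b) +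
            (L.card : ℝ) * F.card) / N ^ 2 := by
        rw [hDtf, ← hfN]; exact h170_n5 _ t f _ _ _ _ N hN
      rw [h1]
      refine div_le_div_of_nonneg_right ?_ (by positivity)
      rw [← hsumBC]
      linarith)
  rw [div_le_iff₀ (by positivity)] at hmain
  have : (1 / 8 + ε') * N ^ 2 ≤ (1 / 8 + ε) * N ^ 2 := mul_le_mul_of_nonneg_right (by linarith) (by positivity)
  linarith

end Pool.Agent.Helper77.E809.CaseC
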