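import Pool.Agent.Helper77.E809.Defs

set_option autoImplicit false

namespace Pool.Agent.Helper77.E809.Cleaning

open Pool.Agent.Helper77.E809

open Finset

section aux

variable {n : ℕ}

theorem cl_bad_card (G : SimpleGraph (Fin n)) [DecidableRel G.Adj] (η : ℝ) (hη : 0 < η)
    (U V S : Finset (Fin n)) (hun : G.IsUniform η U V) (hd : 3 * η ≤ G.edgeDensity U V)
    (hS : S ⊆ V) (hSc : η * (#V : ℝ) ≤ #S) :
    ((U.filter (fun a => (#(S.filter (fun v => G.Adj a v)) : ℝ) < 2 * η * #S)).card : ℝ) ≤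
      η * #U := by
  by_contra hcon
  push Not at hcon
  obtain ⟨T, hT⟩ : ∃ T, T = U.filter (fun a => (#(S.filter (fun v => G.Adj a v)) : ℝ) < 2 * η * #S) :=
    ⟨_, rfl⟩
  rw [← hT] at hcon
  have hTU : T ⊆ U := hT ▸ filter_subset _ _
  have hT0 : 0 < (#T : ℝ) := lt_of_le_of_lt (by positivity) hcon
  have hTne : T.Nonempty := by rw [← card_pos]; exact_mod_cast hT0
  have hS0 : 0 < (#S : ℝ) := by
    obtain ⟨a, ha⟩ := hTne
    rw [hT, mem_filter] at ha
    have h1 := ha.2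
    have h2 : (0:ℝ) ≤ #(S.filter (fun v => G.Adj a v)) := Nat.cast_nonneg _
    by_contra h0
    have h3 : (#S : ℝ) = 0 := le_antisymm (not_lt.1 h0) (Nat.cast_nonneg _)
    rw [h3] at h1; linarith
  have h1 := hun hTU hS (by linarith) (by linarith)
  have h2 : (G.edgeDensity T S : ℝ) ≤ 2 * η := by
    rw [SimpleGraph.edgeDensity_def]
    push_cast
    rw [div_le_iff₀ (by positivity)]
    have h3 : (#(G.interedges T S) : ℝ) = ∑ a ∈ T, (#(S.filter (fun v => G.Adj a v)) : ℝ) := by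
      rw [SimpleGraph.interedges_def, card_filter, sum_product]
      push_cast
      apply sum_congr rfl
      intro a _
      rw [card_filter]
      push_cast
      rfl
    rw [h3]
    calc ∑ a ∈ T, (#(S.filter (fun v => G.Adj a v)) : ℝ) ≤ ∑ a ∈ T, 2 * η * (#S : ℝ) :=
          sum_le_sum (fun a ha => by rw [hT, mem_filter] at ha; exact ha.2.le)
      _ = 2 * η * (#T * #S) := by rw [sum_const, nsmul_eq_mul]; ring
  have h4 := (abs_lt.1 h1).1
  linarith

theorem cl_loss [Nonempty (Fin n)] (G : SimpleGraph (Fin n)) [DecidableRel G.Adj]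
    (P : Finpartition (univ : Finset (Fin n)))
    (hP : P.IsEquipartition) (η e : ℝ) (hη : 0 < η) (hη1 : η ≤ 1) (he : 0 < e)
    (hPu : P.IsUniform G η) (hl : 4 / e ≤ #P.parts)
    (H : SimpleGraph (Fin n)) [DecidableRel H.Adj] (hHG : H ≤ G)
    (hH : ∀ a b, G.Adj a b → ∀ U ∈ P.parts, ∀ V ∈ P.parts, a ∈ U → b ∈ V → U ≠ V →
      G.IsUniform η U V → 3 * η ≤ G.edgeDensity U V →
      2 * η * #V ≤ (#(V.filter (fun v => G.Adj a v)) : ℝ) →
      2 * η * #U ≤ (#(U.filter (fun v => G.Adj b v)) : ℝ) → H.Adj a b) :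
    2 * ((#G.edgeFinset : ℝ) - #H.edgeFinset) ≤
      (4 * η + e / 2 + 4 * (3 * η) + 2 * η) * (n : ℝ) ^ 2 := by
  classical
  let A := (P.nonUniforms G η).biUnion fun (U, V) ↦ U ×ˢ V
  let B := P.parts.biUnion offDiag
  let C := (P.sparsePairs G (3 * η)).biUnion fun (U, V) ↦ G.interedges U V
  let D := ((P.parts ×ˢ P.parts).filter (fun UV => G.IsUniform η UV.1 UV.2 ∧
    3 * η ≤ (G.edgeDensity UV.1 UV.2 : ℝ))).biUnion (fun UV =>
      (UV.1.filter (fun a => (#(UV.2.filter (fun v => G.Adj a v)) : ℝ) < 2 * η * #UV.2)) ×ˢ UV.2)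
  have hcardU : (#(univ : Finset (Fin n)) : ℝ) = n := by simp
  have hA : (#A : ℝ) ≤ 4 * η * n ^ 2 := by
    have := (hP.sum_nonUniforms_lt (univ_nonempty) hη hPu).le
    rw [hcardU] at this
    exact this
  have hB : (#B : ℝ) ≤ e / 2 * n ^ 2 := by
    have := hP.card_biUnion_offDiag_le he hl
    rw [hcardU] at this
    exact this
  have hC : (#C : ℝ) ≤ 4 * (3 * η) * n ^ 2 := by
    have := hP.card_interedges_sparsePairs_le (G := G) (ε := 3 * η) (by positivity)
    rw [hcardU] at this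
    exact this
  have hD : (#D : ℝ) ≤ η * n ^ 2 := by
    have h1 : (#D : ℝ) ≤ ∑ UV ∈ (P.parts ×ˢ P.parts).filter (fun UV => G.IsUniform η UV.1 UV.2 ∧
        3 * η ≤ (G.edgeDensity UV.1 UV.2 : ℝ)), (#((UV.1.filter
          (fun a => (#(UV.2.filter (fun v => G.Adj a v)) : ℝ) < 2 * η * #UV.2)) ×ˢ UV.2) : ℝ) := by
      exact_mod_cast card_biUnion_le
    refine h1.trans ?_
    calc ∑ UV ∈ (P.parts ×ˢ P.parts).filter (fun UV => G.IsUniform η UV.1 UV.2 ∧
        3 * η ≤ (G.edgeDensity UV.1 UV.2 : ℝ)), (#((UV.1.filter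
          (fun a => (#(UV.2.filter (fun v => G.Adj a v)) : ℝ) < 2 * η * #UV.2)) ×ˢ UV.2) : ℝ)
        ≤ ∑ UV ∈ (P.parts ×ˢ P.parts).filter (fun UV => G.IsUniform η UV.1 UV.2 ∧
        3 * η ≤ (G.edgeDensity UV.1 UV.2 : ℝ)), η * ((#UV.1 : ℝ) * #UV.2) := by
          apply sum_le_sum
          intro UV hUV
          rw [mem_filter] at hUV
          rw [card_product]
          push_cast
          have h2 := cl_bad_card G η hη UV.1 UV.2 UV.2 hUV.2.1 hUV.2.2 subset_rfl
            (mul_le_of_le_one_left (Nat.cast_nonneg _) hη1)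
          have h3 : (0:ℝ) ≤ #UV.2 := Nat.cast_nonneg _
          calc _ ≤ (η * (#UV.1 : ℝ)) * #UV.2 := mul_le_mul_of_nonneg_right h2 h3
            _ = _ := by ring
      _ ≤ ∑ UV ∈ P.parts ×ˢ P.parts, η * ((#UV.1 : ℝ) * #UV.2) := by
          apply sum_le_sum_of_subset_of_nonneg (filter_subset _ _)
          intro i _ _
          positivity
      _ = η * n ^ 2 := by
          rw [sum_product]
          have h5 : ∀ x ∈ P.parts, ∑ y ∈ P.parts, η * ((#(x, y).1 : ℝ) * #(x, y).2) =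
              η * (#x : ℝ) * n := by
            intro x _
            have h6 : (∑ y ∈ P.parts, (#y : ℝ)) = n := by
              have h7 := P.sum_card_parts
              rw [card_univ, Fintype.card_fin] at h7
              exact_mod_cast h7
            rw [← h6, mul_sum]
            apply sum_congr rfl
            intro y _
            ring
          rw [sum_congr rfl h5]
          have h6 : (∑ y ∈ P.parts, (#y : ℝ)) = n := by
            have h7 := P.sum_card_parts
            rw [card_univ, Fintype.card_fin] at h7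
            exact_mod_cast h7
          rw [← sum_mul, ← mul_sum, h6]
          ring
  have hsub : ((univ ×ˢ univ : Finset (Fin n × Fin n)).filter fun (x, y) ↦
      G.Adj x y ∧ ¬ H.Adj x y) ⊆ A ∪ B ∪ C ∪ D ∪ D.image Prod.swap := by
    rintro ⟨x, y⟩ hxy
    simp only [univ_product_univ, mem_filter, mem_univ, true_and] at hxy
    obtain ⟨hG, hnH⟩ := hxy
    obtain ⟨U, hU, hxU⟩ := P.exists_mem (mem_univ x)
    obtain ⟨V, hV, hyV⟩ := P.exists_mem (mem_univ y)
    simp only [mem_union]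
    by_cases hUV : U = V
    · left; left; left; right
      subst hUV
      simp only [B, mem_biUnion, mem_offDiag]
      exact ⟨U, hU, hxU, hyV, hG.ne⟩
    by_cases hun : G.IsUniform η U V
    swap
    · left; left; left; left
      simp only [A, mem_biUnion, Prod.exists, mem_product]
      exact ⟨U, V, (P.mk_mem_nonUniforms (G := G)).2 ⟨hU, hV, hUV, hun⟩, hxU, hyV⟩
    by_cases hden : 3 * η ≤ (G.edgeDensity U V : ℝ)
    swap
    · left; left; right
      simp only [C, mem_biUnion, Prod.exists]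
      refine ⟨U, V, (P.mk_mem_sparsePairs G U V (3 * η)).2 ⟨hU, hV, hUV, not_le.1 hden⟩, ?_⟩
      rw [SimpleGraph.mem_interedges_iff]
      exact ⟨hxU, hyV, hG⟩
    by_cases ha : 2 * η * #V ≤ (#(V.filter (fun v => G.Adj x v)) : ℝ)
    swap
    · left; right
      simp only [D, mem_biUnion, mem_filter, mem_product, Prod.exists]
      exact ⟨U, V, ⟨⟨hU, hV⟩, hun, hden⟩, ⟨hxU, not_le.1 ha⟩, hyV⟩
    by_cases hb : 2 * η * #U ≤ (#(U.filter (fun v => G.Adj y v)) : ℝ)
    swap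
    · right
      rw [mem_image]
      refine ⟨(y, x), ?_, rfl⟩
      simp only [D, mem_biUnion, mem_filter, mem_product, Prod.exists]
      exact ⟨V, U, ⟨⟨hV, hU⟩, hun.symm, by rw [SimpleGraph.edgeDensity_comm]; exact hden⟩,
        ⟨hyV, not_le.1 hb⟩, hxU⟩
    exact absurd (hH x y hG U hU V hV hxU hyV hUV hun hden ha hb) hnH
  calc 2 * ((#G.edgeFinset : ℝ) - #H.edgeFinset)
      = (#((univ ×ˢ univ : Finset (Fin n × Fin n)).filter fun (x, y) ↦
          G.Adj x y ∧ ¬ H.Adj x y) : ℝ) := by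
        rw [univ_product_univ, mul_sub, filter_and_not, cast_card_sdiff]
        · norm_cast
          rw [SimpleGraph.two_mul_card_edgeFinset, SimpleGraph.two_mul_card_edgeFinset]
        · gcongr with xy _
          exact fun hxy ↦ hHG hxy
    _ ≤ (#(A ∪ B ∪ C ∪ D ∪ D.image Prod.swap) : ℝ) := by exact_mod_cast card_le_card hsub
    _ ≤ (#A : ℝ) + #B + #C + #D + #D := by
        have h1 := card_union_le (A ∪ B ∪ C ∪ D) (D.image Prod.swap)
        have h2 := card_union_le (A ∪ B ∪ C) D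
        have h3 := card_union_le (A ∪ B) C
        have h4 := card_union_le A B
        have h5 : #(D.image Prod.swap) ≤ #D := card_image_le
        have h6 : #(A ∪ B ∪ C ∪ D ∪ D.image Prod.swap) ≤ #A + #B + #C + #D + #D := by omega
        exact_mod_cast h6
    _ ≤ 4 * η * n ^ 2 + e / 2 * n ^ 2 + 4 * (3 * η) * n ^ 2 + η * n ^ 2 + η * n ^ 2 := by
        linarith
    _ = _ := by ring

theorem cl_W_succ (H : SimpleGraph (Fin n)) (i : ℕ) (a b : Fin n) (h : W H (i + 1) a b) :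
    ∃ w, W H i a w ∧ H.Adj w b := by
  obtain ⟨p, hp⟩ := h
  cases hq : p.reverse with
  | nil =>
    have h1 : p.reverse.length = i + 1 := by rw [SimpleGraph.Walk.length_reverse, hp]
    rw [hq] at h1
    simp at h1
  | cons hadj q =>
    have h1 : p.reverse.length = i + 1 := by rw [SimpleGraph.Walk.length_reverse, hp]
    rw [hq, SimpleGraph.Walk.length_cons] at h1
    exact ⟨_, ⟨q.reverse, by rw [SimpleGraph.Walk.length_reverse]; omega⟩, hadj.symm⟩

theorem cl_path (G : SimpleGraph (Fin n)) [DecidableRel G.Adj]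
    (P : Finpartition (univ : Finset (Fin n))) (η : ℝ) (hη : 0 < η) (hη1 : η ≤ 1 / 32) (k : ℕ)
    (hsz : ∀ U ∈ P.parts, (4 * k + 11 : ℝ) ≤ 4 * η ^ 2 * #U)
    (H : SimpleGraph (Fin n))
    (hH : ∀ a b, H.Adj a b → G.Adj a b ∧ ∃ U ∈ P.parts, ∃ V ∈ P.parts, a ∈ U ∧ b ∈ V ∧ U ≠ V ∧
      G.IsUniform η U V ∧ 3 * η ≤ G.edgeDensity U V ∧
      2 * η * #V ≤ (#(V.filter (fun v => G.Adj a v)) : ℝ) ∧
      2 * η * #U ≤ (#(U.filter (fun v => G.Adj b v)) : ℝ))
    (a : Fin n) (i : ℕ) :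
    ∀ w, W H (i + 1) a w → ∃ U ∈ P.parts, w ∈ U ∧ ∃ S ⊆ U, 2 * η * (#U : ℝ) ≤ #S ∧
      (1 ≤ i → (#(U \ S) : ℝ) ≤ η * #U) ∧
      ∀ t ∈ S, t ≠ a → ∀ Y : Finset (Fin n), #Y + (i + 1) ≤ 4 * k + 2 → a ∉ Y → t ∉ Y →
        ∃ p : G.Walk a t, p.IsPath ∧ p.length = i + 1 ∧ ∀ c ∈ p.support, c ∉ Y := by
  induction i with
  | zero =>
    intro w hw
    obtain ⟨w', hw', hadj⟩ := cl_W_succ H 0 a w hw
    obtain ⟨p, hp⟩ := hw'
    have haw : a = w' := SimpleGraph.Walk.eq_of_length_eq_zero hp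
    subst haw
    obtain ⟨hG, U, hU, V, hV, haU, hwV, hUV, hun, hden, h1, h2⟩ := hH a w hadj
    refine ⟨V, hV, hwV, V.filter (fun v => G.Adj a v), filter_subset _ _, h1, by omega, ?_⟩
    intro t ht hta Y hY haY htY
    rw [mem_filter] at ht
    refine ⟨SimpleGraph.Walk.cons ht.2 SimpleGraph.Walk.nil, ?_, by simp, ?_⟩
    · rw [SimpleGraph.Walk.cons_isPath_iff]
      refine ⟨SimpleGraph.Walk.IsPath.nil, ?_⟩
      simpa using hta.symm
    · intro c hc
      simp only [SimpleGraph.Walk.support_cons, SimpleGraph.Walk.support_nil, List.mem_cons,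
        List.not_mem_nil, or_false] at hc
      rcases hc with rfl | rfl
      · exact haY
      · exact htY
  | succ i ih =>
    intro w hw
    obtain ⟨w', hw', hadj⟩ := cl_W_succ H (i + 1) a w hw
    obtain ⟨U, hU, hwU, S, hSU, hSc, -, hS⟩ := ih w' hw'
    obtain ⟨hG, U', hU', V, hV, hwU', hwV, hUV, hun, hden, h1, h2⟩ := hH w' w hadj
    have hUU : U' = U := P.eq_of_mem_parts hU' hU hwU' hwU
    subst hUU
    have hbad := cl_bad_card G η hη V U' S hun.symm
      (by rw [SimpleGraph.edgeDensity_comm]; exact hden) hSU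
      (by
        have : (0:ℝ) ≤ η * #U' := by positivity
        linarith)
    refine ⟨V, hV, hwV, V.filter (fun v => ¬ ((#(S.filter (fun u => G.Adj v u)) : ℝ) < 2 * η * #S)),
      filter_subset _ _, ?_, ?_, ?_⟩
    · have h3 := card_filter_add_card_filter_not (s := V)
        (fun v => (#(S.filter (fun u => G.Adj v u)) : ℝ) < 2 * η * #S)
      have h4 : (#(V.filter (fun v => (#(S.filter (fun u => G.Adj v u)) : ℝ) < 2 * η * #S)) : ℝ) +
          #(V.filter (fun v => ¬ ((#(S.filter (fun u => G.Adj v u)) : ℝ) < 2 * η * #S))) = #V := by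
        exact_mod_cast h3
      have h5 : (0:ℝ) ≤ #V := Nat.cast_nonneg _
      nlinarith
    · intro _
      have h3 : V \ V.filter (fun v => ¬ ((#(S.filter (fun u => G.Adj v u)) : ℝ) < 2 * η * #S)) =
          V.filter (fun v => (#(S.filter (fun u => G.Adj v u)) : ℝ) < 2 * η * #S) := by
        ext v
        simp only [mem_sdiff, mem_filter, not_and, not_not]
        tauto
      rw [h3]
      exact hbad
    · intro t ht hta Y hY haY htY
      rw [mem_filter, not_lt] at ht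
      have h3 : (#(insert a Y) : ℝ) < #(S.filter (fun u => G.Adj t u)) := by
        have h4 := hsz U' hU'
        have h5 : (#(insert a Y) : ℝ) ≤ 4 * k + 3 := by
          have h6 := card_insert_le a Y
          have h7 : #(insert a Y) ≤ 4 * k + 3 := by omega
          exact_mod_cast h7
        have h8 : 4 * η ^ 2 * (#U' : ℝ) ≤ 2 * η * #S := by nlinarith
        linarith [ht.2]
      obtain ⟨u, hu, huY⟩ := exists_mem_notMem_of_card_lt_card (by exact_mod_cast h3 :
        #(insert a Y) < #(S.filter (fun u => G.Adj t u)))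
      rw [mem_filter] at hu
      rw [mem_insert, not_or] at huY
      obtain ⟨p, hp, hpl, hps⟩ := hS u hu.1 huY.1 (insert t Y)
        (by have := card_insert_le t Y; omega)
        (by rw [mem_insert, not_or]; exact ⟨hta.symm, haY⟩)
        (by rw [mem_insert, not_or]; exact ⟨hu.2.ne', huY.2⟩)
      refine ⟨p.concat hu.2.symm, ?_, ?_, ?_⟩
      · exact hp.concat (fun hc => hps t hc (mem_insert_self _ _)) _
      · rw [SimpleGraph.Walk.length_concat, hpl]
      · intro c hc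
        rw [SimpleGraph.Walk.support_concat, List.mem_append] at hc
        rcases hc with hc | hc
        · exact fun h => hps c hc (mem_insert_of_mem h)
        · rw [List.mem_singleton] at hc
          rw [hc]; exact htY

theorem cl_lifts (G : SimpleGraph (Fin n)) [DecidableRel G.Adj]
    (P : Finpartition (univ : Finset (Fin n))) (η : ℝ) (hη : 0 < η) (hη1 : η ≤ 1 / 32) (k : ℕ)
    (hsz : ∀ U ∈ P.parts, (4 * k + 11 : ℝ) ≤ 4 * η ^ 2 * #U)
    (H : SimpleGraph (Fin n))
    (hH : ∀ a b, H.Adj a b → G.Adj a b ∧ ∃ U ∈ P.parts, ∃ V ∈ P.parts, a ∈ U ∧ b ∈ V ∧ U ≠ V ∧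
      G.IsUniform η U V ∧ 3 * η ≤ G.edgeDensity U V ∧
      2 * η * #V ≤ (#(V.filter (fun v => G.Adj a v)) : ℝ) ∧
      2 * η * #U ≤ (#(U.filter (fun v => G.Adj b v)) : ℝ)) : Lifts G H k := by
  refine ⟨fun a b h => (hH a b h).1, ?_⟩
  intro l hl3 hl2 a b hab hW X hX haX hbX
  obtain ⟨i, rfl⟩ : ∃ i, l = i + 1 + 1 := ⟨l - 2, by omega⟩
  obtain ⟨w, hw, hadj⟩ := cl_W_succ H (i + 1) a b hW
  obtain ⟨U, hU, hwU, S, hSU, hSc, hSd, hS⟩ := cl_path G P η hη hη1 k hsz H hH a i w hw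
  obtain ⟨hG, U', hU', V, hV, hwU', hwV, hUV, hun, hden, h1, h2⟩ := hH w b hadj
  have hUU : U' = U := P.eq_of_mem_parts hU' hU hwU' hwU
  subst hUU
  have hd := hSd (by omega)
  have h3 : (#(insert a X) : ℝ) < #(S.filter (fun u => G.Adj b u)) := by
    have h4 := hsz U' hU'
    have h5 : (#(insert a X) : ℝ) ≤ 4 * k + 3 := by
      have h6 := card_insert_le a X
      have h7 : #(insert a X) ≤ 4 * k + 3 := by omega
      exact_mod_cast h7
    have h6 : (#(U'.filter (fun v => G.Adj b v)) : ℝ) ≤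
        #(S.filter (fun u => G.Adj b u)) + #(U' \ S) := by
      have h7 : U'.filter (fun v => G.Adj b v) ⊆ S.filter (fun u => G.Adj b u) ∪ (U' \ S) := by
        intro x hx
        rw [mem_filter] at hx
        rw [mem_union, mem_filter, mem_sdiff]
        tauto
      have h8 := (card_le_card h7).trans (card_union_le _ _)
      exact_mod_cast h8
    have h9 : 4 * η ^ 2 * (#U' : ℝ) ≤ η * #U' := by
      have h10 : (0:ℝ) ≤ #U' := Nat.cast_nonneg _
      have h11 : 4 * η ^ 2 ≤ η := by nlinarith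
      exact mul_le_mul_of_nonneg_right h11 h10
    linarith
  obtain ⟨u, hu, huX⟩ := exists_mem_notMem_of_card_lt_card (by exact_mod_cast h3 :
    #(insert a X) < #(S.filter (fun u => G.Adj b u)))
  rw [mem_filter] at hu
  rw [mem_insert, not_or] at huX
  obtain ⟨p, hp, hpl, hps⟩ := hS u hu.1 huX.1 (insert b X)
    (by have := card_insert_le b X; omega)
    (by rw [mem_insert, not_or]; exact ⟨hab, haX⟩)
    (by rw [mem_insert, not_or]; exact ⟨hu.2.ne', huX.2⟩)
  refine ⟨p.concat hu.2.symm, ?_, ?_, ?_⟩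
  · exact hp.concat (fun hc => hps b hc (mem_insert_self _ _)) _
  · rw [SimpleGraph.Walk.length_concat, hpl]
  · intro c hc
    rw [SimpleGraph.Walk.support_concat, List.mem_append] at hc
    rcases hc with hc | hc
    · exact fun h => hps c hc (mem_insert_of_mem h)
    · rw [List.mem_singleton] at hc
      rw [hc]; exact hbX

end aux

/-- Regularity cleaning. -/
theorem cleaning (k : ℕ) (ε : ℝ) (hε : 0 < ε) :
    ∃ n₀ : ℕ, ∀ n : ℕ, n₀ ≤ n → ∀ G : SimpleGraph (Fin n),
      ∃ H : SimpleGraph (Fin n), Lifts G H k ∧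
        (G.edgeSet.ncard : ℝ) - ε * (n : ℝ) ^ 2 ≤ (H.edgeSet.ncard : ℝ) := by
  classical
  obtain ⟨e, he⟩ : ∃ e, e = min ε 1 := ⟨_, rfl⟩
  have he0 : 0 < e := by rw [he]; positivity
  have he1 : e ≤ 1 := by rw [he]; exact min_le_right _ _
  have heε : e ≤ ε := by rw [he]; exact min_le_left _ _
  obtain ⟨η, hη⟩ : ∃ η, η = e / 32 := ⟨_, rfl⟩
  have hη0 : 0 < η := by rw [hη]; positivity
  have hη1 : η ≤ 1 / 32 := by rw [hη]; linarith
  obtain ⟨l, hl⟩ : ∃ l : ℕ, 4 / e ≤ l := exists_nat_ge _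
  obtain ⟨K, hK⟩ : ∃ K : ℕ, (4 * k + 11 : ℝ) / (4 * η ^ 2) ≤ K := exists_nat_ge _
  rw [div_le_iff₀ (by positivity)] at hK
  refine ⟨max l (SzemerediRegularity.bound η l * K) + 1, ?_⟩
  intro n hn G
  have hn1 : l ≤ n := by omega
  have hn2 : SzemerediRegularity.bound η l * K ≤ n := by omega
  have hn3 : 0 < n := by omega
  have : Nonempty (Fin n) := ⟨⟨0, hn3⟩⟩
  obtain ⟨P, hP, hlP, hPb, hPu⟩ := szemeredi_regularity G hη0 (l := l)
    (by rw [Fintype.card_fin]; exact hn1)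
  have hsz : ∀ U ∈ P.parts, (4 * k + 11 : ℝ) ≤ 4 * η ^ 2 * #U := by
    intro U hU
    have h1 := hP.average_le_card_part hU
    rw [card_univ, Fintype.card_fin] at h1
    have h2 : K ≤ #U := by
      refine le_trans ?_ h1
      have hpos : 0 < #P.parts := card_pos.2 ⟨U, hU⟩
      rw [Nat.le_div_iff_mul_le hpos]
      calc K * #P.parts ≤ K * SzemerediRegularity.bound η l := Nat.mul_le_mul_left _ hPb
        _ = SzemerediRegularity.bound η l * K := Nat.mul_comm _ _
        _ ≤ n := hn2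
    have h3 : (K : ℝ) ≤ #U := by exact_mod_cast h2
    have h4 : (0:ℝ) < 4 * η ^ 2 := by positivity
    calc (4 * k + 11 : ℝ) ≤ K * (4 * η ^ 2) := hK
      _ ≤ #U * (4 * η ^ 2) := mul_le_mul_of_nonneg_right h3 h4.le
      _ = _ := by ring
  let H : SimpleGraph (Fin n) :=
    { Adj := fun a b => G.Adj a b ∧ ∃ U ∈ P.parts, ∃ V ∈ P.parts, a ∈ U ∧ b ∈ V ∧ U ≠ V ∧
        G.IsUniform η U V ∧ 3 * η ≤ G.edgeDensity U V ∧
        2 * η * #V ≤ (#(V.filter (fun v => G.Adj a v)) : ℝ) ∧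
        2 * η * #U ≤ (#(U.filter (fun v => G.Adj b v)) : ℝ)
      symm := by
        constructor
        rintro a b ⟨hG, U, hU, V, hV, ha, hb, hUV, hun, hd, h1, h2⟩
        exact ⟨hG.symm, V, hV, U, hU, hb, ha, hUV.symm, hun.symm,
          by rw [SimpleGraph.edgeDensity_comm]; exact hd, h2, h1⟩
      loopless := ⟨fun a h => h.1.ne rfl⟩ }
  have hHdef : ∀ a b, H.Adj a b → G.Adj a b ∧ ∃ U ∈ P.parts, ∃ V ∈ P.parts, a ∈ U ∧ b ∈ V ∧ U ≠ V ∧
        G.IsUniform η U V ∧ 3 * η ≤ G.edgeDensity U V ∧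
        2 * η * #V ≤ (#(V.filter (fun v => G.Adj a v)) : ℝ) ∧
        2 * η * #U ≤ (#(U.filter (fun v => G.Adj b v)) : ℝ) := fun a b h => h
  have hHdef' : ∀ a b, G.Adj a b → ∀ U ∈ P.parts, ∀ V ∈ P.parts, a ∈ U → b ∈ V → U ≠ V →
      G.IsUniform η U V → 3 * η ≤ G.edgeDensity U V →
      2 * η * #V ≤ (#(V.filter (fun v => G.Adj a v)) : ℝ) →
      2 * η * #U ≤ (#(U.filter (fun v => G.Adj b v)) : ℝ) → H.Adj a b :=
    fun a b h U hU V hV ha hb hUV hun hd h1 h2 => ⟨h, U, hU, V, hV, ha, hb, hUV, hun, hd, h1, h2⟩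
  have hHG : H ≤ G := fun a b h => (hHdef a b h).1
  refine ⟨H, cl_lifts G P η hη0 hη1 k hsz H hHdef, ?_⟩
  have hloss := cl_loss G P hP η e hη0 (by linarith) he0 hPu
    (hl.trans (by exact_mod_cast hlP)) H hHG hHdef'
  rw [← SimpleGraph.coe_edgeFinset, ← SimpleGraph.coe_edgeFinset, Set.ncard_coe_finset,
    Set.ncard_coe_finset]
  have hn0 : (0:ℝ) ≤ (n:ℝ) ^ 2 := by positivity
  have h5 : (4 * η + e / 2 + 4 * (3 * η) + 2 * η) * (n : ℝ) ^ 2 ≤ (2 * ε) * (n : ℝ) ^ 2 := by
    apply mul_le_mul_of_nonneg_right _ hn0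
    rw [hη]; linarith
  linarith

end Pool.Agent.Helper77.E809.Cleaning
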