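import Pool.Agent.Helper77.E809.Defs

set_option autoImplicit false

namespace Pool.Agent.Helper77.E809.Cycles

open Pool.Agent.Helper77.E809

open Finset


theorem conflict_of_path_edges {V : Type} {G : SimpleGraph V} {a b : V} (p : G.Walk a b) :
    ∀ f ∈ p.edges, ∃ j, j < p.length ∧ f = s(p.getVert j, p.getVert (j + 1)) := by
  induction p with
  | nil => intro f hf; simp at hf
  | cons h q ih =>
    intro f hf
    rw [SimpleGraph.Walk.edges_cons, List.mem_cons] at hf
    rcases hf with rfl | hf
    · refine ⟨0, by simp, ?_⟩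
      simp
    · obtain ⟨j, hj, hf⟩ := ih f hf
      refine ⟨j + 1, by simp; omega, ?_⟩
      rw [SimpleGraph.Walk.getVert_cons_succ, SimpleGraph.Walk.getVert_cons_succ]
      exact hf

/-- A cycle of length `2 * k + 1` built from a path of length `2 * k` closing up an edge. -/
theorem conflict_of_path {V : Type} (G : SimpleGraph V) (k : ℕ) (hk : 1 ≤ k) {u v : V}
    (huv : G.Adj u v) (p : G.Walk v u) (hp : p.IsPath) (hl : p.length = 2 * k)
    (f : Sym2 V) (hf : f ∈ p.edges) : Conflict G k s(u, v) f := by
  refine ⟨fun i => p.getVert i.val, ?_, ?_, ?_⟩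
  · intro i j hij
    have h := hp.getVert_injOn (show i.val ∈ {n | n ≤ p.length} from by
      show i.val ≤ p.length
      have := i.isLt
      omega) (show j.val ∈ {n | n ≤ p.length} from by
      show j.val ≤ p.length
      have := j.isLt
      omega) hij
    exact Fin.ext h
  · intro i
    by_cases hi : i.val = 2 * k
    · have h1 : i = Fin.last (2 * k) := Fin.ext (by simpa using hi)
      subst h1
      simp only [Fin.last_add_one, Fin.val_last, Fin.val_zero]
      rw [← hl, SimpleGraph.Walk.getVert_length, SimpleGraph.Walk.getVert_zero]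
      exact huv
    · have hlt : i.val < 2 * k := by
        have := i.isLt
        omega
      have h1 : (i + 1).val = i.val + 1 := Fin.val_add_one_of_lt (by
        rw [Fin.lt_def]; simpa using hlt)
      simp only [h1]
      exact p.adj_getVert_succ (by omega)
  · obtain ⟨j, hj, hf⟩ := conflict_of_path_edges p f hf
    refine ⟨Fin.last (2 * k), ⟨j, by omega⟩, ?_, ?_, ?_⟩
    · intro h
      have := congrArg Fin.val h
      simp at this
      omega
    · simp only [Fin.last_add_one, Fin.val_last, Fin.val_zero]
      rw [← hl, SimpleGraph.Walk.getVert_length, SimpleGraph.Walk.getVert_zero]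
    · have h1 : ((⟨j, by omega⟩ : Fin (2 * k + 1)) + 1).val = j + 1 :=
        Fin.val_add_one_of_lt (by rw [Fin.lt_def]; simp; omega)
      simp only [h1]
      exact hf

theorem conflict_of_CW_two {V : Type} (G : SimpleGraph V) (k : ℕ) (hk : 1 ≤ k) {u v z w : V}
    (huv : G.Adj u v) (hzw : G.Adj z w) (P : G.Walk v z) (Q : G.Walk w u) (hP : P.IsPath)
    (hQ : Q.IsPath) (hd : ∀ c ∈ Q.support, c ∉ P.support)
    (hl : P.length + Q.length + 1 = 2 * k) : Conflict G k s(u, v) s(z, w) := by
  apply conflict_of_path G k hk huv (P.append (SimpleGraph.Walk.cons hzw Q))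
  · rw [SimpleGraph.Walk.isPath_def, SimpleGraph.Walk.support_append,
      SimpleGraph.Walk.support_cons, List.tail_cons, List.nodup_append]
    refine ⟨hP.support_nodup, hQ.support_nodup, fun a ha b hb hab => ?_⟩
    subst hab
    exact hd a hb ha
  · rw [SimpleGraph.Walk.length_append, SimpleGraph.Walk.length_cons]
    omega
  · rw [SimpleGraph.Walk.edges_append, SimpleGraph.Walk.edges_cons]
    simp

theorem conflict_of_CW_symm {V : Type} {H : SimpleGraph V} {l : ℕ} {a b : V} (h : W H l a b) :
    W H l b a := by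
  obtain ⟨p, hp⟩ := h
  exact ⟨p.reverse, by rw [SimpleGraph.Walk.length_reverse, hp]⟩

theorem conflict_of_CW_trans {V : Type} {H : SimpleGraph V} {l m : ℕ} {a b c : V}
    (h : W H l a b) (h' : W H m b c) : W H (l + m) a c := by
  obtain ⟨p, hp⟩ := h
  obtain ⟨q, hq⟩ := h'
  exact ⟨p.append q, by rw [SimpleGraph.Walk.length_append, hp, hq]⟩

theorem conflict_of_CW_adj {V : Type} {H : SimpleGraph V} {a b : V} (h : H.Adj a b) :
    W H 1 a b := ⟨SimpleGraph.Walk.cons h SimpleGraph.Walk.nil, by simp⟩

theorem conflict_of_CW_pad {V : Type} {H : SimpleGraph V} {l : ℕ} {a b c : V} (h : W H l a b)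
    (hbc : H.Adj b c) (j : ℕ) : W H (l + 2 * j) a b := by
  induction j with
  | zero => simpa using h
  | succ j ih =>
    have h1 := conflict_of_CW_trans ih (conflict_of_CW_trans (conflict_of_CW_adj hbc)
      (conflict_of_CW_adj hbc.symm))
    have h2 : l + 2 * j + (1 + 1) = l + 2 * (j + 1) := by ring
    rw [h2] at h1
    exact h1

theorem conflict_of_CW_zero {V : Type} {H : SimpleGraph V} {a b : V} (h : W H 0 a b) : a = b := by
  obtain ⟨p, hp⟩ := h
  exact SimpleGraph.Walk.eq_of_length_eq_zero hp

theorem conflict_of_CW_one {V : Type} {H : SimpleGraph V} {a b : V} (h : W H 1 a b) :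
    H.Adj a b := by
  obtain ⟨p, hp⟩ := h
  exact SimpleGraph.Walk.adj_of_length_eq_one hp

theorem conflict_of_CW_2 {V : Type} {H : SimpleGraph V} {a b : V} (h : W H 2 a b) :
    ∃ c, H.Adj a c ∧ H.Adj c b := by
  obtain ⟨p, hp⟩ := h
  cases p with
  | nil => simp at hp
  | cons h1 q =>
    rw [SimpleGraph.Walk.length_cons] at hp
    have : q.length = 1 := by omega
    exact ⟨_, h1, SimpleGraph.Walk.adj_of_length_eq_one this⟩

/-- the two edges are disjoint -/
theorem conflict_of_CW_A {V : Type} [DecidableEq V] (G H : SimpleGraph V) (k : ℕ) (hk : 3 ≤ k)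
    (hL : Lifts G H k) {u v z w : V} (huv : H.Adj u v) (hzw : H.Adj z w) (hvz : v ≠ z)
    (hvw : v ≠ w) (huz : u ≠ z) (huw : u ≠ w) {l l' : ℕ} (hll : l + l' + 2 = 2 * k + 1)
    (hW : W H l v z) (hW' : W H l' w u) (hle : l ≤ l') : Conflict G k s(u, v) s(z, w) := by
  obtain ⟨hHG, hlift⟩ := hL
  have huv' : u ≠ v := huv.ne
  have hzw' : z ≠ w := hzw.ne
  rcases Nat.lt_or_ge l 3 with hl3 | hl3
  · interval_cases l
    · exact absurd (conflict_of_CW_zero hW) hvz
    · -- l = 1
      have hvz1 := conflict_of_CW_one hW
      obtain ⟨Q, hQ, hQl, hQX⟩ := hlift l' (by omega) (by omega) w u huw.symm hW' {v, z}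
        ((Finset.card_le_two).trans (by omega)) (by simp [hvw.symm, hzw'.symm])
        (by simp [huv', huz])
      apply conflict_of_CW_two G k (by omega) (hHG huv) (hHG hzw)
        (SimpleGraph.Walk.cons (hHG hvz1) SimpleGraph.Walk.nil) Q (by simp [hvz]) hQ
      · intro c hc
        have := hQX c hc
        simpa using this
      · simp; omega
    · -- l = 2
      obtain ⟨c, hvc, hcz⟩ := conflict_of_CW_2 hW
      by_cases hcu : c = u
      · subst hcu
        -- path from w to v
        have hWv : W H (l' + 1) w v := conflict_of_CW_trans hW' (conflict_of_CW_adj huv)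
        obtain ⟨Q, hQ, hQl, hQX⟩ := hlift (l' + 1) (by omega) (by omega) w v hvw.symm hWv {c, z}
          ((Finset.card_le_two).trans (by omega)) (by simp [huw.symm, hzw'.symm])
          (by simp [huv'.symm, hvz])
        rw [Sym2.eq_swap (a := c) (b := v)]
        apply conflict_of_CW_two G k (by omega) (hHG huv).symm (hHG hzw)
          (SimpleGraph.Walk.cons (hHG hcz) SimpleGraph.Walk.nil) Q (by simp [huz]) hQ
        · intro c hc
          have := hQX c hc
          simpa using this
        · simp; omega
      · by_cases hcw : c = w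
        · subst hcw
          have hWz : W H (1 + l') z u := conflict_of_CW_trans (conflict_of_CW_adj hzw) hW'
          obtain ⟨Q, hQ, hQl, hQX⟩ := hlift (1 + l') (by omega) (by omega) z u huz.symm hWz {v, c}
            ((Finset.card_le_two).trans (by omega)) (by simp [hvz.symm, hzw'])
            (by simp [huv', huw])
          rw [Sym2.eq_swap (a := z) (b := c)]
          apply conflict_of_CW_two G k (by omega) (hHG huv) (hHG hzw).symm
            (SimpleGraph.Walk.cons (hHG hvc) SimpleGraph.Walk.nil) Q (by simp [hvw]) hQ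
          · intro c hc
            have := hQX c hc
            simpa using this
          · simp; omega
        · obtain ⟨Q, hQ, hQl, hQX⟩ := hlift l' (by omega) (by omega) w u huw.symm hW' {v, c, z}
            ((Finset.card_le_three).trans (by omega))
            (by simp [hvw.symm, hzw'.symm, Ne.symm hcw])
            (by simp [huv', huz, Ne.symm hcu])
          apply conflict_of_CW_two G k (by omega) (hHG huv) (hHG hzw)
            (SimpleGraph.Walk.cons (hHG hvc) (SimpleGraph.Walk.cons (hHG hcz)
              SimpleGraph.Walk.nil)) Q (by simp [hvz, hvc.ne, hcz.ne]) hQ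
          · intro c hc
            have := hQX c hc
            simpa using this
          · simp; omega
  · obtain ⟨P, hP, hPl, hPX⟩ := hlift l hl3 (by omega) v z hvz hW {u, w}
      ((Finset.card_le_two).trans (by omega)) (by simp [huv'.symm, hvw]) (by
        simp [huz.symm, hzw'])
    obtain ⟨Q, hQ, hQl, hQX⟩ := hlift l' (by omega) (by omega) w u huw.symm hW'
      P.support.toFinset (by
        refine (List.toFinset_card_le _).trans ?_
        rw [SimpleGraph.Walk.length_support]
        omega) (by
        intro h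
        rw [List.mem_toFinset] at h
        exact hPX w h (by simp)) (by
        intro h
        rw [List.mem_toFinset] at h
        exact hPX u h (by simp))
    apply conflict_of_CW_two G k (by omega) (hHG huv) (hHG hzw) P Q hP hQ
    · intro c hc h
      exact hQX c hc (by rwa [List.mem_toFinset])
    · omega

/-- the case `v = z` -/
theorem conflict_of_CW_B {V : Type} [DecidableEq V] (G H : SimpleGraph V) (k : ℕ) (hk : 3 ≤ k)
    (hL : Lifts G H k) {u v w : V} (huv : H.Adj u v) (hvw : H.Adj v w)
    (huw : u ≠ w) {l l' : ℕ} (hll : l + l' + 2 = 2 * k + 1)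
    (hW : W H l v v) (hW' : W H l' w u) : Conflict G k s(u, v) s(v, w) := by
  obtain ⟨hHG, hlift⟩ := hL
  have hWw : W H (2 * k - 1) w u := by
    rcases Nat.even_or_odd' l' with ⟨m, hm | hm⟩
    · -- l' even
      have hl'0 : l' ≠ 0 := by
        rintro rfl
        exact huw (conflict_of_CW_zero hW').symm
      have h1 : W H (1 + (l + 1)) w u := conflict_of_CW_trans (conflict_of_CW_adj hvw.symm)
        (conflict_of_CW_trans hW (conflict_of_CW_adj huv.symm))
      have h2 := conflict_of_CW_pad h1 huv (m - 1)
      have h3 : 1 + (l + 1) + 2 * (m - 1) = 2 * k - 1 := by omega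
      rwa [h3] at h2
    · have h2 := conflict_of_CW_pad hW' huv (k - 1 - m)
      have h3 : l' + 2 * (k - 1 - m) = 2 * k - 1 := by omega
      rwa [h3] at h2
  obtain ⟨Q, hQ, hQl, hQX⟩ := hlift (2 * k - 1) (by omega) (by omega) w u huw.symm hWw {v}
    (by simp) (by simp [hvw.ne.symm]) (by simp [huv.ne])
  apply conflict_of_CW_two G k (by omega) (hHG huv) (hHG hvw)
    (SimpleGraph.Walk.nil) Q (by simp) hQ
  · intro c hc
    have := hQX c hc
    simpa using this
  · simp; omega

/-- the case `v = w` -/
theorem conflict_of_CW_C {V : Type} [DecidableEq V] (G H : SimpleGraph V) (k : ℕ) (hk : 3 ≤ k)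
    (hL : Lifts G H k) {u v z : V} (huv : H.Adj u v) (hzv : H.Adj z v)
    (huz : u ≠ z) {l l' : ℕ} (hll : l + l' + 2 = 2 * k + 1)
    (hW : W H l v z) (hW' : W H l' v u) : Conflict G k s(u, v) s(z, v) := by
  obtain ⟨hHG, hlift⟩ := hL
  have h1 : W H (l + l') z u := conflict_of_CW_trans (conflict_of_CW_symm hW) hW'
  obtain ⟨Q, hQ, hQl, hQX⟩ := hlift (l + l') (by omega) (by omega) z u huz.symm h1 {v}
    (by simp) (by simp [hzv.ne]) (by simp [huv.ne])
  rw [Sym2.eq_swap (a := z) (b := v)]
  apply conflict_of_CW_two G k (by omega) (hHG huv) (hHG hzv).symm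
    (SimpleGraph.Walk.nil) Q (by simp) hQ
  · intro c hc
    have := hQX c hc
    simpa using this
  · simp; omega

/-- Two different edges of `H` on a closed walk of length `2 * k + 1` of `H` lie on a common cycle
of length `2 * k + 1` of `G`. -/
theorem conflict_of_CW {V : Type} [DecidableEq V] (G H : SimpleGraph V) (k : ℕ) (hk : 3 ≤ k)
    (hL : Lifts G H k) (e f : Sym2 V) (hef : e ≠ f) (hc : CW H (2 * k + 1) e f) :
    Conflict G k e f := by
  obtain ⟨u, v, z, w, rfl, rfl, huv, hzw, l, l', hll, hW, hW'⟩ := hc
  by_cases hvz : v = z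
  · subst hvz
    have huw : u ≠ w := by
      rintro rfl
      exact hef Sym2.eq_swap
    exact conflict_of_CW_B G H k hk hL huv hzw huw hll hW hW'
  by_cases hvw : v = w
  · subst hvw
    have huz : u ≠ z := by
      rintro rfl
      exact hef rfl
    exact conflict_of_CW_C G H k hk hL huv hzw huz hll hW hW'
  by_cases huw : u = w
  · subst huw
    rw [Sym2.eq_swap (a := u) (b := v), Sym2.eq_swap (a := z) (b := u)]
    exact conflict_of_CW_B G H k hk hL huv.symm hzw.symm hvz (l := l') (l' := l) (by omega)
      (conflict_of_CW_symm hW') (conflict_of_CW_symm hW)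
  by_cases huz : u = z
  · subst huz
    rw [Sym2.eq_swap (a := u) (b := v), Sym2.eq_swap (a := u) (b := w)]
    exact conflict_of_CW_C G H k hk hL huv.symm hzw.symm hvw (l := l') (l' := l) (by omega)
      (conflict_of_CW_symm hW') (conflict_of_CW_symm hW)
  rcases le_total l l' with hle | hle
  · exact conflict_of_CW_A G H k hk hL huv hzw hvz hvw huz huw hll hW hW' hle
  · rw [Sym2.eq_swap (a := u) (b := v), Sym2.eq_swap (a := z) (b := w)]
    exact conflict_of_CW_A G H k hk hL huv.symm hzw.symm huw huz hvw hvz (l := l') (l' := l)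
      (by omega) (conflict_of_CW_symm hW') (conflict_of_CW_symm hW) hle

/-- Closed walks can be lengthened by two. -/
theorem CW_add_two {V : Type} (H : SimpleGraph V) (m : ℕ) (e f : Sym2 V) (hc : CW H m e f) :
    CW H (m + 2) e f := by
  obtain ⟨u, v, z, w, rfl, rfl, huv, hzw, l, l', hll, hW, hW'⟩ := hc
  refine ⟨u, v, z, w, rfl, rfl, huv, hzw, l, l' + 2, by omega, hW, ?_⟩
  have := conflict_of_CW_pad hW' huv 1
  simpa using this

end Pool.Agent.Helper77.E809.Cycles
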