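import Mathlib

set_option autoImplicit false

namespace Pool.Agent.Helper77.E809

open Finset

/-- There is a walk of length `l` from `a` to `b` in `H`. -/
def W {V : Type} (H : SimpleGraph V) (l : ℕ) (a b : V) : Prop :=
  ∃ p : H.Walk a b, p.length = l

/-- The edges `e`, `f` of `G` lie on a common cycle of length `2 * k + 1`, at different positions. -/
def Conflict {V : Type} (G : SimpleGraph V) (k : ℕ) (e f : Sym2 V) : Prop :=
  ∃ v : Fin (2 * k + 1) → V, Function.Injective v ∧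
    (∀ i : Fin (2 * k + 1), G.Adj (v i) (v (i + 1))) ∧
    ∃ i j : Fin (2 * k + 1), i ≠ j ∧ e = s(v i, v (i + 1)) ∧ f = s(v j, v (j + 1))

/-- Every walk of `H` of length between `3` and `2 * k` lifts to paths of `G` with the same ends and
the same length avoiding any given small set of vertices. -/
def Lifts {V : Type} (G H : SimpleGraph V) (k : ℕ) : Prop :=
  H ≤ G ∧ ∀ l : ℕ, 3 ≤ l → l ≤ 2 * k → ∀ a b : V, a ≠ b → W H l a b →
    ∀ X : Finset V, X.card ≤ 2 * k + 2 → a ∉ X → b ∉ X →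
      ∃ p : G.Walk a b, p.IsPath ∧ p.length = l ∧ ∀ c ∈ p.support, c ∉ X

/-- The edges `e`, `f` of `H` lie on a closed walk of length `m` of `H`. -/
def CW {V : Type} (H : SimpleGraph V) (m : ℕ) (e f : Sym2 V) : Prop :=
  ∃ u v z w : V, e = s(u, v) ∧ f = s(z, w) ∧ H.Adj u v ∧ H.Adj z w ∧
    ∃ l l' : ℕ, l + l' + 2 = m ∧ W H l v z ∧ W H l' w u

/-- The clique property: a graph with almost `n ^ 2 / 4` edges is almost bipartite or has about
`n ^ 2 / 8` edges which pairwise lie on closed walks of length `m`. -/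
def KProp (m : ℕ) : Prop :=
  ∀ ε : ℝ, 0 < ε → ∃ δ : ℝ, 0 < δ ∧ ∀ (n : ℕ) (H : SimpleGraph (Fin n)),
    (1 / 4 - δ) * (n : ℝ) ^ 2 ≤ (H.edgeSet.ncard : ℝ) →
    (∃ A : Finset (Fin n),
      (({p : Fin n × Fin n | H.Adj p.1 p.2 ∧ (p.1 ∈ A ↔ p.2 ∈ A)}.ncard : ℕ) : ℝ)
        ≤ ε * (n : ℝ) ^ 2) ∨
    (∃ Q : Finset (Sym2 (Fin n)), (∀ e ∈ Q, e ∈ H.edgeSet) ∧
      (∀ e ∈ Q, ∀ f ∈ Q, e ≠ f → CW H m e f) ∧
      (1 / 8 - ε) * (n : ℝ) ^ 2 ≤ (Q.card : ℝ))

end Pool.Agent.Helper77.E809
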