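import Pool.Agent.Helper77.E809.Defs

set_option autoImplicit false

namespace Pool.Agent.Helper77.E809.NearBip

open Pool.Agent.Helper77.E809

open Finset

/-- degree of `v` into `T` -/
noncomputable def dg {n : ℕ} (G : SimpleGraph (Fin n)) [DecidableRel G.Adj] (v : Fin n)
    (T : Finset (Fin n)) : ℝ := ((T.filter (fun b => G.Adj v b)).card : ℝ)

/-- number of adjacent ordered pairs -/
noncomputable def ee {n : ℕ} (G : SimpleGraph (Fin n)) [DecidableRel G.Adj]
    (S T : Finset (Fin n)) : ℝ := ∑ a ∈ S, ∑ b ∈ T, if G.Adj a b then 1 else 0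

section basics

variable {n : ℕ} (G : SimpleGraph (Fin n)) [DecidableRel G.Adj]

theorem dg_eq (v : Fin n) (T : Finset (Fin n)) : dg G v T = ∑ b ∈ T, if G.Adj v b then 1 else 0 := by
  unfold dg
  rw [Finset.sum_boole]

theorem dg_nonneg (v : Fin n) (T : Finset (Fin n)) : 0 ≤ dg G v T := Nat.cast_nonneg _

theorem ee_eq (S T : Finset (Fin n)) : ee G S T = ∑ a ∈ S, dg G a T := by
  unfold ee
  exact Finset.sum_congr rfl fun a _ => (dg_eq G a T).symm

theorem ee_comm (S T : Finset (Fin n)) : ee G S T = ee G T S := by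
  unfold ee
  rw [Finset.sum_comm]
  refine Finset.sum_congr rfl fun a _ => Finset.sum_congr rfl fun b _ => ?_
  simp only [G.adj_comm a b]

theorem dg_union (v : Fin n) {T T' : Finset (Fin n)} (h : Disjoint T T') :
    dg G v (T ∪ T') = dg G v T + dg G v T' := by
  rw [dg_eq, dg_eq, dg_eq, Finset.sum_union h]

theorem dg_mono (v : Fin n) {T T' : Finset (Fin n)} (h : T ⊆ T') : dg G v T ≤ dg G v T' := by
  unfold dg
  exact_mod_cast Finset.card_le_card (Finset.filter_subset_filter _ h)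

theorem ee_union_left {S S' : Finset (Fin n)} (h : Disjoint S S') (T : Finset (Fin n)) :
    ee G (S ∪ S') T = ee G S T + ee G S' T := by
  unfold ee
  rw [Finset.sum_union h]

theorem ee_union_right (S : Finset (Fin n)) {T T' : Finset (Fin n)} (h : Disjoint T T') :
    ee G S (T ∪ T') = ee G S T + ee G S T' := by
  rw [ee_comm, ee_union_left G h, ee_comm G T, ee_comm G T']

theorem ee_insert_left {a : Fin n} {S : Finset (Fin n)} (h : a ∉ S) (T : Finset (Fin n)) :
    ee G (insert a S) T = dg G a T + ee G S T := by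
  rw [ee_eq, Finset.sum_insert h, ← ee_eq]

theorem ee_insert_right (S : Finset (Fin n)) {a : Fin n} {T : Finset (Fin n)} (h : a ∉ T) :
    ee G S (insert a T) = dg G a S + ee G S T := by
  rw [ee_comm, ee_insert_left G h, ee_comm]

theorem dg_insert_self (v : Fin n) (T : Finset (Fin n)) : dg G v (insert v T) = dg G v T := by
  unfold dg
  rw [Finset.filter_insert, if_neg (G.loopless.irrefl v)]

theorem dg_erase_self (v : Fin n) (T : Finset (Fin n)) : dg G v (T.erase v) = dg G v T := by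
  by_cases h : v ∈ T
  · rw [← dg_insert_self G v (T.erase v), Finset.insert_erase h]
  · rw [Finset.erase_eq_of_notMem h]

theorem dg_le (v : Fin n) (T : Finset (Fin n)) : dg G v T ≤ (T.card : ℝ) := by
  unfold dg
  exact_mod_cast Finset.card_filter_le _ _

theorem ee_le (S T : Finset (Fin n)) : ee G S T ≤ (S.card : ℝ) * (T.card : ℝ) := by
  rw [ee_eq]
  refine (Finset.sum_le_sum fun a _ => dg_le G a T).trans ?_
  rw [Finset.sum_const, nsmul_eq_mul]

theorem ee_nonneg (S T : Finset (Fin n)) : 0 ≤ ee G S T := by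
  rw [ee_eq]
  exact Finset.sum_nonneg fun a _ => dg_nonneg G a T

theorem ee_inter (S T : Finset (Fin n)) : ((G.interedges S T).card : ℝ) = ee G S T := by
  unfold ee
  rw [SimpleGraph.interedges_def, Finset.card_filter, Finset.sum_product]
  push_cast
  rfl

/-- decomposition of the number of pairs -/
theorem ee_self_union {P Q : Finset (Fin n)} (h : Disjoint P Q) :
    ee G (P ∪ Q) (P ∪ Q) = ee G P P + ee G Q Q + 2 * ee G P Q := by
  rw [ee_union_left G h, ee_union_right G _ h, ee_union_right G _ h, ee_comm G Q P]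
  ring

theorem ee_erase {S : Finset (Fin n)} {v : Fin n} (hv : v ∈ S) :
    ee G S S = ee G (S.erase v) (S.erase v) + 2 * dg G v S := by
  have h : v ∉ S.erase v := Finset.notMem_erase v S
  conv_lhs => rw [← Finset.insert_erase hv]
  rw [ee_insert_left G h, ee_insert_right G _ h, dg_insert_self, dg_erase_self]
  ring

theorem ee_univ : ee G Finset.univ Finset.univ = 2 * (G.edgeSet.ncard : ℝ) := by
  classical
  rw [ee_eq]
  have h1 := G.sum_degrees_eq_twice_card_edges
  have h2 : ∀ v, dg G v Finset.univ = (G.degree v : ℝ) := by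
    intro v
    unfold dg
    rw [← SimpleGraph.card_neighborFinset_eq_degree, SimpleGraph.neighborFinset_eq_filter]
  have h3 : G.edgeSet.ncard = G.edgeFinset.card := by
    rw [← SimpleGraph.coe_edgeFinset, Set.ncard_coe_finset]
  rw [Finset.sum_congr rfl fun v _ => h2 v, h3, ← Nat.cast_sum, h1]
  push_cast
  rfl

/-- few vertices of large degree inside `S` -/
theorem few_atypical (S : Finset (Fin n)) (c : ℝ) :
    ((S.filter (fun v => ¬ dg G v S ≤ c)).card : ℝ) * c ≤ ee G S S := by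
  classical
  rw [ee_eq]
  calc ((S.filter (fun v => ¬ dg G v S ≤ c)).card : ℝ) * c
      = ∑ v ∈ S.filter (fun v => ¬ dg G v S ≤ c), c := by
        rw [Finset.sum_const, nsmul_eq_mul]
    _ ≤ ∑ v ∈ S.filter (fun v => ¬ dg G v S ≤ c), dg G v S := by
        apply Finset.sum_le_sum
        intro v hv
        exact (not_le.mp (Finset.mem_filter.mp hv).2).le
    _ ≤ ∑ v ∈ S, dg G v S :=
        Finset.sum_le_sum_of_subset_of_nonneg (Finset.filter_subset _ _)
          fun v _ _ => dg_nonneg G v S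

end basics

/-- the conclusion -/
def Concl {n : ℕ} (G : SimpleGraph (Fin n)) [DecidableRel G.Adj] (η : ℝ) : Prop :=
  ∃ (P Q C : Finset (Fin n)) (p p' : Fin n),
          Disjoint P Q ∧ C ⊆ Q ∧ p ∉ Q ∧ p' ∉ Q ∧ p ≠ p' ∧ p ∉ P ∧ p' ∉ P ∧
          ((1 / 2 - η) * n ≤ (P.card : ℝ)) ∧ ((1 / 2 - η) * n ≤ (Q.card : ℝ)) ∧
          ((1 / 4 - η) * n ≤ (C.card : ℝ)) ∧
          (∀ a ∈ P, ((Q.filter (fun b => ¬ G.Adj a b)).card : ℝ) ≤ η * n) ∧
          (∀ b ∈ Q, ((P.filter (fun a => ¬ G.Adj a b)).card : ℝ) ≤ η * n) ∧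
          (∀ c ∈ C, G.Adj p c) ∧
          ((10 * η * n ≤ ((P.filter (fun s => G.Adj p s)).card : ℝ)) ∨
           (G.Adj p p' ∧ (∀ c ∈ C, G.Adj p' c)))

theorem nonnbr {n : ℕ} (G : SimpleGraph (Fin n)) [DecidableRel G.Adj] (a : Fin n)
    (T : Finset (Fin n)) :
    ((T.filter (fun b => ¬ G.Adj a b)).card : ℝ) = (T.card : ℝ) - dg G a T := by
  have h := Finset.card_filter_add_card_filter_not (s := T) (fun b => G.Adj a b)
  unfold dg
  rw [eq_sub_iff_add_eq, ← Nat.cast_add, add_comm, h]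

/-- the numerical facts -/
theorem numer {n : ℕ} {t : ℝ} (ht : 0 < t) (ht1 : t < 1 / 100000) (htn : 100 ≤ t * n) :
    0 < t * n ∧ 0 ≤ t ^ 2 * n ∧ t ^ 2 * n ≤ t * n / 100000 ∧ 0 ≤ t ^ 3 * n ∧
      t ^ 3 * n ≤ t ^ 2 * n / 100000 ∧ t * n ≤ (n : ℝ) / 100000 := by
  have hn : (0 : ℝ) ≤ n := Nat.cast_nonneg n
  have h1 : 0 < t * n := by linarith
  have h2 : 0 ≤ t ^ 2 * n := by positivity
  refine ⟨h1, h2, ?_, by positivity, ?_, ?_⟩
  · have e : t ^ 2 * n = t * (t * n) := by ring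
    rw [e]
    nlinarith
  · have e : t ^ 3 * n = t * (t ^ 2 * n) := by ring
    rw [e]
    nlinarith
  · nlinarith

theorem core {n : ℕ} (G : SimpleGraph (Fin n)) [DecidableRel G.Adj] (t : ℝ) (ht : 0 < t)
    (ht1 : t < 1 / 100000) (htn : 100 ≤ t * n)
    (P1 Q1 : Finset (Fin n)) (hdis : Disjoint P1 Q1)
    (H1 : ∀ v ∈ P1 ∪ Q1, (n : ℝ) / 2 - 2 * (t ^ 2 * n) - 1 ≤ dg G v P1 + dg G v Q1)
    (H2 : ∀ v ∈ P1, dg G v P1 ≤ dg G v Q1)
    (H3 : ee G P1 P1 ≤ t ^ 4 * (n : ℝ) ^ 2) (H3' : ee G Q1 Q1 ≤ t ^ 4 * (n : ℝ) ^ 2)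
    (H4 : (n : ℝ) / 2 - 2 * (t ^ 2 * n) ≤ P1.card)
    (H4' : (P1.card : ℝ) ≤ n / 2 + 2 * (t ^ 2 * n))
    (H5 : (n : ℝ) / 2 - 2 * (t ^ 2 * n) ≤ Q1.card)
    (H5' : (Q1.card : ℝ) ≤ n / 2 + 2 * (t ^ 2 * n))
    (p p' : Fin n) (hp : p ∈ P1) (hp' : p' ∈ P1) (hadj : G.Adj p p') : Concl G (100 * t) := by
  classical
  obtain ⟨k1, k2, k3, k4, k5, k6⟩ := numer ht ht1 htn
  have hfew : ∀ S : Finset (Fin n), ee G S S ≤ t ^ 4 * (n : ℝ) ^ 2 →
      ((S.filter (fun v => ¬ dg G v S ≤ t * n)).card : ℝ) ≤ t ^ 3 * n := by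
    intro S hS
    have h1 := few_atypical G S (t * n)
    have h2 : ((S.filter (fun v => ¬ dg G v S ≤ t * n)).card : ℝ) * (t * n) ≤
        (t ^ 3 * n) * (t * n) := by
      refine (h1.trans hS).trans (le_of_eq ?_)
      ring
    exact le_of_mul_le_mul_right h2 k1
  set P : Finset (Fin n) := P1.filter (fun v => dg G v P1 ≤ t * n ∧ v ≠ p ∧ v ≠ p') with hP
  set Q : Finset (Fin n) := Q1.filter (fun v => dg G v Q1 ≤ t * n) with hQ
  have hPr : ∀ (r : Fin n → Prop) [DecidablePred r],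
      ((P1.filter r).card : ℝ) ≤ (P.filter r).card + t ^ 3 * n + 2 := by
    intro r _
    have h1 : P1.filter r ⊆ (P.filter r ∪ P1.filter (fun v => ¬ dg G v P1 ≤ t * n)) ∪ {p, p'} := by
      intro v hv
      obtain ⟨hv1, hv2⟩ := Finset.mem_filter.mp hv
      by_cases a1 : dg G v P1 ≤ t * n
      · by_cases a2 : v = p
        · apply Finset.mem_union_right
          simp [a2]
        · by_cases a3 : v = p'
          · apply Finset.mem_union_right
            simp [a3]
          · apply Finset.mem_union_left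
            apply Finset.mem_union_left
            exact Finset.mem_filter.mpr ⟨Finset.mem_filter.mpr ⟨hv1, a1, a2, a3⟩, hv2⟩
      · apply Finset.mem_union_left
        apply Finset.mem_union_right
        exact Finset.mem_filter.mpr ⟨hv1, a1⟩
    have h2 := Finset.card_le_card h1
    have h3 := Finset.card_union_le (P.filter r ∪ P1.filter (fun v => ¬ dg G v P1 ≤ t * n)) {p, p'}
    have h4 := Finset.card_union_le (P.filter r) (P1.filter (fun v => ¬ dg G v P1 ≤ t * n))
    have h5 : ({p, p'} : Finset (Fin n)).card ≤ 2 := Finset.card_le_two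
    have h6 : (P1.filter r).card ≤ (P.filter r).card +
        (P1.filter (fun v => ¬ dg G v P1 ≤ t * n)).card + 2 := by omega
    have h7 : ((P1.filter r).card : ℝ) ≤ (P.filter r).card +
        (P1.filter (fun v => ¬ dg G v P1 ≤ t * n)).card + 2 := by exact_mod_cast h6
    have h8 := hfew P1 H3
    linarith
  have hQr : ∀ (r : Fin n → Prop) [DecidablePred r],
      ((Q1.filter r).card : ℝ) ≤ (Q.filter r).card + t ^ 3 * n := by
    intro r _
    have h1 : Q1.filter r ⊆ Q.filter r ∪ Q1.filter (fun v => ¬ dg G v Q1 ≤ t * n) := by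
      intro v hv
      obtain ⟨hv1, hv2⟩ := Finset.mem_filter.mp hv
      by_cases a1 : dg G v Q1 ≤ t * n
      · apply Finset.mem_union_left
        exact Finset.mem_filter.mpr ⟨Finset.mem_filter.mpr ⟨hv1, a1⟩, hv2⟩
      · apply Finset.mem_union_right
        exact Finset.mem_filter.mpr ⟨hv1, a1⟩
    have h2 := Finset.card_le_card h1
    have h4 := Finset.card_union_le (Q.filter r) (Q1.filter (fun v => ¬ dg G v Q1 ≤ t * n))
    have h6 : (Q1.filter r).card ≤ (Q.filter r).card +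
        (Q1.filter (fun v => ¬ dg G v Q1 ≤ t * n)).card := by omega
    have h7 : ((Q1.filter r).card : ℝ) ≤ (Q.filter r).card +
        (Q1.filter (fun v => ¬ dg G v Q1 ≤ t * n)).card := by exact_mod_cast h6
    have h8 := hfew Q1 H3'
    linarith
  have hPcard : (P1.card : ℝ) ≤ P.card + t ^ 3 * n + 2 := by
    have := hPr (fun _ => True)
    simpa using this
  have hQcard : (Q1.card : ℝ) ≤ Q.card + t ^ 3 * n := by
    have := hQr (fun _ => True)
    simpa using this
  have hPsub : P ⊆ P1 := Finset.filter_subset _ _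
  have hQsub : Q ⊆ Q1 := Finset.filter_subset _ _
  have hPQ : Disjoint P Q := Finset.disjoint_of_subset_left hPsub
    (Finset.disjoint_of_subset_right hQsub hdis)
  have hpQ : ∀ v ∈ P1, v ∉ Q := fun v hv hvQ =>
    Finset.disjoint_left.mp hdis hv (hQsub hvQ)
  have hpP : p ∉ P := fun h => (Finset.mem_filter.mp h).2.2.1 rfl
  have hp'P : p' ∉ P := fun h => (Finset.mem_filter.mp h).2.2.2 rfl
  have hne : p ≠ p' := G.ne_of_adj hadj
  have hnP : ∀ a ∈ P, ((Q.filter (fun b => ¬ G.Adj a b)).card : ℝ) ≤ 100 * t * n := by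
    intro a ha
    have h1 : ((Q.filter (fun b => ¬ G.Adj a b)).card : ℝ) ≤
        (Q1.filter (fun b => ¬ G.Adj a b)).card := by
      exact_mod_cast Finset.card_le_card (Finset.filter_subset_filter _ hQsub)
    rw [nonnbr G a Q1] at h1
    have h2 := H1 a (Finset.mem_union_left _ (hPsub ha))
    have h3 := (Finset.mem_filter.mp ha).2.1
    have e : 100 * t * n = 100 * (t * n) := by ring
    rw [e]
    linarith
  have hnQ : ∀ b ∈ Q, ((P.filter (fun a => ¬ G.Adj a b)).card : ℝ) ≤ 100 * t * n := by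
    intro b hb
    have h0 : P.filter (fun a => ¬ G.Adj a b) = P.filter (fun a => ¬ G.Adj b a) := by
      apply Finset.filter_congr
      intro a _
      rw [G.adj_comm]
    rw [h0]
    have h1 : ((P.filter (fun a => ¬ G.Adj b a)).card : ℝ) ≤
        (P1.filter (fun a => ¬ G.Adj b a)).card := by
      exact_mod_cast Finset.card_le_card (Finset.filter_subset_filter _ hPsub)
    rw [nonnbr G b P1] at h1
    have h2 := H1 b (Finset.mem_union_right _ (hQsub hb))
    have h3 := (Finset.mem_filter.mp hb).2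
    have e : 100 * t * n = 100 * (t * n) := by ring
    rw [e]
    linarith
  have hcP : (1 / 2 - 100 * t) * n ≤ (P.card : ℝ) := by
    have e : (1 / 2 - 100 * t) * n = n / 2 - 100 * (t * n) := by ring
    rw [e]
    linarith
  have hcQ : (1 / 2 - 100 * t) * n ≤ (Q.card : ℝ) := by
    have e : (1 / 2 - 100 * t) * n = n / 2 - 100 * (t * n) := by ring
    rw [e]
    linarith
  -- case (i)
  have case1 : ∀ x y : Fin n, x ∈ P1 → y ∈ P1 → x ≠ y → x ∉ P → y ∉ P →
      1100 * (t * n) ≤ dg G x P1 → Concl G (100 * t) := by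
    intro x y hx hy hxy hxP hyP hdx
    refine ⟨P, Q, Q.filter (fun b => G.Adj x b), x, y, hPQ, Finset.filter_subset _ _, hpQ x hx,
      hpQ y hy, hxy, hxP, hyP, hcP, hcQ, ?_, hnP, hnQ, ?_, Or.inl ?_⟩
    · have h1 := hQr (fun b => G.Adj x b)
      have h2 : dg G x Q1 = ((Q1.filter (fun b => G.Adj x b)).card : ℝ) := rfl
      rw [← h2] at h1
      have h3 := H1 x (Finset.mem_union_left _ hx)
      have h4 := H2 x hx
      have e : (1 / 4 - 100 * t) * n = n / 4 - 100 * (t * n) := by ring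
      rw [e]
      linarith
    · intro c hc
      exact (Finset.mem_filter.mp hc).2
    · have h1 := hPr (fun b => G.Adj x b)
      have h2 : dg G x P1 = ((P1.filter (fun b => G.Adj x b)).card : ℝ) := rfl
      rw [← h2] at h1
      have e : 10 * (100 * t) * n = 1000 * (t * n) := by ring
      rw [e]
      linarith
  by_cases c1 : 1100 * (t * n) ≤ dg G p P1
  · exact case1 p p' hp hp' hne hpP hp'P c1
  by_cases c2 : 1100 * (t * n) ≤ dg G p' P1
  · exact case1 p' p hp' hp hne.symm hp'P hpP c2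
  push Not at c1 c2
  refine ⟨P, Q, Q.filter (fun b => G.Adj p b ∧ G.Adj p' b), p, p', hPQ, Finset.filter_subset _ _,
    hpQ p hp, hpQ p' hp', hne, hpP, hp'P, hcP, hcQ, ?_, hnP, hnQ, ?_, Or.inr ⟨hadj, ?_⟩⟩
  · have h1 : Q ⊆ (Q.filter (fun b => G.Adj p b ∧ G.Adj p' b) ∪
        Q1.filter (fun b => ¬ G.Adj p b)) ∪ Q1.filter (fun b => ¬ G.Adj p' b) := by
      intro v hv
      by_cases a1 : G.Adj p v
      · by_cases a2 : G.Adj p' v
        · apply Finset.mem_union_left
          apply Finset.mem_union_left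
          exact Finset.mem_filter.mpr ⟨hv, a1, a2⟩
        · apply Finset.mem_union_right
          exact Finset.mem_filter.mpr ⟨hQsub hv, a2⟩
      · apply Finset.mem_union_left
        apply Finset.mem_union_right
        exact Finset.mem_filter.mpr ⟨hQsub hv, a1⟩
    have h2 := Finset.card_le_card h1
    have h3 := Finset.card_union_le (Q.filter (fun b => G.Adj p b ∧ G.Adj p' b) ∪
        Q1.filter (fun b => ¬ G.Adj p b)) (Q1.filter (fun b => ¬ G.Adj p' b))
    have h4 := Finset.card_union_le (Q.filter (fun b => G.Adj p b ∧ G.Adj p' b))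
        (Q1.filter (fun b => ¬ G.Adj p b))
    have h5 : Q.card ≤ (Q.filter (fun b => G.Adj p b ∧ G.Adj p' b)).card +
        (Q1.filter (fun b => ¬ G.Adj p b)).card + (Q1.filter (fun b => ¬ G.Adj p' b)).card := by
      omega
    have h6 : (Q.card : ℝ) ≤ (Q.filter (fun b => G.Adj p b ∧ G.Adj p' b)).card +
        (Q1.filter (fun b => ¬ G.Adj p b)).card + (Q1.filter (fun b => ¬ G.Adj p' b)).card := by
      exact_mod_cast h5
    rw [nonnbr G p Q1, nonnbr G p' Q1] at h6
    have h7 := H1 p (Finset.mem_union_left _ hp)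
    have h8 := H1 p' (Finset.mem_union_left _ hp')
    have e : (1 / 4 - 100 * t) * n = n / 4 - 100 * (t * n) := by ring
    rw [e]
    linarith
  · intro c hc
    exact (Finset.mem_filter.mp hc).2.1
  · intro c hc
    exact (Finset.mem_filter.mp hc).2.2

theorem ee_mono {n : ℕ} (G : SimpleGraph (Fin n)) [DecidableRel G.Adj] {S S' : Finset (Fin n)}
    (h : S ⊆ S') : ee G S S ≤ ee G S' S' := by
  rw [ee_eq, ee_eq]
  calc ∑ a ∈ S, dg G a S ≤ ∑ a ∈ S, dg G a S' := Finset.sum_le_sum fun a _ => dg_mono G a h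
    _ ≤ ∑ a ∈ S', dg G a S' :=
        Finset.sum_le_sum_of_subset_of_nonneg h fun v _ _ => dg_nonneg G v S'

theorem split_A {n : ℕ} (G : SimpleGraph (Fin n)) [DecidableRel G.Adj] (S A : Finset (Fin n)) :
    ee G S S ≤ (ee G A A + ee G Aᶜ Aᶜ) + 2 * ee G (S ∩ A) (S \ (S ∩ A)) := by
  have hd : Disjoint (S ∩ A) (S \ (S ∩ A)) := Finset.disjoint_sdiff
  have hu : (S ∩ A) ∪ (S \ (S ∩ A)) = S := Finset.union_sdiff_of_subset Finset.inter_subset_left
  have h1 := ee_self_union G hd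
  rw [hu] at h1
  have h2 : ee G (S ∩ A) (S ∩ A) ≤ ee G A A := ee_mono G Finset.inter_subset_right
  have h3 : ee G (S \ (S ∩ A)) (S \ (S ∩ A)) ≤ ee G Aᶜ Aᶜ := by
    apply ee_mono
    intro x hx
    rw [Finset.mem_sdiff, Finset.mem_inter] at hx
    rw [Finset.mem_compl]
    exact fun hxA => hx.2 ⟨hx.1, hxA⟩
  linarith

theorem findS {n : ℕ} (G : SimpleGraph (Fin n)) [DecidableRel G.Adj] (t : ℝ) (ht : 0 < t)
    (hn : 0 < n) (hE : (n : ℝ) ^ 2 / 2 < ee G Finset.univ Finset.univ) (A : Finset (Fin n))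
    (hA : ee G A A + ee G Aᶜ Aᶜ ≤ t ^ 4 * (n : ℝ) ^ 2) :
    ∃ S : Finset (Fin n), (S.card : ℝ) ^ 2 / 2 < ee G S S ∧
      (n : ℝ) - S.card ≤ t ^ 2 * n / 2 ∧
      (∀ v ∈ S, (S.card : ℝ) - 1 / 2 - 2 * (t ^ 2 * n) ≤ 2 * dg G v S) := by
  classical
  have hn' : (0 : ℝ) < n := by exact_mod_cast hn
  obtain ⟨S, hS, hmin⟩ := Finset.exists_min_image
    (Finset.univ.filter (fun S : Finset (Fin n) =>
      (S.card : ℝ) ^ 2 / 2 + 2 * (t ^ 2 * n) * ((n : ℝ) - S.card) < ee G S S)) Finset.card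
    ⟨Finset.univ, Finset.mem_filter.mpr ⟨Finset.mem_univ _, by
      rw [Finset.card_univ, Fintype.card_fin]
      linarith⟩⟩
  obtain ⟨-, hS⟩ := Finset.mem_filter.mp hS
  have hSn : (S.card : ℝ) ≤ n := by
    have := Finset.card_le_univ S
    rw [Fintype.card_fin] at this
    exact_mod_cast this
  have ht2 : 0 < t ^ 2 * n := by positivity
  refine ⟨S, ?_, ?_, ?_⟩
  · have : 0 ≤ 2 * (t ^ 2 * n) * ((n : ℝ) - S.card) := by
      apply mul_nonneg (by positivity)
      linarith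
    linarith
  · have h1 := split_A G S A
    have h2 := ee_le G (S ∩ A) (S \ (S ∩ A))
    have h3 : ((S ∩ A).card : ℝ) + (S \ (S ∩ A)).card = S.card := by
      have := Finset.card_sdiff_add_card_eq_card (Finset.inter_subset_left : S ∩ A ⊆ S)
      have h4 : (((S \ (S ∩ A)).card + (S ∩ A).card : ℕ) : ℝ) = S.card := by
        rw [this]
      push_cast at h4
      linarith
    have h4 : 2 * (((S ∩ A).card : ℝ) * (S \ (S ∩ A)).card) ≤ (S.card : ℝ) ^ 2 / 2 := by
      rw [← h3]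
      nlinarith [sq_nonneg (((S ∩ A).card : ℝ) - (S \ (S ∩ A)).card)]
    have h5 : 2 * (t ^ 2 * n) * ((n : ℝ) - S.card) < t ^ 4 * (n : ℝ) ^ 2 := by linarith
    have h6 : t ^ 4 * (n : ℝ) ^ 2 = 2 * (t ^ 2 * n) * (t ^ 2 * n / 2) := by ring
    rw [h6] at h5
    exact (lt_of_mul_lt_mul_left h5 (by positivity)).le
  · intro v hv
    by_contra hcon
    push Not at hcon
    have h1 := ee_erase G hv
    have hcard : ((S.erase v).card : ℝ) = S.card - 1 := by
      rw [Finset.card_erase_of_mem hv, Nat.cast_sub (Finset.card_pos.mpr ⟨v, hv⟩)]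
      simp
    have h2 : S.erase v ∈ Finset.univ.filter (fun S : Finset (Fin n) =>
        (S.card : ℝ) ^ 2 / 2 + 2 * (t ^ 2 * n) * ((n : ℝ) - S.card) < ee G S S) := by
      refine Finset.mem_filter.mpr ⟨Finset.mem_univ _, ?_⟩
      rw [hcard]
      nlinarith
    have h3 := hmin _ h2
    have h4 : (S.erase v).card < S.card := Finset.card_erase_lt_of_mem hv
    omega

theorem findPQ {n : ℕ} (G : SimpleGraph (Fin n)) [DecidableRel G.Adj] (t : ℝ) (ht : 0 < t)
    (hn : 0 < n) (hE : (n : ℝ) ^ 2 / 2 < ee G Finset.univ Finset.univ) (A : Finset (Fin n))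
    (hA : ee G A A + ee G Aᶜ Aᶜ ≤ t ^ 4 * (n : ℝ) ^ 2) :
    ∃ P1 Q1 : Finset (Fin n), Disjoint P1 Q1 ∧
      (∀ v ∈ P1 ∪ Q1, (n : ℝ) / 2 - 2 * (t ^ 2 * n) - 1 ≤ dg G v P1 + dg G v Q1) ∧
      (∀ v ∈ P1, dg G v P1 ≤ dg G v Q1) ∧ (∀ v ∈ Q1, dg G v Q1 ≤ dg G v P1) ∧
      ee G P1 P1 ≤ t ^ 4 * (n : ℝ) ^ 2 ∧ ee G Q1 Q1 ≤ t ^ 4 * (n : ℝ) ^ 2 ∧
      (n : ℝ) / 2 - 2 * (t ^ 2 * n) ≤ P1.card ∧ (P1.card : ℝ) ≤ n / 2 + 2 * (t ^ 2 * n) ∧
      (n : ℝ) / 2 - 2 * (t ^ 2 * n) ≤ Q1.card ∧ (Q1.card : ℝ) ≤ n / 2 + 2 * (t ^ 2 * n) ∧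
      0 < ee G P1 P1 + ee G Q1 Q1 := by
  classical
  obtain ⟨S, hS1, hS2, hS3⟩ := findS G t ht hn hE A hA
  have hn' : (0 : ℝ) < n := by exact_mod_cast hn
  have hSn : (S.card : ℝ) ≤ n := by
    have := Finset.card_le_univ S
    rw [Fintype.card_fin] at this
    exact_mod_cast this
  have ht2 : 0 < t ^ 2 * n := by positivity
  obtain ⟨P1, hP1, hmax⟩ := Finset.exists_max_image S.powerset
    (fun P => ee G P (S \ P)) ⟨∅, Finset.empty_mem_powerset S⟩
  rw [Finset.mem_powerset] at hP1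
  set Q1 := S \ P1 with hQ1
  have hmax' : ∀ P' ⊆ S, ee G P' (S \ P') ≤ ee G P1 Q1 := fun P' hP' =>
    hmax P' (Finset.mem_powerset.mpr hP')
  have hdis : Disjoint P1 Q1 := Finset.disjoint_sdiff
  have hun : P1 ∪ Q1 = S := Finset.union_sdiff_of_subset hP1
  have hES := ee_self_union G hdis
  rw [hun] at hES
  have hcard : (P1.card : ℝ) + Q1.card = S.card := by
    rw [← hun, Finset.card_union_of_disjoint hdis]
    push_cast
    rfl
  have hin : ee G P1 P1 + ee G Q1 Q1 ≤ t ^ 4 * (n : ℝ) ^ 2 := by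
    have h1 := split_A G S A
    have h2 := hmax' (S ∩ A) Finset.inter_subset_left
    linarith
  have hcr := ee_le G P1 Q1
  have h1 : (P1.card : ℝ) * Q1.card ≤ (S.card : ℝ) ^ 2 / 4 := by
    rw [← hcard]
    nlinarith [sq_nonneg ((P1.card : ℝ) - Q1.card)]
  have h2 : ((P1.card : ℝ) - Q1.card) ^ 2 ≤ (3 / 2 * (t ^ 2 * n)) ^ 2 := by
    have h3 : (S.card : ℝ) ^ 2 - 2 * (t ^ 4 * (n : ℝ) ^ 2) ≤ 4 * ((P1.card : ℝ) * Q1.card) := by
      linarith
    rw [← hcard] at h3
    have h4 : (3 / 2 * (t ^ 2 * n)) ^ 2 = 9 / 4 * (t ^ 4 * (n : ℝ) ^ 2) := by ring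
    have h5 : 0 ≤ t ^ 4 * (n : ℝ) ^ 2 := by positivity
    rw [h4]
    nlinarith
  obtain ⟨h3, h4⟩ := abs_le_of_sq_le_sq' h2 (by positivity)
  refine ⟨P1, Q1, hdis, ?_, ?_, ?_, ?_, ?_, ?_, ?_, ?_, ?_, ?_⟩
  · intro v hv
    rw [hun] at hv
    rw [← dg_union G v hdis, hun]
    have := hS3 v hv
    linarith
  · intro v hv
    have hvQ : v ∉ Q1 := Finset.disjoint_left.mp hdis hv
    have h5 := hmax' (P1.erase v) ((Finset.erase_subset v P1).trans hP1)
    have h6 : S \ (P1.erase v) = insert v Q1 := by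
      ext x
      simp only [hQ1, Finset.mem_sdiff, Finset.mem_erase, Finset.mem_insert]
      constructor
      · rintro ⟨a1, a2⟩
        by_cases hx : x = v
        · exact Or.inl hx
        · exact Or.inr ⟨a1, fun h => a2 ⟨hx, h⟩⟩
      · rintro (a1 | ⟨a1, a2⟩)
        · subst a1
          exact ⟨hP1 hv, fun h => h.1 rfl⟩
        · exact ⟨a1, fun h => a2 h.2⟩
    rw [h6, ee_insert_right G _ hvQ, dg_erase_self] at h5
    have h7 : ee G P1 Q1 = dg G v Q1 + ee G (P1.erase v) Q1 := by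
      conv_lhs => rw [← Finset.insert_erase hv]
      rw [ee_insert_left G (Finset.notMem_erase v P1)]
    linarith
  · intro v hv
    have hvP : v ∉ P1 := Finset.disjoint_right.mp hdis hv
    have hvS : v ∈ S := (Finset.mem_sdiff.mp hv).1
    have h5 := hmax' (insert v P1) (Finset.insert_subset hvS hP1)
    have h6 : S \ (insert v P1) = Q1.erase v := by
      ext x
      simp only [hQ1, Finset.mem_sdiff, Finset.mem_erase, Finset.mem_insert]
      constructor
      · rintro ⟨a1, a2⟩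
        push Not at a2
        exact ⟨a2.1, a1, a2.2⟩
      · rintro ⟨a1, a2, a3⟩
        refine ⟨a2, ?_⟩
        rintro (h | h)
        · exact a1 h
        · exact a3 h
    rw [h6, ee_insert_left G hvP, dg_erase_self] at h5
    have h7 : ee G P1 Q1 = dg G v P1 + ee G P1 (Q1.erase v) := by
      conv_lhs => rw [← Finset.insert_erase hv]
      rw [ee_insert_right G _ (Finset.notMem_erase v Q1)]
    linarith
  · have := ee_nonneg G Q1 Q1
    linarith
  · have := ee_nonneg G P1 P1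
    linarith
  · linarith
  · linarith
  · linarith
  · linarith
  · linarith

theorem exists_edge {n : ℕ} (G : SimpleGraph (Fin n)) [DecidableRel G.Adj] (S : Finset (Fin n))
    (h : 0 < ee G S S) : ∃ p ∈ S, ∃ p' ∈ S, G.Adj p p' := by
  rw [ee_eq] at h
  obtain ⟨p, hp, hd⟩ : ∃ p ∈ S, 0 < dg G p S := by
    by_contra hcon
    push Not at hcon
    exact absurd h (not_lt.mpr (Finset.sum_nonpos hcon))
  unfold dg at hd
  have h2 : 0 < (S.filter (fun b => G.Adj p b)).card := by exact_mod_cast hd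
  obtain ⟨p', hp'⟩ := Finset.card_pos.mp h2
  obtain ⟨a, b⟩ := Finset.mem_filter.mp hp'
  exact ⟨p, hp, p', a, b⟩

/-- Structure of almost bipartite graphs with more than `n ^ 2 / 4` edges: after deleting few
vertices there are a vertex `p`, sides `P₀`, `Q₀` forming an almost complete bipartite graph, and a
large set `C` in `Q₀`, every vertex of which is adjacent to `p`, together with short connections
`p - s - c`. -/
theorem nearBip_structure (η : ℝ) (hη : 0 < η) (hη1 : η < 1 / 1000) :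
    ∃ δ : ℝ, 0 < δ ∧ ∃ n₀ : ℕ, ∀ n : ℕ, n₀ ≤ n →
      ∀ (G : SimpleGraph (Fin n)) [DecidableRel G.Adj],
        n ^ 2 < 4 * G.edgeSet.ncard →
        (∃ A : Finset (Fin n),
          ((G.interedges A A).card : ℝ) + ((G.interedges Aᶜ Aᶜ).card : ℝ) ≤ δ * (n : ℝ) ^ 2) →
        ∃ (P Q C : Finset (Fin n)) (p p' : Fin n),
          Disjoint P Q ∧ C ⊆ Q ∧ p ∉ Q ∧ p' ∉ Q ∧ p ≠ p' ∧ p ∉ P ∧ p' ∉ P ∧
          -- sizes
          ((1 / 2 - η) * n ≤ (P.card : ℝ)) ∧ ((1 / 2 - η) * n ≤ (Q.card : ℝ)) ∧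
          ((1 / 4 - η) * n ≤ (C.card : ℝ)) ∧
          -- almost complete between P and Q
          (∀ a ∈ P, ((Q.filter (fun b => ¬ G.Adj a b)).card : ℝ) ≤ η * n) ∧
          (∀ b ∈ Q, ((P.filter (fun a => ¬ G.Adj a b)).card : ℝ) ≤ η * n) ∧
          (∀ c ∈ C, G.Adj p c) ∧
          -- either many middle vertices s in P for every c in C, or the single middle vertex p'
          ((10 * η * n ≤ ((P.filter (fun s => G.Adj p s)).card : ℝ)) ∨
           (G.Adj p p' ∧ (∀ c ∈ C, G.Adj p' c))) := by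
  set t : ℝ := η / 100 with ht
  have ht0 : 0 < t := by positivity
  have ht1 : t < 1 / 100000 := by
    rw [ht]
    linarith
  refine ⟨t ^ 4, by positivity, ⌈100 / t⌉₊ + 1, ?_⟩
  intro n hn G _ hE hA
  obtain ⟨A, hA⟩ := hA
  have hn1 : 100 / t ≤ n := by
    have h1 : 100 / t ≤ (⌈100 / t⌉₊ : ℝ) := Nat.le_ceil _
    have h2 : ((⌈100 / t⌉₊ + 1 : ℕ) : ℝ) ≤ n := by exact_mod_cast hn
    push_cast at h2
    linarith
  have htn : 100 ≤ t * n := by
    rw [div_le_iff₀ ht0] at hn1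
    linarith
  have hn0 : 0 < n := by omega
  rw [ee_inter, ee_inter] at hA
  have hE' : (n : ℝ) ^ 2 / 2 < ee G Finset.univ Finset.univ := by
    rw [ee_univ]
    have : ((n ^ 2 : ℕ) : ℝ) < ((4 * G.edgeSet.ncard : ℕ) : ℝ) := by exact_mod_cast hE
    push_cast at this
    linarith
  obtain ⟨P1, Q1, hdis, H1, H2, H2', H3, H3', H4, H4', H5, H5', hpos⟩ :=
    findPQ G t ht0 hn0 hE' A hA
  have hη : η = 100 * t := by
    rw [ht]
    ring
  have main : Concl G (100 * t) := by
    by_cases hc : 0 < ee G P1 P1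
    · obtain ⟨p, hp, p', hp', hadj⟩ := exists_edge G P1 hc
      exact core G t ht0 ht1 htn P1 Q1 hdis H1 H2 H3 H3' H4 H4' H5 H5' p p' hp hp' hadj
    · obtain ⟨p, hp, p', hp', hadj⟩ := exists_edge G Q1 (by linarith)
      exact core G t ht0 ht1 htn Q1 P1 hdis.symm (by
        intro v hv
        rw [Finset.union_comm] at hv
        have := H1 v hv
        linarith) H2' H3' H3 H5 H5' H4 H4' p p' hp hp' hadj
  rw [← hη] at main
  exact main

end Pool.Agent.Helper77.E809.NearBip
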