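import Pool.Agent.Helper77.E809.Defs

set_option autoImplicit false

namespace Pool.Agent.Helper77.E809.NearBipConflict

open Pool.Agent.Helper77.E809

open Finset

theorem nb_mem_edges {V : Type} {G : SimpleGraph V} {a b : V} (p : G.Walk a b) {f : Sym2 V}
    (hf : f ∈ p.edges) : ∃ j < p.length, f = s(p.getVert j, p.getVert (j + 1)) := by
  induction p with
  | nil => simp at hf
  | @cons x y z h q ih =>
    rw [SimpleGraph.Walk.edges_cons, List.mem_cons] at hf
    rcases hf with hf | hf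
    · refine ⟨0, by simp, ?_⟩
      rw [hf]
      simp
    · obtain ⟨j, hj, he⟩ := ih hf
      refine ⟨j + 1, by simp [hj], ?_⟩
      rw [he]
      simp

/-- A cycle of length `2 * k + 1` built from a path of length `2 * k` closing up an edge. -/
theorem conflict_of_path {V : Type} (G : SimpleGraph V) (k : ℕ) (hk : 1 ≤ k) {u v : V}
    (huv : G.Adj u v) (p : G.Walk v u) (hp : p.IsPath) (hl : p.length = 2 * k)
    (f : Sym2 V) (hf : f ∈ p.edges) : Conflict G k s(u, v) f := by
  obtain ⟨j, hj, he⟩ := nb_mem_edges p hf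
  rw [hl] at hj
  have hval : ∀ i : Fin (2 * k + 1), i.val < 2 * k → (i + 1 : Fin (2 * k + 1)).val = i.val + 1 := by
    intro i hi
    rw [Fin.val_add_one_of_lt]
    rw [Fin.lt_def]
    simpa using hi
  have hlast : ∀ i : Fin (2 * k + 1), ¬ i.val < 2 * k → (i + 1 : Fin (2 * k + 1)) = 0 := by
    intro i hi
    have h1 : i = Fin.last (2 * k) := by
      apply Fin.ext
      have := i.2
      rw [Fin.val_last]
      omega
    rw [h1]
    exact Fin.last_add_one _
  refine ⟨fun i => p.getVert i.val, ?_, ?_, Fin.last (2 * k), ⟨j, by omega⟩, ?_, ?_, ?_⟩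
  · intro a b hab
    have h1 := hp.getVert_injOn (by simp [hl]; omega) (by simp [hl]; omega) hab
    exact Fin.ext h1
  · intro i
    by_cases hi : i.val < 2 * k
    · simp only
      rw [hval i hi]
      exact p.adj_getVert_succ (by rw [hl]; exact hi)
    · simp only
      rw [hlast i hi]
      have h1 : i.val = p.length := by
        have := i.2
        omega
      rw [h1, SimpleGraph.Walk.getVert_length]
      simpa using huv
  · intro h
    have h1 := congrArg Fin.val h
    simp only [Fin.val_last] at h1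
    omega
  · simp only
    rw [hlast _ (by simp)]
    have h1 : (Fin.last (2 * k)).val = p.length := by rw [hl]; rfl
    rw [h1, SimpleGraph.Walk.getVert_length]
    simp
  · simp only
    rw [hval ⟨j, by omega⟩ hj]
    exact he

theorem nb_glue {V : Type} {G : SimpleGraph V} {a b d : V} (w : G.Walk a b) (T : G.Walk b d)
    (hw : w.IsPath) (hT : T.IsPath) (hd : ∀ x ∈ w.support, x ∉ T.support.tail) :
    (w.append T).IsPath := by
  rw [SimpleGraph.Walk.isPath_def, SimpleGraph.Walk.support_append, List.nodup_append]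
  refine ⟨hw.support_nodup, hT.support_nodup.tail, ?_⟩
  intro x hx y hy hxy
  exact hd x hx (by rw [hxy]; exact hy)

section greedy

variable {n : ℕ} (G : SimpleGraph (Fin n)) [DecidableRel G.Adj] {η : ℝ}

theorem nb_pickQ (hη1 : η < 1 / 1000) (Q X : Finset (Fin n)) (a h : Fin n)
    (ha : (n : ℝ) / 10 ≤ ((Q.filter (fun b => G.Adj a b)).card : ℝ))
    (hh : ((Q.filter (fun b => ¬ G.Adj h b)).card : ℝ) ≤ η * n)
    (hX : (X.card : ℝ) ≤ η * n) (hn : 0 < (n : ℝ)) :
    ∃ q ∈ Q, q ∉ X ∧ G.Adj a q ∧ G.Adj h q := by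
  have h1 : (X ∪ Q.filter (fun b => ¬ G.Adj h b)).card < (Q.filter (fun b => G.Adj a b)).card := by
    have h2 : ((X ∪ Q.filter (fun b => ¬ G.Adj h b)).card : ℝ) ≤ η * n + η * n := by
      have h3 : ((X ∪ Q.filter (fun b => ¬ G.Adj h b)).card : ℝ) ≤
          (X.card : ℝ) + ((Q.filter (fun b => ¬ G.Adj h b)).card : ℝ) := by
        exact_mod_cast Finset.card_union_le _ _
      linarith
    have h4 : ((X ∪ Q.filter (fun b => ¬ G.Adj h b)).card : ℝ) <
        ((Q.filter (fun b => G.Adj a b)).card : ℝ) := by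
      have h5 : η * n < 1 / 1000 * n := mul_lt_mul_of_pos_right hη1 hn
      linarith
    exact_mod_cast h4
  obtain ⟨q, hq, hq'⟩ := Finset.exists_mem_notMem_of_card_lt_card h1
  rw [Finset.mem_filter] at hq
  rw [Finset.mem_union, not_or, Finset.mem_filter, not_and, not_not] at hq'
  exact ⟨q, hq.1, hq'.1, hq.2, hq'.2 hq.1⟩

theorem nb_pickP (hη1 : η < 1 / 1000) (P X : Finset (Fin n)) (q : Fin n)
    (hPc : (1 / 2 - η) * n ≤ (P.card : ℝ))
    (hq : ((P.filter (fun a => ¬ G.Adj a q)).card : ℝ) ≤ η * n)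
    (hX : (X.card : ℝ) ≤ η * n) (hn : 0 < (n : ℝ)) :
    ∃ a ∈ P, a ∉ X ∧ G.Adj a q := by
  have h1 : (X ∪ P.filter (fun a => ¬ G.Adj a q)).card < P.card := by
    have h3 : ((X ∪ P.filter (fun a => ¬ G.Adj a q)).card : ℝ) ≤
        (X.card : ℝ) + ((P.filter (fun a => ¬ G.Adj a q)).card : ℝ) := by
      exact_mod_cast Finset.card_union_le _ _
    have h4 : ((X ∪ P.filter (fun a => ¬ G.Adj a q)).card : ℝ) < (P.card : ℝ) := by
      have h5 : η * n < 1 / 1000 * n := mul_lt_mul_of_pos_right hη1 hn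
      linarith
    exact_mod_cast h4
  obtain ⟨a, ha, ha'⟩ := Finset.exists_mem_notMem_of_card_lt_card h1
  rw [Finset.mem_union, not_or, Finset.mem_filter, not_and, not_not] at ha'
  exact ⟨a, ha, ha'.1, ha'.2 ha⟩

theorem nb_deg (hη1 : η < 1 / 1000) (Q : Finset (Fin n)) (a : Fin n)
    (hQc : (1 / 4 - η) * n ≤ (Q.card : ℝ))
    (ha : ((Q.filter (fun b => ¬ G.Adj a b)).card : ℝ) ≤ η * n) (hn : 0 < (n : ℝ)) :
    (n : ℝ) / 10 ≤ ((Q.filter (fun b => G.Adj a b)).card : ℝ) := by
  have h1 := Finset.card_filter_add_card_filter_not (s := Q) (fun b => G.Adj a b)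
  have h2 : ((Q.filter (fun b => G.Adj a b)).card : ℝ) +
      ((Q.filter (fun b => ¬ G.Adj a b)).card : ℝ) = (Q.card : ℝ) := by exact_mod_cast h1
  have h5 : η * n < 1 / 1000 * n := mul_lt_mul_of_pos_right hη1 hn
  linarith

theorem nb_even (hη1 : η < 1 / 1000) (P Q : Finset (Fin n)) (hPQ : Disjoint P Q)
    (hPc : (1 / 2 - η) * n ≤ (P.card : ℝ)) (hQc : (1 / 2 - η) * n ≤ (Q.card : ℝ))
    (hP : ∀ a ∈ P, ((Q.filter (fun b => ¬ G.Adj a b)).card : ℝ) ≤ η * n)
    (hQ : ∀ b ∈ Q, ((P.filter (fun a => ¬ G.Adj a b)).card : ℝ) ≤ η * n)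
    (hn : 0 < (n : ℝ)) :
    ∀ (t : ℕ) (X : Finset (Fin n)) (a h : Fin n), ((X.card : ℝ) + 2 * t + 4 ≤ η * n) →
      a ∉ X → h ∉ X → a ≠ h → h ∈ P →
      ((n : ℝ) / 10 ≤ ((Q.filter (fun b => G.Adj a b)).card : ℝ)) →
      ∃ w : G.Walk a h, w.IsPath ∧ w.length = 2 * (t + 1) ∧ ∀ x ∈ w.support, x ∉ X := by
  intro t
  induction t with
  | zero =>
    intro X a h hXc haX hhX hah hhP haN
    obtain ⟨q, hqQ, hqX, haq, hhq⟩ := nb_pickQ G hη1 Q X a h haN (hP h hhP)
      (by push_cast at hXc; linarith) hn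
    refine ⟨SimpleGraph.Walk.cons haq (SimpleGraph.Walk.cons hhq.symm SimpleGraph.Walk.nil),
      ?_, by simp, ?_⟩
    · simp [SimpleGraph.Walk.cons_isPath_iff, haq.ne, hah, hhq.ne.symm]
    · intro x hx
      simp only [SimpleGraph.Walk.support_cons, SimpleGraph.Walk.support_nil, List.mem_cons,
        List.not_mem_nil, or_false] at hx
      rcases hx with rfl | rfl | rfl
      · exact haX
      · exact hqX
      · exact hhX
  | succ t ih =>
    intro X a h hXc haX hhX hah hhP haN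
    push_cast at hXc
    have ht0 : (0 : ℝ) ≤ t := Nat.cast_nonneg t
    obtain ⟨q, hqQ, hqX, haq, hhq⟩ := nb_pickQ G hη1 Q X a h haN (hP h hhP) (by linarith) hn
    have hc1 : ((insert a (insert h X)).card : ℝ) ≤ (X.card : ℝ) + 2 := by
      have h1 := Finset.card_insert_le a (insert h X)
      have h2 := Finset.card_insert_le h X
      have h3 : (insert a (insert h X)).card ≤ X.card + 2 := by omega
      exact_mod_cast h3
    obtain ⟨p1, hp1P, hp1X, hp1q⟩ := nb_pickP G hη1 P (insert a (insert h X)) q hPc (hQ q hqQ)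
      (by linarith) hn
    rw [Finset.mem_insert, not_or, Finset.mem_insert, not_or] at hp1X
    obtain ⟨hp1a, hp1h, hp1X⟩ := hp1X
    have hc2 : ((insert a (insert q X)).card : ℝ) ≤ (X.card : ℝ) + 2 := by
      have h1 := Finset.card_insert_le a (insert q X)
      have h2 := Finset.card_insert_le q X
      have h3 : (insert a (insert q X)).card ≤ X.card + 2 := by omega
      exact_mod_cast h3
    have hhQ : h ≠ q := fun he => Finset.disjoint_left.1 hPQ hhP (he ▸ hqQ)
    have hη5 : η * n < 1 / 1000 * n := mul_lt_mul_of_pos_right hη1 hn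
    obtain ⟨w, hw, hwl, hwX⟩ := ih (insert a (insert q X)) p1 h (by linarith)
      (by
        rw [Finset.mem_insert, not_or, Finset.mem_insert, not_or]
        exact ⟨hp1a, hp1q.ne, hp1X⟩)
      (by
        rw [Finset.mem_insert, not_or, Finset.mem_insert, not_or]
        exact ⟨hah.symm, hhQ, hhX⟩) hp1h hhP
      (nb_deg G hη1 Q p1 (by linarith) (hP p1 hp1P) hn)
    have hwa : a ∉ w.support := fun hx => hwX a hx (Finset.mem_insert_self _ _)
    have hwq : q ∉ w.support := fun hx => hwX q hx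
      (Finset.mem_insert_of_mem (Finset.mem_insert_self _ _))
    refine ⟨SimpleGraph.Walk.cons haq (SimpleGraph.Walk.cons hp1q.symm w), ?_, ?_, ?_⟩
    · rw [SimpleGraph.Walk.cons_isPath_iff, SimpleGraph.Walk.cons_isPath_iff]
      refine ⟨⟨hw, hwq⟩, ?_⟩
      rw [SimpleGraph.Walk.support_cons, List.mem_cons, not_or]
      exact ⟨haq.ne, hwa⟩
    · rw [SimpleGraph.Walk.length_cons, SimpleGraph.Walk.length_cons, hwl]
      ring
    · intro x hx
      rw [SimpleGraph.Walk.support_cons, List.mem_cons, SimpleGraph.Walk.support_cons,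
        List.mem_cons] at hx
      rcases hx with rfl | rfl | hx
      · exact haX
      · exact hqX
      · intro hxX
        exact hwX x hx (Finset.mem_insert_of_mem (Finset.mem_insert_of_mem hxX))

theorem nb_odd (hη1 : η < 1 / 1000) (P Q : Finset (Fin n)) (hPQ : Disjoint P Q)
    (hPc : (1 / 2 - η) * n ≤ (P.card : ℝ)) (hQc : (1 / 2 - η) * n ≤ (Q.card : ℝ))
    (hP : ∀ a ∈ P, ((Q.filter (fun b => ¬ G.Adj a b)).card : ℝ) ≤ η * n)
    (hQ : ∀ b ∈ Q, ((P.filter (fun a => ¬ G.Adj a b)).card : ℝ) ≤ η * n)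
    (hn : 0 < (n : ℝ)) (t : ℕ) (X : Finset (Fin n)) (a h : Fin n)
    (hXc : (X.card : ℝ) + 2 * t + 5 ≤ η * n) (haX : a ∉ X) (hhX : h ∉ X) (hah : a ≠ h)
    (hhQ : h ∈ Q) (haN : (n : ℝ) / 10 ≤ ((Q.filter (fun b => G.Adj a b)).card : ℝ)) :
    ∃ w : G.Walk a h, w.IsPath ∧ w.length = 2 * (t + 1) + 1 ∧ ∀ x ∈ w.support, x ∉ X := by
  have ht0 : (0 : ℝ) ≤ t := Nat.cast_nonneg t
  have hc1 : ((insert a X).card : ℝ) ≤ (X.card : ℝ) + 1 := by
    exact_mod_cast Finset.card_insert_le a X
  have hc2 : ((insert h X).card : ℝ) ≤ (X.card : ℝ) + 1 := by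
    exact_mod_cast Finset.card_insert_le h X
  obtain ⟨p2, hp2P, hp2X, hp2h⟩ := nb_pickP G hη1 P (insert a X) h hPc (hQ h hhQ)
    (by linarith) hn
  rw [Finset.mem_insert, not_or] at hp2X
  obtain ⟨w, hw, hwl, hwX⟩ := nb_even G hη1 P Q hPQ hPc hQc hP hQ hn t (insert h X) a p2
    (by linarith)
    (by rw [Finset.mem_insert, not_or]; exact ⟨hah, haX⟩)
    (by rw [Finset.mem_insert, not_or]; exact ⟨hp2h.ne, hp2X.2⟩) (Ne.symm hp2X.1) hp2P haN
  refine ⟨w.append (SimpleGraph.Walk.cons hp2h SimpleGraph.Walk.nil), ?_, ?_, ?_⟩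
  · apply nb_glue _ _ hw
    · simp [SimpleGraph.Walk.cons_isPath_iff, hp2h.ne]
    · intro x hx hx'
      simp only [SimpleGraph.Walk.support_cons, SimpleGraph.Walk.support_nil, List.tail_cons,
        List.mem_cons, List.not_mem_nil, or_false] at hx'
      exact hwX x hx (by rw [hx']; exact Finset.mem_insert_self _ _)
  · rw [SimpleGraph.Walk.length_append, hwl]
    simp
  · intro x hx
    rw [SimpleGraph.Walk.mem_support_append_iff] at hx
    rcases hx with hx | hx
    · exact fun hxX => hwX x hx (Finset.mem_insert_of_mem hxX)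
    · simp only [SimpleGraph.Walk.support_cons, SimpleGraph.Walk.support_nil, List.mem_cons,
        List.not_mem_nil, or_false] at hx
      rcases hx with rfl | rfl
      · exact hp2X.2
      · exact hhX

end greedy

/-- In the structure provided by the near-bipartite structure lemma all edges between `C` and `P`
pairwise lie on a cycle of length `2 * k + 1`. -/
theorem nearBip_conflict (k : ℕ) (hk : 3 ≤ k) (η : ℝ) (hη : 0 < η) (hη1 : η < 1 / 1000) :
    ∃ n₀ : ℕ, ∀ n : ℕ, n₀ ≤ n → ∀ (G : SimpleGraph (Fin n)) [DecidableRel G.Adj]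
        (P Q C : Finset (Fin n)) (p p' : Fin n),
          Disjoint P Q → C ⊆ Q → p ∉ Q → p' ∉ Q → p ≠ p' → p ∉ P → p' ∉ P →
          ((1 / 2 - η) * n ≤ (P.card : ℝ)) → ((1 / 2 - η) * n ≤ (Q.card : ℝ)) →
          ((1 / 4 - η) * n ≤ (C.card : ℝ)) →
          (∀ a ∈ P, ((Q.filter (fun b => ¬ G.Adj a b)).card : ℝ) ≤ η * n) →
          (∀ b ∈ Q, ((P.filter (fun a => ¬ G.Adj a b)).card : ℝ) ≤ η * n) →
          (∀ c ∈ C, G.Adj p c) →
          ((10 * η * n ≤ ((P.filter (fun s => G.Adj p s)).card : ℝ)) ∨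
           (G.Adj p p' ∧ (∀ c ∈ C, G.Adj p' c))) →
          (∀ c₁ ∈ C, ∀ u₁ ∈ P, ∀ c₂ ∈ C, ∀ u₂ ∈ P, G.Adj c₁ u₁ → G.Adj c₂ u₂ →
            s(c₁, u₁) ≠ s(c₂, u₂) → Conflict G k s(c₁, u₁) s(c₂, u₂)) := by
  refine ⟨⌈(2 * (k : ℝ) + 50) / η⌉₊ + 1, ?_⟩
  intro n hn0 G _ P Q C p p' hPQ hCQ hpQ hp'Q hpp' hpP hp'P hPc hQc hCc hP hQ hpC halt
    c₁ hc₁ u₁ hu₁ c₂ hc₂ u₂ hu₂ hadj₁ hadj₂ hne
  have hn : 0 < (n : ℝ) := by
    have : 0 < n := by omega
    exact_mod_cast this
  have hηn : 2 * (k : ℝ) + 50 ≤ η * n := by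
    have h1 : (2 * (k : ℝ) + 50) / η ≤ n := by
      refine (Nat.le_ceil _).trans ?_
      exact_mod_cast (Nat.le_succ _).trans hn0
    rw [div_le_iff₀ hη] at h1
    linarith
  have hk3 : (3 : ℝ) ≤ k := by exact_mod_cast hk
  have hη5 : η * n < 1 / 1000 * n := mul_lt_mul_of_pos_right hη1 hn
  obtain ⟨t, ht⟩ : ∃ t, k = t + 3 := ⟨k - 3, by omega⟩
  have htk : (k : ℝ) = t + 3 := by rw [ht]; push_cast; ring
  -- degree of vertices of `P`
  have hdegP : ∀ a ∈ P, (n : ℝ) / 10 ≤ ((Q.filter (fun b => G.Adj a b)).card : ℝ) := by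
    intro a ha
    exact nb_deg G hη1 Q a (by linarith) (hP a ha) hn
  have hPQne : ∀ a ∈ P, ∀ b ∈ Q, a ≠ b := fun a ha b hb he =>
    Finset.disjoint_left.1 hPQ ha (he ▸ hb)
  -- middle vertices
  have hmid : ∀ c ∈ C, ∀ X : Finset (Fin n), (X.card : ℝ) ≤ η * n → p' ∉ X →
      ∃ s, s ∉ X ∧ s ∉ Q ∧ s ≠ p ∧ G.Adj p s ∧ G.Adj s c ∧
        (n : ℝ) / 10 ≤ ((Q.filter (fun b => G.Adj s b)).card : ℝ) := by
    intro c hc X hX hp'X
    rcases halt with hA | ⟨hpp, hp'C⟩
    · have h1 : (X ∪ P.filter (fun a => ¬ G.Adj a c)).card <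
          (P.filter (fun s => G.Adj p s)).card := by
        have h3 : ((X ∪ P.filter (fun a => ¬ G.Adj a c)).card : ℝ) ≤
            (X.card : ℝ) + ((P.filter (fun a => ¬ G.Adj a c)).card : ℝ) := by
          exact_mod_cast Finset.card_union_le _ _
        have h6 := hQ c (hCQ hc)
        have h4 : ((X ∪ P.filter (fun a => ¬ G.Adj a c)).card : ℝ) <
            ((P.filter (fun s => G.Adj p s)).card : ℝ) := by
          linarith
        exact_mod_cast h4
      obtain ⟨s, hs, hs'⟩ := Finset.exists_mem_notMem_of_card_lt_card h1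
      rw [Finset.mem_filter] at hs
      rw [Finset.mem_union, not_or, Finset.mem_filter, not_and, not_not] at hs'
      refine ⟨s, hs'.1, fun hsQ => hPQne s hs.1 s hsQ rfl, ?_, hs.2, hs'.2 hs.1, hdegP s hs.1⟩
      intro he
      exact hpP (he ▸ hs.1)
    · refine ⟨p', hp'X, hp'Q, hpp'.symm, hpp, hp'C c hc, ?_⟩
      have h1 : C ⊆ Q.filter (fun b => G.Adj p' b) := by
        intro x hx
        rw [Finset.mem_filter]
        exact ⟨hCQ hx, hp'C x hx⟩
      have h2 : (C.card : ℝ) ≤ ((Q.filter (fun b => G.Adj p' b)).card : ℝ) := by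
        exact_mod_cast Finset.card_le_card h1
      linarith
  have hc₁Q := hCQ hc₁
  have hc₂Q := hCQ hc₂
  have hu₁c : ∀ c ∈ C, u₁ ≠ c := fun c hc => hPQne u₁ hu₁ c (hCQ hc)
  have hu₂c : ∀ c ∈ C, u₂ ≠ c := fun c hc => hPQne u₂ hu₂ c (hCQ hc)
  have hcp : ∀ c ∈ C, c ≠ p := fun c hc he => hpQ (he ▸ hCQ hc)
  have hcp' : ∀ c ∈ C, c ≠ p' := fun c hc he => hp'Q (he ▸ hCQ hc)
  have hu₁p : u₁ ≠ p := fun he => hpP (he ▸ hu₁)
  have hu₂p : u₂ ≠ p := fun he => hpP (he ▸ hu₂)
  have hu₁p' : u₁ ≠ p' := fun he => hp'P (he ▸ hu₁)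
  have hu₂p' : u₂ ≠ p' := fun he => hp'P (he ▸ hu₂)
  have hcard2 : ∀ a b : Fin n, (({a, b} : Finset (Fin n)).card : ℝ) ≤ 2 := by
    intro a b
    exact_mod_cast Finset.card_le_two
  have hcard3 : ∀ a b c : Fin n, (({a, b, c} : Finset (Fin n)).card : ℝ) ≤ 3 := by
    intro a b c
    exact_mod_cast Finset.card_le_three
  have hcard4 : ∀ a b c d : Fin n, (({a, b, c, d} : Finset (Fin n)).card : ℝ) ≤ 4 := by
    intro a b c d
    exact_mod_cast Finset.card_le_four
  have ht0 : (0 : ℝ) ≤ t := Nat.cast_nonneg t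
  by_cases hc : c₁ = c₂
  · -- same `c`
    subst hc
    have hu : u₁ ≠ u₂ := by
      rintro rfl
      exact hne rfl
    -- `c'`
    obtain ⟨c', hc'C, hc'c, hc'u⟩ : ∃ c' ∈ C, c' ≠ c₁ ∧ G.Adj u₁ c' := by
      have h1 : (insert c₁ (Q.filter (fun b => ¬ G.Adj u₁ b))).card < C.card := by
        have h2 := Finset.card_insert_le c₁ (Q.filter (fun b => ¬ G.Adj u₁ b))
        have h3 : ((insert c₁ (Q.filter (fun b => ¬ G.Adj u₁ b))).card : ℝ) ≤
            ((Q.filter (fun b => ¬ G.Adj u₁ b)).card : ℝ) + 1 := by exact_mod_cast h2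
        have h4 := hP u₁ hu₁
        have h5 : ((insert c₁ (Q.filter (fun b => ¬ G.Adj u₁ b))).card : ℝ) < (C.card : ℝ) := by
          linarith
        exact_mod_cast h5
      obtain ⟨c', h2, h3⟩ := Finset.exists_mem_notMem_of_card_lt_card h1
      rw [Finset.mem_insert, not_or, Finset.mem_filter, not_and, not_not] at h3
      exact ⟨c', h2, h3.1, h3.2 (hCQ h2)⟩
    obtain ⟨s, hsX, hsQ, hsp, hps, -, hsN⟩ := hmid c₁ hc₁ {u₁, u₂}
      ((hcard2 u₁ u₂).trans (by linarith))
      (by
        simp only [Finset.mem_insert, Finset.mem_singleton, not_or]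
        exact ⟨hu₁p'.symm, hu₂p'.symm⟩)
    simp only [Finset.mem_insert, Finset.mem_singleton, not_or] at hsX
    have hsc : ∀ c ∈ C, s ≠ c := fun c hc he => hsQ (he ▸ hCQ hc)
    obtain ⟨w, hw, hwl, hwX⟩ := nb_even G hη1 P Q hPQ hPc hQc hP hQ hn t {c₁, c', u₁, p} s u₂
      (by have := hcard4 c₁ c' u₁ p; linarith)
      (by
        simp only [Finset.mem_insert, Finset.mem_singleton, not_or]
        exact ⟨hsc _ hc₁, hsc _ hc'C, hsX.1, hsp⟩)
      (by
        simp only [Finset.mem_insert, Finset.mem_singleton, not_or]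
        exact ⟨hu₂c _ hc₁, hu₂c _ hc'C, hu.symm, hu₂p⟩) hsX.2 hu₂ hsN
    have hwX' : ∀ x ∈ w.support, x ≠ c₁ ∧ x ≠ c' ∧ x ≠ u₁ ∧ x ≠ p := by
      intro x hx
      have := hwX x hx
      simpa only [Finset.mem_insert, Finset.mem_singleton, not_or] using this
    set T : G.Walk u₂ c₁ := SimpleGraph.Walk.cons hadj₂.symm SimpleGraph.Walk.nil with hT
    have hTpath : T.IsPath := by
      rw [hT]
      simp [SimpleGraph.Walk.cons_isPath_iff, hadj₂.ne.symm]
    have hTtail : T.support.tail = [c₁] := by rw [hT]; simp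
    have hTsupp : T.support = [u₂, c₁] := by rw [hT]; simp
    have hwT : (w.append T).IsPath := by
      apply nb_glue _ _ hw hTpath
      intro x hx hx'
      rw [hTtail, List.mem_singleton] at hx'
      exact (hwX' x hx).1 hx'
    have hsupp : ∀ x ∈ (w.append T).support, x ∈ w.support ∨ x = c₁ := by
      intro x hx
      rw [SimpleGraph.Walk.mem_support_append_iff, hTsupp] at hx
      simp only [List.mem_cons, List.not_mem_nil, or_false] at hx
      rcases hx with hx | hx | hx
      · exact Or.inl hx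
      · left; rw [hx]; exact w.end_mem_support
      · exact Or.inr hx
    have hpc' : G.Adj c' p := (hpC c' hc'C).symm
    set Wk : G.Walk u₁ c₁ := SimpleGraph.Walk.cons hc'u (SimpleGraph.Walk.cons hpc'
      (SimpleGraph.Walk.cons hps (w.append T))) with hWk
    have hWpath : Wk.IsPath := by
      rw [hWk, SimpleGraph.Walk.cons_isPath_iff, SimpleGraph.Walk.cons_isPath_iff,
        SimpleGraph.Walk.cons_isPath_iff]
      refine ⟨⟨⟨hwT, ?_⟩, ?_⟩, ?_⟩
      · intro hx
        rcases hsupp _ hx with h | h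
        · exact (hwX' _ h).2.2.2 rfl
        · exact hcp _ hc₁ h.symm
      · rw [SimpleGraph.Walk.support_cons, List.mem_cons, not_or]
        refine ⟨hcp _ hc'C, ?_⟩
        intro hx
        rcases hsupp _ hx with h | h
        · exact (hwX' _ h).2.1 rfl
        · exact hc'c h
      · rw [SimpleGraph.Walk.support_cons, List.mem_cons, not_or, SimpleGraph.Walk.support_cons,
          List.mem_cons, not_or]
        refine ⟨hu₁c _ hc'C, hu₁p, ?_⟩
        intro hx
        rcases hsupp _ hx with h | h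
        · exact (hwX' _ h).2.2.1 rfl
        · exact hu₁c _ hc₁ h
    refine conflict_of_path G k (by omega) hadj₁ Wk hWpath ?_ _ ?_
    · rw [hWk, SimpleGraph.Walk.length_cons, SimpleGraph.Walk.length_cons,
        SimpleGraph.Walk.length_cons, SimpleGraph.Walk.length_append, hwl, hT]
      simp
      omega
    · rw [hWk, SimpleGraph.Walk.edges_cons, SimpleGraph.Walk.edges_cons,
        SimpleGraph.Walk.edges_cons, SimpleGraph.Walk.edges_append, hT]
      simp [Sym2.eq_swap]
  · by_cases hu : u₁ = u₂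
    · -- same `u`
      subst hu
      obtain ⟨s, hsX, hsQ, hsp, hps, -, hsN⟩ := hmid c₁ hc₁ {u₁, u₁}
        ((hcard2 u₁ u₁).trans (by linarith))
        (by
          simp only [Finset.mem_insert, Finset.mem_singleton, not_or]
          exact ⟨hu₁p'.symm, hu₁p'.symm⟩)
      simp only [Finset.mem_insert, Finset.mem_singleton, not_or] at hsX
      have hsc : ∀ c ∈ C, s ≠ c := fun c hc he => hsQ (he ▸ hCQ hc)
      obtain ⟨w, hw, hwl, hwX⟩ := nb_odd G hη1 P Q hPQ hPc hQc hP hQ hn t {u₁, c₁, p} s c₂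
        (by have := hcard3 u₁ c₁ p; linarith)
        (by
          simp only [Finset.mem_insert, Finset.mem_singleton, not_or]
          exact ⟨hsX.1, hsc _ hc₁, hsp⟩)
        (by
          simp only [Finset.mem_insert, Finset.mem_singleton, not_or]
          exact ⟨(hu₁c _ hc₂).symm, Ne.symm hc, hcp _ hc₂⟩) (hsc _ hc₂) hc₂Q hsN
      have hwX' : ∀ x ∈ w.support, x ≠ u₁ ∧ x ≠ c₁ ∧ x ≠ p := by
        intro x hx
        have := hwX x hx
        simpa only [Finset.mem_insert, Finset.mem_singleton, not_or] using this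
      set T : G.Walk c₂ u₁ := SimpleGraph.Walk.cons hadj₂ SimpleGraph.Walk.nil with hT
      have hTpath : T.IsPath := by
        rw [hT]
        simp [SimpleGraph.Walk.cons_isPath_iff, hadj₂.ne]
      have hTtail : T.support.tail = [u₁] := by rw [hT]; simp
      have hTsupp : T.support = [c₂, u₁] := by rw [hT]; simp
      have hwT : (w.append T).IsPath := by
        apply nb_glue _ _ hw hTpath
        intro x hx hx'
        rw [hTtail, List.mem_singleton] at hx'
        exact (hwX' x hx).1 hx'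
      have hsupp : ∀ x ∈ (w.append T).support, x ∈ w.support ∨ x = u₁ := by
        intro x hx
        rw [SimpleGraph.Walk.mem_support_append_iff, hTsupp] at hx
        simp only [List.mem_cons, List.not_mem_nil, or_false] at hx
        rcases hx with hx | hx | hx
        · exact Or.inl hx
        · left; rw [hx]; exact w.end_mem_support
        · exact Or.inr hx
      have hc₁p : G.Adj c₁ p := (hpC c₁ hc₁).symm
      set Wk : G.Walk c₁ u₁ := SimpleGraph.Walk.cons hc₁p
        (SimpleGraph.Walk.cons hps (w.append T)) with hWk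
      have hWpath : Wk.IsPath := by
        rw [hWk, SimpleGraph.Walk.cons_isPath_iff, SimpleGraph.Walk.cons_isPath_iff]
        refine ⟨⟨hwT, ?_⟩, ?_⟩
        · intro hx
          rcases hsupp _ hx with h | h
          · exact (hwX' _ h).2.2 rfl
          · exact hu₁p h.symm
        · rw [SimpleGraph.Walk.support_cons, List.mem_cons, not_or]
          refine ⟨hcp _ hc₁, ?_⟩
          intro hx
          rcases hsupp _ hx with h | h
          · exact (hwX' _ h).2.1 rfl
          · exact hu₁c _ hc₁ h.symm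
      rw [Sym2.eq_swap (a := c₁)]
      refine conflict_of_path G k (by omega) hadj₁.symm Wk hWpath ?_ _ ?_
      · rw [hWk, SimpleGraph.Walk.length_cons, SimpleGraph.Walk.length_cons,
          SimpleGraph.Walk.length_append, hwl, hT]
        simp
        omega
      · rw [hWk, SimpleGraph.Walk.edges_cons, SimpleGraph.Walk.edges_cons,
          SimpleGraph.Walk.edges_append, hT]
        simp
    · -- all different
      obtain ⟨s, hsX, hsQ, hsp, hps, hsc₁, -⟩ := hmid c₁ hc₁ {u₁, u₂}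
        ((hcard2 u₁ u₂).trans (by linarith))
        (by
          simp only [Finset.mem_insert, Finset.mem_singleton, not_or]
          exact ⟨hu₁p'.symm, hu₂p'.symm⟩)
      simp only [Finset.mem_insert, Finset.mem_singleton, not_or] at hsX
      have hsc : ∀ c ∈ C, s ≠ c := fun c hc he => hsQ (he ▸ hCQ hc)
      obtain ⟨w, hw, hwl, hwX⟩ := nb_even G hη1 P Q hPQ hPc hQc hP hQ hn t {c₁, c₂, p, s} u₁ u₂
        (by have := hcard4 c₁ c₂ p s; linarith)
        (by
          simp only [Finset.mem_insert, Finset.mem_singleton, not_or]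
          exact ⟨hu₁c _ hc₁, hu₁c _ hc₂, hu₁p, Ne.symm hsX.1⟩)
        (by
          simp only [Finset.mem_insert, Finset.mem_singleton, not_or]
          exact ⟨hu₂c _ hc₁, hu₂c _ hc₂, hu₂p, Ne.symm hsX.2⟩) hu hu₂ (hdegP u₁ hu₁)
      have hwX' : ∀ x ∈ w.support, x ≠ c₁ ∧ x ≠ c₂ ∧ x ≠ p ∧ x ≠ s := by
        intro x hx
        have := hwX x hx
        simpa only [Finset.mem_insert, Finset.mem_singleton, not_or] using this
      have hc₂p : G.Adj c₂ p := (hpC c₂ hc₂).symm
      set T : G.Walk u₂ c₁ := SimpleGraph.Walk.cons hadj₂.symm (SimpleGraph.Walk.cons hc₂p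
        (SimpleGraph.Walk.cons hps (SimpleGraph.Walk.cons hsc₁ SimpleGraph.Walk.nil))) with hT
      have hTpath : T.IsPath := by
        rw [hT]
        simp only [SimpleGraph.Walk.cons_isPath_iff, SimpleGraph.Walk.support_cons,
          SimpleGraph.Walk.support_nil, List.mem_cons, List.not_mem_nil, or_false, not_or,
          SimpleGraph.Walk.IsPath.nil, true_and]
        exact ⟨⟨⟨hsc _ hc₁, Ne.symm hsp, (hcp _ hc₁).symm⟩, hcp _ hc₂, (hsc _ hc₂).symm,
          Ne.symm hc⟩, hu₂c _ hc₂, hu₂p, Ne.symm hsX.2, hu₂c _ hc₁⟩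
      have hTtail : T.support.tail = [c₂, p, s, c₁] := by rw [hT]; simp
      have hwT : (w.append T).IsPath := by
        apply nb_glue _ _ hw hTpath
        intro x hx hx'
        rw [hTtail] at hx'
        simp only [List.mem_cons, List.not_mem_nil, or_false] at hx'
        obtain ⟨h1, h2, h3, h4⟩ := hwX' x hx
        rcases hx' with h | h | h | h
        · exact h2 h
        · exact h3 h
        · exact h4 h
        · exact h1 h
      refine conflict_of_path G k (by omega) hadj₁ (w.append T) hwT ?_ _ ?_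
      · rw [SimpleGraph.Walk.length_append, hwl, hT]
        simp
        omega
      · rw [SimpleGraph.Walk.edges_append, hT]
        simp [Sym2.eq_swap]

end Pool.Agent.Helper77.E809.NearBipConflict
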