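import Pool.Agent.Helper77.E809.Defs

set_option autoImplicit false

namespace Pool.Agent.Helper77.E809.Upper

open Pool.Agent.Helper77.E809

/-- the folding map -/
def fold (n a : ℕ) (h : n ≤ 2 * a) (x : Fin n) : Fin a :=
  if hx : x.val < a then ⟨x.val, hx⟩ else ⟨x.val - a, by have := x.isLt; omega⟩

theorem fold_inj {n a : ℕ} (h : n ≤ 2 * a) {x y : Fin n} (hs : x.val < a ↔ y.val < a)
    (he : fold n a h x = fold n a h y) : x = y := by
  unfold fold at he
  by_cases hx : x.val < a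
  · have hy := hs.mp hx
    rw [dif_pos hx, dif_pos hy] at he
    exact Fin.ext (by simpa using he)
  · have hy : ¬ y.val < a := fun h' => hx (hs.mpr h')
    rw [dif_neg hx, dif_neg hy] at he
    have := Fin.ext_iff.mp he
    simp only at this
    exact Fin.ext (by omega)

/-- crossing pairs -/
def cross (n a : ℕ) (ha : a ≤ n) : Finset (Sym2 (Fin n)) :=
  (Finset.univ : Finset (Fin a × Fin (n - a))).image
    (fun p => s(⟨p.1.val, by omega⟩, ⟨a + p.2.val, by have := p.2.isLt; omega⟩))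

/-- edges of the two cliques -/
def cliq (n a : ℕ) (ha : a ≤ n) : Finset (Sym2 (Fin n)) :=
  (Finset.univ.filter fun e : Sym2 (Fin n) => ¬ e.IsDiag) \ cross n a ha

theorem card_cliq (n a : ℕ) (ha : a ≤ n) : n.choose 2 - a * (n - a) ≤ (cliq n a ha).card := by
  have h1 : (Finset.univ.filter fun e : Sym2 (Fin n) => ¬ e.IsDiag).card = n.choose 2 := by
    rw [← Fintype.card_subtype]
    have := Sym2.card_subtype_not_diag (α := Fin n)
    rw [Fintype.card_fin] at this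
    exact this
  have h2 : (cross n a ha).card ≤ a * (n - a) := by
    refine Finset.card_image_le.trans ?_
    simp
  have h3 := Finset.le_card_sdiff (cross n a ha) (Finset.univ.filter fun e : Sym2 (Fin n) => ¬ e.IsDiag)
  unfold cliq
  omega

theorem side_of_mem {n a : ℕ} (ha : a ≤ n) {x y : Fin n} (h : s(x, y) ∈ cliq n a ha) :
    x.val < a ↔ y.val < a := by
  unfold cliq at h
  rw [Finset.mem_sdiff] at h
  have h2 := h.2
  unfold cross at h2
  simp only [Finset.mem_image, Finset.mem_univ, true_and, not_exists] at h2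
  constructor
  · intro hx
    by_contra hy
    refine h2 (⟨x.val, hx⟩, ⟨y.val - a, by have := y.isLt; omega⟩) ?_
    rw [Sym2.eq_iff]
    left
    refine ⟨rfl, Fin.ext ?_⟩
    simp only; omega
  · intro hy
    by_contra hx
    refine h2 (⟨y.val, hy⟩, ⟨x.val - a, by have := x.isLt; omega⟩) ?_
    rw [Sym2.eq_iff]
    right
    refine ⟨rfl, Fin.ext ?_⟩
    simp only; omega

theorem nat_ineq (n : ℕ) (s : ℕ) (hs : n < s * (s - 1)) (hs1 : 1 ≤ s) (ha : n / 2 + s ≤ n) :
    n ^ 2 / 4 + 1 ≤ n.choose 2 - (n / 2 + s) * (n - (n / 2 + s)) := by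
  obtain ⟨t, rfl⟩ : ∃ t, s = t + 1 := ⟨s - 1, by omega⟩
  rw [Nat.choose_two_right]
  simp only [Nat.add_sub_cancel] at hs
  rcases Nat.even_or_odd' n with ⟨h, rfl | rfl⟩
  · have e1 : 2 * h / 2 = h := by omega
    rw [e1] at ha ⊢
    obtain ⟨u, hu⟩ : ∃ u, h = t + 1 + u := ⟨h - (t+1), by omega⟩
    subst hu
    have e2 : 2 * (t + 1 + u) - (t + 1 + u + (t + 1)) = u := by omega
    have e3 : (2 * (t + 1 + u)) ^ 2 / 4 = (t + 1 + u) ^ 2 := by
      rw [show (2 * (t + 1 + u)) ^ 2 = 4 * (t + 1 + u) ^ 2 by ring]; simp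
    have e4 : 2 * (t + 1 + u) * (2 * (t + 1 + u) - 1) / 2 = (t + 1 + u) * (2 * (t + 1 + u) - 1) := by
      rw [mul_assoc]; simp
    have e5 : 2 * (t + 1 + u) - 1 = 2 * t + 1 + 2 * u := by omega
    rw [e2, e3, e4, e5]
    apply Nat.le_sub_of_add_le
    nlinarith
  · have e1 : (2 * h + 1) / 2 = h := by omega
    rw [e1] at ha ⊢
    obtain ⟨u, hu⟩ : ∃ u, h + 1 = t + 1 + u := ⟨h - t, by omega⟩
    have hh : h = t + u := by omega
    subst hh
    have e2 : 2 * (t + u) + 1 - (t + u + (t + 1)) = u := by omega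
    have e3 : (2 * (t + u) + 1) ^ 2 / 4 = (t + u) ^ 2 + (t + u) := by
      rw [show (2 * (t + u) + 1) ^ 2 = 1 + 4 * ((t + u) ^ 2 + (t + u)) by ring]
      rw [Nat.add_mul_div_left _ _ (by norm_num)]; simp
    have e5 : 2 * (t + u) + 1 - 1 = 2 * (t + u) := by omega
    have e4 : (2 * (t + u) + 1) * (2 * (t + u) + 1 - 1) / 2 = (2 * (t + u) + 1) * (t + u) := by
      rw [e5, show (2 * (t + u) + 1) * (2 * (t + u)) = 2 * ((2 * (t + u) + 1) * (t + u)) by ring]
      simp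
    rw [e2, e3, e4]
    apply Nat.le_sub_of_add_le
    nlinarith

theorem real_ineq (ε : ℝ) (hε : 0 < ε) (n : ℕ) (hn : 16 ≤ n) (hn2 : 9 / ε ^ 2 ≤ (n : ℝ)) (a : ℕ)
    (ha : a = n / 2 + (Nat.sqrt n + 3)) :
    (((a + 1).choose 2 : ℕ) : ℝ) ≤ (1 / 8 + ε) * (n : ℝ) ^ 2 := by
  have h1 : (((a + 1).choose 2 : ℕ) : ℝ) ≤ ((a : ℝ) + 1) ^ 2 / 2 := by
    rw [Nat.cast_choose_two]
    push_cast
    have : (0:ℝ) ≤ a := Nat.cast_nonneg a
    nlinarith
  set t : ℝ := Real.sqrt n with ht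
  have hn0 : (0:ℝ) ≤ n := Nat.cast_nonneg n
  have ht2 : t ^ 2 = n := Real.sq_sqrt hn0
  have ht4 : 4 ≤ t := by
    rw [ht, show (4:ℝ) = Real.sqrt 16 by rw [show (16:ℝ) = 4 ^ 2 by norm_num]; simp]
    exact Real.sqrt_le_sqrt (by exact_mod_cast hn)
  have hte : 3 / ε ≤ t := by
    rw [ht]
    apply Real.le_sqrt_of_sq_le
    rw [div_pow]; norm_num; exact hn2
  have h2 : (a : ℝ) ≤ t ^ 2 / 2 + t + 3 := by
    have h3 : ((Nat.sqrt n : ℕ) : ℝ) ≤ t := Real.nat_sqrt_le_real_sqrt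
    have h4 : ((n / 2 : ℕ) : ℝ) ≤ (n : ℝ) / 2 := Nat.cast_div_le
    rw [ha]; push_cast
    rw [ht2]; linarith
  have h5 : (a : ℝ) + 1 ≤ t ^ 2 / 2 + 2 * t := by linarith
  have h6 : ((a : ℝ) + 1) ^ 2 ≤ (t ^ 2 / 2 + 2 * t) ^ 2 :=
    pow_le_pow_left₀ (by positivity) h5 2
  have h7 : 3 ≤ ε * t := by rwa [div_le_iff₀' hε] at hte
  have h8 : (t ^ 2 / 2 + 2 * t) ^ 2 / 2 = t ^ 4 / 8 + t ^ 3 + 2 * t ^ 2 := by ring
  have h9 : (1 / 8 + ε) * (n : ℝ) ^ 2 = t ^ 4 / 8 + (ε * t) * t ^ 3 := by rw [← ht2]; ring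
  rw [h9]
  have h10 : 3 * t ^ 3 ≤ (ε * t) * t ^ 3 := mul_le_mul_of_nonneg_right h7 (by positivity)
  have h11 : 2 * t ^ 2 ≤ 2 * t ^ 3 := by
    have : t ^ 2 * 1 ≤ t ^ 2 * t := mul_le_mul_of_nonneg_left (by linarith) (by positivity)
    nlinarith
  linarith

/-- Upper bound: two cliques sharing a palette. -/
theorem upper (k : ℕ) (hk : 1 ≤ k) (ε : ℝ) (hε : 0 < ε) :
    ∃ n₀ : ℕ, ∀ n : ℕ, n₀ ≤ n → ∃ r : ℕ, (r : ℝ) ≤ (1 / 8 + ε) * (n : ℝ) ^ 2 ∧
      ∃ G : SimpleGraph (Fin n),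
        G.edgeSet.ncard = n ^ 2 / 4 + 1 ∧
        ∃ c : Sym2 (Fin n) → Fin r,
          ∀ v : Fin (2 * k + 1) → Fin n, Function.Injective v →
            (∀ i : Fin (2 * k + 1), G.Adj (v i) (v (i + 1))) →
            Function.Injective
              (fun i : Fin (2 * k + 1) => c s(v i, v (i + 1))) := by
  refine ⟨max 36 ⌈9 / ε ^ 2⌉₊, fun n hn => ?_⟩
  have hn36 : 36 ≤ n := le_trans (le_max_left _ _) hn
  have hnε : 9 / ε ^ 2 ≤ (n : ℝ) := by
    have : ⌈9 / ε ^ 2⌉₊ ≤ n := le_trans (le_max_right _ _) hn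
    exact (Nat.le_ceil _).trans (by exact_mod_cast this)
  set s := Nat.sqrt n + 3 with hs
  have hsq : Nat.sqrt n * Nat.sqrt n ≤ n := Nat.sqrt_le n
  have hsq2 : n < (Nat.sqrt n + 1) * (Nat.sqrt n + 1) := Nat.lt_succ_sqrt n
  have h6 : 6 ≤ Nat.sqrt n := by
    rw [Nat.le_sqrt]; omega
  have ha : n / 2 + s ≤ n := by
    have : 2 * (Nat.sqrt n + 3) ≤ n := by nlinarith
    omega
  set a := n / 2 + s with haa
  have h2a : n ≤ 2 * a := by omega
  have hs3 : n < s * (s - 1) := by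
    have h7 : s - 1 = Nat.sqrt n + 2 := by omega
    rw [h7]
    nlinarith
  have hcard := nat_ineq n s hs3 (by omega) ha
  obtain ⟨T, hT, hTc⟩ := Finset.exists_subset_card_eq (hcard.trans (card_cliq n a ha))
  refine ⟨Fintype.card (Sym2 (Fin a)), ?_, SimpleGraph.fromEdgeSet (T : Set (Sym2 (Fin n))), ?_,
    fun e => Fintype.equivFin _ (Sym2.map (fold n a h2a) e), ?_⟩
  · rw [Sym2.card, Fintype.card_fin]
    exact real_ineq ε hε n (by omega) hnε a (by rw [haa, hs])
  · rw [SimpleGraph.edgeSet_fromEdgeSet]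
    have : (T : Set (Sym2 (Fin n))) \ {e | e.IsDiag} = T := by
      ext e
      simp only [Set.mem_sdiff, Finset.mem_coe, Set.mem_ofPred_eq, and_iff_left_iff_imp]
      intro he
      have := hT he
      unfold cliq at this
      rw [Finset.mem_sdiff, Finset.mem_filter] at this
      exact this.1.2
    have h8 : (T : Set (Sym2 (Fin n))) \ Sym2.diagSet = T := by
      rw [← this]
      ext e
      simp
    first
    | rw [this, Set.ncard_coe_finset, hTc]
    | rw [h8, Set.ncard_coe_finset, hTc]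
  · intro v hv hadj
    have hside : ∀ i : Fin (2 * k + 1), ((v i).val < a ↔ (v (i + 1)).val < a) := by
      intro i
      have h1 := hadj i
      rw [SimpleGraph.fromEdgeSet_adj] at h1
      exact side_of_mem ha (hT (by simpa using h1.1))
    have hside0 : ∀ i : Fin (2 * k + 1), ((v i).val < a ↔ (v 0).val < a) := by
      intro i
      induction i using Fin.induction with
      | zero => rfl
      | succ i ih =>
        have := hside i.castSucc
        rw [Fin.coeSucc_eq_succ] at this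
        rw [← this]; exact ih
    have hss : ∀ i j : Fin (2 * k + 1), ((v i).val < a ↔ (v j).val < a) := fun i j =>
      (hside0 i).trans (hside0 j).symm
    intro i j hij
    simp only [EmbeddingLike.apply_eq_iff_eq, Sym2.map_mk] at hij
    rw [Sym2.eq_iff] at hij
    rcases hij with ⟨h1, _⟩ | ⟨h1, h2⟩
    · exact hv (fold_inj h2a (hss _ _) h1)
    · have e1 : i = j + 1 := hv (fold_inj h2a (hss _ _) h1)
      have e2 : i + 1 = j := hv (fold_inj h2a (hss _ _) h2)
      exfalso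
      rw [e1, add_assoc] at e2
      have e3 : (1 : Fin (2 * k + 1)) + 1 = 0 := by
        have : j + (1 + 1) = j + 0 := by rw [e2, add_zero]
        exact add_left_cancel this
      have e4 := congrArg Fin.val e3
      rw [Fin.val_add, Fin.val_one', Nat.mod_eq_of_lt (show 1 < 2 * k + 1 by omega)] at e4
      simp only [Fin.val_zero] at e4
      rw [Nat.mod_eq_of_lt (by omega)] at e4
      omega

end Pool.Agent.Helper77.E809.Upper
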