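import Pool.Agent.Helper77.E809.Defs
import Pool.Agent.Helper77.E809.Cleaning
import Pool.Agent.Helper77.E809.Cycles
import Pool.Agent.Helper77.E809.NearBip
import Pool.Agent.Helper77.E809.NearBipConflict
import Pool.Agent.Helper77.E809.Upper

set_option autoImplicit false

namespace Pool.Agent.Helper77.E809.Final

open Pool.Agent.Helper77.E809 Pool.Agent.Helper77.E809.Cleaning Pool.Agent.Helper77.E809.Cycles Pool.Agent.Helper77.E809.NearBip Pool.Agent.Helper77.E809.NearBipConflict Pool.Agent.Helper77.E809.Upper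

open Finset

theorem j3184_darts {n : ℕ} (K : SimpleGraph (Fin n)) :
    {p : Fin n × Fin n | K.Adj p.1 p.2}.ncard = 2 * K.edgeSet.ncard := by
  classical
  have h1 : {p : Fin n × Fin n | K.Adj p.1 p.2}.ncard = Fintype.card K.Dart := by
    rw [← Nat.card_eq_fintype_card]
    change Nat.card {p : Fin n × Fin n | K.Adj p.1 p.2} = _
    refine Nat.card_congr ⟨fun p => ⟨p.1, p.2⟩, fun d => ⟨d.toProd, d.adj⟩, fun _ => rfl,
      fun _ => rfl⟩
  rw [h1, K.dart_card_eq_twice_card_edges, ← SimpleGraph.coe_edgeFinset, Set.ncard_coe_finset]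

theorem j3184_color {n : ℕ} {k r : ℕ} {G : SimpleGraph (Fin n)} {c : Sym2 (Fin n) → Fin r}
    (hc : ∀ v : Fin (2 * k + 1) → Fin n, Function.Injective v →
          (∀ i : Fin (2 * k + 1), G.Adj (v i) (v (i + 1))) →
          Function.Injective
            (fun i : Fin (2 * k + 1) => c s(v i, v (i + 1)))) {e f : Sym2 (Fin n)}
    (h : Conflict G k e f) : c e ≠ c f := by
  obtain ⟨v, hv, hadj, i, j, hij, rfl, rfl⟩ := h
  intro h
  exact hij (hc v hv hadj h)

theorem j3184_ordered {n : ℕ} {G H : SimpleGraph (Fin n)} [DecidableRel G.Adj] (hHG : H ≤ G)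
    (A : Finset (Fin n)) :
    (G.interedges A A).card + (G.interedges Aᶜ Aᶜ).card ≤
      {p : Fin n × Fin n | H.Adj p.1 p.2 ∧ (p.1 ∈ A ↔ p.2 ∈ A)}.ncard +
      2 * (G.edgeSet.ncard - H.edgeSet.ncard) := by
  classical
  have hdis : Disjoint (G.interedges A A) (G.interedges Aᶜ Aᶜ) := by
    rw [Finset.disjoint_left]
    intro p hp hq
    rw [SimpleGraph.mem_interedges_iff] at hp hq
    exact (Finset.mem_compl.1 hq.1) hp.1
  rw [← Finset.card_union_of_disjoint hdis]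
  have hsub : ((G.interedges A A ∪ G.interedges Aᶜ Aᶜ : Finset (Fin n × Fin n)) :
      Set (Fin n × Fin n)) ⊆
      {p : Fin n × Fin n | H.Adj p.1 p.2 ∧ (p.1 ∈ A ↔ p.2 ∈ A)} ∪
        {p : Fin n × Fin n | (G \ H).Adj p.1 p.2} := by
    intro p hp
    rw [Finset.mem_coe, Finset.mem_union, SimpleGraph.mem_interedges_iff,
      SimpleGraph.mem_interedges_iff] at hp
    by_cases hH : H.Adj p.1 p.2
    · left
      refine ⟨hH, ?_⟩
      rcases hp with hp | hp
      · exact ⟨fun _ => hp.2.1, fun _ => hp.1⟩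
      · exact ⟨fun h => absurd h (Finset.mem_compl.1 hp.1),
          fun h => absurd h (Finset.mem_compl.1 hp.2.1)⟩
    · right
      change (G \ H).Adj p.1 p.2
      rw [SimpleGraph.sdiff_adj]
      rcases hp with hp | hp
      · exact ⟨hp.2.2, hH⟩
      · exact ⟨hp.2.2, hH⟩
  rw [← Set.ncard_coe_finset]
  refine (Set.ncard_le_ncard hsub (Set.toFinite _)).trans ?_
  refine (Set.ncard_union_le _ _).trans ?_
  rw [j3184_darts (G \ H), SimpleGraph.edgeSet_sdiff, Set.ncard_diff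
    (SimpleGraph.edgeSet_mono hHG) (Set.toFinite _)]

theorem j3184_count {n : ℕ} {G : SimpleGraph (Fin n)} [DecidableRel G.Adj]
    {P C : Finset (Fin n)} {t : ℝ} 
    (h : ∀ c ∈ C, ((P.filter (fun a => ¬ G.Adj a c)).card : ℝ) ≤ t) :
    (C.card : ℝ) * ((P.card : ℝ) - t) ≤
      (((C ×ˢ P).filter (fun x => G.Adj x.1 x.2)).card : ℝ) := by
  classical
  have h1 : (((C ×ˢ P).filter (fun x => G.Adj x.1 x.2)).card : ℝ) =
      ∑ c ∈ C, ((P.filter (fun a => G.Adj c a)).card : ℝ) := by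
    rw [Finset.card_filter, Finset.sum_product]
    push_cast
    apply Finset.sum_congr rfl
    intro c _
    rw [Finset.card_filter]
    push_cast
    rfl
  rw [h1, ← nsmul_eq_mul, ← Finset.sum_const]
  apply Finset.sum_le_sum
  intro c hc
  have h2 := h c hc
  have h3 : (P.filter (fun a => G.Adj c a)).card + (P.filter (fun a => ¬ G.Adj a c)).card =
      P.card := by
    rw [← Finset.card_filter_add_card_filter_not (s := P) (fun a => G.Adj c a)]
    congr 2
    ext a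
    simp only [Finset.mem_filter, G.adj_comm]
  have h4 : ((P.filter (fun a => G.Adj c a)).card : ℝ) +
      ((P.filter (fun a => ¬ G.Adj a c)).card : ℝ) = (P.card : ℝ) := by
    exact_mod_cast h3
  linarith

/-- TARGET 1: the lower bound. -/
theorem lower (k : ℕ) (hk : 3 ≤ k) (hK : KProp (2 * k + 1)) (ε : ℝ) (hε : 0 < ε) :
    ∃ n₀ : ℕ, ∀ n : ℕ, n₀ ≤ n → ∀ (r : ℕ) (G : SimpleGraph (Fin n)),
      G.edgeSet.ncard = n ^ 2 / 4 + 1 →
      (∃ c : Sym2 (Fin n) → Fin r,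
        ∀ v : Fin (2 * k + 1) → Fin n, Function.Injective v →
          (∀ i : Fin (2 * k + 1), G.Adj (v i) (v (i + 1))) →
          Function.Injective
            (fun i : Fin (2 * k + 1) => c s(v i, v (i + 1)))) →
      (1 / 8 - ε) * (n : ℝ) ^ 2 ≤ (r : ℝ) := by
  classical
  set η := min (ε / 2) (1 / 2000) with hη
  have hη0 : 0 < η := lt_min (by linarith) (by norm_num)
  have hη1 : η < 1 / 1000 := lt_of_le_of_lt (min_le_right _ _) (by norm_num)
  have hη2 : η ≤ ε / 2 := min_le_left _ _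
  obtain ⟨δ₁, hδ₁, n₁, hn₁⟩ := nearBip_structure η hη0 hη1
  obtain ⟨n₂, hn₂⟩ := nearBip_conflict k hk η hη0 hη1
  obtain ⟨δ, hδ, hKδ⟩ := hK (min ε (δ₁ / 4)) (lt_min hε (by linarith))
  obtain ⟨n₃, hn₃⟩ := cleaning k (min δ (δ₁ / 4)) (lt_min hδ (by linarith))
  refine ⟨max n₁ (max n₂ n₃), fun n hn r G hG hc => ?_⟩
  obtain ⟨c, hc⟩ := hc
  have hn1 : n₁ ≤ n := (le_max_left _ _).trans hn
  have hn2 : n₂ ≤ n := (le_max_left _ _).trans ((le_max_right _ _).trans hn)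
  have hn3 : n₃ ≤ n := (le_max_right _ _).trans ((le_max_right _ _).trans hn)
  obtain ⟨H, hL, hHcard⟩ := hn₃ n hn3 G
  have hn0 : (0 : ℝ) ≤ (n : ℝ) ^ 2 := by positivity
  have hG4 : n ^ 2 < 4 * G.edgeSet.ncard := by
    rw [hG]
    omega
  have hG4' : (n : ℝ) ^ 2 ≤ 4 * (G.edgeSet.ncard : ℝ) := by
    exact_mod_cast hG4.le
  have hmin1 : min δ (δ₁ / 4) * (n : ℝ) ^ 2 ≤ δ * (n : ℝ) ^ 2 :=
    mul_le_mul_of_nonneg_right (min_le_left _ _) hn0
  have hmin2 : min δ (δ₁ / 4) * (n : ℝ) ^ 2 ≤ δ₁ / 4 * (n : ℝ) ^ 2 :=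
    mul_le_mul_of_nonneg_right (min_le_right _ _) hn0
  have hmin3 : min ε (δ₁ / 4) * (n : ℝ) ^ 2 ≤ ε * (n : ℝ) ^ 2 :=
    mul_le_mul_of_nonneg_right (min_le_left _ _) hn0
  have hmin4 : min ε (δ₁ / 4) * (n : ℝ) ^ 2 ≤ δ₁ / 4 * (n : ℝ) ^ 2 :=
    mul_le_mul_of_nonneg_right (min_le_right _ _) hn0
  rcases hKδ n H (by linarith) with ⟨A, hA⟩ | ⟨Q, hQE, hQC, hQ⟩
  · -- almost bipartite
    have hcount : ((G.interedges A A).card : ℝ) + ((G.interedges Aᶜ Aᶜ).card : ℝ) ≤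
        δ₁ * (n : ℝ) ^ 2 := by
      have h1 := j3184_ordered (G := G) hL.1 A
      have h2 : ((G.interedges A A).card : ℝ) + ((G.interedges Aᶜ Aᶜ).card : ℝ) ≤
        ({p : Fin n × Fin n | H.Adj p.1 p.2 ∧ (p.1 ∈ A ↔ p.2 ∈ A)}.ncard : ℝ) +
        2 * ((G.edgeSet.ncard : ℝ) - (H.edgeSet.ncard : ℝ)) := by
        have h3 : H.edgeSet.ncard ≤ G.edgeSet.ncard :=
          Set.ncard_le_ncard (SimpleGraph.edgeSet_mono hL.1) (Set.toFinite _)
        rw [← Nat.cast_sub h3]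
        exact_mod_cast h1
      nlinarith
    obtain ⟨P, Q, C, p, p', hPQ, hCQ, hpQ, hp'Q, hpp', hpP, hp'P, hP, hQ, hC, hPn, hQn, hCp, hor⟩ :=
      hn₁ n hn1 G hG4 ⟨A, hcount⟩
    have hconf := hn₂ n hn2 G P Q C p p' hPQ hCQ hpQ hp'Q hpp' hpP hp'P hP hQ hC hPn hQn hCp hor
    have hS : (((C ×ˢ P).filter (fun x => G.Adj x.1 x.2)).card) ≤ r := by
      have h1 : Set.InjOn (fun x : Fin n × Fin n => c s(x.1, x.2))
          ((C ×ˢ P).filter (fun x => G.Adj x.1 x.2) : Finset (Fin n × Fin n)) := by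
        rintro ⟨c₁, u₁⟩ h1 ⟨c₂, u₂⟩ h2 h12
        rw [Finset.mem_coe, Finset.mem_filter, Finset.mem_product] at h1 h2
        by_contra hne
        refine j3184_color hc (hconf c₁ h1.1.1 u₁ h1.1.2 c₂ h2.1.1 u₂ h2.1.2 h1.2 h2.2 ?_) h12
        intro heq
        rw [Sym2.eq_iff] at heq
        rcases heq with ⟨h3, h4⟩ | ⟨h3, h4⟩
        · exact hne (Prod.ext h3 h4)
        · exact Finset.disjoint_left.1 hPQ h2.1.2 (hCQ (h3 ▸ h1.1.1))
      have h2 := Finset.card_le_card_of_injOn (s := (C ×ˢ P).filter (fun x => G.Adj x.1 x.2))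
        (t := (Finset.univ : Finset (Fin r))) (fun x : Fin n × Fin n => c s(x.1, x.2))
        (fun x _ => Finset.mem_coe.2 (Finset.mem_univ _)) h1
      rwa [Finset.card_univ, Fintype.card_fin] at h2
    have hcnt := j3184_count (G := G) (P := P) (C := C) (t := η * n) (fun c hc => hQn c (hCQ hc))
    have hS' : ((((C ×ˢ P).filter (fun x => G.Adj x.1 x.2)).card : ℕ) : ℝ) ≤ (r : ℝ) := by
      exact_mod_cast hS
    have hnn : (0 : ℝ) ≤ (n : ℝ) := Nat.cast_nonneg n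
    have h5 : (1 / 4 - η) * n * ((1 / 2 - 2 * η) * n) ≤ (C.card : ℝ) * ((P.card : ℝ) - η * n) := by
      apply mul_le_mul hC (by linarith) _ (Nat.cast_nonneg _)
      apply mul_nonneg _ hnn
      linarith
    have h6 : (1 / 8 - ε) * (n : ℝ) ^ 2 ≤ (1 / 4 - η) * n * ((1 / 2 - 2 * η) * n) := by
      have h7 : (1 / 4 - η) * n * ((1 / 2 - 2 * η) * n) =
          (1 / 8 - η + 2 * η ^ 2) * (n : ℝ) ^ 2 := by ring
      rw [h7]
      apply mul_le_mul_of_nonneg_right _ hn0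
      have : 0 ≤ η ^ 2 := sq_nonneg _
      linarith
    linarith
  · -- clique of conflicting edges
    have h1 : Set.InjOn c (Q : Set (Sym2 (Fin n))) := by
      intro e he f hf hef
      by_contra hne
      exact j3184_color hc (conflict_of_CW G H k hk hL e f hne (hQC e he f hf hne)) hef
    have h2 := Finset.card_le_card_of_injOn (s := Q)
      (t := (Finset.univ : Finset (Fin r))) c (fun x _ => Finset.mem_coe.2 (Finset.mem_univ _)) h1
    rw [Finset.card_univ, Fintype.card_fin] at h2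
    have h3 : (Q.card : ℝ) ≤ (r : ℝ) := by exact_mod_cast h2
    linarith

/-- TARGET 2: the limit. -/
theorem limit_of_K (k : ℕ) (hk : 3 ≤ k) (hK : KProp (2 * k + 1)) :
    Filter.Tendsto
      (fun n : ℕ =>
        ((sInf {r : ℕ | ∃ G : SimpleGraph (Fin n),
            G.edgeSet.ncard = n ^ 2 / 4 + 1 ∧
            ∃ c : Sym2 (Fin n) → Fin r,
              ∀ v : Fin (2 * k + 1) → Fin n, Function.Injective v →
                (∀ i : Fin (2 * k + 1), G.Adj (v i) (v (i + 1))) →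
                Function.Injective
                  (fun i : Fin (2 * k + 1) => c s(v i, v (i + 1)))} : ℕ) : ℝ)
          / ((n : ℝ) ^ 2 / 8))
      Filter.atTop (nhds (1 : ℝ)) := by
  rw [Metric.tendsto_atTop]
  intro ε hε
  obtain ⟨n₁, hn₁⟩ := upper k (by omega) (ε / 16) (by linarith)
  obtain ⟨n₂, hn₂⟩ := lower k hk hK (ε / 16) (by linarith)
  refine ⟨max 1 (max n₁ n₂), fun n hn => ?_⟩
  have hn0 : 1 ≤ n := (le_max_left _ _).trans hn
  have hn1 : n₁ ≤ n := (le_max_left _ _).trans ((le_max_right _ _).trans hn)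
  have hn2 : n₂ ≤ n := (le_max_right _ _).trans ((le_max_right _ _).trans hn)
  set S : Set ℕ := {r : ℕ | ∃ G : SimpleGraph (Fin n),
            G.edgeSet.ncard = n ^ 2 / 4 + 1 ∧
            ∃ c : Sym2 (Fin n) → Fin r,
              ∀ v : Fin (2 * k + 1) → Fin n, Function.Injective v →
                (∀ i : Fin (2 * k + 1), G.Adj (v i) (v (i + 1))) →
                Function.Injective
                  (fun i : Fin (2 * k + 1) => c s(v i, v (i + 1)))} with hS
  obtain ⟨r, hr, G, hG, c, hc⟩ := hn₁ n hn1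
  have hrS : r ∈ S := ⟨G, hG, c, hc⟩
  have hle : ((sInf S : ℕ) : ℝ) ≤ (1 / 8 + ε / 16) * (n : ℝ) ^ 2 := by
    have h1 : ((sInf S : ℕ) : ℝ) ≤ (r : ℝ) := by exact_mod_cast Nat.sInf_le hrS
    exact h1.trans hr
  have hge : (1 / 8 - ε / 16) * (n : ℝ) ^ 2 ≤ ((sInf S : ℕ) : ℝ) := by
    obtain ⟨G', hG', hc'⟩ := Nat.sInf_mem ⟨r, hrS⟩
    exact hn₂ n hn2 (sInf S) G' hG' hc'
  have hnpos : (0 : ℝ) < (n : ℝ) ^ 2 / 8 := by
    have : (0 : ℝ) < (n : ℝ) := by exact_mod_cast hn0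
    positivity
  rw [Real.dist_eq, abs_lt]
  constructor
  · have h1 : 1 - ε / 2 ≤ ((sInf S : ℕ) : ℝ) / ((n : ℝ) ^ 2 / 8) := by
      rw [le_div_iff₀ hnpos]
      linarith
    linarith
  · have h1 : ((sInf S : ℕ) : ℝ) / ((n : ℝ) ^ 2 / 8) ≤ 1 + ε / 2 := by
      rw [div_le_iff₀ hnpos]
      linarith
    linarith

end Pool.Agent.Helper77.E809.Final
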