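import Pool.Agent.Helper77.E809.CaseAB

set_option autoImplicit false

namespace Pool.Agent.Helper77.E809.SmallF

open Pool.Agent.Helper77.E809 Pool.Agent.Helper77.E809.CaseAB

lemma F_nonneg (z H y a rB : ℝ) (hz : 0 ≤ z) (hH : 0 ≤ H) (hH1 : H ≤ 1 / 10)
    (hy : 0 ≤ y) (hy1 : y ≤ 1 / 5) (hu : y ≤ 2 * z) (ha : 0 ≤ a)
    (ha1 : a ≤ y - (2 * z - y) + H) (hrB : 0 ≤ rB) (hrB1 : a - y ≤ rB)
    (hrB2 : rB ≤ 1 / 4 - z) :
    0 ≤ y * (1 / 2 + z - H - y) + 2 * z * (z - y) + H * rB -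
      a * (rB + H - (2 * z - y) - a) := by
  have hbr : 0 ≤ y * (1 / 2 - 2 * H - y - z) + 2 * z ^ 2 := by
    nlinarith [mul_nonneg hy (show 0 ≤ 1 / 2 - 2 * H - y by linarith),
      mul_nonneg hz (show 0 ≤ 2 * z - y by linarith)]
  have hau : 0 ≤ a * (2 * z - y) := mul_nonneg ha (by linarith)
  by_cases h1 : a ≤ H
  · by_cases h2 : a ≤ y
    · nlinarith [mul_nonneg (show 0 ≤ H - a by linarith) hrB,
        mul_nonneg (show 0 ≤ y - a by linarith) hH, sq_nonneg a]
    · push Not at h2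
      nlinarith [mul_nonneg (show 0 ≤ H - a by linarith) (show 0 ≤ rB - (a - y) by linarith),
        mul_nonneg hy ha]
  · push Not at h1
    by_cases h3 : 1 / 4 - z ≤ a
    · nlinarith [mul_nonneg (show 0 ≤ a - H by linarith) (show 0 ≤ 1 / 4 - z - rB by linarith),
        mul_nonneg (show 0 ≤ a - H by linarith) (show 0 ≤ a - (1 / 4 - z) by linarith),
        mul_nonneg hy hH]
    · push Not at h3
      have e1 : 0 ≤ (a - H) * (1 / 4 - z - rB) := mul_nonneg (by linarith) (by linarith)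
      have e2 : 0 ≤ (2 * y - 2 * z - (a - H)) * (1 / 4 - z - H) :=
        mul_nonneg (by linarith) (by linarith)
      have e3 : 0 ≤ (a - H) ^ 2 := sq_nonneg _
      have e4 : 0 ≤ y * (z - y) + z / 2 + H * (y - 2 * z) := by
        nlinarith [mul_nonneg (show 0 ≤ 1 / 10 - H by linarith) (show 0 ≤ 2 * z - y by linarith),
          mul_nonneg hy (show 0 ≤ 1 / 5 - y by linarith), mul_nonneg hy hz]
      nlinarith

/-- Case `y ≤ 2 z`, `y ≤ 1 / 5`, `D ≤ r`. -/
lemma J1 (z H y D r ph q rB k : ℝ) (hz : 0 ≤ z) (hH : 0 ≤ H) (hH1 : H ≤ 1 / 10)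
    (hD : D = 1 / 2 + z - H - y) (hy : 0 ≤ y) (hy1 : y ≤ 1 / 5) (hu : y ≤ 2 * z)
    (hk : 0 ≤ k) (hph : 0 ≤ ph) (hrB : 0 ≤ rB) (hq : rB ≤ q) (hq4 : q ≤ 1 / 4 - z)
    (h4 : k + r - rB ≤ 1 / 2 + z - H) (h5 : D - k + rB ≤ 1 / 2 - z) (hr : D ≤ r)
    (h8 : H * q + ph * (2 * z - y + r) + r * (2 * z - y) ≤ z * (1 - 2 * H)) :
    k * (r - D) + H * (r - D + 2 * ph) ≤ (D + r) * y := by
  obtain ⟨a, ha⟩ : ∃ a, a = r - D := ⟨_, rfl⟩
  have hra : r = D + a := by linarith
  have ha0 : 0 ≤ a := by linarith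
  have hka : k ≤ y + rB - a := by linarith
  have hF := F_nonneg z H y a rB hz hH hH1 hy hy1 hu ha0 (by linarith) hrB (by linarith)
    (by linarith)
  have h1 : k * a ≤ (y + rB - a) * a := mul_le_mul_of_nonneg_right hka ha0
  have h2 : 0 ≤ ph * (2 * z - y + r - 2 * H) := mul_nonneg hph (by linarith)
  have h3 : 0 ≤ H * (q - rB) := mul_nonneg hH (by linarith)
  subst hra
  subst hD
  nlinarith

/-- Case `1 / 5 ≤ y`, `D ≤ r`. -/
lemma J2 (z H y D r ph q rB k : ℝ) (hz : 0 ≤ z) (hz4 : z ≤ 1 / 4) (hH : 0 ≤ H)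
    (hH1 : H ≤ 1 / 10)
    (hD : D = 1 / 2 + z - H - y) (hy1 : 1 / 5 ≤ y) (hy4 : y ≤ 1 / 4 + z)
    (hphD : ph ≤ D) (hrB : 0 ≤ rB) (hq : rB ≤ q)
    (hq4 : q ≤ 1 / 4 - z) (h4 : k + r - rB ≤ 1 / 2 + z - H) (hr : D ≤ r) :
    k * (r - D) + H * (r - D + 2 * ph) ≤ (D + r) * y := by
  obtain ⟨a, ha⟩ : ∃ a, a = r - D := ⟨_, rfl⟩
  have hra : r = D + a := by linarith
  have ha0 : 0 ≤ a := by linarith
  have hka : k ≤ y + rB - a := by linarith
  have h1 : k * a ≤ (y + rB - a) * a := mul_le_mul_of_nonneg_right hka ha0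
  have h2 : 0 ≤ H * (D - ph) := mul_nonneg hH (by linarith)
  have h3 : 0 ≤ (2 * a - (rB + H)) ^ 2 := sq_nonneg _
  have h6 : (rB + H) ^ 2 ≤ (7 / 20) ^ 2 := by
    apply pow_le_pow_left₀ (by linarith)
    linarith
  have h7 : 0 ≤ (y - 1 / 5) * (1 / 4 + z - y) := mul_nonneg (by linarith) (by linarith)
  have h8 : H * (1 / 2 + z - H) ≤ 1 / 10 * (2 / 5 + z) := by
    nlinarith [mul_nonneg (show 0 ≤ 1 / 10 - H by linarith) (show 0 ≤ 2 / 5 + z - H by linarith)]
  have h9 : (7 / 20) ^ 2 / 4 ≤ 2 * (1 / 2 + z - H - y) * (y - H) := by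
    nlinarith
  subst hra
  subst hD
  nlinarith

lemma P1_nonneg (z H y : ℝ) (hz : 0 ≤ z) (hH : 0 ≤ H) (hH1 : H ≤ 1 / 10) (hy1 : y ≤ 1 / 5) :
    0 ≤ (y - z) * (1 - 2 * H - 2 * y) - H * y +
      (1 / 2 + z - H - y) * (1 / 2 + 3 * z - 3 * H - 2 * y) := by
  have e1 : 0 ≤ (1 / 10 - H) * (2 + 4 * z - 2 * y - 3 * (H + 1 / 10)) :=
    mul_nonneg (by linarith) (by linarith)
  have e2 : 0 ≤ (1 / 5 - y) * (3 / 10 + 3 * z) := mul_nonneg (by linarith) (by linarith)
  have e3 : 0 ≤ z ^ 2 := sq_nonneg z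
  linarith

lemma P2_nonneg (z H y : ℝ) (hz : 0 ≤ z) (hH : 0 ≤ H) (hH1 : H ≤ 1 / 10) (hy1 : y ≤ 1 / 5) :
    0 ≤ (y - z) * (1 - 2 * H - 2 * y) - (1 / 4 - z - H) ^ 2 / 4 +
      (1 / 2 + z - H - y) * (1 / 2 + 3 * z - 2 * H - 2 * y) := by
  have e1 : 0 ≤ (1 / 10 - H) * (11 / 8 + 7 / 2 * z - 2 * y - 7 / 4 * (H + 1 / 10)) :=
    mul_nonneg (by linarith) (by linarith)
  have e2 : 0 ≤ (1 / 5 - y) * (3 / 10 + 3 * z) := mul_nonneg (by linarith) (by linarith)
  have e3 : 0 ≤ z ^ 2 := sq_nonneg z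
  linarith

/-- Case `2 z ≤ y ≤ 1 / 5`, `D ≤ r`. -/
lemma J3 (z H y D r ph q rB k : ℝ) (hz : 0 ≤ z) (hH : 0 ≤ H) (hH1 : H ≤ 1 / 10)
    (hD : D = 1 / 2 + z - H - y) (hy : 0 ≤ y) (hy1 : y ≤ 1 / 5) (hu : 2 * z ≤ y)
    (hk : 0 ≤ k) (hph : 0 ≤ ph) (hphD : ph ≤ D) (hrB : 0 ≤ rB) (hq : rB ≤ q)
    (hq4 : q ≤ 1 / 4 - z)
    (h4 : k + r - rB ≤ 1 / 2 + z - H) (h5 : D - k + rB ≤ 1 / 2 - z) (hr : D ≤ r)
    (h7 : H * q + ph * (2 * z - y + r) ≤ z * (1 - 2 * H)) :
    k * (r - D) + H * (r - D + 2 * ph) ≤ (D + r) * y := by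
  obtain ⟨a, ha⟩ : ∃ a, a = r - D := ⟨_, rfl⟩
  have hra : r = D + a := by linarith
  have ha0 : 0 ≤ a := by linarith
  have hka : k ≤ y + rB - a := by linarith
  have ha1 : a ≤ 2 * y - 2 * z + H := by linarith
  have h1 : k * a ≤ (y + rB - a) * a := mul_le_mul_of_nonneg_right hka ha0
  have h3 : 0 ≤ H * (q - rB) := mul_nonneg hH (by linarith)
  have key : 0 ≤ (y - z) * (1 - 2 * H - 2 * y) + (H - a) * (rB - a) +
      ph * (1 / 2 + 3 * z - 3 * H - 2 * y + a) := by
    by_cases hc : 0 ≤ 1 / 2 + 3 * z - 3 * H - 2 * y + a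
    · have h8 : 0 ≤ ph * (1 / 2 + 3 * z - 3 * H - 2 * y + a) := mul_nonneg hph hc
      by_cases h9 : a ≤ H
      · have e1 : 0 ≤ (H - a) * (rB - a + y) := mul_nonneg (by linarith) (by linarith)
        have e2 : 0 ≤ (y - z - y / 2) * (1 - 2 * H - 2 * y) :=
          mul_nonneg (by linarith) (by linarith)
        have e3 : 0 ≤ y * (1 - 2 * H - 2 * y - 2 / 5) := mul_nonneg hy (by linarith)
        have e4 : 0 ≤ y * (1 / 10 - H) := mul_nonneg hy (by linarith)
        have e5 : 0 ≤ a * y := mul_nonneg ha0 hy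
        nlinarith
      · push Not at h9
        have e1 : 0 ≤ (a - H) * (1 / 4 - z - rB) := mul_nonneg (by linarith) (by linarith)
        have e3 : 0 ≤ (a - H) ^ 2 := sq_nonneg _
        have e4 : 0 ≤ (y - z) * (1 / 2 - 2 * y + 2 * z) := mul_nonneg (by linarith) (by linarith)
        by_cases h10 : 0 ≤ 1 / 4 - z - H
        · have e2 : 0 ≤ (2 * y - 2 * z - (a - H)) * (1 / 4 - z - H) :=
            mul_nonneg (by linarith) h10
          nlinarith
        · push Not at h10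
          have e5 : 0 ≤ (y - z) * (1 - 2 * H - 2 * y) := mul_nonneg (by linarith) (by linarith)
          have e6 : 0 ≤ (a - H) * (H - (1 / 4 - z)) := mul_nonneg (by linarith) (by linarith)
          nlinarith
    · push Not at hc
      have h8 : D * (1 / 2 + 3 * z - 3 * H - 2 * y + a) ≤
          ph * (1 / 2 + 3 * z - 3 * H - 2 * y + a) :=
        mul_le_mul_of_nonpos_right hphD hc.le
      by_cases h9 : a ≤ H
      · have e1 : 0 ≤ (H - a) * (rB - a + y) := mul_nonneg (by linarith) (by linarith)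
        have e5 : 0 ≤ a * y := mul_nonneg ha0 hy
        have e6 : 0 ≤ a * D := mul_nonneg ha0 (by linarith)
        have e7 := P1_nonneg z H y hz hH hH1 hy1
        subst hD
        nlinarith
      · push Not at h9
        have e1 : 0 ≤ (a - H) * (1 / 4 - z - rB) := mul_nonneg (by linarith) (by linarith)
        have e3 : 0 ≤ (2 * (a - H) - (1 / 4 - z - H)) ^ 2 := sq_nonneg _
        have e6 : 0 ≤ (a - H) * D := mul_nonneg (by linarith) (by linarith)
        have e7 := P2_nonneg z H y hz hH hH1 hy1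
        subst hD
        nlinarith
  subst hra
  subst hD
  nlinarith

/-- The consequence of the budget when `D ≤ r + ph`. -/
lemma budget_small (z H y D r ph q : ℝ)
    (hD : D = 1 / 2 + z - H - y) (hphD : ph ≤ D) (hc : D ≤ r + ph)
    (h7 : H * q + ph * (2 * z - y + r) ≤ z * (1 - 2 * H))
    (h8 : y ≤ 2 * z → H * q + ph * (2 * z - y + r) + r * (2 * z - y) ≤ z * (1 - 2 * H)) :
    ph * r + H * q ≤ y * D + 2 * z * (y - z) := by
  by_cases hu : y ≤ 2 * z
  · have h := h8 hu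
    have e1 : 0 ≤ (r + ph - D) * (2 * z - y) := mul_nonneg (by linarith) (by linarith)
    subst hD
    nlinarith
  · push Not at hu
    have e1 : 0 ≤ (D - ph) * (y - 2 * z) := mul_nonneg (by linarith) (by linarith)
    subst hD
    nlinarith

lemma K1 (z H y D r ph q : ℝ) (hz : 0 ≤ z) (hH : 0 ≤ H) (hH1 : H ≤ 1 / 10)
    (hD : D = 1 / 2 + z - H - y) (hy : 0 ≤ y) (hyH : y ≤ H) (hq : 0 ≤ q)
    (hph : 0 ≤ ph) (hphD : ph ≤ D) (hc : D ≤ r + ph) (hr : r ≤ D) (hr2 : D ≤ 2 * r)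
    (hb : ph * r + H * q ≤ y * D + 2 * z * (y - z)) :
    H * (ph + r - D) ≤ y * (D + r - ph) := by
  obtain ⟨c, hcc⟩ : ∃ c, c = ph + r - D := ⟨_, rfl⟩
  have hc0 : 0 ≤ c := by linarith
  have hcr : c ≤ r := by linarith
  have hphe : ph = D - r + c := by linarith
  have hDpos : 3 / 10 ≤ D := by linarith
  have hr0 : 0 ≤ r := by linarith
  have e1 : ph * r ≤ y * (D + y / 2) := by
    have h1 : 0 ≤ H * q := mul_nonneg hH hq
    have h2 : 0 ≤ (y - 2 * z) ^ 2 := sq_nonneg _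
    nlinarith
  have e2 : H * (D + y / 2) ≤ D * r := by
    have h1 : H * (D + y / 2) ≤ D ^ 2 / 2 := by
      have h3 : H * (D + y / 2) ≤ 1 / 10 * (D + 1 / 20) := by
        apply mul_le_mul hH1 (by linarith) (by linarith) (by norm_num)
      nlinarith
    have h2 : D * D ≤ D * (2 * r) := mul_le_mul_of_nonneg_left hr2 (by linarith)
    nlinarith
  have e3 : c * (D * r) ≤ ph * r * (2 * r - c) := by
    have h1 : 0 ≤ (D - r) * (r - c) := mul_nonneg (by linarith) (by linarith)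
    have h2 : 0 ≤ c * (r - c) := mul_nonneg hc0 (by linarith)
    have h3 : 0 ≤ r * ((D - r) * (r - c)) := mul_nonneg hr0 h1
    have h4 : 0 ≤ r * (c * (r - c)) := mul_nonneg hr0 h2
    rw [hphe]
    nlinarith
  have e4 : c * (H * (D + y / 2)) ≤ (2 * r - c) * (y * (D + y / 2)) := by
    have h1 : c * (H * (D + y / 2)) ≤ c * (D * r) := mul_le_mul_of_nonneg_left e2 hc0
    have h2 : (2 * r - c) * (ph * r) ≤ (2 * r - c) * (y * (D + y / 2)) :=
      mul_le_mul_of_nonneg_left e1 (by linarith)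
    linarith
  have e5 : 0 < D + y / 2 := by linarith
  have e6 : (D + y / 2) * (H * c) ≤ (D + y / 2) * (y * (2 * r - c)) := by linarith
  have e7 := le_of_mul_le_mul_left e6 e5
  rw [← hcc]
  have e8 : D + r - ph = 2 * r - c := by linarith
  rw [e8]
  exact e7

lemma K2 (z H y D r ph q k : ℝ) (hz : 0 ≤ z) (hz4 : z ≤ 1 / 4) (hH : 0 ≤ H)
    (hH1 : H ≤ 1 / 10)
    (hD : D = 1 / 2 + z - H - y) (hy : 0 ≤ y) (hyH : y ≤ H) (hq : 0 ≤ q)
    (hq4 : q ≤ 1 / 4 - z) (hc : D ≤ r + ph) (hr0 : 0 ≤ r) (hr2 : 2 * r ≤ D)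
    (hk : ph - q ≤ k)
    (hb : ph * r + H * q ≤ y * D + 2 * z * (y - z)) :
    (H - y) * (D + r) ≤ k * (D - r) := by
  have hDr : 0 ≤ D - r := by linarith
  have e1 : (D - r - q) * (D - r) ≤ k * (D - r) := mul_le_mul_of_nonneg_right (by linarith) hDr
  have e2 : (D - r) * r + H * q ≤ y * D + 2 * z * (y - z) := by
    have : (D - r) * r ≤ ph * r := mul_le_mul_of_nonneg_right (by linarith) hr0
    linarith
  have e3 : 0 ≤ (D - r) * (D - r - q) - (H - y) * (D + r) := by
    -- interpolate between q = 0 and q = 1 / 4 - z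
    have hDz : 3 / 10 + z ≤ D := by linarith
    have hA : 0 ≤ (D - r) ^ 2 - (H - y) * (D + r) +
        2 * ((D - r) * r - y * D - 2 * z * (y - z)) := by
      have a1 : 0 ≤ r * (D - 2 * r) := mul_nonneg hr0 (by linarith)
      have a1' : 0 ≤ D * (D - 2 * r) := mul_nonneg (by linarith) (by linarith)
      have a2 : 0 ≤ (H - y) * (D / 2 - r) := mul_nonneg (by linarith) (by linarith)
      have a3 : 0 ≤ D * (1 / 5 - 3 / 2 * H - 1 / 2 * y) := mul_nonneg (by linarith) (by linarith)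
      have a4 : 0 ≤ z * (1 / 10 - y) := mul_nonneg hz (by linarith)
      have a5 : 0 ≤ (D - 3 / 10 - z) * (3 / 4 * D + 3 / 4 * (3 / 10 + z) - 1 / 5) :=
        mul_nonneg (by linarith) (by linarith)
      have a6 : 0 ≤ (z - 1 / 60) ^ 2 := sq_nonneg _
      nlinarith
    have hB : 0 ≤ (D - r) * (D - r - (1 / 4 - z)) - (H - y) * (D + r) +
        2 * ((D - r) * r + H * (1 / 4 - z) - y * D - 2 * z * (y - z)) := by
      have b1 : 0 ≤ r * (D - 2 * r) := mul_nonneg hr0 (by linarith)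
      have he : 0 ≤ 1 / 10 - H := by linarith
      have hHy : 0 ≤ H - y := by linarith
      -- value at r = 0
      have V0 : 0 ≤ D ^ 2 - D * (1 / 4 - z) - (H - y) * D + 2 * H * (1 / 4 - z) - 2 * y * D -
          4 * z * (y - z) := by
        have c1 : 0 ≤ (H - y) * (2 * (5 / 8 + 2 * z - 3 * H - y) + 4 * z) :=
          mul_nonneg hHy (by linarith)
        have c2 : 0 ≤ (1 / 10 - H) * z := mul_nonneg he hz
        have c3 : 0 ≤ (1 / 10 - H) ^ 2 := sq_nonneg _
        have c4 : 0 ≤ (z - 1 / 80) ^ 2 := sq_nonneg _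
        subst hD
        nlinarith
      have V1 : 0 ≤ 3 / 4 * D ^ 2 - D / 2 * (1 / 4 - z) - 3 / 2 * D * (H - y) +
          2 * H * (1 / 4 - z) - 2 * y * D - 4 * z * (y - z) := by
        have c1 : 0 ≤ (H - y) * (7 / 8 + 5 / 2 * z - 19 / 4 * H - 5 / 4 * y) :=
          mul_nonneg hHy (by linarith)
        have c2 : 0 ≤ (1 / 10 - H) * z := mul_nonneg he hz
        have c3 : 0 ≤ (1 / 10 - H) ^ 2 := sq_nonneg _
        have c4 : 0 ≤ (z - 1 / 32) ^ 2 := sq_nonneg _
        subst hD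
        nlinarith
      have hDp : 0 < D := by linarith
      have W0 := mul_nonneg (show 0 ≤ D - 2 * r by linarith) V0
      have W1 := mul_nonneg (show 0 ≤ 2 * r by linarith) V1
      have W2 := mul_nonneg hDp.le b1
      have W3 : 0 ≤ D * ((D - r) * (D - r - (1 / 4 - z)) - (H - y) * (D + r) +
          2 * ((D - r) * r + H * (1 / 4 - z) - y * D - 2 * z * (y - z))) := by
        nlinarith
      exact nonneg_of_mul_nonneg_right W3 hDp
    by_cases h0 : z = 1 / 4
    · have hq0 : q = 0 := by linarith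
      subst hq0
      nlinarith
    · have hpos : 0 < 1 / 4 - z := lt_of_le_of_ne (by linarith) (fun h => h0 (by linarith))
      have hA' := mul_nonneg (show 0 ≤ (1 / 4 - z) - q by linarith) hA
      have hB' := mul_nonneg hq hB
      have hC : 0 ≤ (1 / 4 - z) * ((D - r) * (D - r - q) - (H - y) * (D + r)) := by
        have h9 : 0 ≤ (1 / 4 - z) * (y * D + 2 * z * (y - z) - ((D - r) * r + H * q)) :=
          mul_nonneg hpos.le (by linarith)
        nlinarith
      exact nonneg_of_mul_nonneg_right hC hpos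
  linarith

/-- The exact inequality when `f ≤ 1 / 10`. -/
theorem A10 (z f H k s pT pB rT rB : ℝ) (hDat : Dat 0 z f H k s pT pB rT rB)
    (hf10 : f ≤ 1 / 10) : XA 0 z f H k s pT pB rT rB := by
  obtain ⟨hz0, -, hf0, hzf, hH, hHf, hpT, hpTk, hpB, hpBs, hrT, hkrT, hrB, hsrB, hy, hy4, hmin,
    hG⟩ := hDat
  have hz : 0 ≤ z := by linarith
  unfold XA
  obtain ⟨y, hye⟩ : ∃ y, y = 1 / 2 + z - H - k - s := ⟨_, rfl⟩
  rw [← hye] at hy hy4 hG ⊢
  obtain ⟨D, hDe⟩ : ∃ D, D = k + s := ⟨_, rfl⟩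
  obtain ⟨r, hre⟩ : ∃ r, r = rT + rB := ⟨_, rfl⟩
  obtain ⟨ph, hphe⟩ : ∃ ph, ph = pT + pB := ⟨_, rfl⟩
  obtain ⟨q, hqe⟩ : ∃ q, q = pB + rB := ⟨_, rfl⟩
  have hD : D = 1 / 2 + z - H - y := by linarith
  have hDpos : 0 < D := by linarith
  have hk : 0 ≤ k := by linarith
  have hr : 0 ≤ r := by linarith
  have hph : 0 ≤ ph := by linarith
  have hphD : ph ≤ D := by linarith
  have hDr : 0 < D + r := by linarith
  have eP : k + s - pT - pB = D - ph := by linarith
  rw [eP, ← hDe, ← hre]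
  -- the two terms
  have kterm : k - 2 * k * (D / (D + r)) = k * (r - D) / (D + r) := by
    field_simp
    ring
  have hterm0 : H - 2 * H * ((D - ph) / (D - ph + r)) ≤ H := by
    have h1 : 0 ≤ (D - ph) / (D - ph + r) := div_nonneg (by linarith) (by linarith)
    have h2 : 0 ≤ 2 * H * ((D - ph) / (D - ph + r)) := mul_nonneg (by linarith) h1
    linarith
  rw [kterm]
  by_cases hH0 : H = 0
  · -- direct
    subst hH0
    have h1 : 0 - 2 * 0 * ((D - ph) / (D - ph + r)) = (0 : ℝ) := by ring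
    rw [h1]
    have h5 : D + r ≤ 1 := by linarith
    have e2 : k * (r - D) / (D + r) ≤ y := by
      rw [div_le_iff₀ hDr]
      by_cases hc : r ≤ D
      · have h3 : k * (r - D) ≤ 0 := mul_nonpos_of_nonneg_of_nonpos hk (by linarith)
        have h4 : 0 ≤ y * (D + r) := mul_nonneg hy hDr.le
        linarith
      · push Not at hc
        have h3 : k * (r - D) ≤ D * (r - D) := mul_le_mul_of_nonneg_right (by linarith) (by linarith)
        have h6 : 0 ≤ (D + r) * (1 - (D + r)) := mul_nonneg hDr.le (by linarith)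
        have h7 : 0 ≤ z * (D + r) := mul_nonneg hz hDr.le
        subst hye
        nlinarith [sq_nonneg (D - r)]
    linarith
  have hHpos : 0 < H := lt_of_le_of_ne hH (Ne.symm hH0)
  have hz4 : z ≤ 1 / 4 := hzf (by linarith)
  have hq4 : q ≤ 1 / 4 - z := by rw [hqe]; exact hmin hHpos
  have hH1 : H ≤ 1 / 10 := by linarith
  have hq0 : 0 ≤ q := by linarith
  -- the budgets
  rw [← hre] at hG
  have g1 : pT * (2 * z - y + r) ≤ pT * max 0 (2 * z - y + (f - H) + r) :=
    mul_le_mul_of_nonneg_left ((by linarith : 2 * z - y + r ≤ 2 * z - y + (f - H) + r).trans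
      (le_max_right _ _)) hpT
  have g2 : pB * (2 * z - y + r) ≤ pB * max 0 (2 * z - y + r) :=
    mul_le_mul_of_nonneg_left (le_max_right _ _) hpB
  have g3 : 0 ≤ rT * max 0 (2 * z - y + (f - H)) := mul_nonneg hrT (le_max_left _ _)
  have g4 : 0 ≤ rB * max 0 (2 * z - y) := mul_nonneg hrB (le_max_left _ _)
  have g5 : z * (1 - 2 * f) + 0 ≤ z * (1 - 2 * H) := by
    have : 0 ≤ z * (f - H) := mul_nonneg hz (by linarith)
    linarith
  have h7 : H * q + ph * (2 * z - y + r) ≤ z * (1 - 2 * H) := by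
    rw [hqe, hphe]
    linarith
  have h8 : y ≤ 2 * z → H * q + ph * (2 * z - y + r) + r * (2 * z - y) ≤ z * (1 - 2 * H) := by
    intro hu
    have g6 : rT * (2 * z - y) ≤ rT * max 0 (2 * z - y + (f - H)) :=
      mul_le_mul_of_nonneg_left ((by linarith : 2 * z - y ≤ 2 * z - y + (f - H)).trans
        (le_max_right _ _)) hrT
    have g7 : rB * (2 * z - y) ≤ rB * max 0 (2 * z - y) :=
      mul_le_mul_of_nonneg_left (le_max_right _ _) hrB
    have g8 : r * (2 * z - y) = rT * (2 * z - y) + rB * (2 * z - y) := by rw [hre]; ring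
    rw [g8, hqe, hphe]
    linarith
  by_cases hrD : D ≤ r
  · -- chord bound
    have hJ : k * (r - D) + H * (r - D + 2 * ph) ≤ (D + r) * y := by
      by_cases hy5 : y ≤ 1 / 5
      · by_cases hu : y ≤ 2 * z
        · exact J1 z H y D r ph q rB k hz hH hH1 hD hy hy5 hu hk hph hrB (by linarith) hq4
            (by linarith) (by linarith) hrD (h8 hu)
        · push Not at hu
          exact J3 z H y D r ph q rB k hz hH hH1 hD hy hy5 hu.le hk hph hphD hrB (by linarith) hq4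
            (by linarith) (by linarith) hrD h7
      · push Not at hy5
        exact J2 z H y D r ph q rB k hz hz4 hH hH1 hD hy5.le hy4 hphD hrB (by linarith) hq4
          (by linarith) hrD
    have t1 : H - 2 * H * ((D - ph) / (D - ph + r)) ≤ H * (r - D + 2 * ph) / (D + r) := by
      have hpos : 0 < D - ph + r := by linarith
      have e1 : (D - ph) / (D - ph + r) ≥ (D - ph) / (D + r) :=
        div_le_div_of_nonneg_left (by linarith) hpos (by linarith)
      rw [le_div_iff₀ hDr]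
      have e2 : 2 * H * ((D - ph) / (D + r)) ≤ 2 * H * ((D - ph) / (D - ph + r)) :=
        mul_le_mul_of_nonneg_left e1 (by linarith)
      have e3 : 2 * H * ((D - ph) / (D + r)) * (D + r) = 2 * H * (D - ph) := by
        field_simp
      have e4 := mul_le_mul_of_nonneg_right e2 hDr.le
      nlinarith
    have t2 : k * (r - D) / (D + r) + H * (r - D + 2 * ph) / (D + r) ≤ y := by
      rw [← add_div, div_le_iff₀ hDr]
      linarith
    linarith
  · push Not at hrD
    have kneg : k * (r - D) / (D + r) ≤ 0 :=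
      div_nonpos_of_nonpos_of_nonneg (mul_nonpos_of_nonneg_of_nonpos hk (by linarith)) hDr.le
    by_cases hyH : H ≤ y
    · linarith
    push Not at hyH
    by_cases hc : D ≤ r + ph
    · have hb := budget_small z H y D r ph q hD hphD hc h7 h8
      by_cases hr2 : 2 * r ≤ D
      · have hK := K2 z H y D r ph q k hz hz4 hH hH1 hD hy hyH.le hq0 hq4 hc hr hr2
          (by linarith) hb
        have e1 : k * (r - D) / (D + r) ≤ -(H - y) := by
          rw [div_le_iff₀ hDr]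
          linarith
        linarith
      · push Not at hr2
        have hK := K1 z H y D r ph q hz hH hH1 hD hy hyH.le hq0 hph hphD hc hrD.le hr2.le hb
        have hpos : 0 < D - ph + r := by linarith
        have e1 : H - 2 * H * ((D - ph) / (D - ph + r)) ≤ y := by
          have e2 : H - 2 * H * ((D - ph) / (D - ph + r)) = H * (ph + r - D) / (D - ph + r) := by
            field_simp
            ring
          rw [e2, div_le_iff₀ hpos]
          linarith
        linarith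
    · push Not at hc
      have hpos : 0 < D - ph + r := by linarith
      have e1 : H - 2 * H * ((D - ph) / (D - ph + r)) ≤ 0 := by
        have e2 : H - 2 * H * ((D - ph) / (D - ph + r)) = H * (ph + r - D) / (D - ph + r) := by
          field_simp
          ring
        rw [e2]
        exact div_nonpos_of_nonpos_of_nonneg
          (mul_nonpos_of_nonneg_of_nonpos hH (by linarith)) hpos.le
      linarith

end Pool.Agent.Helper77.E809.SmallF
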