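import Pool.Agent.Helper77.E809.KSeven
import Pool.Agent.Helper77.E809.SmallF
import Pool.Agent.Helper296.E809.Final

set_option autoImplicit false

namespace Pool.Agent.Helper77.E809.K7

open Pool.Agent.Helper77.E809 Pool.Agent.Helper77.E809.CaseAB
  Pool.Agent.Helper77.E809.KSeven Pool.Agent.Helper77.E809.SmallF

lemma XB_of_Lagr {μ z f H k s pT pB rT rB : ℝ}
    (h : Pool.Agent.E809HL.LagrB μ z f H k s pT pB rT rB) :
    XB (1 : ℕ) (1 : ℕ) μ 0 z f H k s pT pB rT rB := by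
  unfold Pool.Agent.E809HL.LagrB at h
  unfold XB
  push_cast
  simp only [one_mul, add_zero]
  exact h

theorem range01 : CaseP 0 (1 / 10) := by
  refine CaseP_of_quarter ?_
  exact CaseR_of_A 0 (1 / 10) (-1) (1 / 4) (by norm_num)
    (fun z f H k s pT pB rT rB hD hf _ _ => A10 z f H k s pT pB rT rB hD hf)

theorem range2 : CaseP (1 / 10) (3 / 20) := by
  refine CaseP_of_quarter ?_
  refine CaseR_of_B 1 1 (3 / 20) (1 / 10) (3 / 20) (-1) (1 / 4) (by norm_num) (by norm_num)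
    (Or.inl (by norm_num)) (by norm_num) ?_
  intro z f H k s pT pB rT rB hD hf1 hf2 _ _
  obtain ⟨hz, hz1, hf, hzf, hH, hHf, hpT, hpTk, hpB, hpBs, hrT, hkrT, hrB, hsrB, hy, hy1, hmin,
    hG⟩ := hD
  exact XB_of_Lagr (Pool.Agent.E809HL.range2 (by linarith) hzf hH hHf hpT hpTk hpB hpBs hrT hkrT
    hrB hsrB hy hy1 hmin (by linarith) hf1 hf2)

theorem range3 : CaseP (3 / 20) (1 / 5) := by
  refine CaseP_of_quarter ?_
  refine CaseR_of_B 1 1 (1 / 2) (3 / 20) (1 / 5) (-1) (1 / 4) (by norm_num) (by norm_num)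
    (Or.inl (by norm_num)) (by norm_num) ?_
  intro z f H k s pT pB rT rB hD hf1 hf2 _ _
  obtain ⟨hz, hz1, hf, hzf, hH, hHf, hpT, hpTk, hpB, hpBs, hrT, hkrT, hrB, hsrB, hy, hy1, hmin,
    hG⟩ := hD
  exact XB_of_Lagr (Pool.Agent.E809HL.range3 (by linarith) hzf hH hHf hpT hpTk hpB hpBs hrT hkrT
    hrB hsrB hy hy1 hmin (by linarith) hf1 hf2)

theorem range4 : CaseP (1 / 5) (11 / 50) := by
  refine CaseP_of_quarter ?_
  refine CaseR_of_B 1 1 (13 / 20) (1 / 5) (11 / 50) (-1) (1 / 4) (by norm_num) (by norm_num)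
    (Or.inl (by norm_num)) (by norm_num) ?_
  intro z f H k s pT pB rT rB hD hf1 hf2 _ _
  obtain ⟨hz, hz1, hf, hzf, hH, hHf, hpT, hpTk, hpB, hpBs, hrT, hkrT, hrB, hsrB, hy, hy1, hmin,
    hG⟩ := hD
  exact XB_of_Lagr (Pool.Agent.E809HL.range4 (by linarith) hzf hH hHf hpT hpTk hpB hpBs hrT hkrT
    hrB hsrB hy hy1 (by linarith) hf1 hf2)

theorem range5 : CaseP (11 / 50) (6 / 25) := by
  refine CaseP_of_quarter ?_
  refine CaseR_of_B 1 1 (4 / 5) (11 / 50) (6 / 25) (-1) (1 / 4) (by norm_num) (by norm_num)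
    (Or.inl (by norm_num)) (by norm_num) ?_
  intro z f H k s pT pB rT rB hD hf1 hf2 _ _
  obtain ⟨hz, hz1, hf, hzf, hH, hHf, hpT, hpTk, hpB, hpBs, hrT, hkrT, hrB, hsrB, hy, hy1, hmin,
    hG⟩ := hD
  exact XB_of_Lagr (Pool.Agent.E809HL.range5 (by linarith) hzf hH hHf hpT hpTk hpB hpBs hrT hkrT
    hrB hsrB hy hy1 (by linarith) hf1 hf2)

theorem range_all : CaseP 0 (6 / 25) :=
  CaseP_trans range01 (CaseP_trans range2 (CaseP_trans range3 (CaseP_trans range4 range5)))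

/-- The clique property for closed walks of length seven. -/
theorem K7 : KProp 7 := K7_of range_all

end Pool.Agent.Helper77.E809.K7
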