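import Pool.Agent.Helper77.E809.Defs

set_option autoImplicit false

namespace Pool.Agent.Helper77.E809.KNine

open Pool.Agent.Helper77.E809

open Finset

open Classical in
/-- Adjacency indicator. -/
noncomputable def ad {n : ℕ} (H : SimpleGraph (Fin n)) (u v : Fin n) : ℝ :=
  if H.Adj u v then 1 else 0

lemma ad_comm {n : ℕ} (H : SimpleGraph (Fin n)) (u v : Fin n) : ad H u v = ad H v u := by
  unfold ad
  by_cases h : H.Adj u v
  · rw [if_pos h, if_pos h.symm]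
  · rw [if_neg h, if_neg (fun h' => h h'.symm)]

lemma ad_nonneg {n : ℕ} (H : SimpleGraph (Fin n)) (u v : Fin n) : 0 ≤ ad H u v := by
  unfold ad; split_ifs <;> norm_num

lemma ad_le_one {n : ℕ} (H : SimpleGraph (Fin n)) (u v : Fin n) : ad H u v ≤ 1 := by
  unfold ad; split_ifs <;> norm_num

/-- Number of ordered adjacent pairs from `S` to `T`. -/
noncomputable def E2 {n : ℕ} (H : SimpleGraph (Fin n)) (S T : Finset (Fin n)) : ℝ :=
  ∑ u ∈ S, ∑ v ∈ T, ad H u v

lemma E2_comm {n : ℕ} (H : SimpleGraph (Fin n)) (S T : Finset (Fin n)) :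
    E2 H S T = E2 H T S := by
  unfold E2
  rw [Finset.sum_comm]
  exact Finset.sum_congr rfl fun v _ => Finset.sum_congr rfl fun u _ => ad_comm H u v

lemma E2_nonneg {n : ℕ} (H : SimpleGraph (Fin n)) (S T : Finset (Fin n)) : 0 ≤ E2 H S T :=
  Finset.sum_nonneg fun _ _ => Finset.sum_nonneg fun _ _ => ad_nonneg H _ _

lemma E2_union_right {n : ℕ} (H : SimpleGraph (Fin n)) (S T T' : Finset (Fin n))
    (h : Disjoint T T') : E2 H S (T ∪ T') = E2 H S T + E2 H S T' := by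
  unfold E2
  rw [← Finset.sum_add_distrib]
  exact Finset.sum_congr rfl fun u _ => Finset.sum_union h

lemma E2_union_left {n : ℕ} (H : SimpleGraph (Fin n)) (S S' T : Finset (Fin n))
    (h : Disjoint S S') : E2 H (S ∪ S') T = E2 H S T + E2 H S' T := by
  rw [E2_comm, E2_union_right _ _ _ _ h, E2_comm H T S, E2_comm H T S']

open Classical in
lemma sum_ad_eq_degree {n : ℕ} (H : SimpleGraph (Fin n)) (u : Fin n) :
    ∑ v, ad H u v = (H.degree u : ℝ) := by
  unfold ad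
  rw [Finset.sum_boole]
  congr 1
  rw [← H.card_neighborFinset_eq_degree]
  congr 1
  ext v
  simp

open Classical in
lemma E2_univ {n : ℕ} (H : SimpleGraph (Fin n)) :
    E2 H univ univ = 2 * (H.edgeSet.ncard : ℝ) := by
  unfold E2
  have h1 : ∀ u ∈ (univ : Finset (Fin n)), ∑ v, ad H u v = (H.degree u : ℝ) :=
    fun u _ => sum_ad_eq_degree H u
  rw [Finset.sum_congr rfl h1]
  have h2 := H.sum_degrees_eq_twice_card_edges
  have h3 : H.edgeSet.ncard = H.edgeFinset.card := by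
    rw [Set.ncard_eq_toFinset_card']
    congr 1
  rw [h3]
  exact_mod_cast h2

open Classical in
/-- Number of inside pairs. -/
lemma inside_card {n : ℕ} (H : SimpleGraph (Fin n)) (A : Finset (Fin n)) :
    (({p : Fin n × Fin n | H.Adj p.1 p.2 ∧ (p.1 ∈ A ↔ p.2 ∈ A)}.ncard : ℕ) : ℝ)
      = E2 H A A + E2 H Aᶜ Aᶜ := by
  rw [Set.ncard_eq_toFinset_card']
  have : ({p : Fin n × Fin n | H.Adj p.1 p.2 ∧ (p.1 ∈ A ↔ p.2 ∈ A)}.toFinset)
      = (A ×ˢ A).filter (fun p => H.Adj p.1 p.2) ∪ (Aᶜ ×ˢ Aᶜ).filter (fun p => H.Adj p.1 p.2) := by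
    ext p
    simp only [Set.mem_toFinset, Set.mem_ofPred_eq, mem_union, mem_filter, mem_product, mem_compl]
    tauto
  rw [this, card_union_of_disjoint]
  · push_cast
    congr 1
    · unfold E2 ad
      rw [← Finset.sum_product', Finset.sum_boole]
    · unfold E2 ad
      rw [← Finset.sum_product', Finset.sum_boole]
  · rw [Finset.disjoint_left]
    intro p hp hp'
    simp only [mem_filter, mem_product, mem_compl] at hp hp'
    exact hp'.1.1 hp.1.1

lemma W_symm {V : Type} {H : SimpleGraph V} {l : ℕ} {a b : V} (h : W H l a b) : W H l b a := by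
  obtain ⟨p, hp⟩ := h
  exact ⟨p.reverse, by simp [hp]⟩

lemma W_one {V : Type} {H : SimpleGraph V} {a b : V} (h : H.Adj a b) : W H 1 a b :=
  ⟨h.toWalk, by simp⟩

lemma W_trans {V : Type} {H : SimpleGraph V} {l l' : ℕ} {a b c : V} (h : W H l a b)
    (h' : W H l' b c) : W H (l + l') a c := by
  obtain ⟨p, hp⟩ := h
  obtain ⟨q, hq⟩ := h'
  exact ⟨p.append q, by simp [hp, hq]⟩

lemma W_two {V : Type} {H : SimpleGraph V} {a b c : V} (h : H.Adj a b) (h' : H.Adj b c) :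
    W H 2 a c := W_trans (W_one h) (W_one h')

open Classical in
/-- Vertex of maximum degree. -/
lemma exists_max {n : ℕ} (hn : 0 < n) (H : SimpleGraph (Fin n)) :
    ∃ x : Fin n, ∀ u, ∑ v, ad H u v ≤ ∑ v, ad H x v := by
  obtain ⟨x, -, hx⟩ := Finset.exists_max_image (univ : Finset (Fin n)) (fun u => ∑ v, ad H u v)
    ⟨⟨0, hn⟩, mem_univ _⟩
  exact ⟨x, fun u => hx u (mem_univ _)⟩

open Classical in
lemma card_nbr {n : ℕ} (H : SimpleGraph (Fin n)) (x : Fin n) :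
    ((H.neighborFinset x).card : ℝ) = ∑ v, ad H x v := by
  rw [sum_ad_eq_degree]; simp

/-- splitting a sum of adjacencies. -/
lemma sum_split {n : ℕ} (A : Finset (Fin n)) (f : Fin n → ℝ) :
    ∑ v, f v = ∑ v ∈ A, f v + ∑ v ∈ Aᶜ, f v := by
  classical
  rw [← Finset.sum_add_sum_compl A]

open Classical in
/-- The near-bipartite alternative when the neighbourhood of a maximum degree vertex spans few
edges. -/
lemma alt_bip {n : ℕ} (H : SimpleGraph (Fin n)) (x : Fin n)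
    (hx : ∀ u, ∑ v, ad H u v ≤ ∑ v, ad H x v) (δ : ℝ)
    (he : (1 / 4 - δ) * (n : ℝ) ^ 2 ≤ (H.edgeSet.ncard : ℝ)) :
    E2 H (H.neighborFinset x)ᶜ (H.neighborFinset x)ᶜ ≤
      E2 H (H.neighborFinset x) (H.neighborFinset x) + 2 * δ * (n : ℝ) ^ 2 := by
  set A := H.neighborFinset x with hA
  have hcA : (A.card : ℝ) = ∑ v, ad H x v := card_nbr H x
  set D := ∑ v, ad H x v with hD
  have hcB : (Aᶜ.card : ℝ) = n - D := by
    rw [Finset.card_compl, Fintype.card_fin, Nat.cast_sub (by simpa using A.card_le_univ), hcA]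
  have h2e : 2 * (H.edgeSet.ncard : ℝ) = E2 H A A + 2 * E2 H A Aᶜ + E2 H Aᶜ Aᶜ := by
    rw [← E2_univ]
    have hu : (univ : Finset (Fin n)) = A ∪ Aᶜ := by simp
    have hdisj : Disjoint A Aᶜ := disjoint_compl_right
    rw [hu, E2_union_left _ _ _ _ hdisj, E2_union_right _ _ _ _ hdisj,
      E2_union_right _ _ _ _ hdisj, E2_comm H Aᶜ A]
    ring
  have hB : E2 H A Aᶜ + E2 H Aᶜ Aᶜ ≤ (n - D) * D := by
    have hdisj : Disjoint A Aᶜ := disjoint_compl_right
    have h1 : E2 H A Aᶜ + E2 H Aᶜ Aᶜ = ∑ u ∈ Aᶜ, ∑ v, ad H u v := by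
      rw [E2_comm H A Aᶜ, ← E2_union_right _ _ _ _ hdisj]
      unfold E2
      simp
    rw [h1, ← hcB]
    calc ∑ u ∈ Aᶜ, ∑ v, ad H u v ≤ ∑ u ∈ Aᶜ, D := Finset.sum_le_sum fun u _ => hx u
      _ = (Aᶜ.card : ℝ) * D := by simp
  nlinarith [sq_nonneg ((n : ℝ) - 2 * D), hB, h2e, he]


open Classical in
/-- Half the number of ordered pairs is the number of edges, for the edge set of a graph given by a
symmetric condition. -/
lemma card_sub {n : ℕ} (H' : SimpleGraph (Fin n)) [Fintype H'.edgeSet] :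
    2 * ((H'.edgeFinset.card : ℕ) : ℝ) = E2 H' univ univ := by
  rw [E2_univ]
  congr 2
  rw [Set.ncard_eq_toFinset_card']
  congr 1

open Classical in
theorem K9 : KProp 9 := by
  intro ε hε
  refine ⟨ε / 2, by positivity, ?_⟩
  intro n H he
  rcases Nat.eq_zero_or_pos n with hn | hn
  · subst hn
    left
    refine ⟨∅, ?_⟩
    have : {p : Fin 0 × Fin 0 | H.Adj p.1 p.2 ∧ (p.1 ∈ (∅ : Finset (Fin 0)) ↔ p.2 ∈ (∅ : Finset (Fin 0)))} = ∅ := by
      ext p; exact p.1.elim0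
    rw [this]; simp
  obtain ⟨x, hx⟩ := exists_max hn H
  have hn' : (0 : ℝ) < n := by exact_mod_cast hn
  by_cases htri : ∃ a b, H.Adj x a ∧ H.Adj x b ∧ H.Adj a b
  swap
  · left
    refine ⟨H.neighborFinset x, ?_⟩
    rw [inside_card]
    have h1 := alt_bip H x hx (ε / 2) he
    have h0 : E2 H (H.neighborFinset x) (H.neighborFinset x) = 0 := by
      unfold E2
      refine Finset.sum_eq_zero fun u hu => Finset.sum_eq_zero fun v hv => ?_
      unfold ad
      rw [if_neg]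
      intro hadj
      exact htri ⟨u, v, by simpa using hu, by simpa using hv, hadj⟩
    rw [h0] at h1 ⊢
    nlinarith
  right
  obtain ⟨a, b, hxa, hxb, hab⟩ := htri
  -- notation
  set A := H.neighborFinset x with hA
  have hmemA : ∀ u, u ∈ A ↔ H.Adj x u := fun u => by simp [hA]
  set D := ∑ v, ad H x v with hD
  have hcA : (A.card : ℝ) = D := card_nbr H x
  have hcB : (Aᶜ.card : ℝ) = n - D := by
    rw [Finset.card_compl, Fintype.card_fin, Nat.cast_sub (by simpa using A.card_le_univ), hcA]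
  -- walks
  have hW2 : ∀ u ∈ A, ∀ v ∈ A, W H 2 u v := by
    intro u hu v hv
    rw [hmemA] at hu hv
    exact W_two hu.symm hv
  have hW4 : ∀ u ∈ A, ∀ v ∈ A, W H 4 u v := by
    intro u hu v hv
    exact W_trans (hW2 u hu a (by rw [hmemA]; exact hxa)) (hW2 a (by rw [hmemA]; exact hxa) v hv)
  have hW5 : ∀ u ∈ A, ∀ v ∈ A, W H 5 u v := by
    intro u hu v hv
    exact W_trans (hW2 u hu a (by rw [hmemA]; exact hxa))
      (W_trans (W_one hab) (hW2 b (by rw [hmemA]; exact hxb) v hv))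
  -- the subgraph attached to z
  let K : Fin n → SimpleGraph (Fin n) := fun z =>
    { Adj := fun u v => H.Adj u v ∧ ((u ∈ A ∧ v ∈ A) ∨ (u ∈ A ∧ v ∉ A ∧ H.Adj z v) ∨
        (v ∈ A ∧ u ∉ A ∧ H.Adj z u))
      symm := ⟨fun u v h => ⟨h.1.symm, by tauto⟩⟩
      loopless := ⟨fun u h => H.loopless.irrefl u h.1⟩ }
  have hrep : ∀ z : Fin n, ∀ e ∈ (K z).edgeFinset, ∃ u v, e = s(u, v) ∧ H.Adj u v ∧ v ∈ A ∧
      (u ∈ A ∨ H.Adj z u) := by
    intro z e he
    induction e with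
    | _ u v =>
      rw [SimpleGraph.mem_edgeFinset, SimpleGraph.mem_edgeSet] at he
      obtain ⟨h1, h2 | h2 | h2⟩ := he
      · exact ⟨u, v, rfl, h1, h2.2, Or.inl h2.1⟩
      · exact ⟨v, u, Sym2.eq_swap, h1.symm, h2.1, Or.inr h2.2.2⟩
      · exact ⟨u, v, rfl, h1, h2.1, Or.inr h2.2.2⟩
  have hCW : ∀ z : Fin n, ∀ e ∈ (K z).edgeFinset, ∀ f ∈ (K z).edgeFinset, e ≠ f → CW H 9 e f := by
    intro z e he f hf _
    obtain ⟨u, v, rfl, huv, hv, hu⟩ := hrep z e he
    obtain ⟨w, t, rfl, hwt, ht, hw⟩ := hrep z f hf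
    rcases hu with hu | hu
    · exact ⟨u, v, t, w, rfl, Sym2.eq_swap, huv, hwt.symm, 2, 5, rfl, hW2 v hv t ht,
        W_trans (W_one hwt) (hW4 t ht u hu)⟩
    · rcases hw with hw | hw
      · exact ⟨u, v, t, w, rfl, Sym2.eq_swap, huv, hwt.symm, 2, 5, rfl, hW2 v hv t ht,
          W_trans (hW4 w hw v hv) (W_one huv.symm)⟩
      · exact ⟨u, v, t, w, rfl, Sym2.eq_swap, huv, hwt.symm, 5, 2, rfl, hW5 v hv t ht,
          W_two hw.symm hu⟩
  have hsub : ∀ z : Fin n, ∀ e ∈ (K z).edgeFinset, e ∈ H.edgeSet := by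
    intro z e he
    obtain ⟨u, v, rfl, huv, -, -⟩ := hrep z e he
    exact huv
  -- sizes
  have hsize : ∀ z : Fin n, 2 * (((K z).edgeFinset.card : ℕ) : ℝ) =
      E2 H A A + 2 * ∑ v ∈ Aᶜ, (∑ u ∈ A, ad H u v) * ad H v z := by
    intro z
    rw [card_sub]
    have hu : (univ : Finset (Fin n)) = A ∪ Aᶜ := by simp
    have hdisj : Disjoint A Aᶜ := disjoint_compl_right
    rw [hu, E2_union_left _ _ _ _ hdisj, E2_union_right _ _ _ _ hdisj,
      E2_union_right _ _ _ _ hdisj, E2_comm (K z) Aᶜ A]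
    have h1 : E2 (K z) A A = E2 H A A := by
      unfold E2
      refine Finset.sum_congr rfl fun u hu => Finset.sum_congr rfl fun v hv => ?_
      unfold ad
      by_cases h : H.Adj u v
      · rw [if_pos h, if_pos]; exact ⟨h, Or.inl ⟨hu, hv⟩⟩
      · rw [if_neg h, if_neg (fun h' => h h'.1)]
    have h2 : E2 (K z) Aᶜ Aᶜ = 0 := by
      unfold E2
      refine Finset.sum_eq_zero fun u hu => Finset.sum_eq_zero fun v hv => ?_
      unfold ad
      rw [if_neg]
      rintro ⟨_, h | h | h⟩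
      · exact (mem_compl.1 hu) h.1
      · exact (mem_compl.1 hu) h.1
      · exact (mem_compl.1 hv) h.1
    have h3 : E2 (K z) A Aᶜ = ∑ v ∈ Aᶜ, (∑ u ∈ A, ad H u v) * ad H v z := by
      unfold E2
      rw [Finset.sum_comm]
      refine Finset.sum_congr rfl fun v hv => ?_
      rw [Finset.sum_mul]
      refine Finset.sum_congr rfl fun u hu => ?_
      unfold ad
      by_cases h : H.Adj u v
      · by_cases h' : H.Adj v z
        · rw [if_pos h, if_pos h', if_pos]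
          · norm_num
          · exact ⟨h, Or.inr (Or.inl ⟨hu, mem_compl.1 hv, h'.symm⟩)⟩
        · rw [if_pos h, if_neg h', if_neg]
          · norm_num
          · rintro ⟨_, h1 | h1 | h1⟩
            · exact (mem_compl.1 hv) h1.2
            · exact h' h1.2.2.symm
            · exact (mem_compl.1 hv) h1.1
      · rw [if_neg h, if_neg (fun h' => h h'.1)]; ring
    rw [h1, h2, h3]; ring
  -- averaging
  set d : Fin n → ℝ := fun v => ∑ w, ad H v w with hd
  set h : Fin n → ℝ := fun v => ∑ u ∈ A, ad H u v with hh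
  have hsum : ∑ z : Fin n, 2 * (((K z).edgeFinset.card : ℕ) : ℝ) =
      n * E2 H A A + 2 * ∑ v ∈ Aᶜ, h v * d v := by
    rw [Finset.sum_congr rfl fun z _ => hsize z, Finset.sum_add_distrib, Finset.sum_const,
      ← Finset.mul_sum, Finset.sum_comm]
    simp only [card_univ, Fintype.card_fin, nsmul_eq_mul]
    congr 2
    refine Finset.sum_congr rfl fun v _ => ?_
    rw [← Finset.mul_sum]
  have hh0 : ∀ v, 0 ≤ h v := fun v => Finset.sum_nonneg fun _ _ => ad_nonneg H _ _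
  have hhd : ∀ v, h v ≤ d v := by
    intro v
    simp only [hh, hd]
    rw [Finset.sum_congr rfl fun u _ => ad_comm H u v]
    exact Finset.sum_le_sum_of_subset_of_nonneg (Finset.subset_univ _)
      (fun _ _ _ => ad_nonneg H _ _)
  have hd0 : ∀ v, d v ≤ D := fun v => hx v
  have hDn : D ≤ n := by rw [← hcA]; exact_mod_cast (by simpa using A.card_le_univ)
  have h2e : 2 * (H.edgeSet.ncard : ℝ) = E2 H A A + 2 * E2 H A Aᶜ + E2 H Aᶜ Aᶜ := by
    rw [← E2_univ]
    have hu : (univ : Finset (Fin n)) = A ∪ Aᶜ := by simp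
    have hdisj : Disjoint A Aᶜ := disjoint_compl_right
    rw [hu, E2_union_left _ _ _ _ hdisj, E2_union_right _ _ _ _ hdisj,
      E2_union_right _ _ _ _ hdisj, E2_comm H Aᶜ A]
    ring
  have hAB : E2 H A Aᶜ = ∑ v ∈ Aᶜ, h v := by
    unfold E2; rw [Finset.sum_comm]
  have hABB : E2 H A Aᶜ + E2 H Aᶜ Aᶜ = ∑ v ∈ Aᶜ, d v := by
    have hdisj : Disjoint A Aᶜ := disjoint_compl_right
    rw [E2_comm H A Aᶜ, ← E2_union_right _ _ _ _ hdisj]
    unfold E2
    simp [hd]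
  have h2eD : 2 * (H.edgeSet.ncard : ℝ) ≤ n * D := by
    rw [← E2_univ]
    unfold E2
    calc ∑ u, ∑ v, ad H u v ≤ ∑ u : Fin n, D := Finset.sum_le_sum fun u _ => hx u
      _ = n * D := by simp
  have hD2 : (1 / 2 - ε) * n ≤ D := by
    have : (1 / 2 - ε) * (n : ℝ) ^ 2 ≤ n * D := by linarith
    have h3 : (n : ℝ) * ((1 / 2 - ε) * n) ≤ n * D := by nlinarith
    exact le_of_mul_le_mul_left h3 hn'
  have hterm : ∀ v, d v * n + h v * (n - 2 * d v) ≤ n * D + ε * (n : ℝ) ^ 2 := by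
    intro v
    have h1 := hd0 v
    have h2 := hhd v
    have h3 := hh0 v
    rcases le_total (2 * d v) n with h4 | h4
    · have h5 : h v * (n - 2 * d v) ≤ d v * (n - 2 * d v) :=
        mul_le_mul_of_nonneg_right h2 (by linarith)
      nlinarith [sq_nonneg ((n : ℝ) - 2 * d v), mul_le_mul_of_nonneg_left hD2 hn'.le]
    · have h5 : h v * (n - 2 * d v) ≤ 0 := mul_nonpos_of_nonneg_of_nonpos h3 (by linarith)
      have h6 : d v * n ≤ D * n := mul_le_mul_of_nonneg_right h1 hn'.le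
      nlinarith [sq_nonneg (n : ℝ)]
  have hsum2 : ∑ v ∈ Aᶜ, (d v * n + h v * (n - 2 * d v)) ≤ (n - D) * (n * D + ε * (n : ℝ) ^ 2) := by
    calc ∑ v ∈ Aᶜ, (d v * n + h v * (n - 2 * d v)) ≤ ∑ v ∈ Aᶜ, (n * D + ε * (n : ℝ) ^ 2) :=
          Finset.sum_le_sum fun v _ => hterm v
      _ = (n - D) * (n * D + ε * (n : ℝ) ^ 2) := by rw [Finset.sum_const, nsmul_eq_mul, hcB]
  have hsum3 : ∑ v ∈ Aᶜ, (d v * n + h v * (n - 2 * d v)) =
      n * (∑ v ∈ Aᶜ, d v) + n * (∑ v ∈ Aᶜ, h v) - 2 * ∑ v ∈ Aᶜ, h v * d v := by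
    rw [Finset.mul_sum, Finset.mul_sum, Finset.mul_sum, ← Finset.sum_add_distrib,
      ← Finset.sum_sub_distrib]
    exact Finset.sum_congr rfl fun v _ => by ring
  have hD0 : 0 ≤ D := Finset.sum_nonneg fun _ _ => ad_nonneg H _ _
  have htot : (1 / 4 - 2 * ε) * (n : ℝ) ^ 3 ≤ ∑ z : Fin n, 2 * (((K z).edgeFinset.card : ℕ) : ℝ) := by
    rw [hsum]
    have h1 : n * E2 H A A + 2 * ∑ v ∈ Aᶜ, h v * d v =
        n * (2 * (H.edgeSet.ncard : ℝ)) - ∑ v ∈ Aᶜ, (d v * n + h v * (n - 2 * d v)) := by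
      rw [hsum3, ← hABB, ← hAB, h2e]; ring
    rw [h1]
    have h2 : (n - D) * (n * D) ≤ (n : ℝ) ^ 3 / 4 := by
      nlinarith [mul_nonneg hn'.le (sq_nonneg ((n : ℝ) - 2 * D))]
    have h3 : (n - D) * (ε * (n : ℝ) ^ 2) ≤ ε * (n : ℝ) ^ 3 := by
      nlinarith [mul_nonneg hD0 (mul_nonneg hε.le (sq_nonneg (n : ℝ)))]
    have h4 : (n : ℝ) * ((1 / 2 - ε) * (n : ℝ) ^ 2) ≤ n * (2 * (H.edgeSet.ncard : ℝ)) :=
      mul_le_mul_of_nonneg_left (by linarith) hn'.le
    nlinarith [hsum2]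
  obtain ⟨z, -, hz⟩ : ∃ z ∈ (univ : Finset (Fin n)), (1 / 4 - 2 * ε) * (n : ℝ) ^ 2 ≤
      2 * (((K z).edgeFinset.card : ℕ) : ℝ) := by
    apply Finset.exists_le_of_sum_le ⟨⟨0, hn⟩, mem_univ _⟩
    rw [Finset.sum_const, nsmul_eq_mul, card_univ, Fintype.card_fin]
    calc (n : ℝ) * ((1 / 4 - 2 * ε) * (n : ℝ) ^ 2) = (1 / 4 - 2 * ε) * (n : ℝ) ^ 3 := by ring
      _ ≤ _ := htot
  exact ⟨(K z).edgeFinset, hsub z, hCW z, by linarith⟩

end Pool.Agent.Helper77.E809.KNine
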