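import Pool.Agent.Helper77.E809.Base

set_option autoImplicit false

namespace Pool.Agent.Helper77.E809.MinDeg

open Finset Pool.Agent.Helper77.E809


/-- The clique property for graphs of minimum degree at least `n / 4`, in loss form. -/
def KMin (m : ℕ) : Prop :=
  ∀ ε : ℝ, 0 < ε → ∃ δ : ℝ, 0 < δ ∧ ∀ (n : ℕ) (H : SimpleGraph (Fin n)), 0 < n →
    (∀ v, (n : ℝ) / 4 ≤ ∑ w, ad H v w) →
    (1 / 4 - δ) * (n : ℝ) ^ 2 ≤ (H.edgeSet.ncard : ℝ) →
    (∃ A : Finset (Fin n),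
      (({p : Fin n × Fin n | H.Adj p.1 p.2 ∧ (p.1 ∈ A ↔ p.2 ∈ A)}.ncard : ℕ) : ℝ)
        ≤ ε * (n : ℝ) ^ 2) ∨
    (∃ Q : Finset (Sym2 (Fin n)), (∀ e ∈ Q, e ∈ H.edgeSet) ∧
      (∀ e ∈ Q, ∀ f ∈ Q, e ≠ f → CW H m e f) ∧
      (H.edgeSet.ncard : ℝ) - (1 / 8 + ε) * (n : ℝ) ^ 2 ≤ (Q.card : ℝ))

lemma km_E2_le {n : ℕ} (H : SimpleGraph (Fin n)) (S T : Finset (Fin n)) :
    E2 H S T ≤ (S.card : ℝ) * T.card := by
  unfold E2
  calc ∑ u ∈ S, ∑ v ∈ T, ad H u v ≤ ∑ _u ∈ S, ∑ _v ∈ T, (1 : ℝ) :=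
        Finset.sum_le_sum fun u _ => Finset.sum_le_sum fun v _ => ad_le_one H u v
    _ = (S.card : ℝ) * T.card := by simp

lemma km_ad_self {n : ℕ} (H : SimpleGraph (Fin n)) (u : Fin n) : ad H u u = 0 := by
  unfold ad
  rw [if_neg (H.irrefl)]

lemma km_E2_erase {n : ℕ} (H : SimpleGraph (Fin n)) (S : Finset (Fin n)) {v : Fin n}
    (hv : v ∈ S) : E2 H S S = E2 H (S.erase v) (S.erase v) + 2 * ∑ w ∈ S, ad H v w := by
  have h1 : S = (S.erase v) ∪ {v} := by
    ext x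
    simp only [mem_union, mem_erase, mem_singleton]
    constructor
    · intro hx
      by_cases h : x = v
      · exact Or.inr h
      · exact Or.inl ⟨h, hx⟩
    · rintro (⟨_, hx⟩ | rfl)
      · exact hx
      · exact hv
  have hd : Disjoint (S.erase v) {v} := by
    rw [Finset.disjoint_singleton_right]
    simp
  have h2 : E2 H S S = E2 H (S.erase v ∪ {v}) (S.erase v ∪ {v}) := by rw [← h1]
  rw [h2, E2_union_left _ _ _ _ hd, E2_union_right _ _ _ _ hd, E2_union_right _ _ _ _ hd]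
  have h3 : E2 H {v} {v} = 0 := by
    unfold E2
    simp [km_ad_self]
  have h4 : E2 H {v} (S.erase v) = ∑ w ∈ S, ad H v w := by
    unfold E2
    rw [Finset.sum_singleton, ← Finset.add_sum_erase S _ hv, km_ad_self, zero_add]
  rw [h3, E2_comm H (S.erase v) {v}, h4]
  ring

open Classical in
lemma km_deg_nat {n : ℕ} (H : SimpleGraph (Fin n)) (S : Finset (Fin n)) (v : Fin n) :
    ∑ w ∈ S, ad H v w = (((S.filter (fun w => H.Adj v w)).card : ℕ) : ℝ) := by
  unfold ad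
  rw [Finset.sum_boole]

lemma km_ad_comap {n k : ℕ} (H : SimpleGraph (Fin n)) (φ : Fin k ↪ Fin n) (a b : Fin k) :
    ad (H.comap φ) a b = ad H (φ a) (φ b) := by
  unfold ad
  by_cases h : H.Adj (φ a) (φ b)
  · rw [if_pos h, if_pos (show (H.comap φ).Adj a b from h)]
  · rw [if_neg h, if_neg (show ¬ (H.comap φ).Adj a b from h)]

lemma km_E2_comap {n k : ℕ} (H : SimpleGraph (Fin n)) (φ : Fin k ↪ Fin n) (A B : Finset (Fin k)) :
    E2 (H.comap φ) A B = E2 H (A.map φ) (B.map φ) := by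
  unfold E2
  rw [Finset.sum_map]
  refine Finset.sum_congr rfl fun a _ => ?_
  rw [Finset.sum_map]
  exact Finset.sum_congr rfl fun b _ => km_ad_comap H φ a b

lemma km_W_comap {n k : ℕ} {H : SimpleGraph (Fin n)} {φ : Fin k ↪ Fin n} {l : ℕ} {a b : Fin k}
    (h : W (H.comap φ) l a b) : W H l (φ a) (φ b) := by
  obtain ⟨p, hp⟩ := h
  refine ⟨p.map (⟨φ, fun h => h⟩ : H.comap φ →g H), ?_⟩
  rw [SimpleGraph.Walk.length_map]
  exact hp

lemma km_CW_comap {n k m : ℕ} {H : SimpleGraph (Fin n)} {φ : Fin k ↪ Fin n} {e f : Sym2 (Fin k)}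
    (h : CW (H.comap φ) m e f) : CW H m (Sym2.map φ e) (Sym2.map φ f) := by
  obtain ⟨u, v, z, w, rfl, rfl, h1, h2, l, l', h3, h4, h5⟩ := h
  exact ⟨φ u, φ v, φ z, φ w, by rw [Sym2.map_mk], by rw [Sym2.map_mk], h1, h2, l, l', h3,
    km_W_comap h4, km_W_comap h5⟩

lemma km_edge_comap {n k : ℕ} {H : SimpleGraph (Fin n)} {φ : Fin k ↪ Fin n} {e : Sym2 (Fin k)}
    (h : e ∈ (H.comap φ).edgeSet) : Sym2.map φ e ∈ H.edgeSet := by
  induction e with
  | h a b => exact h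

/-- TARGET: reduction to large minimum degree. -/
theorem KProp_of_KMin (m : ℕ) (h : KMin m) : KProp m := by
  classical
  intro ε hε
  obtain ⟨δ1, hδ1, hK⟩ := h (ε / 20) (by positivity)
  refine ⟨min δ1 (min (ε / 100) (1 / 100)), by positivity, ?_⟩
  set δ := min δ1 (min (ε / 100) (1 / 100)) with hδ
  have hd1 : δ ≤ δ1 := min_le_left _ _
  have hd2 : δ ≤ ε / 100 := (min_le_right _ _).trans (min_le_left _ _)
  have hd3 : δ ≤ 1 / 100 := (min_le_right _ _).trans (min_le_right _ _)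
  intro n H hH
  rcases Nat.eq_zero_or_pos n with hn | hn
  · left
    refine ⟨∅, ?_⟩
    subst hn
    have : {p : Fin 0 × Fin 0 | H.Adj p.1 p.2 ∧ (p.1 ∈ (∅ : Finset (Fin 0)) ↔ p.2 ∈ (∅ : Finset (Fin 0)))} = ∅ := by
      ext p; exact p.1.elim0
    rw [this]
    simp
  have hnR : (0 : ℝ) < n := by exact_mod_cast hn
  obtain ⟨S, -, hSmax⟩ := Finset.exists_max_image (univ : Finset (Finset (Fin n)))
    (fun S => 4 * E2 H S S - (S.card : ℝ) ^ 2) ⟨∅, mem_univ _⟩
  have hgu := hSmax univ (mem_univ _)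
  rw [E2_univ] at hgu
  have hcu : ((univ : Finset (Fin n)).card : ℝ) = n := by simp
  rw [hcu] at hgu
  have hg : (1 - 8 * δ) * (n : ℝ) ^ 2 ≤ 4 * E2 H S S - (S.card : ℝ) ^ 2 := by
    nlinarith
  set k := S.card with hk
  have hkn : k ≤ n := by
    have := Finset.card_le_univ S
    simpa using this
  have hknR : (k : ℝ) ≤ n := by exact_mod_cast hkn
  have hk2 : (k : ℝ) ^ 2 ≤ (n : ℝ) ^ 2 := pow_le_pow_left₀ (Nat.cast_nonneg _) hknR 2
  have hn2 : 0 < (n : ℝ) ^ 2 := by positivity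
  have hpos : 0 < 4 * E2 H S S - (k : ℝ) ^ 2 := by nlinarith
  have hkpos : 0 < k := by
    rw [hk, Finset.card_pos]
    by_contra hcon
    rw [Finset.not_nonempty_iff_eq_empty] at hcon
    rw [hk, hcon] at hpos
    simp [E2] at hpos
  -- degrees
  have hdeg : ∀ v ∈ S, (k : ℝ) / 4 ≤ ∑ w ∈ S, ad H v w := by
    intro v hv
    have h1 := hSmax (S.erase v) (mem_univ _)
    rw [km_E2_erase H S hv] at h1
    have h2 : ((S.erase v).card : ℝ) = (k : ℝ) - 1 := by
      rw [Finset.card_erase_of_mem hv, ← hk, Nat.cast_sub hkpos]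
      simp
    rw [h2] at h1
    rw [km_deg_nat] at h1 ⊢
    set D := (S.filter (fun w => H.Adj v w)).card with hD
    have h3 : 2 * (k : ℝ) - 1 ≤ 8 * (D : ℝ) := by nlinarith
    have h4 : 2 * k ≤ 8 * D + 1 := by
      have : (2 * (k : ℝ)) ≤ 8 * (D : ℝ) + 1 := by linarith
      exact_mod_cast this
    have h5 : k ≤ 4 * D := by omega
    have h6 : (k : ℝ) ≤ 4 * (D : ℝ) := by exact_mod_cast h5
    linarith
  -- transport
  set φ : Fin k ↪ Fin n := (S.orderEmbOfFin hk.symm).toEmbedding with hφ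
  have hmap : (univ : Finset (Fin k)).map φ = S := by
    rw [hφ]
    exact Finset.map_orderEmbOfFin_univ S hk.symm
  have hφS : ∀ a, φ a ∈ S := by
    intro a
    rw [← hmap]
    exact Finset.mem_map_of_mem φ (mem_univ a)
  have hE2 : E2 (H.comap φ) univ univ = E2 H S S := by
    rw [km_E2_comap, hmap]
  have heH : 2 * ((H.comap φ).edgeSet.ncard : ℝ) = E2 H S S := by
    rw [← E2_univ, hE2]
  have hrow : ∀ a, ∑ b, ad (H.comap φ) a b = ∑ w ∈ S, ad H (φ a) w := by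
    intro a
    rw [← hmap, Finset.sum_map]
    exact Finset.sum_congr rfl fun b _ => km_ad_comap H φ a b
  have hres := hK k (H.comap φ) hkpos (fun v => by
      rw [hrow]
      exact hdeg _ (hφS v)) (by
      have h1 : (1 - 8 * δ) * (k : ℝ) ^ 2 ≤ (1 - 8 * δ) * (n : ℝ) ^ 2 :=
        mul_le_mul_of_nonneg_left hk2 (by linarith)
      have h2 : δ * (k : ℝ) ^ 2 ≤ δ1 * (k : ℝ) ^ 2 :=
        mul_le_mul_of_nonneg_right hd1 (by positivity)
      nlinarith)
  rcases hres with ⟨A', hA'⟩ | ⟨Q', hQ1, hQ2, hQ3⟩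
  · left
    refine ⟨A'.map φ, ?_⟩
    rw [inside_card] at hA' ⊢
    have hsplit : E2 (H.comap φ) univ univ = E2 (H.comap φ) A' A' + E2 (H.comap φ) A'ᶜ A'ᶜ +
        2 * E2 (H.comap φ) A' A'ᶜ := by
      have hu : (univ : Finset (Fin k)) = A' ∪ A'ᶜ := (Finset.union_compl A').symm
      have hd : Disjoint A' A'ᶜ := disjoint_compl_right
      rw [hu, E2_union_left _ _ _ _ hd, E2_union_right _ _ _ _ hd, E2_union_right _ _ _ _ hd,
        E2_comm _ A'ᶜ A']
      ring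
    have hcross : E2 (H.comap φ) A' A'ᶜ ≤ (k : ℝ) ^ 2 / 4 := by
      have h1 := km_E2_le (H.comap φ) A' A'ᶜ
      have h2 : (A'.card : ℝ) + (A'ᶜ.card : ℝ) = k := by
        have := Finset.card_add_card_compl A'
        rw [Fintype.card_fin] at this
        exact_mod_cast this
      nlinarith [sq_nonneg ((A'.card : ℝ) - (A'ᶜ.card : ℝ))]
    have h3 : (n : ℝ) ^ 2 - (k : ℝ) ^ 2 ≤ (8 * δ + 4 * (ε / 20)) * (n : ℝ) ^ 2 := by
      have h4 : ε / 20 * (k : ℝ) ^ 2 ≤ ε / 20 * (n : ℝ) ^ 2 :=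
        mul_le_mul_of_nonneg_left hk2 (by positivity)
      rw [hE2] at hsplit
      nlinarith
    -- the complement
    have hcompl : (A'.map φ)ᶜ = (A'ᶜ.map φ) ∪ Sᶜ := by
      ext x
      simp only [mem_compl, mem_union, mem_map]
      constructor
      · intro hx
        by_cases hxS : x ∈ S
        · left
          rw [← hmap, mem_map] at hxS
          obtain ⟨a, _, rfl⟩ := hxS
          exact ⟨a, fun ha => hx ⟨a, ha, rfl⟩, rfl⟩
        · exact Or.inr hxS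
      · rintro (⟨a, ha, rfl⟩ | hx)
        · rintro ⟨b, hb, hab⟩
          exact ha (φ.injective hab ▸ hb)
        · rintro ⟨b, hb, rfl⟩
          exact hx (hφS b)
    have hdisj : Disjoint (A'ᶜ.map φ) Sᶜ := by
      rw [Finset.disjoint_left]
      intro x hx hx'
      rw [mem_map] at hx
      obtain ⟨a, _, rfl⟩ := hx
      rw [mem_compl] at hx'
      exact hx' (hφS a)
    have h5 : E2 H (A'.map φ)ᶜ (A'.map φ)ᶜ = E2 (H.comap φ) A'ᶜ A'ᶜ +
        2 * E2 H (A'ᶜ.map φ) Sᶜ + E2 H Sᶜ Sᶜ := by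
      rw [hcompl, E2_union_left _ _ _ _ hdisj, E2_union_right _ _ _ _ hdisj,
        E2_union_right _ _ _ _ hdisj, E2_comm _ Sᶜ (A'ᶜ.map φ), km_E2_comap]
      ring
    have h6 : (Sᶜ.card : ℝ) = n - k := by
      have := Finset.card_add_card_compl S
      rw [Fintype.card_fin] at this
      have h7 : (S.card : ℝ) + (Sᶜ.card : ℝ) = n := by exact_mod_cast this
      rw [← hk] at h7
      linarith
    have h8 : ((A'ᶜ.map φ).card : ℝ) ≤ k := by
      rw [Finset.card_map]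
      have := Finset.card_le_univ A'ᶜ
      rw [Fintype.card_fin] at this
      exact_mod_cast this
    have h9 := km_E2_le H (A'ᶜ.map φ) Sᶜ
    have h10 := km_E2_le H Sᶜ Sᶜ
    rw [h6] at h9 h10
    have h11 : ((A'ᶜ.map φ).card : ℝ) * (n - k) ≤ k * (n - k) :=
      mul_le_mul_of_nonneg_right h8 (by linarith)
    rw [h5, ← km_E2_comap]
    have h12 : ε / 20 * (k : ℝ) ^ 2 ≤ ε / 20 * (n : ℝ) ^ 2 :=
      mul_le_mul_of_nonneg_left hk2 (by positivity)
    have h13 : δ * (n : ℝ) ^ 2 ≤ ε / 100 * (n : ℝ) ^ 2 :=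
      mul_le_mul_of_nonneg_right hd2 (by positivity)
    nlinarith
  · right
    refine ⟨Q'.image (Sym2.map φ), ?_, ?_, ?_⟩
    · intro e he
      rw [mem_image] at he
      obtain ⟨e', he', rfl⟩ := he
      exact km_edge_comap (hQ1 e' he')
    · intro e he f hf hef
      rw [mem_image] at he hf
      obtain ⟨e', he', rfl⟩ := he
      obtain ⟨f', hf', rfl⟩ := hf
      exact km_CW_comap (hQ2 e' he' f' hf' (fun h => hef (by rw [h])))
    · rw [Finset.card_image_of_injective _ (Sym2.map.injective φ.injective)]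
      refine le_trans ?_ hQ3
      have h12 : ε / 20 * (k : ℝ) ^ 2 ≤ ε / 20 * (n : ℝ) ^ 2 :=
        mul_le_mul_of_nonneg_left hk2 (by positivity)
      have h13 : δ * (n : ℝ) ^ 2 ≤ ε / 100 * (n : ℝ) ^ 2 :=
        mul_le_mul_of_nonneg_right hd2 (by positivity)
      nlinarith

end Pool.Agent.Helper77.E809.MinDeg
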