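import Pool.Agent.Helper77.E809.CaseAB

set_option autoImplicit false

namespace Pool.Agent.Helper77.E809.Robust

open Pool.Agent.Helper77.E809 Pool.Agent.Helper77.E809.CaseAB

open Filter Topology

/-- the data of a vector -/
def DatW (w : Fin 10 → ℝ) : Prop :=
  Dat (w 9) (w 0) (w 1) (w 2) (w 3) (w 4) (w 5) (w 6) (w 7) (w 8)

theorem dat_limit (w : ℕ → Fin 10 → ℝ) (a : Fin 10 → ℝ) (hw : Tendsto w atTop (𝓝 a))
    (ha9 : a 9 = 0) (hD : ∀ m, DatW (w m)) :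
    Dat 0 (a 0) (a 1) (a 2) (a 3) (a 4) (a 5) (a 6) (a 7) (a 8) := by
  have key : ∀ F G : (Fin 10 → ℝ) → ℝ, Continuous F → Continuous G →
      (∀ᶠ m in atTop, F (w m) ≤ G (w m)) → F a ≤ G a := by
    intro F G hF hG h
    exact le_of_tendsto_of_tendsto ((hF.tendsto a).comp hw) ((hG.tendsto a).comp hw) h
  have key' : ∀ F G : (Fin 10 → ℝ) → ℝ, Continuous F → Continuous G →
      (∀ m, F (w m) ≤ G (w m)) → F a ≤ G a := fun F G hF hG h =>
    key F G hF hG (Eventually.of_forall h)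
  refine
    { hz := ?_, hz1 := ?_, hf := ?_, hzf := ?_, hH := ?_, hHf := ?_, hpT := ?_, hpTk := ?_,
      hpB := ?_, hpBs := ?_, hrT := ?_, hkrT := ?_, hrB := ?_, hsrB := ?_, hy := ?_, hy1 := ?_,
      hmin := ?_, hG := ?_ }
  · have := key' (fun w => - w 9) (fun w => w 0) (by fun_prop) (by fun_prop) (fun m => (hD m).hz)
    rw [ha9] at this; exact this
  · exact key' (fun w => w 0) (fun _ => 1 / 2) (by fun_prop) (by fun_prop) (fun m => (hD m).hz1)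
  · exact key' (fun _ => 0) (fun w => w 1) (by fun_prop) (by fun_prop) (fun m => (hD m).hf)
  · intro h
    refine key (fun w => w 0) (fun _ => 1 / 4) (by fun_prop) (by fun_prop) ?_
    have h1 : Tendsto (fun m => w m 1) atTop (𝓝 (a 1)) := (tendsto_pi_nhds.mp hw) 1
    filter_upwards [h1.eventually_const_lt h] with m hm
    exact (hD m).hzf hm
  · exact key' (fun _ => 0) (fun w => w 2) (by fun_prop) (by fun_prop) (fun m => (hD m).hH)
  · exact key' (fun w => w 2) (fun w => w 1) (by fun_prop) (by fun_prop) (fun m => (hD m).hHf)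
  · exact key' (fun _ => 0) (fun w => w 5) (by fun_prop) (by fun_prop) (fun m => (hD m).hpT)
  · exact key' (fun w => w 5) (fun w => w 3) (by fun_prop) (by fun_prop) (fun m => (hD m).hpTk)
  · exact key' (fun _ => 0) (fun w => w 6) (by fun_prop) (by fun_prop) (fun m => (hD m).hpB)
  · exact key' (fun w => w 6) (fun w => w 4) (by fun_prop) (by fun_prop) (fun m => (hD m).hpBs)
  · exact key' (fun _ => 0) (fun w => w 7) (by fun_prop) (by fun_prop) (fun m => (hD m).hrT)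
  · exact key' (fun w => w 3 + w 7) (fun w => 1 / 2 + w 0 - w 1) (by fun_prop) (by fun_prop)
      (fun m => (hD m).hkrT)
  · exact key' (fun _ => 0) (fun w => w 8) (by fun_prop) (by fun_prop) (fun m => (hD m).hrB)
  · exact key' (fun w => w 4 + w 8) (fun w => 1 / 2 - w 0) (by fun_prop) (by fun_prop)
      (fun m => (hD m).hsrB)
  · exact key' (fun _ => 0) (fun w => 1 / 2 + w 0 - w 2 - w 3 - w 4) (by fun_prop) (by fun_prop)
      (fun m => (hD m).hy)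
  · exact key' (fun w => 1 / 2 + w 0 - w 2 - w 3 - w 4) (fun w => 1 / 4 + w 0) (by fun_prop)
      (by fun_prop) (fun m => (hD m).hy1)
  · intro h
    refine key (fun w => w 6 + w 8) (fun w => 1 / 4 - w 0) (by fun_prop) (by fun_prop) ?_
    have h1 : Tendsto (fun m => w m 2) atTop (𝓝 (a 2)) := (tendsto_pi_nhds.mp hw) 2
    filter_upwards [h1.eventually_const_lt h] with m hm
    exact (hD m).hmin hm
  · have := key' (fun w => w 2 * (w 6 + w 8) +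
      w 5 * max 0 (2 * w 0 - (1 / 2 + w 0 - w 2 - w 3 - w 4) + (w 1 - w 2) + (w 7 + w 8)) +
      w 7 * max 0 (2 * w 0 - (1 / 2 + w 0 - w 2 - w 3 - w 4) + (w 1 - w 2)) +
      w 6 * max 0 (2 * w 0 - (1 / 2 + w 0 - w 2 - w 3 - w 4) + (w 7 + w 8)) +
      w 8 * max 0 (2 * w 0 - (1 / 2 + w 0 - w 2 - w 3 - w 4)))
      (fun w => w 0 * (1 - 2 * w 1) + w 9) (by fun_prop) (by fun_prop) (fun m => (hD m).hG)
    rw [ha9] at this; exact this

/-- extraction of a convergent sequence -/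
theorem extract (Q : (Fin 10 → ℝ) → Prop)
    (h : ∀ m : ℕ, ∃ w : Fin 10 → ℝ, w 9 = 1 / ((m : ℝ) + 1) ∧ DatW w ∧ w 1 ≤ 1 ∧ Q w) :
    ∃ (w : ℕ → Fin 10 → ℝ) (a : Fin 10 → ℝ), Tendsto w atTop (𝓝 a) ∧ a 9 = 0 ∧
      (∀ m, DatW (w m)) ∧ ∀ m, Q (w m) := by
  choose w hw9 hwD hw1 hwQ using h
  have hcpt : IsCompact (Set.Icc (fun _ => (-2 : ℝ) : Fin 10 → ℝ) (fun _ => (2 : ℝ))) :=
    isCompact_Icc
  have hmem : ∀ m, w m ∈ Set.Icc (fun _ => (-2 : ℝ) : Fin 10 → ℝ) (fun _ => (2 : ℝ)) := by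
    intro m
    have h9 : w m 9 ≤ 1 := by
      rw [hw9, div_le_one (by positivity)]
      have : (0:ℝ) ≤ m := Nat.cast_nonneg m
      linarith
    have h9' : 0 ≤ w m 9 := by rw [hw9]; positivity
    have D := hwD m
    have f1 := hw1 m
    obtain ⟨d1, d2, d3, d4, d5, d6, d7, d8, d9, d10, d11, d12, d13, d14, d15, d16, d17, d18⟩ := D
    constructor
    · intro i
      show (-2 : ℝ) ≤ w m i
      fin_cases i
      · show (-2 : ℝ) ≤ w m 0; linarith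
      · show (-2 : ℝ) ≤ w m 1; linarith
      · show (-2 : ℝ) ≤ w m 2; linarith
      · show (-2 : ℝ) ≤ w m 3; linarith
      · show (-2 : ℝ) ≤ w m 4; linarith
      · show (-2 : ℝ) ≤ w m 5; linarith
      · show (-2 : ℝ) ≤ w m 6; linarith
      · show (-2 : ℝ) ≤ w m 7; linarith
      · show (-2 : ℝ) ≤ w m 8; linarith
      · show (-2 : ℝ) ≤ w m 9; linarith
    · intro i
      show w m i ≤ (2 : ℝ)
      fin_cases i
      · show w m 0 ≤ (2 : ℝ); linarith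
      · show w m 1 ≤ (2 : ℝ); linarith
      · show w m 2 ≤ (2 : ℝ); linarith
      · show w m 3 ≤ (2 : ℝ); linarith
      · show w m 4 ≤ (2 : ℝ); linarith
      · show w m 5 ≤ (2 : ℝ); linarith
      · show w m 6 ≤ (2 : ℝ); linarith
      · show w m 7 ≤ (2 : ℝ); linarith
      · show w m 8 ≤ (2 : ℝ); linarith
      · show w m 9 ≤ (2 : ℝ); linarith
  obtain ⟨a, _, φ, hφ, hlim⟩ := hcpt.tendsto_subseq hmem
  refine ⟨w ∘ φ, a, hlim, ?_, fun m => hwD _, fun m => hwQ _⟩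
  have h1 : Tendsto (fun m => (w ∘ φ) m 9) atTop (𝓝 (a 9)) := (tendsto_pi_nhds.mp hlim) 9
  have h2 : Tendsto (fun m => (w ∘ φ) m 9) atTop (𝓝 0) := by
    have h3 : Tendsto (fun m : ℕ => 1 / ((m : ℝ) + 1)) atTop (𝓝 0) :=
      tendsto_one_div_add_atTop_nhds_zero_nat
    refine (h3.comp hφ.tendsto_atTop).congr (fun m => ?_)
    exact (hw9 (φ m)).symm
  exact tendsto_nhds_unique h1 h2

theorem usc2 (H τ r : ℕ → ℝ) (H₀ τ₀ r₀ : ℝ) (hH : Tendsto H atTop (𝓝 H₀))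
    (hτ : Tendsto τ atTop (𝓝 τ₀)) (hr : Tendsto r atTop (𝓝 r₀)) (hH0 : ∀ m, 0 ≤ H m)
    (hτ0 : ∀ m, 0 ≤ τ m) (hr0 : ∀ m, 0 ≤ r m) (ε : ℝ) (hε : 0 < ε) :
    ∀ᶠ m in atTop, 2 * H m * (1 - τ m / (τ m + r m)) ≤ 2 * H₀ * (1 - τ₀ / (τ₀ + r₀)) + ε := by
  by_cases h : τ₀ + r₀ = 0
  · rw [h, div_zero, sub_zero, mul_one]
    have h1 : Tendsto (fun m => 2 * H m) atTop (𝓝 (2 * H₀)) := hH.const_mul 2
    filter_upwards [h1.eventually_lt_const (show 2 * H₀ < 2 * H₀ + ε by linarith)] with m hm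
    have h2 : 0 ≤ τ m / (τ m + r m) := div_nonneg (hτ0 m) (add_nonneg (hτ0 m) (hr0 m))
    have h3 : 2 * H m * (1 - τ m / (τ m + r m)) ≤ 2 * H m * 1 := by
      apply mul_le_mul_of_nonneg_left (by linarith)
      have := hH0 m
      linarith
    linarith
  · have h1 : Tendsto (fun m => 2 * H m * (1 - τ m / (τ m + r m))) atTop
        (𝓝 (2 * H₀ * (1 - τ₀ / (τ₀ + r₀)))) :=
      (hH.const_mul 2).mul ((hτ.div (hτ.add hr) h).const_sub 1)
    filter_upwards [h1.eventually_lt_const (show 2 * H₀ * (1 - τ₀ / (τ₀ + r₀)) <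
      2 * H₀ * (1 - τ₀ / (τ₀ + r₀)) + ε by linarith)] with m hm
    exact hm.le

theorem usc1 (H τ r : ℕ → ℝ) (H₀ τ₀ r₀ : ℝ) (hH : Tendsto H atTop (𝓝 H₀))
    (hτ : Tendsto τ atTop (𝓝 τ₀)) (hr : Tendsto r atTop (𝓝 r₀)) (hH0 : ∀ m, 0 ≤ H m)
    (hτ0 : ∀ m, 0 ≤ τ m) (hr0 : ∀ m, 0 ≤ r m) (ε : ℝ) (hε : 0 < ε) :
    ∀ᶠ m in atTop, H m - 2 * H m * (τ m / (τ m + r m)) ≤ H₀ - 2 * H₀ * (τ₀ / (τ₀ + r₀)) + ε := by
  have h1 := usc2 H τ r H₀ τ₀ r₀ hH hτ hr hH0 hτ0 hr0 (ε / 2) (by positivity)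
  filter_upwards [h1, hH.eventually_const_lt (show H₀ - ε / 2 < H₀ by linarith)] with m h2 h3
  linarith

/-- compactness, robust version of A from the exact one. -/
theorem robustA (f2 z1 z2 : ℝ) (hf2 : f2 ≤ 1)
    (h0 : ∀ z f H k s pT pB rT rB : ℝ, Dat 0 z f H k s pT pB rT rB → f ≤ f2 →
      z1 ≤ z → z ≤ z2 → XA 0 z f H k s pT pB rT rB)
    (ε : ℝ) (hε : 0 < ε) : ∃ δ : ℝ, 0 < δ ∧ ∀ z f H k s pT pB rT rB : ℝ,
    Dat δ z f H k s pT pB rT rB → f ≤ f2 → z1 ≤ z → z ≤ z2 →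
      XA ε z f H k s pT pB rT rB := by
  unfold XA at *
  by_contra hcon
  push Not at hcon
  obtain ⟨w, a, hw, ha9, hD, hQ⟩ := extract (fun w => (w 1 ≤ f2 ∧ z1 ≤ w 0 ∧ w 0 ≤ z2) ∧
      ε < (w 3 - 2 * w 3 * ((w 3 + w 4) / ((w 3 + w 4) + (w 7 + w 8)))) +
      (w 2 - 2 * w 2 * ((w 3 + w 4 - w 5 - w 6) / ((w 3 + w 4 - w 5 - w 6) + (w 7 + w 8)))) -
      (1 / 2 + w 0 - w 2 - w 3 - w 4)) (fun m => by
    obtain ⟨z, f, H, k, s, pT, pB, rT, rB, h1, h2, h5, h6, h3⟩ :=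
      hcon (1 / ((m : ℝ) + 1)) (by positivity)
    exact ⟨![z, f, H, k, s, pT, pB, rT, rB, 1 / ((m : ℝ) + 1)], rfl, h1,
      (show f ≤ 1 by linarith), ⟨h2, h5, h6⟩, h3⟩)
  have hlim : ∀ i, Tendsto (fun m => w m i) atTop (𝓝 (a i)) := tendsto_pi_nhds.mp hw
  have hD0 := dat_limit w a hw ha9 hD
  have ha1 : a 1 ≤ f2 := le_of_tendsto' (hlim 1) (fun m => (hQ m).1.1)
  have ha2 : z1 ≤ a 0 := ge_of_tendsto' (hlim 0) (fun m => (hQ m).1.2.1)
  have ha3 : a 0 ≤ z2 := le_of_tendsto' (hlim 0) (fun m => (hQ m).1.2.2)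
  have hfin := h0 _ _ _ _ _ _ _ _ _ hD0 ha1 ha2 ha3
  have u1 := usc1 (fun m => w m 3) (fun m => w m 3 + w m 4) (fun m => w m 7 + w m 8) (a 3)
    (a 3 + a 4) (a 7 + a 8) (hlim 3) ((hlim 3).add (hlim 4)) ((hlim 7).add (hlim 8))
    (fun m => by have := (hD m).hpT; have := (hD m).hpTk; linarith)
    (fun m => by
      have := (hD m).hpT; have := (hD m).hpTk; have := (hD m).hpB; have := (hD m).hpBs
      linarith)
    (fun m => by have := (hD m).hrT; have := (hD m).hrB; linarith) (ε / 4) (by positivity)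
  have u2 := usc1 (fun m => w m 2) (fun m => w m 3 + w m 4 - w m 5 - w m 6)
    (fun m => w m 7 + w m 8) (a 2)
    (a 3 + a 4 - a 5 - a 6) (a 7 + a 8) (hlim 2)
    ((((hlim 3).add (hlim 4)).sub (hlim 5)).sub (hlim 6)) ((hlim 7).add (hlim 8))
    (fun m => (hD m).hH)
    (fun m => by
      have := (hD m).hpT; have := (hD m).hpTk; have := (hD m).hpB; have := (hD m).hpBs
      linarith)
    (fun m => by have := (hD m).hrT; have := (hD m).hrB; linarith) (ε / 4) (by positivity)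
  have u3 : Tendsto (fun m => 1 / 2 + w m 0 - w m 2 - w m 3 - w m 4) atTop
      (𝓝 (1 / 2 + a 0 - a 2 - a 3 - a 4)) :=
    ((((hlim 0).const_add (1 / 2)).sub (hlim 2)).sub (hlim 3)).sub (hlim 4)
  have u4 := u3.eventually_const_lt (show 1 / 2 + a 0 - a 2 - a 3 - a 4 - ε / 4 <
    1 / 2 + a 0 - a 2 - a 3 - a 4 by linarith)
  obtain ⟨m, h1, h2, h3⟩ := (u1.and (u2.and u4)).exists
  have h4 := (hQ m).2
  linarith

/-- compactness, robust version of B from the exact one. -/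
theorem robustB (A c μ f1 f2 z1 z2 : ℝ) (hA : 0 ≤ A) (hc : 0 ≤ c)
    (hf1 : 0 < f1 ∨ z2 < 1 / 2) (hf2 : f2 ≤ 1)
    (h0 : ∀ z f H k s pT pB rT rB : ℝ, Dat 0 z f H k s pT pB rT rB → f1 ≤ f → f ≤ f2 →
      z1 ≤ z → z ≤ z2 → XB A c μ 0 z f H k s pT pB rT rB)
    (ε : ℝ) (hε : 0 < ε) : ∃ δ : ℝ, 0 < δ ∧ ∀ z f H k s pT pB rT rB : ℝ,
    Dat δ z f H k s pT pB rT rB → f1 ≤ f → f ≤ f2 → z1 ≤ z → z ≤ z2 →
      XB A c μ ε z f H k s pT pB rT rB := by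
  unfold XB at *
  by_contra hcon
  push Not at hcon
  obtain ⟨w, a, hw, ha9, hD, hQ⟩ := extract (fun w => (f1 ≤ w 1 ∧ w 1 ≤ f2 ∧ z1 ≤ w 0 ∧
      w 0 ≤ z2) ∧
      1 / 2 + w 0 + 2 * μ * (1 / 2 + w 0 - w 2 - w 3 - w 4) - (1 - μ) * w 4
        - (μ * ((1 / 2 + w 0 - w 1) ^ 2 - (2 * w 3 * (w 5 + w 7) - w 5 ^ 2) - 2 * w 0 ^ 2) -
          w 0 ^ 2) / (1 / 2 - w 0) + ε <
      2 * w 3 * (1 - (A * w 3 + c * w 4) / ((A * w 3 + c * w 4) + (A * w 7 + c * w 8))) +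
      2 * w 2 * (1 - (A * (w 3 - w 5) + c * (w 4 - w 6)) /
        ((A * (w 3 - w 5) + c * (w 4 - w 6)) + (A * w 7 + c * w 8)))) (fun m => by
    obtain ⟨z, f, H, k, s, pT, pB, rT, rB, h1, h2, h3, h5, h6, h4⟩ :=
      hcon (1 / ((m : ℝ) + 1)) (by positivity)
    exact ⟨![z, f, H, k, s, pT, pB, rT, rB, 1 / ((m : ℝ) + 1)], rfl, h1,
      (show f ≤ 1 by linarith), ⟨h2, h3, h5, h6⟩, h4⟩)
  have hlim : ∀ i, Tendsto (fun m => w m i) atTop (𝓝 (a i)) := tendsto_pi_nhds.mp hw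
  have hD0 := dat_limit w a hw ha9 hD
  have ha1 : a 1 ≤ f2 := le_of_tendsto' (hlim 1) (fun m => (hQ m).1.2.1)
  have ha2 : z1 ≤ a 0 := ge_of_tendsto' (hlim 0) (fun m => (hQ m).1.2.2.1)
  have ha3 : a 0 ≤ z2 := le_of_tendsto' (hlim 0) (fun m => (hQ m).1.2.2.2)
  have ha1' : f1 ≤ a 1 := ge_of_tendsto' (hlim 1) (fun m => (hQ m).1.1)
  have hz4 : a 0 < 1 / 2 := by
    rcases hf1 with hf1 | hf1
    · have := hD0.hzf (by linarith)
      linarith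
    · linarith
  have hfin := h0 _ _ _ _ _ _ _ _ _ hD0 ha1' ha1 ha2 ha3
  have pos1 : ∀ m, 0 ≤ A * w m 3 + c * w m 4 := fun m => by
    have h1 := (hD m).hpT; have h2 := (hD m).hpTk; have h3 := (hD m).hpB
    have h4 := (hD m).hpBs
    exact add_nonneg (mul_nonneg hA (by linarith)) (mul_nonneg hc (by linarith))
  have pos2 : ∀ m, 0 ≤ A * w m 7 + c * w m 8 := fun m =>
    add_nonneg (mul_nonneg hA (hD m).hrT) (mul_nonneg hc (hD m).hrB)
  have pos3 : ∀ m, 0 ≤ A * (w m 3 - w m 5) + c * (w m 4 - w m 6) := fun m => by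
    have h1 := (hD m).hpT; have h2 := (hD m).hpTk; have h3 := (hD m).hpB
    have h4 := (hD m).hpBs
    exact add_nonneg (mul_nonneg hA (by linarith)) (mul_nonneg hc (by linarith))
  have u1 := usc2 (fun m => w m 3) (fun m => A * w m 3 + c * w m 4)
    (fun m => A * w m 7 + c * w m 8)
    (a 3) (A * a 3 + c * a 4) (A * a 7 + c * a 8) (hlim 3)
    (((hlim 3).const_mul A).add ((hlim 4).const_mul c))
    (((hlim 7).const_mul A).add ((hlim 8).const_mul c))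
    (fun m => by have := (hD m).hpT; have := (hD m).hpTk; linarith)
    pos1 pos2 (ε / 4) (by positivity)
  have u2 := usc2 (fun m => w m 2) (fun m => A * (w m 3 - w m 5) + c * (w m 4 - w m 6))
    (fun m => A * w m 7 + c * w m 8) (a 2)
    (A * (a 3 - a 5) + c * (a 4 - a 6)) (A * a 7 + c * a 8) (hlim 2)
    ((((hlim 3).sub (hlim 5)).const_mul A).add (((hlim 4).sub (hlim 6)).const_mul c))
    (((hlim 7).const_mul A).add ((hlim 8).const_mul c))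
    (fun m => (hD m).hH)
    pos3 pos2 (ε / 4) (by positivity)
  have hnum : Continuous (fun w : Fin 10 → ℝ =>
      μ * ((1 / 2 + w 0 - w 1) ^ 2 - (2 * w 3 * (w 5 + w 7) - w 5 ^ 2) - 2 * w 0 ^ 2) -
          w 0 ^ 2) := by fun_prop
  have hden : Continuous (fun w : Fin 10 → ℝ => 1 / 2 - w 0) := by fun_prop
  have hlin : Continuous (fun w : Fin 10 → ℝ =>
      1 / 2 + w 0 + 2 * μ * (1 / 2 + w 0 - w 2 - w 3 - w 4) - (1 - μ) * w 4) := by fun_prop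
  have u3 := (((hlin.tendsto a).comp hw).sub (((hnum.tendsto a).comp hw).div
    ((hden.tendsto a).comp hw) (show (1 / 2 - a 0) ≠ 0 by linarith)))
  have u4 := u3.eventually_const_lt (sub_lt_self _ (show (0:ℝ) < ε / 4 by positivity))
  obtain ⟨m, h1, h2, h3⟩ := (u1.and (u2.and u4)).exists
  have h4 := (hQ m).2
  have h5 : 1 / 2 + w m 0 + 2 * μ * (1 / 2 + w m 0 - w m 2 - w m 3 - w m 4) - (1 - μ) * w m 4
        - (μ * ((1 / 2 + w m 0 - w m 1) ^ 2 - (2 * w m 3 * (w m 5 + w m 7) - w m 5 ^ 2) -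
          2 * w m 0 ^ 2) - w m 0 ^ 2) / (1 / 2 - w m 0) >
      1 / 2 + a 0 + 2 * μ * (1 / 2 + a 0 - a 2 - a 3 - a 4) - (1 - μ) * a 4
        - (μ * ((1 / 2 + a 0 - a 1) ^ 2 - (2 * a 3 * (a 5 + a 7) - a 5 ^ 2) - 2 * a 0 ^ 2) -
          a 0 ^ 2) / (1 / 2 - a 0) - ε / 4 := h3
  linarith

end Pool.Agent.Helper77.E809.Robust
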