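import Pool.Agent.Helper77.E809.CaseAB
import Pool.Agent.Helper77.E809.CaseC
import Pool.Agent.Helper77.E809.Robust
import Pool.Agent.Helper77.E809.MinDeg

set_option autoImplicit false

namespace Pool.Agent.Helper77.E809.KSeven

open Finset Pool.Agent.Helper77.E809 Pool.Agent.Helper77.E809.Budgets
  Pool.Agent.Helper77.E809.CaseAB Pool.Agent.Helper77.E809.CaseC
  Pool.Agent.Helper77.E809.Robust Pool.Agent.Helper77.E809.MinDeg

/-- The clique statement for graphs with a prescribed range of the size of `F` and of the maximum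
degree. -/
def CaseR (f1 f2 z1 z2 : ℝ) : Prop :=
  ∀ ε : ℝ, 0 < ε → ∃ δ : ℝ, 0 < δ ∧ ∀ (n : ℕ) (H : SimpleGraph (Fin n))
    (x : Fin n), 0 < n → (∀ u, ∑ v, ad H u v ≤ ∑ v, ad H x v) →
    (∀ v, (n : ℝ) / 4 ≤ ∑ w, ad H v w) →
    (1 / 4 - δ) * (n : ℝ) ^ 2 ≤ (H.edgeSet.ncard : ℝ) →
    f1 * n ≤ ((FF H x).card : ℝ) → ((FF H x).card : ℝ) ≤ f2 * n →
    z1 * n ≤ ((NN H x).card : ℝ) - n / 2 → ((NN H x).card : ℝ) - n / 2 ≤ z2 * n →
    ∃ Q : Finset (Sym2 (Fin n)), (∀ e ∈ Q, e ∈ H.edgeSet) ∧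
      (∀ e ∈ Q, ∀ f ∈ Q, e ≠ f → CW H 7 e f) ∧
      (H.edgeSet.ncard : ℝ) - (1 / 8 + ε) * (n : ℝ) ^ 2 ≤ (Q.card : ℝ)

/-- The clique statement for graphs with a prescribed range of the size of `F`. -/
def CaseP (f1 f2 : ℝ) : Prop :=
  ∀ ε : ℝ, 0 < ε → ∃ δ : ℝ, 0 < δ ∧ ∀ (n : ℕ) (H : SimpleGraph (Fin n))
    (x : Fin n), 0 < n → (∀ u, ∑ v, ad H u v ≤ ∑ v, ad H x v) →
    (∀ v, (n : ℝ) / 4 ≤ ∑ w, ad H v w) →
    (1 / 4 - δ) * (n : ℝ) ^ 2 ≤ (H.edgeSet.ncard : ℝ) →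
    f1 * n ≤ ((FF H x).card : ℝ) → ((FF H x).card : ℝ) ≤ f2 * n →
    ∃ Q : Finset (Sym2 (Fin n)), (∀ e ∈ Q, e ∈ H.edgeSet) ∧
      (∀ e ∈ Q, ∀ f ∈ Q, e ≠ f → CW H 7 e f) ∧
      (H.edgeSet.ncard : ℝ) - (1 / 8 + ε) * (n : ℝ) ^ 2 ≤ (Q.card : ℝ)

theorem CaseP_trans {f1 f2 f3 : ℝ} (h1 : CaseP f1 f2) (h2 : CaseP f2 f3) : CaseP f1 f3 := by
  intro ε hε
  obtain ⟨δ1, hδ1, h1⟩ := h1 ε hε
  obtain ⟨δ2, hδ2, h2⟩ := h2 ε hε
  refine ⟨min δ1 δ2, lt_min hδ1 hδ2, ?_⟩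
  intro n H x hn hmax hmin he hf1 hf3
  have hn2 : (0 : ℝ) ≤ (n : ℝ) ^ 2 := by positivity
  have m1 := min_le_left δ1 δ2
  have m2 := min_le_right δ1 δ2
  by_cases hc : ((FF H x).card : ℝ) ≤ f2 * n
  · exact h1 n H x hn hmax hmin (le_trans (by nlinarith) he) hf1 hc
  · exact h2 n H x hn hmax hmin (le_trans (by nlinarith) he) (not_le.mp hc).le hf3

theorem CaseR_trans {f1 f2 z1 z2 z3 : ℝ} (h1 : CaseR f1 f2 z1 z2) (h2 : CaseR f1 f2 z2 z3) :
    CaseR f1 f2 z1 z3 := by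
  intro ε hε
  obtain ⟨δ1, hδ1, h1⟩ := h1 ε hε
  obtain ⟨δ2, hδ2, h2⟩ := h2 ε hε
  refine ⟨min δ1 δ2, lt_min hδ1 hδ2, ?_⟩
  intro n H x hn hmax hmin he hf1 hf3 hz1 hz3
  have hn2 : (0 : ℝ) ≤ (n : ℝ) ^ 2 := by positivity
  have m1 := min_le_left δ1 δ2
  have m2 := min_le_right δ1 δ2
  by_cases hc : ((NN H x).card : ℝ) - n / 2 ≤ z2 * n
  · exact h1 n H x hn hmax hmin (le_trans (by nlinarith) he) hf1 hf3 hz1 hc
  · exact h2 n H x hn hmax hmin (le_trans (by nlinarith) he) hf1 hf3 (not_le.mp hc).le hz3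

/-- the range of the maximum degree is automatic -/
theorem CaseP_of_CaseR {f1 f2 : ℝ} (h : CaseR f1 f2 (-1) 1) : CaseP f1 f2 := by
  intro ε hε
  obtain ⟨δ1, hδ1, h1⟩ := h ε hε
  refine ⟨δ1, hδ1, ?_⟩
  intro n H x hn hmax hmin he hf1 hf2
  have hn0 : (0 : ℝ) ≤ (n : ℝ) := Nat.cast_nonneg n
  have hc : ((NN H x).card : ℝ) ≤ n := by
    have := Finset.card_le_univ (NN H x)
    rw [Fintype.card_fin] at this
    exact_mod_cast this
  have hc0 : (0 : ℝ) ≤ ((NN H x).card : ℝ) := Nat.cast_nonneg _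
  exact h1 n H x hn hmax hmin he hf1 hf2 (by linarith) (by linarith)

/-- the small case from the exact inequality -/
theorem CaseR_of_A (f1 f2 z1 z2 : ℝ) (hf2 : f2 ≤ 1)
    (h0 : ∀ z f H k s pT pB rT rB : ℝ, Dat 0 z f H k s pT pB rT rB → f ≤ f2 →
      z1 ≤ z → z ≤ z2 → XA 0 z f H k s pT pB rT rB) : CaseR f1 f2 z1 z2 := by
  intro ε hε
  obtain ⟨δ, hδ, h⟩ := caseA f2 z1 z2 (robustA f2 z1 z2 hf2 h0) ε hε
  exact ⟨δ, hδ, fun n H x hn hmax hmin he _ hF hz1 hz2 => h n H x hn hmax hmin he hF hz1 hz2⟩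

/-- the middle case from the exact inequality -/
theorem CaseR_of_B (a c : ℕ) (μ f1 f2 z1 z2 : ℝ) (hμ : 0 ≤ μ) (hμ1 : μ ≤ 1)
    (hf1 : 0 < f1 ∨ z2 < 1 / 2) (hf2 : f2 ≤ 1)
    (h0 : ∀ z f H k s pT pB rT rB : ℝ, Dat 0 z f H k s pT pB rT rB → f1 ≤ f → f ≤ f2 →
      z1 ≤ z → z ≤ z2 → XB a c μ 0 z f H k s pT pB rT rB) : CaseR f1 f2 z1 z2 := by
  intro ε hε
  exact caseB a c μ f1 f2 z1 z2 hμ hμ1 hf1
    (robustB a c μ f1 f2 z1 z2 (Nat.cast_nonneg a) (Nat.cast_nonneg c) hf1 hf2 h0) ε hε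

/-- The polynomial inequality which implies `XB` with equal weights. -/
def JJ (μ z f H k s pT pB rT rB : ℝ) : Prop :=
  (1 / 2 - z) * (2 * k * (rT + rB) + 2 * H * (rT + rB + pT + pB)) ≤
    (k + s + rT + rB) * ((1 / 2 - z) * ((1 - μ) * (k + H)) + μ * (k * (pT + 2 * rT)) +
      μ * (f * (1 - f) - z * (1 - 2 * f)) + z ^ 2 +
      (1 / 2 - z) * ((1 + μ) * (1 / 2 + z - H - k - s)))

theorem XB_of_JJ (μ z f H k s pT pB rT rB : ℝ) (hμ : 0 ≤ μ) (hz : z < 1 / 2)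
    (hD : Dat 0 z f H k s pT pB rT rB) (hf : f < 1 / 4) (h : JJ μ z f H k s pT pB rT rB) :
    XB (1 : ℕ) (1 : ℕ) μ 0 z f H k s pT pB rT rB := by
  unfold JJ at h
  unfold XB
  obtain ⟨-, -, hf0, -, hH, hHf, hpT, hpTk, hpB, hpBs, hrT, -, hrB, -, hy, hy1, -, -⟩ := hD
  have hD0 : 0 < k + s := by linarith
  have hβ : 0 < 1 / 2 - z := by linarith
  have hk : 0 ≤ k := by linarith
  have hr : 0 ≤ rT + rB := by linarith
  have hDr : 0 < k + s + (rT + rB) := by linarith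
  push_cast
  simp only [one_mul]
  -- first term
  have t1 : 2 * k * (1 - (k + s) / (k + s + (rT + rB))) =
      2 * k * (rT + rB) / (k + s + (rT + rB)) := by
    field_simp
    ring
  have t2 : 1 - (k - pT + (s - pB)) / (k - pT + (s - pB) + (rT + rB)) ≤
      (rT + rB + pT + pB) / (k + s + (rT + rB)) := by
    by_cases h0 : k - pT + (s - pB) + (rT + rB) = 0
    · have e1 : rT + rB = 0 := by linarith
      have e2 : k - pT + (s - pB) = 0 := by linarith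
      rw [h0, div_zero, sub_zero, le_div_iff₀ hDr]
      linarith
    · have hpos : 0 < k - pT + (s - pB) + (rT + rB) := lt_of_le_of_ne (by linarith) (Ne.symm h0)
      rw [one_sub_div h0, div_le_div_iff₀ hpos hDr]
      nlinarith [mul_nonneg (show 0 ≤ pT + pB by linarith)
        (show 0 ≤ k - pT + (s - pB) by linarith)]
  have t3 : 2 * H * (1 - (k - pT + (s - pB)) / (k - pT + (s - pB) + (rT + rB))) ≤
      2 * H * (rT + rB + pT + pB) / (k + s + (rT + rB)) := by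
    rw [mul_div_assoc]
    exact mul_le_mul_of_nonneg_left t2 (by linarith)
  rw [t1]
  have t4 : 2 * k * (rT + rB) / (k + s + (rT + rB)) +
      2 * H * (rT + rB + pT + pB) / (k + s + (rT + rB)) ≤
      ((1 / 2 - z) * ((1 - μ) * (k + H)) + μ * (k * (pT + 2 * rT)) +
      μ * (f * (1 - f) - z * (1 - 2 * f)) + z ^ 2 +
      (1 / 2 - z) * ((1 + μ) * (1 / 2 + z - H - k - s))) / (1 / 2 - z) := by
    rw [← add_div, div_le_div_iff₀ hDr hβ]
    linarith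
  have t5 : ((1 / 2 - z) * ((1 - μ) * (k + H)) + μ * (k * (pT + 2 * rT)) +
      μ * (f * (1 - f) - z * (1 - 2 * f)) + z ^ 2 +
      (1 / 2 - z) * ((1 + μ) * (1 / 2 + z - H - k - s))) / (1 / 2 - z) ≤
      1 / 2 + z + 2 * μ * (1 / 2 + z - H - k - s) - (1 - μ) * s
        - (μ * ((1 / 2 + z - f) ^ 2 - (2 * k * (pT + rT) - pT ^ 2) - 2 * z ^ 2) - z ^ 2) /
          (1 / 2 - z) + 0 := by
    have e1 : 1 / 2 + z + 2 * μ * (1 / 2 + z - H - k - s) - (1 - μ) * s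
        - (μ * ((1 / 2 + z - f) ^ 2 - (2 * k * (pT + rT) - pT ^ 2) - 2 * z ^ 2) - z ^ 2) /
          (1 / 2 - z) + 0 =
        ((1 / 2 - z) * (1 / 2 + z + 2 * μ * (1 / 2 + z - H - k - s) - (1 - μ) * s)
        - (μ * ((1 / 2 + z - f) ^ 2 - (2 * k * (pT + rT) - pT ^ 2) - 2 * z ^ 2) - z ^ 2)) /
          (1 / 2 - z) := by
      rw [eq_div_iff hβ.ne']
      have h7 := div_mul_cancel₀ (μ * ((1 / 2 + z - f) ^ 2 - (2 * k * (pT + rT) - pT ^ 2) -
        2 * z ^ 2) - z ^ 2) hβ.ne'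
      linear_combination (-1) * h7
    rw [e1]
    refine div_le_div_of_nonneg_right ?_ hβ.le
    have e2 : 0 ≤ μ * (pT * (k - pT)) := mul_nonneg hμ (mul_nonneg hpT (by linarith))
    nlinarith
  linarith

/-- the middle case from the exact polynomial inequality -/
theorem CaseR_of_JJ (μ f1 f2 z1 z2 : ℝ) (hμ : 0 ≤ μ) (hμ1 : μ ≤ 1)
    (hf1 : 0 < f1 ∨ z2 < 1 / 2) (hf2 : f2 < 1 / 4)
    (h0 : ∀ z f H k s pT pB rT rB : ℝ, Dat 0 z f H k s pT pB rT rB → f1 ≤ f → f ≤ f2 →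
      z1 ≤ z → z ≤ z2 → JJ μ z f H k s pT pB rT rB) : CaseR f1 f2 z1 z2 := by
  refine CaseR_of_B 1 1 μ f1 f2 z1 z2 hμ hμ1 hf1 (by linarith) ?_
  intro z f H k s pT pB rT rB hD h1 h2 h3 h4
  refine XB_of_JJ μ z f H k s pT pB rT rB hμ ?_ hD (by linarith) (h0 _ _ _ _ _ _ _ _ _ hD h1 h2 h3 h4)
  rcases hf1 with hf1 | hf1
  · have := hD.hzf (by linarith)
    linarith
  · linarith

/-- if the set `F` is empty the estimate is direct -/
theorem CaseR_zero (f1 z1 z2 : ℝ) : CaseR f1 0 z1 z2 := by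
  refine CaseR_of_A f1 0 z1 z2 (by norm_num) ?_
  intro z f H k s pT pB rT rB hD hf2 h1 _
  obtain ⟨hz0, -, hf0, hzf, hH, hHf, hpT, hpTk, hpB, hpBs, hrT, hkrT, hrB, hsrB, hy, hy1, -, -⟩ := hD
  have hf : f = 0 := le_antisymm hf2 hf0
  have hH0 : H = 0 := by linarith
  unfold XA
  subst hf
  subst hH0
  have hP : 0 < k + s := by linarith
  have hPr : 0 < k + s + (rT + rB) := by linarith
  have hk : 0 ≤ k := by linarith
  have e1 : k - 2 * k * ((k + s) / (k + s + (rT + rB))) =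
      k * ((rT + rB) - (k + s)) / (k + s + (rT + rB)) := by
    field_simp
    ring
  rw [e1]
  have e2 : k * ((rT + rB) - (k + s)) / (k + s + (rT + rB)) ≤ 1 / 2 + z - k - s := by
    rw [div_le_iff₀ hPr]
    by_cases hc : rT + rB ≤ k + s
    · have h3 : k * ((rT + rB) - (k + s)) ≤ 0 := mul_nonpos_of_nonneg_of_nonpos hk (by linarith)
      have h4 : 0 ≤ (1 / 2 + z - k - s) * (k + s + (rT + rB)) :=
        mul_nonneg (by linarith) hPr.le
      linarith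
    · push Not at hc
      have h5 : k + s + (rT + rB) ≤ 1 := by linarith
      have h3 : k * ((rT + rB) - (k + s)) ≤ (k + s) * ((rT + rB) - (k + s)) :=
        mul_le_mul_of_nonneg_right (by linarith) (by linarith)
      have h6 : 0 ≤ (k + s + (rT + rB)) * (1 - (k + s + (rT + rB))) :=
        mul_nonneg hPr.le (by linarith)
      have h7 : 0 ≤ z * (k + s + (rT + rB)) := mul_nonneg (by linarith) hPr.le
      nlinarith [sq_nonneg (k + s - (rT + rB))]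
  linarith

/-- the range of the maximum degree is automatic -/
theorem CaseP_of_quarter {f1 f2 : ℝ} (h : CaseR f1 f2 (-1) (1 / 4)) :
    CaseP f1 f2 := by
  intro ε hε
  obtain ⟨δ1, hδ1, h1⟩ := h ε hε
  obtain ⟨δ2, hδ2, h2⟩ := CaseR_zero 0 (-1) 1 ε hε
  refine ⟨min δ1 δ2, lt_min hδ1 hδ2, ?_⟩
  intro n H x hn hmax hmin he hf1' hf2'
  have hn0 : (0 : ℝ) < (n : ℝ) := by exact_mod_cast hn
  have hn2 : (0 : ℝ) ≤ (n : ℝ) ^ 2 := by positivity
  have m1 := min_le_left δ1 δ2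
  have m2 := min_le_right δ1 δ2
  have hc : ((NN H x).card : ℝ) ≤ n := by
    have := Finset.card_le_univ (NN H x)
    rw [Fintype.card_fin] at this
    exact_mod_cast this
  have hc0 : (0 : ℝ) ≤ ((NN H x).card : ℝ) := Nat.cast_nonneg _
  by_cases hz : ((NN H x).card : ℝ) - n / 2 ≤ 1 / 4 * n
  · exact h1 n H x hn hmax hmin (le_trans (by nlinarith) he) hf1' hf2' (by linarith) hz
  · push Not at hz
    have hx : x ∉ NN H x := by
      unfold NN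
      simp
    have hd := DatOf.dat_of hn H x _ hmax hmin he x hx
    have hF : ((FF H x).card : ℝ) ≤ 0 := by
      by_contra hcon
      push Not at hcon
      have h3 := hd.hzf (by positivity)
      rw [sub_le_iff_le_add, div_le_iff₀ hn0] at h3
      linarith
    exact h2 n H x hn hmax hmin (le_trans (by nlinarith) he)
      (by rw [zero_mul]; exact Nat.cast_nonneg _) (by rw [zero_mul]; exact hF)
      (by linarith) (by linarith)

lemma alt_bip {n : ℕ} (H : SimpleGraph (Fin n)) (x : Fin n)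
    (hx : ∀ u, ∑ v, ad H u v ≤ ∑ v, ad H x v) (δ : ℝ)
    (he : (1 / 4 - δ) * (n : ℝ) ^ 2 ≤ (H.edgeSet.ncard : ℝ)) :
    E2 H (NN H x)ᶜ (NN H x)ᶜ ≤
      E2 H (NN H x) (NN H x) + 2 * δ * (n : ℝ) ^ 2 := by
  have hcA : ((NN H x).card : ℝ) = ∑ v, ad H x v := (identities H x).1
  set A := NN H x with hA
  set D := ∑ v, ad H x v with hD
  have hcB : (Aᶜ.card : ℝ) = n - D := by
    rw [Finset.card_compl, Fintype.card_fin, Nat.cast_sub (by simpa using A.card_le_univ), hcA]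
  have h2e : 2 * (H.edgeSet.ncard : ℝ) = E2 H A A + 2 * E2 H A Aᶜ + E2 H Aᶜ Aᶜ := by
    rw [← E2_univ]
    have hu : (univ : Finset (Fin n)) = A ∪ Aᶜ := by simp
    have hdisj : Disjoint A Aᶜ := disjoint_compl_right
    rw [hu, E2_union_left _ _ _ _ hdisj, E2_union_right _ _ _ _ hdisj,
      E2_union_right _ _ _ _ hdisj, E2_comm H Aᶜ A]
    ring
  have hB : E2 H A Aᶜ + E2 H Aᶜ Aᶜ ≤ (n - D) * D := by
    have hdisj : Disjoint A Aᶜ := disjoint_compl_right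
    have h1 : E2 H A Aᶜ + E2 H Aᶜ Aᶜ = ∑ u ∈ Aᶜ, ∑ v, ad H u v := by
      rw [E2_comm H A Aᶜ, ← E2_union_right _ _ _ _ hdisj]
      unfold E2
      simp
    rw [h1, ← hcB]
    calc ∑ u ∈ Aᶜ, ∑ v, ad H u v ≤ ∑ u ∈ Aᶜ, D := Finset.sum_le_sum fun u _ => hx u
      _ = (Aᶜ.card : ℝ) * D := by simp
  nlinarith [sq_nonneg ((n : ℝ) - 2 * D)]

/-- The clique property for closed walks of length seven, from the range `f ≤ 6 / 25`. -/
theorem KMin_seven (h : CaseP 0 (6 / 25)) : KMin 7 := by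
  intro ε hε
  set η : ℝ := ε / 4 with hη
  have hη0 : 0 < η := by positivity
  obtain ⟨δ1, hδ1, h1⟩ := h ε hε
  obtain ⟨δ2, hδ2, h2⟩ := caseC η hη0
  refine ⟨min (min δ1 δ2) (ε / 4), lt_min (lt_min hδ1 hδ2) (by positivity), ?_⟩
  intro n H hn hmin he
  have hn2 : (0 : ℝ) ≤ (n : ℝ) ^ 2 := by positivity
  have m1 : min (min δ1 δ2) (ε / 4) ≤ δ1 := (min_le_left _ _).trans (min_le_left _ _)
  have m2 : min (min δ1 δ2) (ε / 4) ≤ δ2 := (min_le_left _ _).trans (min_le_right _ _)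
  have m3 : min (min δ1 δ2) (ε / 4) ≤ ε / 4 := min_le_right _ _
  obtain ⟨x, hx⟩ := exists_max hn H
  by_cases hc : E2 H (TT H x) (TT H x) < η * (n : ℝ) ^ 2
  · left
    refine ⟨NN H x, ?_⟩
    rw [inside_card]
    have h3 := alt_bip H x hx (ε / 4) (le_trans (by nlinarith) he)
    have h4 : E2 H (NN H x) (NN H x) = E2 H (TT H x) (TT H x) := (identities H x).2.2.2.1
    rw [h4] at h3 ⊢
    nlinarith
  · right
    push Not at hc
    by_cases hf : ((FF H x).card : ℝ) ≤ (6 / 25 : ℝ) * n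
    · exact h1 n H x hn hx hmin (le_trans (by nlinarith) he)
        (by rw [zero_mul]; exact Nat.cast_nonneg _) hf
    · obtain ⟨Q, hQ1, hQ2, hQ3⟩ := h2 n H x hn hx (le_trans (by nlinarith) he)
        (not_le.mp hf).le hc
      refine ⟨Q, hQ1, hQ2, le_trans ?_ hQ3⟩
      nlinarith

theorem K7_of (h : CaseP 0 (6 / 25)) : KProp 7 := KProp_of_KMin 7 (KMin_seven h)

end Pool.Agent.Helper77.E809.KSeven
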